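import Pool.Agent.H27.G.R_pool_sql_team_seeded_63374d34.N879.QM.Stm

/-!
Project QM (helper879), part MVG: mean value theorem for well spaced frequencies (helper227).
-/

set_option autoImplicit false

namespace Pool.Agent.N879.QM

open Complex Filter Topology MeasureTheory Set
open scoped BigOperators ComplexConjugate

/-- The sum `∑ 1 / (1 + (c n)²)`. -/
theorem mvg_sum (c : ℝ) (hc : 0 < c) (M : ℕ) :
    ∑ n ∈ Finset.range (M + 1), 1 / (1 + (c * n) ^ 2) ≤ 1 + 2 / c * (1 - 1 / (1 + c * M)) := by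
  induction M with
  | zero => simp
  | succ M ih =>
    rw [Finset.sum_range_succ]
    have hM : (0 : ℝ) ≤ c * M := by positivity
    have key : 1 / (1 + (c * ((M + 1 : ℕ) : ℝ)) ^ 2) ≤
        2 / c * (1 / (1 + c * M) - 1 / (1 + c * ((M + 1 : ℕ) : ℝ))) := by
      have e : 2 / c * (1 / (1 + c * M) - 1 / (1 + c * ((M + 1 : ℕ) : ℝ))) =
          2 / ((1 + c * M) * (1 + c * ((M + 1 : ℕ) : ℝ))) := by
        have h1 : 1 + c * (M : ℝ) ≠ 0 := by positivity
        have h2 : 1 + c * ((M + 1 : ℕ) : ℝ) ≠ 0 := by positivity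
        field_simp
        push_cast
        ring
      rw [e, div_le_div_iff₀ (by positivity) (by positivity)]
      push_cast
      have h1 : c * (M : ℝ) ≤ c * ((M : ℝ) + 1) := by nlinarith
      have h2 : (1 + c * (M : ℝ)) * (1 + c * ((M : ℝ) + 1)) ≤ (1 + c * ((M : ℝ) + 1)) ^ 2 := by
        rw [pow_two]
        apply mul_le_mul_of_nonneg_right (by linarith)
        positivity
      nlinarith [sq_nonneg (1 - c * ((M : ℝ) + 1))]
    calc _ ≤ 1 + 2 / c * (1 - 1 / (1 + c * M)) +
          2 / c * (1 / (1 + c * M) - 1 / (1 + c * ((M + 1 : ℕ) : ℝ))) := add_le_add ih key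
      _ = _ := by ring

/-- The kernel sum over spaced points. -/
theorem mvg_kernel {m : ℕ} (l : Fin m → ℝ) (A δ : ℝ) (hA : 0 < A) (hδ : 0 < δ)
    (hs : ∀ i j, i ≠ j → δ ≤ |l i - l j|) (i : Fin m) :
    ∑ j, 2 * A / (1 + A ^ 2 * (l i - l j) ^ 2) ≤ 4 * A + 8 / δ := by
  classical
  set c : ℝ := A * δ with hc
  have hc0 : 0 < c := mul_pos hA hδ
  set φ : Fin m → Bool × ℕ := fun j => (decide (l i ≤ l j), ⌊|l i - l j| / δ⌋₊) with hφ
  have hinj : Function.Injective φ := by
    intro j k hjk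
    by_contra hne
    have h1 : decide (l i ≤ l j) = decide (l i ≤ l k) := congrArg Prod.fst hjk
    have h2 : ⌊|l i - l j| / δ⌋₊ = ⌊|l i - l k| / δ⌋₊ := congrArg Prod.snd hjk
    have h3 := hs j k hne
    have a1 := Nat.floor_le (show 0 ≤ |l i - l j| / δ by positivity)
    have a2 := Nat.lt_floor_add_one (|l i - l j| / δ)
    have b1 := Nat.floor_le (show 0 ≤ |l i - l k| / δ by positivity)
    have b2 := Nat.lt_floor_add_one (|l i - l k| / δ)
    rw [h2] at a1 a2
    have hlt : |(|l i - l j| / δ - |l i - l k| / δ)| < 1 := by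
      rw [abs_lt]
      constructor <;> linarith
    rw [← sub_div, abs_div, abs_of_pos hδ, div_lt_one hδ] at hlt
    have h4 : (l i ≤ l j ↔ l i ≤ l k) := by
      simpa using h1
    have h5 : |(|l i - l j| - |l i - l k|)| = |l j - l k| := by
      by_cases hj : l i ≤ l j
      · have hk := h4.1 hj
        rw [abs_of_nonpos (by linarith : l i - l j ≤ 0), abs_of_nonpos (by linarith : l i - l k ≤ 0)]
        congr 1
        ring
      · have hk : ¬ l i ≤ l k := fun h => hj (h4.2 h)
        push Not at hj hk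
        rw [abs_of_pos (by linarith : 0 < l i - l j), abs_of_pos (by linarith : 0 < l i - l k),
          ← abs_neg]
        congr 1
        ring
    rw [h5] at hlt
    linarith
  obtain ⟨M, hM⟩ : ∃ M : ℕ, ∀ j, (φ j).2 < M + 1 := by
    refine ⟨∑ j, (φ j).2, fun j => Nat.lt_succ_of_le ?_⟩
    exact Finset.single_le_sum (f := fun j => (φ j).2) (fun _ _ => Nat.zero_le _) (Finset.mem_univ j)
  have hterm : ∀ j, 2 * A / (1 + A ^ 2 * (l i - l j) ^ 2) ≤
      2 * A * (1 / (1 + (c * ((φ j).2 : ℝ)) ^ 2)) := by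
    intro j
    rw [mul_one_div]
    apply div_le_div_of_nonneg_left (by positivity) (by positivity)
    have a1 := Nat.floor_le (show 0 ≤ |l i - l j| / δ by positivity)
    rw [le_div_iff₀ hδ] at a1
    have a2 : (c * ((φ j).2 : ℝ)) ^ 2 ≤ (A * |l i - l j|) ^ 2 := by
      apply pow_le_pow_left₀ (by positivity)
      calc c * ((φ j).2 : ℝ) = A * (((φ j).2 : ℝ) * δ) := by rw [hc]; ring
        _ ≤ A * |l i - l j| := mul_le_mul_of_nonneg_left a1 hA.le
    rw [mul_pow A, sq_abs] at a2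
    linarith
  have hsum : ∑ j, (1 / (1 + (c * ((φ j).2 : ℝ)) ^ 2)) ≤
      ∑ x ∈ (Finset.univ : Finset Bool) ×ˢ Finset.range (M + 1), 1 / (1 + (c * (x.2 : ℝ)) ^ 2) := by
    rw [← Finset.sum_image (s := Finset.univ) (g := φ) (f := fun x : Bool × ℕ =>
      1 / (1 + (c * (x.2 : ℝ)) ^ 2)) (fun x _ y _ h => hinj h)]
    apply Finset.sum_le_sum_of_subset_of_nonneg
    · intro x hx
      rw [Finset.mem_image] at hx
      obtain ⟨j, _, rfl⟩ := hx
      rw [Finset.mem_product]
      exact ⟨Finset.mem_univ _, Finset.mem_range.2 (hM j)⟩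
    · intro x _ _
      positivity
  have hprod : ∑ x ∈ (Finset.univ : Finset Bool) ×ˢ Finset.range (M + 1),
      1 / (1 + (c * (x.2 : ℝ)) ^ 2) = 2 * ∑ n ∈ Finset.range (M + 1), 1 / (1 + (c * (n : ℝ)) ^ 2) := by
    rw [Finset.sum_product]
    simp
  have hfin := mvg_sum c hc0 M
  have hle : 1 + 2 / c * (1 - 1 / (1 + c * M)) ≤ 1 + 2 / c := by
    have : 0 ≤ 2 / c * (1 / (1 + c * M)) := by positivity
    linarith [mul_sub (2 / c) 1 (1 / (1 + c * (M : ℝ)))]
  calc ∑ j, 2 * A / (1 + A ^ 2 * (l i - l j) ^ 2)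
      ≤ ∑ j, 2 * A * (1 / (1 + (c * ((φ j).2 : ℝ)) ^ 2)) := Finset.sum_le_sum fun j _ => hterm j
    _ = 2 * A * ∑ j, (1 / (1 + (c * ((φ j).2 : ℝ)) ^ 2)) := by rw [Finset.mul_sum]
    _ ≤ 2 * A * (2 * (1 + 2 / c)) := by
        apply mul_le_mul_of_nonneg_left _ (by positivity)
        refine hsum.trans ?_
        rw [hprod]
        linarith
    _ = 4 * A + 8 / δ := by
        rw [hc]
        field_simp
        ring

/-- The Fourier transform of the exponential weight. -/
theorem mvg_ft (A x : ℝ) (hA : 0 < A) :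
    IntegrableOn (fun α : ℝ => Complex.exp (-(α / A : ℝ)) *
      (Complex.exp (-(I * (α * x : ℝ))) + Complex.exp (I * (α * x : ℝ)))) (Ioi 0) ∧
    ∫ α : ℝ in Ioi 0, Complex.exp (-(α / A : ℝ)) *
      (Complex.exp (-(I * (α * x : ℝ))) + Complex.exp (I * (α * x : ℝ))) =
      ((2 * A / (1 + A ^ 2 * x ^ 2) : ℝ) : ℂ) := by
  have hA' : (A : ℂ) ≠ 0 := by exact_mod_cast hA.ne'
  set u : ℂ := -(1 / A : ℂ) - I * x with hu
  set w : ℂ := -(1 / A : ℂ) + I * x with hw
  have hure : u.re = -(1 / A) := by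
    rw [hu]
    have : (1 / A : ℂ) = ((1 / A : ℝ) : ℂ) := by push_cast; rfl
    rw [this]
    simp
  have hwre : w.re = -(1 / A) := by
    rw [hw]
    have : (1 / A : ℂ) = ((1 / A : ℝ) : ℂ) := by push_cast; rfl
    rw [this]
    simp
  have hu0 : u.re < 0 := by rw [hure]; have : 0 < 1 / A := by positivity
                            linarith
  have hw0 : w.re < 0 := by rw [hwre]; have : 0 < 1 / A := by positivity
                            linarith
  have e : (fun α : ℝ => Complex.exp (-(α / A : ℝ)) *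
      (Complex.exp (-(I * (α * x : ℝ))) + Complex.exp (I * (α * x : ℝ)))) =
      fun α : ℝ => Complex.exp (u * α) + Complex.exp (w * α) := by
    funext α
    rw [mul_add, ← Complex.exp_add, ← Complex.exp_add, hu, hw]
    congr 2
    · push_cast
      ring
    · push_cast
      ring
  have i1 := integrableOn_exp_mul_complex_Ioi hu0 0
  have i2 := integrableOn_exp_mul_complex_Ioi hw0 0
  rw [e]
  refine ⟨i1.add i2, ?_⟩
  rw [integral_add i1 i2, integral_exp_mul_complex_Ioi hu0, integral_exp_mul_complex_Ioi hw0]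
  have hune : u ≠ 0 := by intro h; rw [h] at hu0; simp at hu0
  have hwne : w ≠ 0 := by intro h; rw [h] at hw0; simp at hw0
  have hprod : u * w = (((1 + A ^ 2 * x ^ 2) / A ^ 2 : ℝ) : ℂ) := by
    rw [hu, hw]
    push_cast
    field_simp
    ring_nf
    rw [I_sq]
    ring
  have hsum : u + w = ((-(2 / A) : ℝ) : ℂ) := by
    rw [hu, hw]
    push_cast
    ring
  simp only [ofReal_zero, mul_zero, Complex.exp_zero]
  have : -1 / u + -1 / w = -(u + w) / (u * w) := by
    field_simp
    ring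
  rw [this, hprod, hsum]
  have hpos : (1 + A ^ 2 * x ^ 2 : ℝ) ≠ 0 := by positivity
  rw [← ofReal_neg, ← ofReal_div]
  congr 1
  field_simp

theorem mvg_sq {m : ℕ} (l : Fin m → ℝ) (b : Fin m → ℂ) (α : ℝ) :
    ((‖∑ i, b i * Complex.exp (-(I * (α * l i : ℝ)))‖ ^ 2 : ℝ) : ℂ) =
      ∑ i, ∑ j, b i * conj (b j) * Complex.exp (-(I * (α * (l i - l j) : ℝ))) := by
  push_cast
  rw [← Complex.mul_conj', map_sum, Finset.sum_mul_sum]
  refine Finset.sum_congr rfl fun i _ => Finset.sum_congr rfl fun j _ => ?_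
  rw [map_mul, ← Complex.exp_conj, mul_mul_mul_comm, ← Complex.exp_add]
  congr 2
  simp only [map_neg, map_mul, Complex.conj_I, Complex.conj_ofReal]
  ring

theorem t_MVG : S_MVG := by
  refine ⟨8 * Real.exp 1, by positivity, ?_⟩
  intro m l b A δ hA hδ hs
  set f : ℝ → ℝ := fun α => ‖∑ i, b i * Complex.exp (-(I * (α * l i : ℝ)))‖ ^ 2 with hf
  have hfc : Continuous f := by
    rw [hf]
    fun_prop
  have hf0 : ∀ α, 0 ≤ f α := fun α => by rw [hf]; positivity
  -- the weighted integral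
  set K : Fin m → Fin m → ℝ := fun i j => 2 * A / (1 + A ^ 2 * (l i - l j) ^ 2) with hK
  set g : ℝ → ℝ := fun α => Real.exp (-(α / A)) * (f α + f (-α)) with hg
  have hgc : ∀ α : ℝ, ((g α : ℝ) : ℂ) = ∑ i, ∑ j, b i * conj (b j) * (Complex.exp (-(α / A : ℝ)) *
      (Complex.exp (-(I * (α * (l i - l j) : ℝ))) + Complex.exp (I * (α * (l i - l j) : ℝ)))) := by
    intro α
    rw [hg, hf]
    simp only
    rw [ofReal_mul, ofReal_add, mvg_sq, mvg_sq, ← Finset.sum_add_distrib, Finset.mul_sum]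
    refine Finset.sum_congr rfl fun i _ => ?_
    rw [← Finset.sum_add_distrib, Finset.mul_sum]
    refine Finset.sum_congr rfl fun j _ => ?_
    rw [← mul_add, ofReal_exp]
    have e1 : -(I * ((-α * (l i - l j) : ℝ) : ℂ)) = I * ((α * (l i - l j) : ℝ) : ℂ) := by
      push_cast
      ring
    rw [e1]
    push_cast
    ring
  have hint : IntegrableOn (fun α : ℝ => ((g α : ℝ) : ℂ)) (Ioi 0) := by
    simp_rw [hgc]
    refine integrable_finsetSum _ fun i _ => integrable_finsetSum _ fun j _ => ?_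
    exact (mvg_ft A (l i - l j) hA).1.const_mul _
  have hval : ((∫ α in Ioi 0, g α : ℝ) : ℂ) = ∑ i, ∑ j, b i * conj (b j) * ((K i j : ℝ) : ℂ) := by
    have e0 : ((∫ α in Ioi 0, g α : ℝ) : ℂ) = ∫ α in Ioi 0, ((g α : ℝ) : ℂ) :=
      (integral_ofReal (𝕜 := ℂ)).symm
    rw [e0]
    simp_rw [hgc]
    rw [integral_finsetSum]
    · refine Finset.sum_congr rfl fun i _ => ?_
      rw [integral_finsetSum]
      · refine Finset.sum_congr rfl fun j _ => ?_
        rw [integral_const_mul, (mvg_ft A (l i - l j) hA).2]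
      · intro j _
        exact (mvg_ft A (l i - l j) hA).1.const_mul _
    · intro i _
      refine integrable_finsetSum _ fun j _ => ?_
      exact (mvg_ft A (l i - l j) hA).1.const_mul _
  have hintr : IntegrableOn g (Ioi 0) := by
    have h1 : Integrable (fun α : ℝ => ((g α : ℝ) : ℂ)) (volume.restrict (Ioi 0)) := hint
    have h2 := h1.re
    exact h2.congr (Eventually.of_forall fun α => by simp)
  have hg0 : ∀ α, 0 ≤ g α := fun α => mul_nonneg (Real.exp_pos _).le (add_nonneg (hf0 _) (hf0 _))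
  have hbound : ∫ α in Ioi 0, g α ≤ (4 * A + 8 / δ) * ∑ i, ‖b i‖ ^ 2 := by
    have h1 : ∫ α in Ioi 0, g α ≤ ‖((∫ α in Ioi 0, g α : ℝ) : ℂ)‖ := by
      rw [Complex.norm_real]
      exact Real.le_norm_self _
    refine h1.trans ?_
    rw [hval]
    have hK0 : ∀ i j, 0 ≤ K i j := fun i j => by rw [hK]; positivity
    have hKs : ∀ i j, K i j = K j i := fun i j => by
      rw [hK]
      simp only
      rw [show (l i - l j) ^ 2 = (l j - l i) ^ 2 by ring]
    calc ‖∑ i, ∑ j, b i * conj (b j) * ((K i j : ℝ) : ℂ)‖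
        ≤ ∑ i, ∑ j, ‖b i * conj (b j) * ((K i j : ℝ) : ℂ)‖ :=
          (norm_sum_le _ _).trans (Finset.sum_le_sum fun i _ => norm_sum_le _ _)
      _ ≤ ∑ i, ∑ j, (‖b i‖ ^ 2 * K i j + ‖b j‖ ^ 2 * K j i) / 2 := by
          refine Finset.sum_le_sum fun i _ => Finset.sum_le_sum fun j _ => ?_
          rw [norm_mul, norm_mul, RCLike.norm_conj, Complex.norm_real, Real.norm_of_nonneg (hK0 i j),
            hKs j i]
          nlinarith [mul_nonneg (sq_nonneg (‖b i‖ - ‖b j‖)) (hK0 i j)]
      _ = ∑ i, ∑ j, ‖b i‖ ^ 2 * K i j := by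
          have e1 : ∑ i, ∑ j, ‖b j‖ ^ 2 * K j i = ∑ i, ∑ j, ‖b i‖ ^ 2 * K i j := Finset.sum_comm
          simp_rw [add_div, Finset.sum_add_distrib, ← Finset.sum_div]
          rw [e1]
          ring
      _ = ∑ i, ‖b i‖ ^ 2 * ∑ j, K i j := by simp_rw [Finset.mul_sum]
      _ ≤ ∑ i, ‖b i‖ ^ 2 * (4 * A + 8 / δ) := by
          refine Finset.sum_le_sum fun i _ => ?_
          exact mul_le_mul_of_nonneg_left (mvg_kernel l A δ hA hδ hs i) (by positivity)
      _ = (4 * A + 8 / δ) * ∑ i, ‖b i‖ ^ 2 := by rw [← Finset.sum_mul, mul_comm]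
  -- the comparison
  have hcmp : ∫ α in (-A)..A, f α ≤ Real.exp 1 * ∫ α in Ioi 0, g α := by
    have e1 : ∫ α in (-A)..A, f α = ∫ α in (0 : ℝ)..A, (f α + f (-α)) := by
      have i2 : IntervalIntegrable (fun α => f (-α)) volume 0 A :=
        (hfc.comp continuous_neg).intervalIntegrable 0 A
      rw [← intervalIntegral.integral_add_adjacent_intervals
        (hfc.intervalIntegrable (-A) 0) (hfc.intervalIntegrable 0 A),
        intervalIntegral.integral_add (hfc.intervalIntegrable 0 A) i2,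
        intervalIntegral.integral_comp_neg (fun α => f α)]
      simp only [neg_zero]
      ring
    rw [e1, intervalIntegral.integral_of_le hA.le, ← integral_const_mul]
    have hle1 : ∫ α in Ioc 0 A, (f α + f (-α)) ≤ ∫ α in Ioc 0 A, Real.exp 1 * g α := by
      apply setIntegral_mono_on
      · exact ((hfc.add (hfc.comp continuous_neg)).integrableOn_Icc).mono_set Ioc_subset_Icc_self
      · exact (hintr.mono_set Ioc_subset_Ioi_self).const_mul _
      · exact measurableSet_Ioc
      · intro α hα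
        rw [hg]
        simp only
        have h1 : 1 ≤ Real.exp 1 * Real.exp (-(α / A)) := by
          rw [← Real.exp_add]
          apply Real.one_le_exp
          have : α / A ≤ 1 := by
            rw [div_le_one hA]
            exact hα.2
          linarith
        rw [← mul_assoc]
        exact le_mul_of_one_le_left (add_nonneg (hf0 _) (hf0 _)) h1
    refine hle1.trans ?_
    apply setIntegral_mono_set (hintr.const_mul _)
    · filter_upwards with α
      exact mul_nonneg (Real.exp_pos _).le (hg0 _)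
    · exact Ioc_subset_Ioi_self.eventuallyLE
  refine hcmp.trans ?_
  have hS : 0 ≤ ∑ i, ‖b i‖ ^ 2 := Finset.sum_nonneg fun i _ => by positivity
  calc Real.exp 1 * ∫ α in Ioi 0, g α ≤ Real.exp 1 * ((4 * A + 8 / δ) * ∑ i, ‖b i‖ ^ 2) :=
        mul_le_mul_of_nonneg_left hbound (Real.exp_pos _).le
    _ ≤ Real.exp 1 * ((8 * (A + 1 / δ)) * ∑ i, ‖b i‖ ^ 2) := by
        apply mul_le_mul_of_nonneg_left _ (Real.exp_pos _).le
        apply mul_le_mul_of_nonneg_right _ hS
        have : 8 * (1 / δ) = 8 / δ := by ring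
        nlinarith
    _ = 8 * Real.exp 1 * (A + 1 / δ) * ∑ i, ‖b i‖ ^ 2 := by ring

end Pool.Agent.N879.QM
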