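import Mathlib

set_option autoImplicit false

/-!
Project QM (helper879, `MP_ea46f5_nt`): moments of quadratic Dirichlet `L`-functions of every order for almost all
shifts. Definitions and statements of the parts.
-/

namespace Pool.Agent.N879.QM

open Complex Filter Topology MeasureTheory Set
open scoped BigOperators

noncomputable section

/-! ### The family -/

/-- `χ` is real, primitive, not principal, of parity `s` -/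
def Rp (s : ℤ) {q : ℕ} (χ : DirichletCharacter ℂ q) : Prop :=
  χ.IsPrimitive ∧ χ ^ 2 = 1 ∧ χ ≠ 1 ∧ χ (-1) = (s : ℂ)

/-- `q` is the conductor of a real primitive character of parity `s`, that is, `s q` is a fundamental discriminant
(different from `1`) -/
def Is (s : ℤ) (q : ℕ) : Prop := 2 ≤ q ∧ ∃ χ : DirichletCharacter ℂ q, Rp s χ

open Classical in
/-- the real primitive character of conductor `q` and parity `s` (`1` if there is none) -/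
def ch (s : ℤ) (q : ℕ) : DirichletCharacter ℂ q :=
  if h : Is s q then h.2.choose else 1

/-- its values -/
def vl (s : ℤ) (q n : ℕ) : ℂ := ch s q (n : ZMod q)

open Classical in
/-- the conductors `< X` -/
def Q (s : ℤ) (X : ℝ) : Finset ℕ := (Finset.Ico 2 ⌈X⌉₊).filter (Is s)

/-- the `L`-function -/
def LL (s : ℤ) (q : ℕ) (z : ℂ) : ℂ :=
  if h : q ≠ 0 then haveI : NeZero q := ⟨h⟩; DirichletCharacter.LFunction (ch s q) z else 0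

/-- the point `1/2 + iα` -/
def pt (α : ℝ) : ℂ := 1 / 2 + I * (α : ℂ)

/-- short Dirichlet polynomials -/
def PN (s : ℤ) (q N : ℕ) (α : ℝ) : ℂ := ∑ n ∈ Finset.Icc 1 N, vl s q n * (n : ℂ) ^ (-(pt α))

/-- dyadic pieces -/
def SK (s : ℤ) (q K : ℕ) (α : ℝ) : ℂ := ∑ n ∈ Finset.Ioc K (2 * K), vl s q n * (n : ℂ) ^ (-(pt α))

/-! ### The main term -/

/-- pairs `i ≤ j` -/
abbrev Pr (k : ℕ) := {p : Fin k × Fin k // p.1 ≤ p.2}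

/-- local factor of `A_k` at `p` -/
def loc {k : ℕ} (z : Fin k → ℂ) (p : ℕ) : ℂ :=
  (∏ r : Pr k, (1 - (p : ℂ) ^ (-(1 + z r.1.1 + z r.1.2)))) *
    (1 / 2 * ((∏ j, (1 - (p : ℂ) ^ (-(1 / 2 + z j)))⁻¹) + ∏ j, (1 + (p : ℂ) ^ (-(1 / 2 + z j)))⁻¹) + 1 / (p : ℂ)) *
    (1 + 1 / (p : ℂ))⁻¹

/-- `A_k(z)` -/
def Ak {k : ℕ} (z : Fin k → ℂ) : ℂ := ∏' p : Nat.Primes, loc z p

/-- `A_k(z) ∏_{i ≤ j} ζ(1 + z_i + z_j)` -/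
def MT {k : ℕ} (z : Fin k → ℂ) : ℂ := Ak z * ∏ r : Pr k, riemannZeta (1 + z r.1.1 + z r.1.2)

/-- imaginary shifts -/
def im {k : ℕ} (β : Fin k → ℝ) : Fin k → ℂ := fun j => I * (β j : ℂ)

/-- `3 / π²` -/
def c0 : ℝ := 3 / Real.pi ^ 2

/-- `∏_{p ∣ n} p / (p + 1)` -/
def af (n : ℕ) : ℝ := ∏ p ∈ n.primeFactors, (p : ℝ) / (p + 1)

/-- tuples in `[1,N]` -/
def tup (k N : ℕ) : Finset (Fin k → ℕ) := Fintype.piFinset fun _ => Finset.Icc 1 N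

/-- `∏ n_j ^ (-(1/2 + iβ_j))` -/
def cx {k : ℕ} (n : Fin k → ℕ) (β : Fin k → ℝ) : ℂ := ∏ j, (n j : ℂ) ^ (-(pt (β j)))

open Classical in
/-- the diagonal sum -/
def SN (k N : ℕ) (β : Fin k → ℝ) : ℂ :=
  ∑ n ∈ tup k N, if IsSquare (∏ j, n j) then (af (∏ j, n j) : ℂ) * cx n β else 0

/-- the Dirichlet polynomial `∑_{n ≤ N} n^{-s}` -/
def zN (N : ℕ) (s : ℂ) : ℂ := ∑ n ∈ Finset.Icc 1 N, (n : ℂ) ^ (-s)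

/-- `1 + i(β_i + β_j)` -/
def pp {k : ℕ} (β : Fin k → ℝ) (r : Pr k) : ℂ := 1 + I * ((β r.1.1 : ℂ) + (β r.1.2 : ℂ))

/-- `m ↦ a(m) ∑_{n_1 ⋯ n_k = m²} ∏ n_j^{-s_j}` -/
def gA {k : ℕ} (β : Fin k → ℝ) : ArithmeticFunction ℂ :=
  ⟨fun m => if m = 0 then 0 else (af m : ℂ) * ∑ n ∈ Nat.finMulAntidiag k (m ^ 2), cx n β, by simp⟩

/-- `m ↦ μ(m) m^{-s}` -/
def muA (s : ℂ) : ArithmeticFunction ℂ :=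
  ⟨fun m => ((ArithmeticFunction.moebius m : ℤ) : ℂ) * (m : ℂ) ^ (-s), by simp⟩

/-- the coefficients of `A_k` -/
def al {k : ℕ} (β : Fin k → ℝ) : ArithmeticFunction ℂ := gA β * ∏ r : Pr k, muA (pp β r)

/-! ### Measures -/

/-- product measure on the cube `[-A,A]^k` -/
def mS (k : ℕ) (A : ℝ) : Measure (Fin k → ℝ) := Measure.pi fun _ => volume.restrict (Icc (-A) A)

/-- good shift vectors -/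
def Gd (k : ℕ) (A : ℝ) : Set (Fin k → ℝ) :=
  {β | (∀ j, |β j| ≤ A) ∧ ∀ r : Pr k, 2 * A ^ (1 / 2 : ℝ) ≤ |β r.1.1 + β r.1.2|}

/-! ### Statements of the parts -/

/-- UNI: uniqueness of the real primitive character of given conductor and parity -/
def S_UNI : Prop := ∀ (s : ℤ) (q : ℕ) (χ χ' : DirichletCharacter ℂ q), q ≠ 0 → Rp s χ → Rp s χ' → χ = χ'

/-- AVG: averages of `χ(n)` over the family -/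
def S_AVG : Prop := ∃ C : ℝ, 0 < C ∧ ∀ (s : ℤ) (X : ℝ) (n : ℕ), s = 1 ∨ s = -1 → 1 ≤ X → 1 ≤ n →
  (IsSquare n → ‖(∑ q ∈ Q s X, vl s q n) - ((c0 * X * af n : ℝ) : ℂ)‖ ≤ C * √X * √n) ∧
  (¬ IsSquare n → ‖∑ q ∈ Q s X, vl s q n‖ ≤ C * √X * √n)

/-- DIAG: the product of short Dirichlet polynomials -/
def S_DIAG : Prop := ∀ k : ℕ, ∃ C : ℝ, 0 < C ∧ ∀ (s : ℤ) (X : ℝ) (N : ℕ) (β : Fin k → ℝ), s = 1 ∨ s = -1 →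
  1 ≤ X → 1 ≤ N →
  ‖(∑ q ∈ Q s X, ∏ j, PN s q N (β j)) - ((c0 * X : ℝ) : ℂ) * SN k N β‖ ≤ C * √X * (N : ℝ) ^ k

/-- GK: from Heath-Brown's quadratic large sieve -/
def S_GK : Prop := ∀ ε : ℝ, 0 < ε → ∃ C : ℝ, 0 < C ∧ ∀ (s : ℤ) (X : ℝ) (K : ℕ) (c : ℕ → ℂ), s = 1 ∨ s = -1 →
  1 ≤ X → 1 ≤ K →
  ∑ n ∈ Finset.Icc 1 K, ‖∑ q ∈ Q s X, c q * vl s q n‖ ^ 2 ≤
    C * (X * K) ^ ε * (X * √K + K) * ∑ q ∈ Q s X, ‖c q‖ ^ 2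

/-- P2: pieces of length at most `A` -/
def S_P2 : Prop := ∀ ε : ℝ, 0 < ε → ∃ C : ℝ, 0 < C ∧ ∀ (s : ℤ) (X A : ℝ) (K : ℕ) (c : ℕ → ℂ), s = 1 ∨ s = -1 →
  1 ≤ X → 2 ≤ A → 1 ≤ K → (K : ℝ) ≤ A →
  ∫ α in (-A)..A, ‖∑ q ∈ Q s X, c q * SK s q K α‖ ^ 2 ≤
    C * (X * A) ^ ε * A * (X / √K + 1) * ∑ q ∈ Q s X, ‖c q‖ ^ 2

/-- P1: the same for one character -/
def S_P1 : Prop := ∃ C : ℝ, 0 < C ∧ ∀ (A : ℝ) (K : ℕ) (a : ℕ → ℂ), 2 ≤ A → (K : ℝ) ≤ A → (∀ n, ‖a n‖ ≤ 1) →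
  (∫ α in (-A)..A, ‖∑ n ∈ Finset.Ioc K (2 * K), a n * (n : ℂ) ^ (-(pt α))‖ ^ 2 ≤ C * A) ∧
  ∫ α in (-A)..A, ‖∑ n ∈ Finset.Icc 1 K, a n * (n : ℂ) ^ (-(pt α))‖ ^ 2 ≤ C * A * Real.log A

/-- MVG: mean value theorem for well spaced frequencies -/
def S_MVG : Prop := ∃ C : ℝ, 0 < C ∧ ∀ (m : ℕ) (l : Fin m → ℝ) (b : Fin m → ℂ) (A δ : ℝ), 0 < A → 0 < δ →
  (∀ i j, i ≠ j → δ ≤ |l i - l j|) →
  ∫ α in (-A)..A, ‖∑ i, b i * Complex.exp (-(I * (α * l i : ℝ)))‖ ^ 2 ≤ C * (A + 1 / δ) * ∑ i, ‖b i‖ ^ 2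

/-- BLK: mean values of long pieces through sums over short blocks -/
def S_BLK : Prop := ∃ C : ℝ, 0 < C ∧ ∀ (a : ℕ → ℂ) (K H : ℕ) (A B : ℝ), 2 ≤ A → A ≤ K → 1 ≤ H →
  (K : ℝ) / A ≤ H → (H : ℝ) ≤ 2 * K / A →
  (∀ t : ℕ, t ≤ H → ∑ x ∈ Finset.range (2 * K + 1),
    ‖∑ n ∈ (Finset.Ioc x (x + t)) ∩ (Finset.Ioc K (2 * K)), a n‖ ^ 2 ≤ B) →
  ∫ α in (-A)..A, ‖∑ n ∈ Finset.Ioc K (2 * K), a n * (n : ℂ) ^ (-(pt α))‖ ^ 2 ≤ C * (A / (K * H)) * B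

/-- LSB: large sieve for sums over short blocks -/
def S_LSB : Prop := ∃ C : ℝ, 0 < C ∧ ∀ (s : ℤ) (X : ℝ) (c : ℕ → ℂ) (M K t : ℕ), s = 1 ∨ s = -1 → 1 ≤ X → 1 ≤ K →
  ∑ x ∈ Finset.Ioc M (M + K), ‖∑ q ∈ Q s X, c q * ∑ n ∈ Finset.Ioc x (x + t), vl s q n‖ ^ 2 ≤
    C * (K + X ^ 2) * t * ∑ q ∈ Q s X, ‖c q‖ ^ 2

/-- ONE: the same for one character -/
def S_ONE : Prop := ∀ (s : ℤ) (q M K t : ℕ), Is s q →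
  ∑ x ∈ Finset.Ioc M (M + K), ‖∑ n ∈ Finset.Ioc x (x + t), vl s q n‖ ^ 2 ≤ (K + q) * (min t q : ℕ)

/-- TRV: trivial bound for sums over intervals -/
def S_TRV : Prop := ∀ (s : ℤ) (q x t : ℕ), Is s q → ‖∑ n ∈ Finset.Ioc x (x + t), vl s q n‖ ≤ (min t q : ℕ)

/-- BIG: pieces of length at least `A` -/
def S_BIG : Prop := ∃ C : ℝ, 0 < C ∧ ∀ (s : ℤ) (X A : ℝ) (K : ℕ) (c : ℕ → ℂ), s = 1 ∨ s = -1 →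
  1 ≤ X → X ≤ A → 2 ≤ A → A ≤ K →
  ∫ α in (-A)..A, ‖∑ q ∈ Q s X, c q * SK s q K α‖ ^ 2 ≤ C * A * (1 + X ^ 2 / A) * ∑ q ∈ Q s X, ‖c q‖ ^ 2

/-- BIG1: the same for one character -/
def S_BIG1 : Prop := ∃ C : ℝ, 0 < C ∧ ∀ (s : ℤ) (q : ℕ) (A : ℝ) (K : ℕ), Is s q → (q : ℝ) ≤ A → 2 ≤ A → A ≤ K →
  ∫ α in (-A)..A, ‖SK s q K α‖ ^ 2 ≤ C * A

/-- AFS: approximation by long sums -/
def S_AFS : Prop := ∃ C : ℝ, 0 < C ∧ ∀ (s : ℤ) (q Z : ℕ) (α : ℝ), Is s q → 1 ≤ Z →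
  ‖LL s q (pt α) - PN s q Z α‖ ≤ C * q * (1 + |α|) / √Z

/-- CTS: continuity -/
def S_CTS : Prop := ∀ (s : ℤ) (q : ℕ), Is s q → Continuous fun α : ℝ => LL s q (pt α)

/-- VL: local second moment of one `L`-function and of the short polynomials -/
def S_VL : Prop := ∀ ε : ℝ, 0 < ε → ∃ C : ℝ, 0 < C ∧ ∀ (s : ℤ) (q : ℕ) (A : ℝ), Is s q → (q : ℝ) ≤ A → 2 ≤ A →
  (∫ α in (-A)..A, ‖LL s q (pt α)‖ ^ 2 ≤ C * A ^ (1 + ε)) ∧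
  ∀ N : ℕ, 1 ≤ N → (N : ℝ) ≤ A → ∫ α in (-A)..A, ‖PN s q N α‖ ^ 2 ≤ C * A ^ (1 + ε)

/-- OP: `L` minus a short polynomial, as an operator -/
def S_OP : Prop := ∀ ε : ℝ, 0 < ε → ∃ C : ℝ, 0 < C ∧ ∀ (s : ℤ) (X A : ℝ) (N : ℕ) (c : ℕ → ℂ), s = 1 ∨ s = -1 →
  1 ≤ X → X ≤ A → 2 ≤ A → 1 ≤ N →
  ∫ α in (-A)..A, ‖∑ q ∈ Q s X, c q * (LL s q (pt α) - PN s q N α)‖ ^ 2 ≤
    C * A ^ (1 + ε) * (X / √N + X ^ 2 / A + 1) * ∑ q ∈ Q s X, ‖c q‖ ^ 2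

/-- TEL: replacement of all the factors -/
def S_TEL : Prop := ∀ (k : ℕ) (D : Finset ℕ) (f g : ℕ → ℝ → ℂ) (A K V : ℝ), 0 < A → 0 ≤ K → 0 ≤ V →
  (∀ q ∈ D, Continuous (f q)) → (∀ q ∈ D, Continuous (g q)) →
  (∀ c : ℕ → ℂ, ∫ α in (-A)..A, ‖∑ q ∈ D, c q * (f q α - g q α)‖ ^ 2 ≤ K * ∑ q ∈ D, ‖c q‖ ^ 2) →
  (∀ q ∈ D, ∫ α in (-A)..A, ‖f q α‖ ^ 2 ≤ V) → (∀ q ∈ D, ∫ α in (-A)..A, ‖g q α‖ ^ 2 ≤ V) →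
  ∫⁻ β, ENNReal.ofReal (‖∑ q ∈ D, (∏ j, f q (β j) - ∏ j, g q (β j))‖ ^ 2) ∂(mS k A) ≤
    ENNReal.ofReal (4 ^ k * K * V ^ (k - 1) * D.card)

/-- EUL: the Dirichlet series of `A_k` -/
def S_EUL : Prop := ∀ k : ℕ, ∃ C : ℝ, 0 < C ∧ ∀ (β : Fin k → ℝ),
  ‖Ak (im β)‖ ≤ C ∧ ∀ M : ℕ, 1 ≤ M → ‖Ak (im β) - ∑ m ∈ Finset.Icc 1 M, al β m‖ ≤ C * (M : ℝ) ^ (-(1 / 4) : ℝ)

/-- ZET: the zeta function on the 1-line (`S_ONE` of project GS, proved in the library) -/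
def S_ZET : Prop := ∃ C T₀ : ℝ, 0 < C ∧ 3 ≤ T₀ ∧ ∀ (T : ℝ) (M : ℕ), T₀ ≤ T → 1 ≤ M →
  (M : ℝ) ≤ T ^ (1 / 2 : ℝ) →
  (∀ v : ℝ, 1 ≤ |v| → |v| ≤ T → ‖riemannZeta (1 + I * v)‖ ≤ C * Real.log T) ∧
  ∫ v in (T ^ (1 / 2 : ℝ))..T, ‖riemannZeta (1 + I * v) - zN M (1 + I * v)‖ ^ 2 ≤ C * T / M

/-- ZR: zeta values replaced by Dirichlet polynomials -/
def S_ZR : Prop := ∀ k : ℕ, ∃ (C A₀ : ℝ) (B : ℕ), 0 < C ∧ 3 ≤ A₀ ∧ ∀ (A : ℝ) (Y M : ℕ), A₀ ≤ A → 1 ≤ Y → 1 ≤ M →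
  (Y : ℝ) ≤ A ^ (1 / 2 : ℝ) →
  ∫⁻ β in Gd k A, ENNReal.ofReal (‖MT (im β) -
    (∑ m ∈ Finset.Icc 1 M, al β m) * ∏ r : Pr k, zN Y (pp β r)‖ ^ 2) ∂(mS k A) ≤
    ENNReal.ofReal (C * Real.log A ^ B * A ^ k * ((Y : ℝ) ^ (-1 : ℝ) + (M : ℝ) ^ (-(1 / 2) : ℝ)))

/-- FL: mean squares of finite sums of characters -/
def S_FL : Prop := ∀ (k N : ℕ) (A : ℝ) (c : (Fin k → ℕ) → ℂ), 1 ≤ N → 0 < A →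
  ∫⁻ β, ENNReal.ofReal (‖∑ n ∈ tup k N, c n * ∏ j, (n j : ℂ) ^ (-(I * (β j : ℂ)))‖ ^ 2) ∂(mS k A) ≤
    ENNReal.ofReal ((2 * A) ^ k * ∑ n ∈ tup k N, ‖c n‖ ^ 2 +
      4 * N * (2 * A) ^ (k - 1 : ℝ) * (∑ n ∈ tup k N, ‖c n‖) ^ 2)

/-- COEF: truncation of the product of Dirichlet polynomials -/
def S_COEF : Prop := ∀ k : ℕ, ∃ (C : ℝ) (B : ℕ), 0 < C ∧ ∀ (A : ℝ) (Y : ℕ), 1 ≤ Y → (Y : ℝ) ^ B ≤ A →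
  ∫⁻ β, ENNReal.ofReal (‖(∑ m ∈ Finset.Icc 1 (Y ^ k), al β m) * (∏ r : Pr k, zN Y (pp β r)) - SN k Y β‖ ^ 2)
    ∂(mS k A) ≤ ENNReal.ofReal (C * A ^ k * (Y : ℝ) ^ (-(1 / 4) : ℝ))

/-- NS: almost all shift vectors are good -/
def S_NS : Prop := ∀ k : ℕ, ∃ C : ℝ, 0 < C ∧ ∀ A : ℝ, 1 ≤ A →
  mS k A (Gd k A)ᶜ ≤ ENNReal.ofReal (C * A ^ (k - 1 / 2 : ℝ))

/-- the theorem -/
def S_MAIN : Prop := ∀ (k : ℕ) (s : ℤ) (θ : ℝ), 1 ≤ k → s = 1 ∨ s = -1 → 1 < θ → ∃ δ X₀ : ℝ, 0 < δ ∧ ∀ X : ℝ, X₀ ≤ X →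
  mS k (X ^ θ) {β | X ^ (1 - δ) < ‖(∑ q ∈ Q s X, ∏ j, LL s q (pt (β j))) - ((c0 * X : ℝ) : ℂ) * MT (im β)‖} ≤
    ENNReal.ofReal (X ^ (k * θ - δ))

end

end Pool.Agent.N879.QM
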