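import Pool.Agent.H27.G.R_pool_sql_team_seeded_63374d34.N879.QM.Stm
import Pool.Agent.H27.G.R_seed8.H987R2.RG_CLS
import Pool.Agent.H27.G.R_seed8.H328R9.RG_CC1
import Pool.Agent.H27.G.R_pool_sql_team_seeded_63374d34.N873.F15.Dn
import Pool.Agent.H27.G.R_seed8.W406.TW.Jac

set_option autoImplicit false

/-! # Averages of the real primitive characters over their conductors, sharp cutoff (helper342) -/

namespace Pool.Agent.N879.QM

namespace Avg

open Finset Filter Topology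
open Pool.Agent.Y293.SF (mu abs_mu_le mu_zero indic_eq)
open Pool.Agent.N873.F15.Dn (ep ep_pos mu_sum)
open Pool.Agent.W406.TW (jz jz_cast jz_mul sum_jz jac_abs)

/-! ### Sums over a class modulo 8 -/

/-- the Jacobi symbol on the class of `c` modulo `8` -/
noncomputable def fc (c n m : ℕ) : ℝ := if m % 8 = c then ((jacobiSym (m : ℤ) n : ℤ) : ℝ) else 0

open Classical in
/-- the sum over a period -/
noncomputable def An (n : ℕ) : ℝ := if IsSquare n then (n.totient : ℝ) else 0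

lemma jac_absR (a : ℤ) (n : ℕ) : |((jacobiSym a n : ℤ) : ℝ)| ≤ 1 := by
  exact_mod_cast jac_abs a n

lemma fc_abs (c n m : ℕ) : |fc c n m| ≤ 1 := by
  unfold fc
  split_ifs
  · exact jac_absR _ _
  · rw [abs_zero]
    exact zero_le_one

lemma An_nonneg (n : ℕ) : 0 ≤ An n := by
  unfold An
  split_ifs
  · positivity
  · exact le_rfl

lemma An_le (n : ℕ) : An n ≤ n := by
  unfold An
  split_ifs
  · exact_mod_cast Nat.totient_le n
  · positivity

lemma fc_per (c n m : ℕ) : fc c n (8 * n + m) = fc c n m := by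
  unfold fc
  have h1 : (8 * n + m) % 8 = m % 8 := by omega
  have h2 : jacobiSym ((8 * n + m : ℕ) : ℤ) n = jacobiSym (m : ℤ) n := by
    apply jacobiSym.mod_left'
    push_cast
    rw [Int.add_emod, Int.mul_emod_left, zero_add, Int.emod_emod_of_dvd _ dvd_rfl]
  rw [h1, h2]

lemma zsum_range (n : ℕ) [NeZero n] (g : ℤ → ℤ) (f : ZMod n → ℤ) (h : ∀ i : ℕ, f (i : ZMod n) = g i) :
    ∑ i ∈ range n, g i = ∑ x : ZMod n, f x := by
  refine sum_bij' (fun i _ => (i : ZMod n)) (fun x _ => x.val) (fun i _ => mem_univ _)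
    (fun x _ => mem_range.2 (ZMod.val_lt x)) (fun i hi => ?_) (fun x _ => ?_) (fun i _ => ?_)
  · exact ZMod.val_natCast_of_lt (mem_range.1 hi)
  · exact ZMod.natCast_zmod_val x
  · exact (h i).symm

lemma sum_jz_sq {n : ℕ} [NeZero n] (h : IsSquare n) : ∑ x : ZMod n, jz n x = (n.totient : ℤ) := by
  rw [← zsum_range n (fun i => jacobiSym i n) (jz n) (fun i => by
    have := jz_cast n (i : ℤ)
    rw [← this]
    push_cast
    rfl)]
  obtain ⟨r, hr⟩ := h
  have hr0 : r ≠ 0 := by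
    rintro rfl
    exact NeZero.ne n (by simpa using hr)
  have : NeZero r := ⟨hr0⟩
  have h1 : ∀ i ∈ range n, jacobiSym (i : ℤ) n = if n.Coprime i then 1 else 0 := by
    intro i _
    have h2 : jacobiSym (i : ℤ) n = jacobiSym (i : ℤ) r ^ 2 := by
      rw [hr, jacobiSym.mul_right, sq]
    rw [h2]
    by_cases hc : n.Coprime i
    · rw [if_pos hc]
      have h3 : Int.gcd (i : ℤ) r = 1 := by
        rw [Int.gcd_natCast_natCast]
        rw [hr] at hc
        exact (Nat.Coprime.coprime_mul_left hc).symm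
      exact jacobiSym.sq_one h3
    · rw [if_neg hc]
      have h3 : ¬ Int.gcd (i : ℤ) r = 1 := by
        rw [Int.gcd_natCast_natCast]
        intro h4
        apply hc
        rw [hr]
        exact Nat.Coprime.mul_left (Nat.Coprime.symm h4) (Nat.Coprime.symm h4)
      rw [jacobiSym.eq_zero_iff_not_coprime.2 h3]
      norm_num
  rw [sum_congr rfl h1, Nat.totient_eq_card_coprime, card_filter]
  push_cast
  rfl

lemma full {c n : ℕ} (hn : Odd n) (hc : c < 8) : ∑ m ∈ range (8 * n), fc c n m = An n := by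
  have hn0 : n ≠ 0 := by rintro rfl; exact absurd hn (by decide)
  have : NeZero n := ⟨hn0⟩
  have h1 : ∑ m ∈ range (8 * n), fc c n m =
      ((∑ l ∈ range n, jacobiSym (8 * (l : ℤ) + c) n : ℤ) : ℝ) := by
    unfold fc
    rw [← sum_filter]
    push_cast
    refine sum_nbij' (fun m => m / 8) (fun l => 8 * l + c) ?_ ?_ ?_ ?_ ?_
    · intro m hm
      rw [mem_filter, mem_range] at hm
      rw [mem_range]
      omega
    · intro l hl
      rw [mem_range] at hl
      rw [mem_filter, mem_range]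
      omega
    · intro m hm
      rw [mem_filter, mem_range] at hm
      omega
    · intro l hl
      rw [mem_range] at hl
      omega
    · intro m hm
      rw [mem_filter, mem_range] at hm
      have h2 : ((m : ℕ) : ℤ) = 8 * ((m / 8 : ℕ) : ℤ) + c := by
        omega
      rw [← h2]
  have hu8 : IsUnit (8 : ZMod n) := by
    have : IsUnit ((8 : ℕ) : ZMod n) := by
      rw [ZMod.isUnit_iff_coprime]
      have h3 : Nat.Coprime 2 n := (Nat.coprime_two_left).2 hn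
      exact Nat.Coprime.pow_left 3 h3
    simpa using this
  obtain ⟨u, hu⟩ := hu8
  have h4 : ∑ l ∈ range n, jacobiSym (8 * (l : ℤ) + c) n = ∑ x : ZMod n, jz n (8 * x + (c : ZMod n)) := by
    refine zsum_range n (fun l => jacobiSym (8 * l + c) n) (fun x => jz n (8 * x + (c : ZMod n)))
      fun i => ?_
    have := jz_cast n (8 * (i : ℤ) + c)
    rw [← this]
    push_cast
    rfl
  have h5 : ∑ x : ZMod n, jz n (8 * x + (c : ZMod n)) = ∑ x : ZMod n, jz n x :=
    Fintype.sum_equiv ((Units.mulLeft u).trans (Equiv.addRight (c : ZMod n))) _ _ (fun x => by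
      simp [hu])
  rw [h1, h4, h5]
  unfold An
  split_ifs with h
  · rw [sum_jz_sq h]
    push_cast
    rfl
  · rw [sum_jz hn h]
    norm_num

lemma blocks {c n : ℕ} (hn : Odd n) (hc : c < 8) (k r : ℕ) :
    ∑ m ∈ range (8 * n * k + r), fc c n m = k * An n + ∑ m ∈ range r, fc c n m := by
  induction k with
  | zero => simp
  | succ k ih =>
    have e : 8 * n * (k + 1) + r = 8 * n + (8 * n * k + r) := by ring
    rw [e, sum_range_add, full hn hc]
    simp only [fc_per]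
    rw [ih]
    push_cast
    ring

lemma sum_fc_abs (c n r : ℕ) : |∑ m ∈ range r, fc c n m| ≤ r := by
  calc |∑ m ∈ range r, fc c n m| ≤ ∑ m ∈ range r, |fc c n m| := abs_sum_le_sum_abs _ _
    _ ≤ ∑ m ∈ range r, (1 : ℝ) := sum_le_sum fun m _ => fc_abs c n m
    _ = r := by simp

/-- the error term of the inner sum -/
lemma inner {c n : ℕ} (hn : Odd n) (hc : c < 8) (Z : ℝ) (hZ : 1 ≤ Z) :
    |∑ m ∈ range ⌈Z⌉₊, fc c n m - Z * (An n / (8 * n))| ≤ 10 * min Z n := by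
  have hn0 : 0 < n := Nat.pos_of_ne_zero (by rintro rfl; exact absurd hn (by decide))
  have hnR : (1 : ℝ) ≤ n := by exact_mod_cast hn0
  have h1 : Z ≤ ⌈Z⌉₊ := Nat.le_ceil Z
  have h2 : (⌈Z⌉₊ : ℝ) < Z + 1 := Nat.ceil_lt_add_one (by linarith)
  have hA0 := An_nonneg n
  have hA1 := An_le n
  have hq0 : 0 ≤ An n / (8 * n) := by positivity
  have hq1 : An n / (8 * n) ≤ 1 / 8 := by
    rw [div_le_div_iff₀ (by positivity) (by norm_num)]
    linarith
  have hM : |∑ m ∈ range ⌈Z⌉₊, fc c n m - (⌈Z⌉₊ : ℝ) * (An n / (8 * n))| ≤ 9 * n := by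
    have hdm := Nat.div_add_mod ⌈Z⌉₊ (8 * n)
    set k := ⌈Z⌉₊ / (8 * n) with hk
    set r := ⌈Z⌉₊ % (8 * n) with hr
    have hr8 : r < 8 * n := Nat.mod_lt _ (by omega)
    have hr8' : (r : ℝ) ≤ 8 * n := by exact_mod_cast hr8.le
    have e : (⌈Z⌉₊ : ℝ) = 8 * n * k + r := by
      rw [← hdm]
      push_cast
      ring
    rw [e]
    rw [← hdm, blocks hn hc]
    have e2 : (k : ℝ) * An n + ∑ m ∈ range r, fc c n m - (8 * n * k + r) * (An n / (8 * n)) =
        ∑ m ∈ range r, fc c n m - r * (An n / (8 * n)) := by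
      field_simp
      ring
    rw [e2]
    have h3 := sum_fc_abs c n r
    have h4 : (r : ℝ) * (An n / (8 * n)) ≤ n := by
      calc (r : ℝ) * (An n / (8 * n)) ≤ (8 * n) * (1 / 8) :=
            mul_le_mul hr8' hq1 hq0 (by positivity)
        _ = n := by ring
    have h5 : 0 ≤ (r : ℝ) * (An n / (8 * n)) := by positivity
    rw [abs_le] at h3 ⊢
    constructor <;> linarith
  have hM2 : |∑ m ∈ range ⌈Z⌉₊, fc c n m - (⌈Z⌉₊ : ℝ) * (An n / (8 * n))| ≤ 2 * (⌈Z⌉₊ : ℝ) := by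
    have h3 := sum_fc_abs c n ⌈Z⌉₊
    have h4 : (⌈Z⌉₊ : ℝ) * (An n / (8 * n)) ≤ (⌈Z⌉₊ : ℝ) * (1 / 8) :=
      mul_le_mul_of_nonneg_left hq1 (by positivity)
    have h5 : 0 ≤ (⌈Z⌉₊ : ℝ) * (An n / (8 * n)) := by positivity
    rw [abs_le] at h3 ⊢
    constructor <;> linarith
  have h6 : |(⌈Z⌉₊ : ℝ) * (An n / (8 * n)) - Z * (An n / (8 * n))| ≤ 1 / 8 := by
    rw [← sub_mul, abs_of_nonneg (mul_nonneg (by linarith) hq0)]
    calc ((⌈Z⌉₊ : ℝ) - Z) * (An n / (8 * n)) ≤ 1 * (1 / 8) :=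
          mul_le_mul (by linarith) hq1 hq0 zero_le_one
      _ = 1 / 8 := one_mul _
  have h7 := abs_sub_le (∑ m ∈ range ⌈Z⌉₊, fc c n m) ((⌈Z⌉₊ : ℝ) * (An n / (8 * n)))
    (Z * (An n / (8 * n)))
  rw [mul_min_of_nonneg _ _ (by norm_num : (0 : ℝ) ≤ 10)]
  refine le_min ?_ ?_ <;> linarith

/-! ### The sum over the squares -/

lemma min_sum (Y : ℝ) (hY : 0 < Y) (n : ℝ) (hn : 0 < n) (R : ℕ) :
    ∑ a ∈ Icc 1 R, min (Y / (a : ℝ) ^ 2) n ≤ 3 * (√Y * √n) := by
  have hsn : 0 < √n := Real.sqrt_pos.2 hn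
  have hsY : 0 < √Y := Real.sqrt_pos.2 hY
  set x := √Y / √n with hx
  have hx0 : 0 < x := by positivity
  set K := ⌊x⌋₊ with hK
  have hK1 : (K : ℝ) ≤ x := Nat.floor_le hx0.le
  have hK2 : x < K + 1 := Nat.lt_floor_add_one x
  have h1 : ∑ a ∈ Icc 1 R, min (Y / (a : ℝ) ^ 2) n ≤
      ∑ a ∈ Icc 1 K, n + ∑ a ∈ Ioo K (R + 1), Y * ((a : ℝ) ^ 2)⁻¹ := by
    have hsplit : Icc 1 R ⊆ Icc 1 K ∪ Ioo K (R + 1) := by
      intro a ha
      rw [mem_Icc] at ha
      rw [mem_union, mem_Icc, mem_Ioo]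
      omega
    have hdis : Disjoint (Icc 1 K) (Ioo K (R + 1)) := by
      rw [disjoint_left]
      intro a ha hb
      rw [mem_Icc] at ha
      rw [mem_Ioo] at hb
      omega
    calc ∑ a ∈ Icc 1 R, min (Y / (a : ℝ) ^ 2) n
        ≤ ∑ a ∈ Icc 1 K ∪ Ioo K (R + 1), min (Y / (a : ℝ) ^ 2) n :=
          sum_le_sum_of_subset_of_nonneg hsplit fun a _ _ => le_min (by positivity) hn.le
      _ = ∑ a ∈ Icc 1 K, min (Y / (a : ℝ) ^ 2) n + ∑ a ∈ Ioo K (R + 1), min (Y / (a : ℝ) ^ 2) n :=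
          sum_union hdis
      _ ≤ _ := by
          refine add_le_add (sum_le_sum fun a _ => min_le_right _ _) (sum_le_sum fun a _ => ?_)
          rw [← div_eq_mul_inv]
          exact min_le_left _ _
  have h2 : ∑ a ∈ Icc 1 K, n ≤ √Y * √n := by
    rw [sum_const, Nat.card_Icc, nsmul_eq_mul, Nat.add_sub_cancel]
    calc (K : ℝ) * n ≤ x * n := mul_le_mul_of_nonneg_right hK1 hn.le
      _ = √Y * √n := by
        rw [hx]
        have := Real.mul_self_sqrt hn.le
        field_simp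
        rw [sq, this]
  have h3 : ∑ a ∈ Ioo K (R + 1), Y * ((a : ℝ) ^ 2)⁻¹ ≤ 2 * (√Y * √n) := by
    rw [← mul_sum]
    have h4 := sum_Ioo_inv_sq_le (α := ℝ) K (R + 1)
    calc Y * ∑ a ∈ Ioo K (R + 1), ((a : ℝ) ^ 2)⁻¹ ≤ Y * (2 / (K + 1)) :=
          mul_le_mul_of_nonneg_left h4 hY.le
      _ ≤ Y * (2 / x) := by
          refine mul_le_mul_of_nonneg_left ?_ hY.le
          exact div_le_div_of_nonneg_left (by norm_num) hx0 hK2.le
      _ = 2 * (√Y * √n) := by
          rw [hx]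
          have := Real.mul_self_sqrt hY.le
          field_simp
          rw [sq, this]
  linarith

lemma tail {f : ℕ → ℝ} {S : ℝ} (hf : HasSum f S) (hb : ∀ a, |f a| ≤ ((a : ℝ) ^ 2)⁻¹) (h0 : f 0 = 0)
    (R : ℕ) : |∑ a ∈ Icc 1 R, f a - S| ≤ 2 / (R + 1) := by
  have h1 : ∑ a ∈ Icc 1 R, f a = ∑ a ∈ range (R + 1), f a := by
    rw [range_eq_Ico, sum_eq_sum_Ico_succ_bot (by omega), h0, zero_add]
    rfl
  rw [h1]
  have h2 : Tendsto (fun M : ℕ => |∑ a ∈ range (R + 1), f a - ∑ a ∈ range M, f a|) atTop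
      (𝓝 |∑ a ∈ range (R + 1), f a - S|) :=
    (tendsto_const_nhds.sub hf.tendsto_sum_nat).abs
  refine le_of_tendsto h2 ?_
  filter_upwards [eventually_ge_atTop (R + 1)] with M hM
  rw [abs_sub_comm, ← sum_Ico_eq_sub _ hM]
  calc |∑ a ∈ Ico (R + 1) M, f a| ≤ ∑ a ∈ Ico (R + 1) M, |f a| := abs_sum_le_sum_abs _ _
    _ ≤ ∑ a ∈ Ico (R + 1) M, ((a : ℝ) ^ 2)⁻¹ := sum_le_sum fun a _ => hb a
    _ = ∑ a ∈ Ioo R M, ((a : ℝ) ^ 2)⁻¹ := by
        refine sum_congr ?_ fun _ _ => rfl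
        ext a
        rw [mem_Ico, mem_Ioo]
        omega
    _ ≤ 2 / (R + 1) := sum_Ioo_inv_sq_le R M

/-! ### Squarefree integers in a class -/

open Classical in
/-- the sum over the squarefree integers of a class -/
noncomputable def SC (c : ℕ) (Y : ℝ) (n : ℕ) : ℝ :=
  ∑ d ∈ (range ⌈Y⌉₊).filter (fun d => d % 8 = c ∧ Squarefree d), ((jacobiSym (d : ℤ) n : ℤ) : ℝ)

lemma odd_sq_mod (a : ℕ) (ha : Odd a) : a ^ 2 % 8 = 1 := by
  obtain ⟨k, rfl⟩ := ha
  obtain ⟨j, hj⟩ := Nat.even_mul_succ_self k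
  have : (2 * k + 1) ^ 2 = 8 * j + 1 := by
    have h1 : (2 * k + 1) ^ 2 = 4 * (k * (k + 1)) + 1 := by ring
    rw [h1, hj]
    ring
  omega

lemma inner_sum {c n : ℕ} (hn : Odd n) (hco : Odd c) (Y : ℝ) (a : ℕ) (ha : 1 ≤ a) :
    ∑ d ∈ (range ⌈Y⌉₊).filter (fun d => d % 8 = c),
      (if a ^ 2 ∣ d then ((jacobiSym (d : ℤ) n : ℤ) : ℝ) else 0) =
    if a.Coprime (2 * n) then ∑ m ∈ range ⌈Y / (a : ℝ) ^ 2⌉₊, fc c n m else 0 := by
  have haR : (0 : ℝ) < (a : ℝ) ^ 2 := by positivity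
  rcases Nat.even_or_odd a with he | ho
  · rw [if_neg]
    · refine sum_eq_zero fun d hd => ?_
      rw [mem_filter] at hd
      rw [if_neg]
      intro hdv
      obtain ⟨k, hk⟩ := he
      obtain ⟨j, hj⟩ := hco
      have h1 : 2 ∣ d := by
        refine Dvd.dvd.trans ?_ hdv
        refine Dvd.dvd.trans ?_ (dvd_pow_self a two_ne_zero)
        exact ⟨k, by omega⟩
      omega
    · intro hcop
      have h1 : Nat.Coprime a 2 := Nat.Coprime.coprime_mul_right_right hcop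
      rw [Nat.coprime_two_right] at h1
      exact (Nat.not_even_iff_odd.2 h1) he
  · have hsq := odd_sq_mod a ho
    have ha2 : 0 < a ^ 2 := by positivity
    have h1 : ∑ d ∈ (range ⌈Y⌉₊).filter (fun d => d % 8 = c),
        (if a ^ 2 ∣ d then ((jacobiSym (d : ℤ) n : ℤ) : ℝ) else 0) =
        ∑ m ∈ (range ⌈Y / (a : ℝ) ^ 2⌉₊).filter (fun m => m % 8 = c),
          ((jacobiSym ((a ^ 2 * m : ℕ) : ℤ) n : ℤ) : ℝ) := by
      rw [← sum_filter]
      have hmod : ∀ m, (a ^ 2 * m) % 8 = m % 8 := fun m => by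
        rw [Nat.mul_mod, hsq, one_mul, Nat.mod_mod]
      have hlt : ∀ m : ℕ, a ^ 2 * m < ⌈Y⌉₊ ↔ m < ⌈Y / (a : ℝ) ^ 2⌉₊ := fun m => by
        rw [Nat.lt_ceil, Nat.lt_ceil, lt_div_iff₀ haR]
        push_cast
        rw [mul_comm]
      symm
      refine sum_nbij' (fun m => a ^ 2 * m) (fun d => d / a ^ 2) ?_ ?_ ?_ ?_ ?_
      · intro m hm
        rw [mem_filter, mem_range] at hm
        rw [mem_filter, mem_filter, mem_range, hlt, hmod]
        exact ⟨hm, Dvd.intro _ rfl⟩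
      · intro d hd
        rw [mem_filter, mem_filter, mem_range] at hd
        obtain ⟨⟨h1, h2⟩, ⟨m, rfl⟩⟩ := hd
        rw [Nat.mul_div_cancel_left _ ha2, mem_filter, mem_range, ← hlt, ← hmod]
        exact ⟨h1, h2⟩
      · intro m hm
        exact Nat.mul_div_cancel_left _ ha2
      · intro d hd
        rw [mem_filter] at hd
        exact Nat.mul_div_cancel' hd.2
      · intro m hm
        rfl
    rw [h1]
    have hj : ∀ m : ℕ, jacobiSym ((a ^ 2 * m : ℕ) : ℤ) n =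
        if a.Coprime n then jacobiSym (m : ℤ) n else 0 := by
      intro m
      push_cast
      rw [jacobiSym.mul_left, jacobiSym.pow_left]
      by_cases hcop : a.Coprime n
      · rw [if_pos hcop, jacobiSym.sq_one (by rw [Int.gcd_natCast_natCast]; exact hcop), one_mul]
      · rw [if_neg hcop]
        have : NeZero n := ⟨by rintro rfl; exact absurd hn (by decide)⟩
        rw [jacobiSym.eq_zero_iff_not_coprime.2 (by rw [Int.gcd_natCast_natCast]; exact hcop)]
        ring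
    have hiff : a.Coprime (2 * n) ↔ a.Coprime n := by
      constructor
      · exact fun h => Nat.Coprime.coprime_mul_left_right h
      · exact fun h => Nat.Coprime.mul_right (Nat.coprime_two_right.2 ho) h
    simp only [hj]
    by_cases hcop : a.Coprime n
    · rw [if_pos (hiff.2 hcop)]
      simp only [if_pos hcop]
      unfold fc
      rw [sum_filter]
    · rw [if_neg (fun h => hcop (hiff.1 h))]
      simp only [if_neg hcop]
      simp

lemma SC_eq {c n : ℕ} (hn : Odd n) (hco : Odd c) (Y : ℝ) :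
    SC c Y n = ∑ a ∈ Icc 1 ⌊√Y⌋₊, mu a *
      (if a.Coprime (2 * n) then ∑ m ∈ range ⌈Y / (a : ℝ) ^ 2⌉₊, fc c n m else 0) := by
  classical
  have h1 : SC c Y n = ∑ d ∈ (range ⌈Y⌉₊).filter (fun d => d % 8 = c),
      ∑ a ∈ Icc 1 ⌊√Y⌋₊, mu a * (if a ^ 2 ∣ d then ((jacobiSym (d : ℤ) n : ℤ) : ℝ) else 0) := by
    unfold SC
    rw [← filter_filter, sum_filter]
    refine sum_congr rfl fun d hd => ?_
    rw [mem_filter, mem_range, Nat.lt_ceil] at hd
    have hd0 : d ≠ 0 := by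
      rintro rfl
      obtain ⟨j, hj⟩ := hco
      omega
    have h2 : (if Squarefree d then ((jacobiSym (d : ℤ) n : ℤ) : ℝ) else 0) =
        (if Squarefree d then (1 : ℝ) else 0) * ((jacobiSym (d : ℤ) n : ℤ) : ℝ) := by
      split_ifs <;> ring
    rw [h2, indic_eq d hd0, ← sum_filter, sum_mul]
    have h3 : (Icc 1 d).filter (fun a => a ^ 2 ∣ d) = (Icc 1 ⌊√Y⌋₊).filter (fun a => a ^ 2 ∣ d) := by
      ext a
      rw [mem_filter, mem_filter, mem_Icc, mem_Icc]
      constructor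
      · rintro ⟨⟨h4, h5⟩, h6⟩
        refine ⟨⟨h4, ?_⟩, h6⟩
        refine Nat.le_floor ?_
        have h7 := Nat.le_of_dvd (Nat.pos_of_ne_zero hd0) h6
        have h8 : ((a : ℝ)) ^ 2 ≤ d := by exact_mod_cast h7
        exact Real.le_sqrt_of_sq_le (h8.trans hd.1.le)
      · rintro ⟨⟨h4, h5⟩, h6⟩
        refine ⟨⟨h4, ?_⟩, h6⟩
        have h7 := Nat.le_of_dvd (Nat.pos_of_ne_zero hd0) h6
        nlinarith
    rw [h3, sum_filter]
    refine sum_congr rfl fun a _ => ?_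
    split_ifs <;> ring
  rw [h1, sum_comm]
  refine sum_congr rfl fun a ha => ?_
  rw [← mul_sum, inner_sum hn hco Y a (mem_Icc.1 ha).1]

/-- the coefficients of the sum over the squares -/
noncomputable def ga (n a : ℕ) : ℝ := mu a * (if a.Coprime (2 * n) then 1 / (a : ℝ) ^ 2 else 0)

lemma ga_sum {n : ℕ} (hn : Odd n) : HasSum (ga n) (6 / Real.pi ^ 2 / ep (2 * n)) := by
  refine mu_sum ?_
  obtain ⟨k, hk⟩ := hn
  omega

lemma ga_abs (n a : ℕ) : |ga n a| ≤ ((a : ℝ) ^ 2)⁻¹ := by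
  unfold ga
  rw [abs_mul]
  have h1 := abs_mu_le a
  have h2 : |(if a.Coprime (2 * n) then 1 / (a : ℝ) ^ 2 else 0)| ≤ ((a : ℝ) ^ 2)⁻¹ := by
    split_ifs
    · rw [abs_of_nonneg (by positivity), one_div]
    · rw [abs_zero]
      positivity
  calc _ ≤ 1 * ((a : ℝ) ^ 2)⁻¹ := mul_le_mul h1 h2 (abs_nonneg _) zero_le_one
    _ = _ := one_mul _

lemma ep_two {n : ℕ} (hn : Odd n) : ep (2 * n) = 3 / 4 * ep n := by
  unfold ep
  have hn0 : n ≠ 0 := by rintro rfl; exact absurd hn (by decide)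
  rw [Nat.primeFactors_mul two_ne_zero hn0, Nat.Prime.primeFactors Nat.prime_two]
  have h2 : (2 : ℕ) ∉ n.primeFactors := by
    intro h
    have := Nat.dvd_of_mem_primeFactors h
    obtain ⟨k, hk⟩ := hn
    omega
  rw [← insert_eq, prod_insert h2]
  norm_num

lemma af_pos (n : ℕ) : 0 < af n := by
  unfold af
  refine prod_pos fun p hp => ?_
  have := (Nat.prime_of_mem_primeFactors hp).pos
  have : (0 : ℝ) < p := by exact_mod_cast this
  positivity

lemma af_le (n : ℕ) : af n ≤ 1 := by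
  unfold af
  refine prod_le_one (fun p _ => by positivity) fun p _ => ?_
  rw [div_le_one (by positivity)]
  linarith

lemma tot_eq (n : ℕ) : (n.totient : ℝ) = n * (af n * ep n) := by
  have h1 := Nat.totient_eq_mul_prod_factors n
  have h2 : (n.totient : ℝ) = n * ∏ p ∈ n.primeFactors, (1 - (p : ℝ)⁻¹) := by
    have := congrArg (fun q : ℚ => (q : ℝ)) h1
    push_cast at this
    exact this
  rw [h2]
  congr 1
  unfold af ep
  rw [← prod_mul_distrib]
  refine prod_congr rfl fun p hp => ?_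
  have := (Nat.prime_of_mem_primeFactors hp).pos
  have hp0 : (0 : ℝ) < p := by exact_mod_cast this
  have hp1 : (p : ℝ) + 1 ≠ 0 := by positivity
  field_simp
  ring

open Classical in
/-- the main term -/
noncomputable def mt (n : ℕ) : ℝ := if IsSquare n then af n / Real.pi ^ 2 else 0

lemma mt_eq {n : ℕ} (hn : Odd n) : An n / (8 * n) * (6 / Real.pi ^ 2 / ep (2 * n)) = mt n := by
  have hn0 : n ≠ 0 := by rintro rfl; exact absurd hn (by decide)
  have hnR : (0 : ℝ) < n := by exact_mod_cast Nat.pos_of_ne_zero hn0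
  unfold An mt
  split_ifs with h
  · rw [ep_two hn, tot_eq n]
    have := ep_pos n
    have hpi := Real.pi_pos
    field_simp
    ring
  · rw [zero_div, zero_mul]

theorem SC_main {c n : ℕ} (hn : Odd n) (hco : Odd c) (hc : c < 8) (Y : ℝ) (hY : 0 < Y) :
    |SC c Y n - Y * mt n| ≤ 31 * (√Y * √n) := by
  have hn0 : 0 < n := Nat.pos_of_ne_zero (by rintro rfl; exact absurd hn (by decide))
  have hnR : (1 : ℝ) ≤ n := by exact_mod_cast hn0
  have hsn : 1 ≤ √(n : ℝ) := by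
    rw [Real.le_sqrt (by norm_num) (by linarith)]
    simpa using hnR
  have hsY : 0 < √Y := Real.sqrt_pos.2 hY
  rw [SC_eq hn hco Y]
  set R := ⌊√Y⌋₊ with hR
  have hR1 : (R : ℝ) ≤ √Y := Nat.floor_le hsY.le
  have hR2 : √Y < R + 1 := Nat.lt_floor_add_one _
  have hA0 := An_nonneg n
  have hA1 := An_le n
  have hq0 : 0 ≤ An n / (8 * n) := by positivity
  have hq1 : An n / (8 * n) ≤ 1 / 8 := by
    rw [div_le_div_iff₀ (by positivity) (by norm_num)]
    linarith
  -- the error terms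
  have h1 : |∑ a ∈ Icc 1 R, mu a *
      (if a.Coprime (2 * n) then ∑ m ∈ range ⌈Y / (a : ℝ) ^ 2⌉₊, fc c n m else 0) -
      Y * (An n / (8 * n)) * ∑ a ∈ Icc 1 R, ga n a| ≤ 30 * (√Y * √n) := by
    rw [mul_sum, ← sum_sub_distrib]
    calc |∑ a ∈ Icc 1 R, (mu a *
        (if a.Coprime (2 * n) then ∑ m ∈ range ⌈Y / (a : ℝ) ^ 2⌉₊, fc c n m else 0) -
        Y * (An n / (8 * n)) * ga n a)|
        ≤ ∑ a ∈ Icc 1 R, |mu a *
          (if a.Coprime (2 * n) then ∑ m ∈ range ⌈Y / (a : ℝ) ^ 2⌉₊, fc c n m else 0) -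
          Y * (An n / (8 * n)) * ga n a| := abs_sum_le_sum_abs _ _
      _ ≤ ∑ a ∈ Icc 1 R, 10 * min (Y / (a : ℝ) ^ 2) n := by
          refine sum_le_sum fun a ha => ?_
          rw [mem_Icc] at ha
          have haR : (1 : ℝ) ≤ a := by exact_mod_cast ha.1
          have ha2 : (a : ℝ) ≤ √Y := le_trans (by exact_mod_cast ha.2) hR1
          have hZ : 1 ≤ Y / (a : ℝ) ^ 2 := by
            rw [le_div_iff₀ (by positivity), one_mul]
            calc (a : ℝ) ^ 2 ≤ √Y ^ 2 := pow_le_pow_left₀ (by linarith) ha2 2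
              _ = Y := Real.sq_sqrt hY.le
          have hmin0 : 0 ≤ min (Y / (a : ℝ) ^ 2) n := le_min (by positivity) (by positivity)
          unfold ga
          by_cases hcop : a.Coprime (2 * n)
          · rw [if_pos hcop, if_pos hcop]
            have e : mu a * ∑ m ∈ range ⌈Y / (a : ℝ) ^ 2⌉₊, fc c n m -
                Y * (An n / (8 * n)) * (mu a * (1 / (a : ℝ) ^ 2)) =
                mu a * (∑ m ∈ range ⌈Y / (a : ℝ) ^ 2⌉₊, fc c n m -
                  Y / (a : ℝ) ^ 2 * (An n / (8 * n))) := by ring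
            rw [e, abs_mul]
            calc _ ≤ 1 * (10 * min (Y / (a : ℝ) ^ 2) n) :=
                  mul_le_mul (abs_mu_le a) (inner hn hc _ hZ) (abs_nonneg _) zero_le_one
              _ = _ := one_mul _
          · rw [if_neg hcop, if_neg hcop]
            simp only [mul_zero, sub_zero, abs_zero]
            linarith
      _ = 10 * ∑ a ∈ Icc 1 R, min (Y / (a : ℝ) ^ 2) n := by rw [mul_sum]
      _ ≤ 10 * (3 * (√Y * √n)) :=
          mul_le_mul_of_nonneg_left (min_sum Y hY n (by linarith) R) (by norm_num)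
      _ = 30 * (√Y * √n) := by ring
  have h2 : |Y * (An n / (8 * n)) * ∑ a ∈ Icc 1 R, ga n a - Y * mt n| ≤ √Y * √n := by
    rw [← mt_eq hn]
    have e : Y * (An n / (8 * n)) * ∑ a ∈ Icc 1 R, ga n a -
        Y * (An n / (8 * n) * (6 / Real.pi ^ 2 / ep (2 * n))) =
        Y * (An n / (8 * n)) * (∑ a ∈ Icc 1 R, ga n a - 6 / Real.pi ^ 2 / ep (2 * n)) := by ring
    rw [e, abs_mul, abs_of_nonneg (mul_nonneg hY.le hq0)]
    have h3 := tail (ga_sum hn) (ga_abs n) (by unfold ga; rw [mu_zero, zero_mul]) R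
    calc Y * (An n / (8 * n)) * |∑ a ∈ Icc 1 R, ga n a - 6 / Real.pi ^ 2 / ep (2 * n)|
        ≤ Y * (1 / 8) * (2 / √Y) := by
          refine mul_le_mul (mul_le_mul_of_nonneg_left hq1 hY.le) (h3.trans ?_) (abs_nonneg _)
            (by positivity)
          exact div_le_div_of_nonneg_left (by norm_num) hsY hR2.le
      _ = √Y / 4 := by
          have := Real.mul_self_sqrt hY.le
          field_simp
          rw [sq, this]
          ring
      _ ≤ √Y * √n := by nlinarith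
  have h3 := abs_sub_le (∑ a ∈ Icc 1 R, mu a *
      (if a.Coprime (2 * n) then ∑ m ∈ range ⌈Y / (a : ℝ) ^ 2⌉₊, fc c n m else 0))
      (Y * (An n / (8 * n)) * ∑ a ∈ Icc 1 R, ga n a) (Y * mt n)
  linarith

/-! ### Sets of classes -/

open Classical in
/-- the sum over the squarefree integers of several classes -/
noncomputable def SR (R : Finset ℕ) (Y : ℝ) (n : ℕ) : ℝ :=
  ∑ d ∈ (range ⌈Y⌉₊).filter (fun d => d % 8 ∈ R ∧ Squarefree d), ((jacobiSym (d : ℤ) n : ℤ) : ℝ)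

lemma SR_eq (R : Finset ℕ) (Y : ℝ) (n : ℕ) : SR R Y n = ∑ c ∈ R, SC c Y n := by
  classical
  unfold SR SC
  rw [← sum_fiberwise_of_maps_to (g := fun d => d % 8) (t := R) (fun d hd => by
    rw [mem_filter] at hd
    exact hd.2.1)]
  refine sum_congr rfl fun c hc => ?_
  rw [filter_filter]
  refine sum_congr ?_ fun _ _ => rfl
  ext d
  simp only [mem_filter]
  constructor
  · rintro ⟨h1, ⟨h2, h3⟩, h4⟩
    exact ⟨h1, h4, h3⟩
  · rintro ⟨h1, h4, h3⟩
    exact ⟨h1, ⟨h4 ▸ hc, h3⟩, h4⟩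

lemma SR_main {n : ℕ} (hn : Odd n) (R : Finset ℕ) (hR : ∀ c ∈ R, Odd c ∧ c < 8) (hR4 : R.card ≤ 4)
    (Y : ℝ) (hY : 0 < Y) : |SR R Y n - R.card * (Y * mt n)| ≤ 124 * (√Y * √n) := by
  rw [SR_eq]
  have h1 : ∑ c ∈ R, SC c Y n - R.card * (Y * mt n) = ∑ c ∈ R, (SC c Y n - Y * mt n) := by
    rw [sum_sub_distrib, sum_const, nsmul_eq_mul]
  rw [h1]
  have h4 : (R.card : ℝ) ≤ 4 := by exact_mod_cast hR4
  calc |∑ c ∈ R, (SC c Y n - Y * mt n)| ≤ ∑ c ∈ R, |SC c Y n - Y * mt n| := abs_sum_le_sum_abs _ _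
    _ ≤ ∑ c ∈ R, 31 * (√Y * √n) := sum_le_sum fun c hc =>
        SC_main hn (hR c hc).1 (hR c hc).2 Y hY
    _ = R.card * (31 * (√Y * √n)) := by rw [sum_const, nsmul_eq_mul]
    _ ≤ 4 * (31 * (√Y * √n)) := mul_le_mul_of_nonneg_right h4 (by positivity)
    _ = 124 * (√Y * √n) := by ring

/-! ### Families -/

open Pool.Agent.H306R2.RG (FD F8 F4 F1 Fam cf jo)
open Pool.Agent.H306R2.RZ (js)

open Classical in
/-- the squarefree members of a family with conductor `< X` -/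
noncomputable def DF (φ : FD) (X : ℝ) : Finset ℕ :=
  (range ⌈X⌉₊).filter (fun d => φ.A d ∧ Squarefree d ∧ ((φ.r * d : ℕ) : ℝ) < X)

lemma js_mul (a b : ℤ) (n : ℕ) : js (a * b) n = js a n * js b n := by
  unfold js
  rw [jacobiSym.mul_left]
  push_cast
  ring

lemma js_abs (a : ℤ) (n : ℕ) : |js a n| ≤ 1 := jac_absR a n

lemma cf_abs (φ : FD) (hη : |φ.η| ≤ 1) (d n : ℕ) : |cf φ d n| ≤ 1 := by
  unfold cf jo
  rw [abs_mul, abs_pow]
  have h1 : |φ.η| ^ (n.factorization 2) ≤ 1 := pow_le_one₀ (abs_nonneg _) hη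
  have h2 : |(if Odd (n / 2 ^ (n.factorization 2)) then
      js (φ.e * (d : ℤ)) (n / 2 ^ (n.factorization 2)) else 0)| ≤ 1 := by
    split_ifs
    · exact js_abs _ _
    · rw [abs_zero]
      exact zero_le_one
  calc _ ≤ 1 * (1 : ℝ) := mul_le_mul h1 h2 (abs_nonneg _) zero_le_one
    _ = 1 := one_mul _

lemma odd_part {n : ℕ} (hn : n ≠ 0) : Odd (n / 2 ^ (n.factorization 2)) :=
  Nat.coprime_two_left.1 (Nat.coprime_ordCompl Nat.prime_two hn)

lemma fam_bound (φ : FD) (R : Finset ℕ) (hr : 1 ≤ φ.r) (h1 : ∀ d, φ.A d → d % 8 ∈ R)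
    (h2 : ∀ d, d % 8 ∈ R → Squarefree d → ¬ φ.A d → d = 1) (hη : |φ.η| ≤ 1) (X : ℝ) (n : ℕ)
    (hn : n ≠ 0) :
    |∑ d ∈ DF φ X, cf φ d n - φ.η ^ (n.factorization 2) * js φ.e (n / 2 ^ (n.factorization 2)) *
      SR R (X / φ.r) (n / 2 ^ (n.factorization 2))| ≤ 1 := by
  classical
  have hrR : (1 : ℝ) ≤ φ.r := by exact_mod_cast hr
  have ho := odd_part hn
  set D' := (range ⌈X / φ.r⌉₊).filter (fun d => d % 8 ∈ R ∧ Squarefree d) with hD'
  have hsub : DF φ X ⊆ D' := by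
    intro d hd
    unfold DF at hd
    rw [mem_filter] at hd
    rw [hD', mem_filter, mem_range, Nat.lt_ceil, lt_div_iff₀ (by linarith)]
    have h3 := hd.2.2.2
    push_cast at h3
    exact ⟨by linarith, h1 d hd.2.1, hd.2.2.1⟩
  have h3 : φ.η ^ (n.factorization 2) * js φ.e (n / 2 ^ (n.factorization 2)) *
      SR R (X / φ.r) (n / 2 ^ (n.factorization 2)) = ∑ d ∈ D', cf φ d n := by
    unfold SR
    rw [mul_sum]
    refine sum_congr rfl fun d _ => ?_
    unfold cf jo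
    rw [if_pos ho, js_mul]
    unfold js
    ring
  rw [h3, abs_sub_comm, ← sum_sdiff hsub, add_sub_cancel_right]
  have h4 : D' \ DF φ X ⊆ {1} := by
    intro d hd
    rw [Finset.mem_sdiff, hD', mem_filter, mem_range, Nat.lt_ceil, lt_div_iff₀ (by linarith)] at hd
    obtain ⟨⟨h5, h6, h7⟩, h8⟩ := hd
    rw [mem_singleton]
    refine h2 d h6 h7 fun hA => h8 ?_
    unfold DF
    have h9 : ((φ.r * d : ℕ) : ℝ) < X := by
      push_cast
      linarith
    rw [mem_filter, mem_range, Nat.lt_ceil]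
    refine ⟨?_, hA, h7, h9⟩
    push_cast at h9
    have : (0 : ℝ) ≤ d := Nat.cast_nonneg d
    nlinarith
  calc |∑ d ∈ D' \ DF φ X, cf φ d n| ≤ ∑ d ∈ D' \ DF φ X, |cf φ d n| := abs_sum_le_sum_abs _ _
    _ ≤ ∑ d ∈ D' \ DF φ X, (1 : ℝ) := sum_le_sum fun d _ => cf_abs φ hη d n
    _ = ((D' \ DF φ X).card : ℝ) := by simp
    _ ≤ 1 := by
        have := card_le_card h4
        rw [card_singleton] at this
        exact_mod_cast this

/-! ### Classification -/

lemma two_le {N : ℕ} (χ : DirichletCharacter ℂ N) (h : χ ≠ 1) (hN : N ≠ 0) : 2 ≤ N := by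
  by_contra hc
  have : N = 1 := by omega
  subst this
  exact h (DirichletCharacter.level_one χ)

lemma rp_of (s : ℤ) (hs : s = 1 ∨ s = -1) (φ : FD)
    (hφ : φ = F8 s ∨ φ = F4 s ∨ φ = F1 s 1 ∨ φ = F1 s 5) (d : ℕ) (hd : φ.A d) (hsq : Squarefree d) :
    0 < d ∧ 1 ≤ φ.r ∧ 2 ≤ φ.r * d ∧ ∃ χ : DirichletCharacter ℂ (φ.r * d), Rp s χ ∧
      ∀ n : ℕ, n ≠ 0 → χ (n : ZMod (φ.r * d)) = ((cf φ d n : ℝ) : ℂ) := by
  obtain ⟨h1, χ, h2, h3, h4, h5, h6⟩ := Pool.Agent.H328R9.RG.CC1 φ ⟨s, hs, hφ⟩ d hd hsq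
  have hr : 1 ≤ φ.r := by
    rcases hφ with rfl | rfl | rfl | rfl <;> simp [F8, F4, F1]
  refine ⟨h1, hr, two_le χ h4 (by positivity), χ, ⟨h2, h3, h4, ?_⟩, h5⟩
  rw [h6]
  have ha : φ.a = if s = 1 then 0 else 1 := by
    rcases hφ with rfl | rfl | rfl | rfl <;> rfl
  rw [ha]
  rcases hs with rfl | rfl
  · simp
  · norm_num

lemma vl_eq (hU : S_UNI) {s : ℤ} {q : ℕ} (hq : 2 ≤ q) (χ : DirichletCharacter ℂ q) (hχ : Rp s χ)
    (n : ℕ) : vl s q n = χ (n : ZMod q) := by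
  have h : Is s q := ⟨hq, χ, hχ⟩
  unfold vl ch
  rw [dif_pos h, hU s q _ χ (by omega) h.2.choose_spec hχ]

/-- the four families -/
noncomputable def fam (s : ℤ) : Fin 4 → FD := ![F8 s, F4 s, F1 s 1, F1 s 5]

lemma fam_mem (s : ℤ) (i : Fin 4) :
    fam s i = F8 s ∨ fam s i = F4 s ∨ fam s i = F1 s 1 ∨ fam s i = F1 s 5 := by
  fin_cases i
  · exact Or.inl rfl
  · exact Or.inr (Or.inl rfl)
  · exact Or.inr (Or.inr (Or.inl rfl))
  · exact Or.inr (Or.inr (Or.inr rfl))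

lemma fam_odd (s : ℤ) (hs : s = 1 ∨ s = -1) (i : Fin 4) (d : ℕ) (h : (fam s i).A d) :
    d % 2 = 1 := by
  fin_cases i
  · have h1 : Odd d := h
    obtain ⟨k, hk⟩ := h1
    omega
  · have h1 : (s * (d : ℤ)) % 4 = 3 := h
    rcases hs with rfl | rfl <;> omega
  · have h1 : (s * (d : ℤ)) % 8 = 1 := h.1
    rcases hs with rfl | rfl <;> omega
  · have h1 : (s * (d : ℤ)) % 8 = 5 := h.1
    rcases hs with rfl | rfl <;> omega

lemma fam_inj (s : ℤ) (hs : s = 1 ∨ s = -1) (i j : Fin 4) (d e : ℕ) (hd : (fam s i).A d)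
    (he : (fam s j).A e) (h : (fam s i).r * d = (fam s j).r * e) : i = j ∧ d = e := by
  have h1 := fam_odd s hs i d hd
  have h2 := fam_odd s hs j e he
  have r0 : (fam s 0).r = 8 := rfl
  have r1 : (fam s 1).r = 4 := rfl
  have r2 : (fam s 2).r = 1 := rfl
  have r3 : (fam s 3).r = 1 := rfl
  have key : ∀ i j : Fin 4, (fam s i).A d → (fam s j).A e → (fam s i).r * d = (fam s j).r * e →
      i = j ∧ d = e := by
    intro i j hd he h
    match i, j with
    | 0, 0 => rw [r0] at h; exact ⟨rfl, by omega⟩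
    | 0, 1 => rw [r0, r1] at h; omega
    | 0, 2 => rw [r0, r2] at h; omega
    | 0, 3 => rw [r0, r3] at h; omega
    | 1, 0 => rw [r1, r0] at h; omega
    | 1, 1 => rw [r1] at h; exact ⟨rfl, by omega⟩
    | 1, 2 => rw [r1, r2] at h; omega
    | 1, 3 => rw [r1, r3] at h; omega
    | 2, 0 => rw [r2, r0] at h; omega
    | 2, 1 => rw [r2, r1] at h; omega
    | 2, 2 => rw [r2] at h; exact ⟨rfl, by omega⟩
    | 2, 3 =>
      rw [r2, r3] at h
      have a1 : (s * (d : ℤ)) % 8 = 1 := hd.1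
      have a2 : (s * (e : ℤ)) % 8 = 5 := he.1
      have a3 : d = e := by omega
      rw [a3] at a1
      omega
    | 3, 0 => rw [r3, r0] at h; omega
    | 3, 1 => rw [r3, r1] at h; omega
    | 3, 2 =>
      rw [r3, r2] at h
      have a1 : (s * (d : ℤ)) % 8 = 5 := hd.1
      have a2 : (s * (e : ℤ)) % 8 = 1 := he.1
      have a3 : d = e := by omega
      rw [a3] at a1
      omega
    | 3, 3 => rw [r3] at h; exact ⟨rfl, by omega⟩
  exact key i j hd he h

lemma fam_surj (s : ℤ) (q : ℕ) (hq : 2 ≤ q) (χ : DirichletCharacter ℂ q) (hχ : Rp s χ) :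
    ∃ (i : Fin 4) (d : ℕ), (fam s i).A d ∧ Squarefree d ∧ q = (fam s i).r * d := by
  obtain ⟨φ, d, h1, h2, h3, h4, h5⟩ := Pool.Agent.H987R2.RGCLS.CLS q (by omega) χ hχ.1 hχ.2.1 hχ.2.2.1
  subst h4
  obtain ⟨h6, χ', h7, h8, h9, h10, h11⟩ := Pool.Agent.H328R9.RG.CC1 φ h1 d h2 h3
  have hneg : ((-1 : ZMod (φ.r * d))) = ((φ.r * d - 1 : ℕ) : ZMod (φ.r * d)) := by
    rw [Nat.cast_sub (by omega), ZMod.natCast_self]
    simp
  have h12 : χ (-1) = χ' (-1) := by
    rw [hneg, h5 _ (by omega), h10 _ (by omega)]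
  rw [h11, hχ.2.2.2] at h12
  obtain ⟨ε, hε, hφ⟩ := h1
  have ha : φ.a = if ε = 1 then 0 else 1 := by
    rcases hφ with rfl | rfl | rfl | rfl <;> rfl
  rw [ha] at h12
  have hsε : s = ε := by
    rcases hε with rfl | rfl
    · simp only [if_true] at h12
      exact_mod_cast h12
    · norm_num at h12
      exact_mod_cast h12
  subst hsε
  rcases hφ with rfl | rfl | rfl | rfl
  · exact ⟨0, d, h2, h3, rfl⟩
  · exact ⟨1, d, h2, h3, rfl⟩
  · exact ⟨2, d, h2, h3, rfl⟩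
  · exact ⟨3, d, h2, h3, rfl⟩

lemma class_sum (hU : S_UNI) (s : ℤ) (hs : s = 1 ∨ s = -1) (X : ℝ) (n : ℕ) (hn : 1 ≤ n) :
    ∑ q ∈ Q s X, vl s q n = ((∑ i : Fin 4, ∑ d ∈ DF (fam s i) X, cf (fam s i) d n : ℝ) : ℂ) := by
  classical
  rw [Complex.ofReal_sum]
  simp only [Complex.ofReal_sum]
  rw [sum_sigma']
  symm
  have hmem : ∀ x : (_ : Fin 4) × ℕ, x ∈ (univ : Finset (Fin 4)).sigma (fun i => DF (fam s i) X) →
      (fam s x.1).A x.2 ∧ Squarefree x.2 ∧ (((fam s x.1).r * x.2 : ℕ) : ℝ) < X := by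
    intro x hx
    rw [mem_sigma] at hx
    have := hx.2
    unfold DF at this
    rw [mem_filter] at this
    exact this.2
  refine sum_nbij (fun x => (fam s x.1).r * x.2) ?_ ?_ ?_ ?_
  · intro x hx
    obtain ⟨h1, h2, h3⟩ := hmem x hx
    obtain ⟨h4, h5, h6, χ, h7, -⟩ := rp_of s hs (fam s x.1) (fam_mem s x.1) x.2 h1 h2
    unfold Q
    rw [mem_filter, mem_Ico, Nat.lt_ceil]
    exact ⟨⟨h6, h3⟩, h6, χ, h7⟩
  · intro x hx y hy hxy
    obtain ⟨h1, -, -⟩ := hmem x (mem_coe.1 hx)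
    obtain ⟨h2, -, -⟩ := hmem y (mem_coe.1 hy)
    obtain ⟨h3, h4⟩ := fam_inj s hs x.1 y.1 x.2 y.2 h1 h2 hxy
    exact Sigma.ext h3 (heq_of_eq h4)
  · intro q hq
    rw [mem_coe] at hq
    unfold Q at hq
    rw [mem_filter, mem_Ico, Nat.lt_ceil] at hq
    obtain ⟨⟨h1, h2⟩, h3, χ, hχ⟩ := hq
    obtain ⟨i, d, h4, h5, h6⟩ := fam_surj s q h1 χ hχ
    refine ⟨⟨i, d⟩, ?_, h6.symm⟩
    rw [mem_coe, mem_sigma]
    refine ⟨mem_univ _, ?_⟩
    unfold DF
    rw [mem_filter, mem_range, Nat.lt_ceil]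
    obtain ⟨-, h7, -, -⟩ := rp_of s hs (fam s i) (fam_mem s i) d h4 h5
    rw [h6] at h2
    refine ⟨lt_of_le_of_lt ?_ h2, h4, h5, h2⟩
    exact_mod_cast Nat.le_mul_of_pos_left d h7
  · intro x hx
    obtain ⟨h1, h2, h3⟩ := hmem x hx
    obtain ⟨h4, h5, h6, χ, h7, h8⟩ := rp_of s hs (fam s x.1) (fam_mem s x.1) x.2 h1 h2
    rw [vl_eq hU h6 χ h7, h8 n (by omega)]

/-! ### The final count -/

lemma sq_iff {n : ℕ} (hn : n ≠ 0) :
    IsSquare n ↔ (IsSquare (n / 2 ^ n.factorization 2) ∧ Even (n.factorization 2)) := by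
  constructor
  · rintro ⟨m, rfl⟩
    have hm : m ≠ 0 := by
      rintro rfl
      exact hn rfl
    have h1 : (m * m).factorization 2 = m.factorization 2 + m.factorization 2 := by
      rw [Nat.factorization_mul hm hm]
      rfl
    refine ⟨⟨m / 2 ^ m.factorization 2, ?_⟩, ?_⟩
    · rw [h1, pow_add, Nat.div_mul_div_comm (Nat.ordProj_dvd m 2) (Nat.ordProj_dvd m 2)]
    · exact ⟨_, h1⟩
  · rintro ⟨⟨r, hr⟩, ⟨k, hk⟩⟩
    have h1 := Nat.ordProj_mul_ordCompl_eq_self n 2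
    refine ⟨2 ^ k * r, ?_⟩
    rw [← h1, hr, hk, pow_add]
    ring

lemma af_n {n : ℕ} (hn : n ≠ 0) :
    af n = (if n.factorization 2 = 0 then 1 else 2 / 3) * af (n / 2 ^ n.factorization 2) := by
  by_cases h : n.factorization 2 = 0
  · rw [if_pos h, h, pow_zero, Nat.div_one, one_mul]
  · rw [if_neg h]
    have ho := odd_part hn
    have h1 := Nat.ordProj_mul_ordCompl_eq_self n 2
    set b := n.factorization 2 with hb
    set m := n / 2 ^ b with hm
    have hm0 : m ≠ 0 := by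
      intro h0
      rw [h0] at ho
      exact absurd ho (by decide)
    have h2 : n.primeFactors = insert 2 m.primeFactors := by
      rw [← h1, Nat.primeFactors_mul (pow_ne_zero _ two_ne_zero) hm0,
        Nat.primeFactors_prime_pow h Nat.prime_two]
      rfl
    have h3 : (2 : ℕ) ∉ m.primeFactors := by
      intro h4
      have := Nat.dvd_of_mem_primeFactors h4
      obtain ⟨k, hk⟩ := ho
      omega
    unfold af
    rw [h2, prod_insert h3]
    norm_num

lemma js_sq {e : ℤ} (he : e = 1 ∨ e = -1 ∨ e = 2 ∨ e = -2) {m : ℕ} (hm : Odd m) (h : IsSquare m) :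
    js e m = 1 := by
  obtain ⟨r, rfl⟩ := h
  have hr : Odd r := (Nat.odd_mul.1 hm).1
  have : NeZero r := ⟨by rintro rfl; exact absurd hr (by decide)⟩
  have h2 : Int.gcd e r = 1 := by
    have h3 : Nat.Coprime 2 r := Nat.coprime_two_left.2 hr
    rcases he with rfl | rfl | rfl | rfl
    · simp
    · simp
    · exact h3
    · exact h3
  unfold js
  rw [jacobiSym.mul_right, ← sq, jacobiSym.sq_one h2]
  norm_num

lemma js_mt {e : ℤ} (he : e = 1 ∨ e = -1 ∨ e = 2 ∨ e = -2) {m : ℕ} (hm : Odd m) :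
    js e m * mt m = mt m := by
  unfold mt
  split_ifs with h
  · rw [js_sq he hm h, one_mul]
  · rw [mul_zero]

lemma one_fam (φ : FD) (R : Finset ℕ) (hr : 1 ≤ φ.r) (h1 : ∀ d, φ.A d → d % 8 ∈ R)
    (h2 : ∀ d, d % 8 ∈ R → Squarefree d → ¬ φ.A d → d = 1) (hη : |φ.η| ≤ 1)
    (hR : ∀ c ∈ R, Odd c ∧ c < 8) (hR4 : R.card ≤ 4)
    (he : φ.e = 1 ∨ φ.e = -1 ∨ φ.e = 2 ∨ φ.e = -2) (κ : ℝ) (hκ : (R.card : ℝ) / φ.r = κ) (X : ℝ)
    (hX : 1 ≤ X) (n : ℕ) (hn : n ≠ 0) :
    |∑ d ∈ DF φ X, cf φ d n -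
      φ.η ^ (n.factorization 2) * (κ * (X * mt (n / 2 ^ (n.factorization 2))))| ≤
      125 * (√X * √n) := by
  have ho := odd_part hn
  have a1 := fam_bound φ R hr h1 h2 hη X n hn
  have hrR : (1 : ℝ) ≤ φ.r := by exact_mod_cast hr
  have hY : 0 < X / φ.r := by positivity
  have a2 := SR_main ho R hR hR4 (X / φ.r) hY
  set b := n.factorization 2 with hb
  set m := n / 2 ^ b with hm
  have hmn : (m : ℝ) ≤ n := by exact_mod_cast Nat.div_le_self n (2 ^ b)
  have hn1 : (1 : ℝ) ≤ n := by exact_mod_cast Nat.one_le_iff_ne_zero.2 hn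
  have hs1 : √(X / φ.r) * √m ≤ √X * √n := by
    refine mul_le_mul (Real.sqrt_le_sqrt ?_) (Real.sqrt_le_sqrt hmn) (Real.sqrt_nonneg _)
      (Real.sqrt_nonneg _)
    exact div_le_self (by linarith) hrR
  have hs2 : 1 ≤ √X * √n := by
    have b1 : 1 ≤ √X := by
      rw [Real.le_sqrt (by norm_num) (by linarith)]
      simpa using hX
    have b2 : 1 ≤ √(n : ℝ) := by
      rw [Real.le_sqrt (by norm_num) (by linarith)]
      simpa using hn1
    nlinarith
  have e1 : φ.η ^ b * (κ * (X * mt m)) =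
      φ.η ^ b * js φ.e m * (R.card * (X / φ.r * mt m)) := by
    have : js φ.e m * mt m = mt m := js_mt he ho
    rw [← hκ]
    calc φ.η ^ b * ((R.card : ℝ) / φ.r * (X * mt m)) =
          φ.η ^ b * ((R.card : ℝ) / φ.r * (X * (js φ.e m * mt m))) := by rw [this]
      _ = _ := by ring
  have h3 : |φ.η ^ b * js φ.e m| ≤ 1 := by
    rw [abs_mul, abs_pow]
    calc _ ≤ 1 * (1 : ℝ) :=
          mul_le_mul (pow_le_one₀ (abs_nonneg _) hη) (js_abs _ _) (abs_nonneg _) zero_le_one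
      _ = 1 := one_mul _
  have a3 : |φ.η ^ b * js φ.e m * SR R (X / φ.r) m -
      φ.η ^ b * js φ.e m * (R.card * (X / φ.r * mt m))| ≤ 124 * (√X * √n) := by
    rw [← mul_sub, abs_mul]
    calc _ ≤ 1 * (124 * (√(X / φ.r) * √m)) := mul_le_mul h3 a2 (abs_nonneg _) zero_le_one
      _ ≤ _ := by linarith
  rw [e1]
  have a4 := abs_sub_le (∑ d ∈ DF φ X, cf φ d n) (φ.η ^ b * js φ.e m * SR R (X / φ.r) m)
    (φ.η ^ b * js φ.e m * (R.card * (X / φ.r * mt m)))
  linarith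

lemma sqf_one {d : ℕ} (hs : Squarefree d) (h : IsSquare (1 * (d : ℤ))) : d = 1 := by
  rw [one_mul] at h
  obtain ⟨r, hr⟩ := h
  have h1 : d = r.natAbs * r.natAbs := by
    have := congrArg Int.natAbs hr
    rwa [Int.natAbs_natCast, Int.natAbs_mul] at this
  have h2 := hs r.natAbs (by rw [← h1])
  rw [Nat.isUnit_iff] at h2
  rw [h1, h2]

lemma neg_sq {d : ℕ} (hd : 0 < d) (h : IsSquare (-1 * (d : ℤ))) : False := by
  obtain ⟨r, hr⟩ := h
  have h1 : 0 ≤ r * r := mul_self_nonneg r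
  have h2 : (0 : ℤ) < d := by exact_mod_cast hd
  omega

lemma fam0 (s : ℤ) (hs : s = 1 ∨ s = -1) (X : ℝ) (hX : 1 ≤ X) (n : ℕ) (hn : n ≠ 0) :
    |∑ d ∈ DF (F8 s) X, cf (F8 s) d n -
      (0 : ℝ) ^ (n.factorization 2) * (1 / 2 * (X * mt (n / 2 ^ (n.factorization 2))))| ≤
      125 * (√X * √n) := by
  refine one_fam (F8 s) {1, 3, 5, 7} (by simp [F8]) ?_ ?_ (by simp [F8]) ?_ (by decide) ?_ (1 / 2) ?_
    X hX n hn
  · intro d hd
    have h1 : Odd d := hd
    obtain ⟨k, hk⟩ := h1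
    simp only [mem_insert, mem_singleton]
    omega
  · intro d hd _ hA
    exfalso
    apply hA
    simp only [mem_insert, mem_singleton] at hd
    show Odd d
    rw [Nat.odd_iff]
    omega
  · intro c hc
    simp only [mem_insert, mem_singleton] at hc
    rcases hc with rfl | rfl | rfl | rfl <;> decide
  · rcases hs with rfl | rfl
    · right; right; left; rfl
    · right; right; right; rfl
  · have : ({1, 3, 5, 7} : Finset ℕ).card = 4 := by decide
    rw [this]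
    show ((4 : ℕ) : ℝ) / ((8 : ℕ) : ℝ) = 1 / 2
    norm_num

lemma fam1 (s : ℤ) (hs : s = 1 ∨ s = -1) (X : ℝ) (hX : 1 ≤ X) (n : ℕ) (hn : n ≠ 0) :
    |∑ d ∈ DF (F4 s) X, cf (F4 s) d n -
      (0 : ℝ) ^ (n.factorization 2) * (1 / 2 * (X * mt (n / 2 ^ (n.factorization 2))))| ≤
      125 * (√X * √n) := by
  rcases hs with rfl | rfl
  · refine one_fam (F4 1) {3, 7} (by simp [F4]) ?_ ?_ (by simp [F4]) ?_ (by decide)
      (Or.inl rfl) (1 / 2) ?_ X hX n hn
    · intro d hd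
      have h1 : ((1 : ℤ) * (d : ℤ)) % 4 = 3 := hd
      simp only [mem_insert, mem_singleton]
      omega
    · intro d hd _ hA
      exfalso
      apply hA
      simp only [mem_insert, mem_singleton] at hd
      show ((1 : ℤ) * (d : ℤ)) % 4 = 3
      omega
    · intro c hc
      simp only [mem_insert, mem_singleton] at hc
      rcases hc with rfl | rfl <;> decide
    · have : ({3, 7} : Finset ℕ).card = 2 := by decide
      rw [this]
      show ((2 : ℕ) : ℝ) / ((4 : ℕ) : ℝ) = 1 / 2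
      norm_num
  · refine one_fam (F4 (-1)) {1, 5} (by simp [F4]) ?_ ?_ (by simp [F4]) ?_ (by decide)
      (Or.inr (Or.inl rfl)) (1 / 2) ?_ X hX n hn
    · intro d hd
      have h1 : ((-1 : ℤ) * (d : ℤ)) % 4 = 3 := hd
      simp only [mem_insert, mem_singleton]
      omega
    · intro d hd _ hA
      exfalso
      apply hA
      simp only [mem_insert, mem_singleton] at hd
      show ((-1 : ℤ) * (d : ℤ)) % 4 = 3
      omega
    · intro c hc
      simp only [mem_insert, mem_singleton] at hc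
      rcases hc with rfl | rfl <;> decide
    · have : ({1, 5} : Finset ℕ).card = 2 := by decide
      rw [this]
      show ((2 : ℕ) : ℝ) / ((4 : ℕ) : ℝ) = 1 / 2
      norm_num

lemma fam2 (s : ℤ) (hs : s = 1 ∨ s = -1) (X : ℝ) (hX : 1 ≤ X) (n : ℕ) (hn : n ≠ 0) :
    |∑ d ∈ DF (F1 s 1) X, cf (F1 s 1) d n -
      (1 : ℝ) ^ (n.factorization 2) * (1 * (X * mt (n / 2 ^ (n.factorization 2))))| ≤
      125 * (√X * √n) := by
  rcases hs with rfl | rfl
  · refine one_fam (F1 1 1) {1} (by simp [F1]) ?_ ?_ (by simp [F1]) ?_ (by decide)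
      (Or.inl rfl) 1 ?_ X hX n hn
    · intro d hd
      have h1 : ((1 : ℤ) * (d : ℤ)) % 8 = 1 := hd.1
      simp only [mem_singleton]
      omega
    · intro d hd hsq hA
      simp only [mem_singleton] at hd
      by_contra hd1
      apply hA
      show ((1 : ℤ) * (d : ℤ)) % 8 = 1 ∧ ¬ IsSquare ((1 : ℤ) * (d : ℤ))
      exact ⟨by omega, fun h => hd1 (sqf_one hsq h)⟩
    · intro c hc
      simp only [mem_singleton] at hc
      rcases hc with rfl
      decide
    · rw [card_singleton]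
      show ((1 : ℕ) : ℝ) / ((1 : ℕ) : ℝ) = 1
      norm_num
  · refine one_fam (F1 (-1) 1) {7} (by simp [F1]) ?_ ?_ (by simp [F1]) ?_ (by decide)
      (Or.inr (Or.inl rfl)) 1 ?_ X hX n hn
    · intro d hd
      have h1 : ((-1 : ℤ) * (d : ℤ)) % 8 = 1 := hd.1
      simp only [mem_singleton]
      omega
    · intro d hd hsq hA
      simp only [mem_singleton] at hd
      exfalso
      apply hA
      show ((-1 : ℤ) * (d : ℤ)) % 8 = 1 ∧ ¬ IsSquare ((-1 : ℤ) * (d : ℤ))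
      exact ⟨by omega, fun h => neg_sq (by omega) h⟩
    · intro c hc
      simp only [mem_singleton] at hc
      rcases hc with rfl
      decide
    · rw [card_singleton]
      show ((1 : ℕ) : ℝ) / ((1 : ℕ) : ℝ) = 1
      norm_num

lemma fam3 (s : ℤ) (hs : s = 1 ∨ s = -1) (X : ℝ) (hX : 1 ≤ X) (n : ℕ) (hn : n ≠ 0) :
    |∑ d ∈ DF (F1 s 5) X, cf (F1 s 5) d n -
      (-1 : ℝ) ^ (n.factorization 2) * (1 * (X * mt (n / 2 ^ (n.factorization 2))))| ≤
      125 * (√X * √n) := by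
  have hη : ∀ s : ℤ, (F1 s 5).η = -1 := fun s => by
    show (if (5 : ℤ) = 1 then (1 : ℝ) else -1) = -1
    norm_num
  rw [← hη s]
  rcases hs with rfl | rfl
  · refine one_fam (F1 1 5) {5} (by simp [F1]) ?_ ?_ (by rw [hη]; simp) ?_ (by decide)
      (Or.inl rfl) 1 ?_ X hX n hn
    · intro d hd
      have h1 : ((1 : ℤ) * (d : ℤ)) % 8 = 5 := hd.1
      simp only [mem_singleton]
      omega
    · intro d hd hsq hA
      simp only [mem_singleton] at hd
      by_contra hd1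
      apply hA
      show ((1 : ℤ) * (d : ℤ)) % 8 = 5 ∧ ¬ IsSquare ((1 : ℤ) * (d : ℤ))
      exact ⟨by omega, fun h => hd1 (sqf_one hsq h)⟩
    · intro c hc
      simp only [mem_singleton] at hc
      rcases hc with rfl
      decide
    · rw [card_singleton]
      show ((1 : ℕ) : ℝ) / ((1 : ℕ) : ℝ) = 1
      norm_num
  · refine one_fam (F1 (-1) 5) {3} (by simp [F1]) ?_ ?_ (by rw [hη]; simp) ?_ (by decide)
      (Or.inr (Or.inl rfl)) 1 ?_ X hX n hn
    · intro d hd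
      have h1 : ((-1 : ℤ) * (d : ℤ)) % 8 = 5 := hd.1
      simp only [mem_singleton]
      omega
    · intro d hd hsq hA
      simp only [mem_singleton] at hd
      exfalso
      apply hA
      show ((-1 : ℤ) * (d : ℤ)) % 8 = 5 ∧ ¬ IsSquare ((-1 : ℤ) * (d : ℤ))
      exact ⟨by omega, fun h => neg_sq (by omega) h⟩
    · intro c hc
      simp only [mem_singleton] at hc
      rcases hc with rfl
      decide
    · rw [card_singleton]
      show ((1 : ℕ) : ℝ) / ((1 : ℕ) : ℝ) = 1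
      norm_num

open Classical in
lemma main_term (n : ℕ) (hn : n ≠ 0) (X : ℝ) :
    (0 : ℝ) ^ (n.factorization 2) * (1 / 2 * (X * mt (n / 2 ^ (n.factorization 2)))) +
      (0 : ℝ) ^ (n.factorization 2) * (1 / 2 * (X * mt (n / 2 ^ (n.factorization 2)))) +
      (1 : ℝ) ^ (n.factorization 2) * (1 * (X * mt (n / 2 ^ (n.factorization 2)))) +
      (-1 : ℝ) ^ (n.factorization 2) * (1 * (X * mt (n / 2 ^ (n.factorization 2)))) =
    if IsSquare n then c0 * X * af n else 0 := by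
  have h1 := sq_iff hn
  have h2 := af_n hn
  rw [h2]
  set b := n.factorization 2 with hb
  set m := n / 2 ^ b with hm
  rw [one_pow]
  have hpi : Real.pi ≠ 0 := Real.pi_ne_zero
  by_cases hm2 : IsSquare m
  · have hmt : mt m = af m / Real.pi ^ 2 := by unfold mt; rw [if_pos hm2]
    rw [hmt]
    unfold c0
    rcases Nat.even_or_odd b with he | ho
    · rw [if_pos (h1.2 ⟨hm2, he⟩), he.neg_one_pow]
      by_cases hb0 : b = 0
      · rw [if_pos hb0, hb0, pow_zero]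
        field_simp
        ring
      · rw [if_neg hb0, zero_pow hb0]
        field_simp
        ring
    · have hb0 : b ≠ 0 := by
        intro h0
        rw [h0] at ho
        exact absurd ho (by decide)
      rw [if_neg (fun h => (Nat.not_even_iff_odd.2 ho) (h1.1 h).2), ho.neg_one_pow, zero_pow hb0]
      ring
  · have hmt : mt m = 0 := by unfold mt; rw [if_neg hm2]
    rw [hmt, if_neg (fun h => hm2 (h1.1 h).1)]
    ring

end Avg

open Avg in
/-- **Averages of `χ(n)` over the real primitive characters** -/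
theorem t_AVG (hU : S_UNI) : S_AVG := by
  classical
  refine ⟨500, by norm_num, ?_⟩
  intro s X n hs hX hn
  have hn0 : n ≠ 0 := by omega
  have hsum := class_sum hU s hs X n hn
  have e4 : ∑ i : Fin 4, ∑ d ∈ DF (fam s i) X, Pool.Agent.H306R2.RG.cf (fam s i) d n =
      ∑ d ∈ DF (Pool.Agent.H306R2.RG.F8 s) X, Pool.Agent.H306R2.RG.cf (Pool.Agent.H306R2.RG.F8 s) d n +
      ∑ d ∈ DF (Pool.Agent.H306R2.RG.F4 s) X, Pool.Agent.H306R2.RG.cf (Pool.Agent.H306R2.RG.F4 s) d n +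
      ∑ d ∈ DF (Pool.Agent.H306R2.RG.F1 s 1) X,
        Pool.Agent.H306R2.RG.cf (Pool.Agent.H306R2.RG.F1 s 1) d n +
      ∑ d ∈ DF (Pool.Agent.H306R2.RG.F1 s 5) X,
        Pool.Agent.H306R2.RG.cf (Pool.Agent.H306R2.RG.F1 s 5) d n := by
    rw [Fin.sum_univ_four]
    rfl
  rw [e4] at hsum
  have a0 := fam0 s hs X hX n hn0
  have a1 := fam1 s hs X hX n hn0
  have a2 := fam2 s hs X hX n hn0
  have a3 := fam3 s hs X hX n hn0
  have hm := main_term n hn0 X
  have key : |(∑ d ∈ DF (Pool.Agent.H306R2.RG.F8 s) X,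
        Pool.Agent.H306R2.RG.cf (Pool.Agent.H306R2.RG.F8 s) d n +
      ∑ d ∈ DF (Pool.Agent.H306R2.RG.F4 s) X, Pool.Agent.H306R2.RG.cf (Pool.Agent.H306R2.RG.F4 s) d n +
      ∑ d ∈ DF (Pool.Agent.H306R2.RG.F1 s 1) X,
        Pool.Agent.H306R2.RG.cf (Pool.Agent.H306R2.RG.F1 s 1) d n +
      ∑ d ∈ DF (Pool.Agent.H306R2.RG.F1 s 5) X,
        Pool.Agent.H306R2.RG.cf (Pool.Agent.H306R2.RG.F1 s 5) d n) -
      (if IsSquare n then c0 * X * af n else 0)| ≤ 500 * √X * √n := by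
    rw [← hm]
    rw [abs_le] at a0 a1 a2 a3 ⊢
    constructor <;> linarith [a0.1, a0.2, a1.1, a1.2, a2.1, a2.2, a3.1, a3.2]
  refine ⟨fun hsq => ?_, fun hsq => ?_⟩
  · rw [if_pos hsq] at key
    rw [hsum, ← Complex.ofReal_sub, Complex.norm_real, Real.norm_eq_abs]
    exact key
  · rw [if_neg hsq, sub_zero] at key
    rw [hsum, Complex.norm_real, Real.norm_eq_abs]
    exact key

end Pool.Agent.N879.QM
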