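import Pool.Agent.H27.G.R_pool_sql_team_seeded_63374d34.N879.QM.Stm

set_option autoImplicit false

/-! QM/BIG (helper372): long pieces, operator bound and one character. -/

namespace Pool.Agent.N879.QM

open Complex Filter Topology MeasureTheory Set
open scoped BigOperators

namespace BigAux

lemma blocks (a : ℕ → ℂ) (K t : ℕ) (hK : 1 ≤ K) (B1 E : ℝ) (hE : 0 ≤ E)
    (h1 : ∑ x ∈ Finset.Ioc (K - 1) (K - 1 + (K + 1)), ‖∑ n ∈ Finset.Ioc x (x + t), a n‖ ^ 2 ≤ B1)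
    (h2 : ∀ x t' : ℕ, t' ≤ t → ‖∑ n ∈ Finset.Ioc x (x + t'), a n‖ ^ 2 ≤ E) :
    ∑ x ∈ Finset.range (2 * K + 1),
      ‖∑ n ∈ (Finset.Ioc x (x + t)) ∩ (Finset.Ioc K (2 * K)), a n‖ ^ 2 ≤ B1 + 2 * (t * E) := by
  have hpt : ∀ x ∈ Finset.range (2 * K + 1),
      ‖∑ n ∈ (Finset.Ioc x (x + t)) ∩ (Finset.Ioc K (2 * K)), a n‖ ^ 2 ≤
        (if x ∈ Finset.Ioc (K - 1) (K - 1 + (K + 1)) then
          ‖∑ n ∈ Finset.Ioc x (x + t), a n‖ ^ 2 else 0) +
        ((if x ∈ Finset.Ico (K + 1 - t) K then E else 0) +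
          (if x ∈ Finset.Ico (2 * K + 1 - t) (2 * K + 1) then E else 0)) := by
    intro x hx
    rw [Finset.mem_range] at hx
    have p1 : 0 ≤ (if x ∈ Finset.Ioc (K - 1) (K - 1 + (K + 1)) then
          ‖∑ n ∈ Finset.Ioc x (x + t), a n‖ ^ 2 else 0) := by
      split_ifs <;> positivity
    have p2 : 0 ≤ (if x ∈ Finset.Ico (K + 1 - t) K then E else 0) := by
      split_ifs <;> linarith
    have p3 : 0 ≤ (if x ∈ Finset.Ico (2 * K + 1 - t) (2 * K + 1) then E else 0) := by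
      split_ifs <;> linarith
    by_cases c1 : x + t ≤ K
    · have : (Finset.Ioc x (x + t)) ∩ (Finset.Ioc K (2 * K)) = ∅ := by
        ext n
        simp only [Finset.mem_inter, Finset.mem_Ioc, Finset.notMem_empty, iff_false]
        omega
      rw [this]
      simp only [Finset.sum_empty, norm_zero]
      linarith
    by_cases c2 : x < K
    · have e : (Finset.Ioc x (x + t)) ∩ (Finset.Ioc K (2 * K)) =
          Finset.Ioc K (K + (min (x + t) (2 * K) - K)) := by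
        ext n
        simp only [Finset.mem_inter, Finset.mem_Ioc]
        omega
      rw [e]
      have h3 := h2 K (min (x + t) (2 * K) - K) (by omega)
      have h4 : x ∈ Finset.Ico (K + 1 - t) K := by
        rw [Finset.mem_Ico]
        omega
      rw [if_pos h4]
      linarith
    by_cases c3 : x + t ≤ 2 * K
    · have e : (Finset.Ioc x (x + t)) ∩ (Finset.Ioc K (2 * K)) = Finset.Ioc x (x + t) := by
        ext n
        simp only [Finset.mem_inter, Finset.mem_Ioc]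
        omega
      rw [e]
      have h4 : x ∈ Finset.Ioc (K - 1) (K - 1 + (K + 1)) := by
        rw [Finset.mem_Ioc]
        omega
      rw [if_pos h4]
      linarith
    · have e : (Finset.Ioc x (x + t)) ∩ (Finset.Ioc K (2 * K)) =
          Finset.Ioc x (x + (2 * K - x)) := by
        ext n
        simp only [Finset.mem_inter, Finset.mem_Ioc]
        omega
      rw [e]
      have h3 := h2 x (2 * K - x) (by omega)
      have h4 : x ∈ Finset.Ico (2 * K + 1 - t) (2 * K + 1) := by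
        rw [Finset.mem_Ico]
        omega
      rw [if_pos h4]
      linarith
  refine (Finset.sum_le_sum hpt).trans ?_
  rw [Finset.sum_add_distrib, Finset.sum_add_distrib]
  have s1 : ∑ x ∈ Finset.range (2 * K + 1), (if x ∈ Finset.Ioc (K - 1) (K - 1 + (K + 1)) then
      ‖∑ n ∈ Finset.Ioc x (x + t), a n‖ ^ 2 else 0) ≤ B1 := by
    rw [← Finset.sum_filter]
    refine le_trans (Finset.sum_le_sum_of_subset_of_nonneg ?_ fun _ _ _ => by positivity) h1
    intro x hx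
    exact (Finset.mem_filter.1 hx).2
  have s2 : ∑ x ∈ Finset.range (2 * K + 1), (if x ∈ Finset.Ico (K + 1 - t) K then E else 0) ≤
      t * E := by
    rw [← Finset.sum_filter, Finset.sum_const, nsmul_eq_mul]
    refine mul_le_mul_of_nonneg_right ?_ hE
    have : (Finset.filter (fun x => x ∈ Finset.Ico (K + 1 - t) K)
        (Finset.range (2 * K + 1))).card ≤ (Finset.Ico (K + 1 - t) K).card :=
      Finset.card_le_card fun x hx => (Finset.mem_filter.1 hx).2
    rw [Nat.card_Ico] at this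
    exact_mod_cast (by omega : (Finset.filter (fun x => x ∈ Finset.Ico (K + 1 - t) K)
        (Finset.range (2 * K + 1))).card ≤ t)
  have s3 : ∑ x ∈ Finset.range (2 * K + 1),
      (if x ∈ Finset.Ico (2 * K + 1 - t) (2 * K + 1) then E else 0) ≤ t * E := by
    rw [← Finset.sum_filter, Finset.sum_const, nsmul_eq_mul]
    refine mul_le_mul_of_nonneg_right ?_ hE
    have : (Finset.filter (fun x => x ∈ Finset.Ico (2 * K + 1 - t) (2 * K + 1))
        (Finset.range (2 * K + 1))).card ≤ (Finset.Ico (2 * K + 1 - t) (2 * K + 1)).card :=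
      Finset.card_le_card fun x hx => (Finset.mem_filter.1 hx).2
    rw [Nat.card_Ico] at this
    exact_mod_cast (by omega : (Finset.filter
        (fun x => x ∈ Finset.Ico (2 * K + 1 - t) (2 * K + 1))
        (Finset.range (2 * K + 1))).card ≤ t)
  linarith

lemma exH (A : ℝ) (K : ℕ) (hA : 2 ≤ A) (hAK : A ≤ K) :
    ∃ H : ℕ, 1 ≤ H ∧ (K : ℝ) / A ≤ H ∧ (H : ℝ) ≤ 2 * K / A := by
  have hApos : 0 < A := by linarith
  have h1 : 1 ≤ (K : ℝ) / A := by rw [le_div_iff₀ hApos]; linarith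
  have h2 := Nat.ceil_lt_add_one (zero_le_one.trans h1)
  have h3 := Nat.le_ceil ((K : ℝ) / A)
  refine ⟨⌈(K : ℝ) / A⌉₊, ?_, h3, ?_⟩
  · exact_mod_cast h1.trans h3
  · rw [mul_div_assoc]
    linarith

open Classical in
lemma card_Q (s : ℤ) (X : ℝ) (hX : 1 ≤ X) : ((Q s X).card : ℝ) ≤ X := by
  have h1 : (Q s X).card ≤ ⌈X⌉₊ - 2 := by
    unfold Q
    refine (Finset.card_filter_le _ _).trans ?_
    rw [Nat.card_Ico]
  have h2 := Nat.ceil_lt_add_one (zero_le_one.trans hX)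
  rcases Nat.lt_or_ge ⌈X⌉₊ 2 with h | h
  · have : (Q s X).card = 0 := by omega
    rw [this]
    simp
    linarith
  · have h3 : ((Q s X).card : ℝ) ≤ ((⌈X⌉₊ - 2 : ℕ) : ℝ) := by exact_mod_cast h1
    rw [Nat.cast_sub h] at h3
    push_cast at h3
    linarith

open Classical in
lemma mem_Q {s : ℤ} {X : ℝ} {q : ℕ} (h : q ∈ Q s X) : Is s q ∧ (q : ℝ) < X := by
  unfold Q at h
  rw [Finset.mem_filter, Finset.mem_Ico] at h
  exact ⟨h.2, Nat.lt_ceil.1 h.1.2⟩

lemma trv_sq (h3 : S_TRV) (s : ℤ) (q x t' t : ℕ) (hq : Is s q) (ht : t' ≤ t) :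
    ‖∑ n ∈ Finset.Ioc x (x + t'), vl s q n‖ ^ 2 ≤ t * q := by
  have h := h3 s q x t' hq
  have h4 : ((min t' q : ℕ) : ℝ) ≤ t := by exact_mod_cast (min_le_left _ _).trans ht
  have h5 : ((min t' q : ℕ) : ℝ) ≤ q := by exact_mod_cast min_le_right _ _
  rw [sq]
  exact mul_le_mul (h.trans h4) (h.trans h5) (norm_nonneg _) (by positivity)

end BigAux

open BigAux

theorem t_BIG (h1 : S_BLK) (h2 : S_LSB) (h3 : S_TRV) : S_BIG := by
  obtain ⟨C1, hC1, h1⟩ := h1
  obtain ⟨C2, hC2, h2⟩ := h2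
  refine ⟨C1 * (2 * C2 + 4), by positivity, fun s X A K c hs hX hXA hA hAK => ?_⟩
  have hApos : 0 < A := by linarith
  have hKpos : (0 : ℝ) < K := by linarith
  have hK1 : 1 ≤ K := by exact_mod_cast hKpos
  obtain ⟨H, hH1, hH2, hH3⟩ := exH A K hA hAK
  have hHpos : (0 : ℝ) < H := by exact_mod_cast hH1
  set S : ℝ := ∑ q ∈ Q s X, ‖c q‖ ^ 2 with hS
  have hS0 : 0 ≤ S := Finset.sum_nonneg fun _ _ => by positivity
  set a : ℕ → ℂ := fun n => ∑ q ∈ Q s X, c q * vl s q n with ha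
  have hblk : ∀ x t : ℕ, ∑ n ∈ Finset.Ioc x (x + t), a n =
      ∑ q ∈ Q s X, c q * ∑ n ∈ Finset.Ioc x (x + t), vl s q n := by
    intro x t
    simp only [ha]
    rw [Finset.sum_comm]
    exact Finset.sum_congr rfl fun q _ => by rw [Finset.mul_sum]
  have hE : ∀ (t x t' : ℕ), t' ≤ t → ‖∑ n ∈ Finset.Ioc x (x + t'), a n‖ ^ 2 ≤ X ^ 2 * t * S := by
    intro t x t' ht
    rw [hblk]
    have e1 : ‖∑ q ∈ Q s X, c q * ∑ n ∈ Finset.Ioc x (x + t'), vl s q n‖ ≤
        ∑ q ∈ Q s X, ‖c q‖ * ‖∑ n ∈ Finset.Ioc x (x + t'), vl s q n‖ := by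
      refine (norm_sum_le _ _).trans (le_of_eq ?_)
      exact Finset.sum_congr rfl fun q _ => norm_mul _ _
    have e2 := Finset.sum_mul_sq_le_sq_mul_sq (Q s X) (fun q => ‖c q‖)
      (fun q => ‖∑ n ∈ Finset.Ioc x (x + t'), vl s q n‖)
    have e3 : ∑ q ∈ Q s X, ‖∑ n ∈ Finset.Ioc x (x + t'), vl s q n‖ ^ 2 ≤ X * (t * X) := by
      calc ∑ q ∈ Q s X, ‖∑ n ∈ Finset.Ioc x (x + t'), vl s q n‖ ^ 2
          ≤ ∑ q ∈ Q s X, (t * X : ℝ) := by
            refine Finset.sum_le_sum fun q hq => ?_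
            obtain ⟨hq1, hq2⟩ := mem_Q hq
            refine (trv_sq h3 s q x t' t hq1 ht).trans ?_
            exact mul_le_mul_of_nonneg_left hq2.le (by positivity)
        _ = (Q s X).card * (t * X) := by rw [Finset.sum_const, nsmul_eq_mul]
        _ ≤ X * (t * X) := mul_le_mul_of_nonneg_right (card_Q s X hX) (by positivity)
    calc ‖∑ q ∈ Q s X, c q * ∑ n ∈ Finset.Ioc x (x + t'), vl s q n‖ ^ 2
        ≤ (∑ q ∈ Q s X, ‖c q‖ * ‖∑ n ∈ Finset.Ioc x (x + t'), vl s q n‖) ^ 2 :=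
          pow_le_pow_left₀ (norm_nonneg _) e1 2
      _ ≤ S * (X * (t * X)) := e2.trans (mul_le_mul_of_nonneg_left e3 hS0)
      _ = X ^ 2 * t * S := by ring
  set B : ℝ := C2 * ((K + 1 : ℕ) + X ^ 2) * H * S + 2 * (H * (X ^ 2 * H * S)) with hB
  have hmain := h1 a K H A B hA hAK hH1 hH2 hH3 (fun t ht => by
    have g1 := h2 s X c (K - 1) (K + 1) t hs hX (by omega)
    have g2 := blocks a K t hK1 (C2 * ((K + 1 : ℕ) + X ^ 2) * t * S) (X ^ 2 * t * S)
      (by positivity) (by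
        refine le_trans (le_of_eq ?_) g1
        exact Finset.sum_congr rfl fun x _ => by rw [hblk]) (hE t)
    refine g2.trans ?_
    have ht' : (t : ℝ) ≤ H := by exact_mod_cast ht
    rw [hB]
    gcongr)
  have hSK : ∀ α : ℝ, ∑ q ∈ Q s X, c q * SK s q K α =
      ∑ n ∈ Finset.Ioc K (2 * K), a n * (n : ℂ) ^ (-(pt α)) := by
    intro α
    simp only [ha, SK, Finset.mul_sum, Finset.sum_mul]
    rw [Finset.sum_comm]
    exact Finset.sum_congr rfl fun n _ => Finset.sum_congr rfl fun q _ => by ring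
  simp only [hSK]
  refine hmain.trans ?_
  have k1 : (A / (K * H)) * B =
      A * (C2 * (((K + 1 : ℕ) : ℝ) / K + X ^ 2 / K) + 2 * (X ^ 2 * (H / K))) * S := by
    rw [hB]
    field_simp
  have k2 : ((K + 1 : ℕ) : ℝ) / K ≤ 2 := by
    rw [div_le_iff₀ hKpos]
    push_cast
    linarith
  have k3 : X ^ 2 / K ≤ X ^ 2 / A := div_le_div_of_nonneg_left (by positivity) hApos hAK
  have k4 : (H : ℝ) / K ≤ 2 / A := by
    rw [div_le_div_iff₀ hKpos hApos]
    rw [le_div_iff₀ hApos] at hH3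
    linarith
  have k5 : X ^ 2 * ((H : ℝ) / K) ≤ 2 * (X ^ 2 / A) := by
    calc X ^ 2 * ((H : ℝ) / K) ≤ X ^ 2 * (2 / A) := mul_le_mul_of_nonneg_left k4 (by positivity)
      _ = 2 * (X ^ 2 / A) := by ring
  have k0 : 0 ≤ X ^ 2 / A := by positivity
  have k6 : C2 * (((K + 1 : ℕ) : ℝ) / K + X ^ 2 / K) ≤ C2 * (2 + X ^ 2 / A) :=
    mul_le_mul_of_nonneg_left (add_le_add k2 k3) hC2.le
  have k7 : C2 * (((K + 1 : ℕ) : ℝ) / K + X ^ 2 / K) + 2 * (X ^ 2 * (H / K)) ≤
      (2 * C2 + 4) * (1 + X ^ 2 / A) := by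
    nlinarith
  calc C1 * (A / (K * H)) * B = C1 * ((A / (K * H)) * B) := by ring
    _ = C1 * (A * (C2 * (((K + 1 : ℕ) : ℝ) / K + X ^ 2 / K) + 2 * (X ^ 2 * (H / K))) * S) := by
        rw [k1]
    _ ≤ C1 * (A * ((2 * C2 + 4) * (1 + X ^ 2 / A)) * S) := by gcongr
    _ = C1 * (2 * C2 + 4) * A * (1 + X ^ 2 / A) * S := by ring

theorem t_BIG1 (h1 : S_BLK) (h2 : S_ONE) (h3 : S_TRV) : S_BIG1 := by
  obtain ⟨C1, hC1, h1⟩ := h1
  refine ⟨C1 * 7, by positivity, fun s q A K hq hqA hA hAK => ?_⟩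
  have hApos : 0 < A := by linarith
  have hKpos : (0 : ℝ) < K := by linarith
  have hK1 : 1 ≤ K := by exact_mod_cast hKpos
  obtain ⟨H, hH1, hH2, hH3⟩ := exH A K hA hAK
  have hHpos : (0 : ℝ) < H := by exact_mod_cast hH1
  set B : ℝ := (((K + 1 : ℕ) : ℝ) + q) * H + 2 * (H * (H * q)) with hB
  have hmain := h1 (vl s q) K H A B hA hAK hH1 hH2 hH3 (fun t ht => by
    have g1 := h2 s q (K - 1) (K + 1) t hq
    have g3 : ((min t q : ℕ) : ℝ) ≤ t := by exact_mod_cast min_le_left _ _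
    have g2 := blocks (vl s q) K t hK1 ((((K + 1 : ℕ) : ℝ) + q) * t) (t * q) (by positivity)
      (g1.trans (mul_le_mul_of_nonneg_left g3 (by positivity)))
      (fun x t' ht' => trv_sq h3 s q x t' t hq ht')
    refine g2.trans ?_
    have ht' : (t : ℝ) ≤ H := by exact_mod_cast ht
    rw [hB]
    gcongr)
  unfold SK
  refine hmain.trans ?_
  have k1 : (A / (K * H)) * B = A * (((K + 1 : ℕ) : ℝ) / K) + q * (A / K) + 2 * q * (A * (H / K)) := by
    rw [hB]
    field_simp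
  have k2 : ((K + 1 : ℕ) : ℝ) / K ≤ 2 := by
    rw [div_le_iff₀ hKpos]
    push_cast
    linarith
  have k3 : A / K ≤ 1 := by
    rw [div_le_one hKpos]
    exact hAK
  have k4 : A * ((H : ℝ) / K) ≤ 2 := by
    rw [mul_div_assoc', div_le_iff₀ hKpos]
    rw [le_div_iff₀ hApos] at hH3
    linarith
  have hq0 : (0 : ℝ) ≤ q := by positivity
  have k5 : (A / (K * H)) * B ≤ 7 * A := by
    rw [k1]
    have e1 := mul_le_mul_of_nonneg_left k2 hApos.le
    have e2 := mul_le_mul_of_nonneg_left k3 hq0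
    have e3 := mul_le_mul_of_nonneg_left k4 hq0
    linarith
  calc C1 * (A / (K * H)) * B = C1 * ((A / (K * H)) * B) := by ring
    _ ≤ C1 * (7 * A) := mul_le_mul_of_nonneg_left k5 hC1.le
    _ = C1 * 7 * A := by ring

end Pool.Agent.N879.QM
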