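import Pool.Agent.H27.G.R_pool_sql_team_seeded_63374d34.N879.QM.Stm
import Pool.Agent.H27.G.R_seed8.Helper112.Arith

set_option autoImplicit false

namespace Pool.Agent.N879.QM.Coef

open Complex Finset
open scoped BigOperators

noncomputable section

section s1


/-! ### completely multiplicative functions -/

/-- `n ↦ n^{-s}` -/
def ph (s : ℂ) : ℕ →* ℂ where
  toFun n := (n : ℂ) ^ (-s)
  map_one' := by simp
  map_mul' m n := by rw [Nat.cast_mul, Complex.natCast_mul_natCast_cpow]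

lemma ph_apply (s : ℂ) (n : ℕ) : ph s n = (n : ℂ) ^ (-s) := rfl

lemma ph_add (s t : ℂ) {n : ℕ} (hn : n ≠ 0) : ph (s + t) n = ph s n * ph t n := by
  rw [ph_apply, ph_apply, ph_apply, ← Complex.cpow_add _ _ (by exact_mod_cast hn)]
  congr 1
  ring

variable {k : ℕ}

lemma cx_eq (n : Fin k → ℕ) (β : Fin k → ℝ) : cx n β = ∏ j, ph (pt (β j)) (n j) := rfl

lemma cx_mul (n m : Fin k → ℕ) (β : Fin k → ℝ) : cx (n * m) β = cx n β * cx m β := by
  simp only [cx_eq, Pi.mul_apply, map_mul, Finset.prod_mul_distrib]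

/-- the exponent of the pair `r` at `j` -/
def ex (r : Pr k) (j : Fin k) : ℕ := (if r.1.1 = j then 1 else 0) + (if r.1.2 = j then 1 else 0)

/-- tuples of pairs -/
def EE (g : Pr k → ℕ) (j : Fin k) : ℕ := ∏ r : Pr k, g r ^ ex r j

lemma EE_mul (f g : Pr k → ℕ) : EE (f * g) = EE f * EE g := by
  funext j
  simp only [EE, Pi.mul_apply, mul_pow, Finset.prod_mul_distrib]

lemma EE_one : EE (1 : Pr k → ℕ) = 1 := by
  funext j
  simp [EE]

lemma pp_eq (β : Fin k → ℝ) (r : Pr k) : pp β r = pt (β r.1.1) + pt (β r.1.2) := by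
  unfold pp pt
  ring

lemma cx_EE (g : Pr k → ℕ) (hg : ∀ r, g r ≠ 0) (β : Fin k → ℝ) :
    cx (EE g) β = ∏ r : Pr k, ph (pp β r) (g r) := by
  have h1 : cx (EE g) β = ∏ j, ∏ r : Pr k, ph (pt (β j)) (g r) ^ ex r j := by
    rw [cx_eq]
    refine Finset.prod_congr rfl fun j _ => ?_
    unfold EE
    rw [map_prod]
    refine Finset.prod_congr rfl fun r _ => ?_
    rw [map_pow]
  rw [h1, Finset.prod_comm]
  refine Finset.prod_congr rfl fun r _ => ?_
  rw [pp_eq, ph_add _ _ (hg r)]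
  unfold ex
  simp only [pow_add, Finset.prod_mul_distrib]
  congr 1
  · rw [Finset.prod_eq_single r.1.1]
    · simp
    · intro j _ hj
      rw [if_neg (Ne.symm hj), pow_zero]
    · intro h
      exact absurd (Finset.mem_univ _) h
  · rw [Finset.prod_eq_single r.1.2]
    · simp
    · intro j _ hj
      rw [if_neg (Ne.symm hj), pow_zero]
    · intro h
      exact absurd (Finset.mem_univ _) h

/-! ### arithmetic functions supported at one point -/

/-- the arithmetic function with the value `z` at `a` -/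
def dc (x : ℕ × ℂ) : ArithmeticFunction ℂ :=
  ⟨fun n => if n = x.1 ∧ x.1 ≠ 0 then x.2 else 0, by
    rw [if_neg]
    rintro ⟨h1, h2⟩
    exact h2 h1.symm⟩

lemma dc_apply (x : ℕ × ℂ) (n : ℕ) : dc x n = if n = x.1 ∧ x.1 ≠ 0 then x.2 else 0 := rfl

lemma dc_mul (x y : ℕ × ℂ) : dc x * dc y = dc (x * y) := by
  ext n
  rw [ArithmeticFunction.mul_apply, dc_apply]
  simp only [dc_apply]
  by_cases h : n = (x * y).1 ∧ (x * y).1 ≠ 0
  · rw [if_pos h]
    obtain ⟨h1, h2⟩ := h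
    rw [Prod.fst_mul] at h1 h2
    have hx : x.1 ≠ 0 := left_ne_zero_of_mul h2
    have hy : y.1 ≠ 0 := right_ne_zero_of_mul h2
    rw [Finset.sum_eq_single (x.1, y.1)]
    · rw [if_pos ⟨rfl, hx⟩, if_pos ⟨rfl, hy⟩, Prod.snd_mul]
    · rintro ⟨a, b⟩ _ hab
      by_cases ha : a = x.1
      · have hb : b ≠ y.1 := by
          rintro rfl
          exact hab (by rw [ha])
        rw [if_neg (c := b = y.1 ∧ y.1 ≠ 0) (fun h => hb h.1), mul_zero]
      · rw [if_neg (c := a = x.1 ∧ x.1 ≠ 0) (fun h => ha h.1), zero_mul]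
    · intro h3
      exfalso
      apply h3
      rw [Nat.mem_divisorsAntidiagonal]
      exact ⟨h1.symm, by rw [h1]; exact h2⟩
  · rw [if_neg h]
    refine Finset.sum_eq_zero ?_
    rintro ⟨a, b⟩ hab
    rw [Nat.mem_divisorsAntidiagonal] at hab
    by_cases ha : a = x.1 ∧ x.1 ≠ 0
    · by_cases hb : b = y.1 ∧ y.1 ≠ 0
      · exfalso
        apply h
        rw [Prod.fst_mul, ← ha.1, ← hb.1]
        exact ⟨hab.1.symm, by rw [hab.1]; exact hab.2⟩
      · rw [if_neg hb, mul_zero]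
    · rw [if_neg ha, zero_mul]

lemma dc_one : dc 1 = 1 := by
  ext n
  rw [dc_apply, ArithmeticFunction.one_apply]
  simp

/-- `dc` as a homomorphism -/
def dch : ℕ × ℂ →* ArithmeticFunction ℂ where
  toFun := dc
  map_one' := dc_one
  map_mul' x y := (dc_mul x y).symm

lemma dch_apply (x : ℕ × ℂ) (n : ℕ) : dch x n = if n = x.1 ∧ x.1 ≠ 0 then x.2 else 0 := rfl

/-- evaluation is additive -/
def evh (n : ℕ) : ArithmeticFunction ℂ →+ ℂ where
  toFun F := F n
  map_zero' := rfl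
  map_add' _ _ := rfl

lemma evh_apply (n : ℕ) (F : ArithmeticFunction ℂ) : evh n F = F n := rfl

/-- truncation -/
def tr (N : ℕ) (F : ArithmeticFunction ℂ) : ArithmeticFunction ℂ :=
  ∑ a ∈ Icc 1 N, dch (a, F a)

/-- equality up to `N` -/
def Ag (N : ℕ) (F G : ArithmeticFunction ℂ) : Prop := ∀ n, n ≤ N → F n = G n

lemma Ag.mul {N : ℕ} {F G F' G' : ArithmeticFunction ℂ} (h : Ag N F F') (h' : Ag N G G') :
    Ag N (F * G) (F' * G') := by
  intro n hn
  rw [ArithmeticFunction.mul_apply, ArithmeticFunction.mul_apply]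
  refine Finset.sum_congr rfl ?_
  rintro ⟨a, b⟩ hab
  rw [Nat.mem_divisorsAntidiagonal] at hab
  obtain ⟨h1, h2⟩ := hab
  have ha : a ≤ n := Nat.le_of_dvd (Nat.pos_of_ne_zero h2) ⟨b, h1.symm⟩
  have hb : b ≤ n := Nat.le_of_dvd (Nat.pos_of_ne_zero h2) ⟨a, by rw [mul_comm]; exact h1.symm⟩
  rw [h a (ha.trans hn), h' b (hb.trans hn)]

lemma ag_tr (N : ℕ) (F : ArithmeticFunction ℂ) : Ag N F (tr N F) := by
  intro n hn
  unfold tr
  rw [← evh_apply n (∑ a ∈ Icc 1 N, dch (a, F a)), map_sum]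
  simp only [evh_apply, dch_apply]
  rcases Nat.eq_zero_or_pos n with h0 | h0
  · subst h0
    rw [ArithmeticFunction.map_zero]
    symm
    refine Finset.sum_eq_zero fun a ha => ?_
    rw [if_neg]
    rintro ⟨h1, h2⟩
    exact h2 h1.symm
  · rw [Finset.sum_eq_single n]
    · rw [if_pos ⟨rfl, h0.ne'⟩]
    · intro a _ ha
      rw [if_neg]
      rintro ⟨h1, -⟩
      exact ha h1.symm
    · intro h
      exact absurd (Finset.mem_Icc.mpr ⟨h0, hn⟩) h

/-- partial sums of a product of arithmetic functions -/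
lemma psum {ι : Type} [Fintype ι] [DecidableEq ι] (N : ℕ) (g : ArithmeticFunction ℂ)
    (h : ι → ArithmeticFunction ℂ) :
    ∑ m ∈ Icc 1 N, (g * ∏ r, h r) m =
      ∑ a ∈ Icc 1 N, ∑ f ∈ Fintype.piFinset (fun _ : ι => Icc 1 N),
        if a * ∏ r, f r ≤ N then g a * ∏ r, h r (f r) else 0 := by
  have h1 : Ag N (g * ∏ r, h r) (tr N g * ∏ r, tr N (h r)) := by
    refine (ag_tr N g).mul ?_
    exact Finset.prod_hom_rel (r := Ag N) (fun _ _ => rfl) (fun r b c hbc => (ag_tr N (h r)).mul hbc)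
  have h2 : tr N g * ∏ r, tr N (h r) = ∑ a ∈ Icc 1 N, ∑ f ∈ Fintype.piFinset (fun _ : ι => Icc 1 N),
      dch (a * ∏ r, f r, g a * ∏ r, h r (f r)) := by
    unfold tr
    rw [Finset.prod_univ_sum, Finset.sum_mul_sum]
    refine Finset.sum_congr rfl fun a _ => Finset.sum_congr rfl fun f _ => ?_
    rw [← map_prod, ← map_mul]
    congr 1
    rw [Prod.ext_iff]
    refine ⟨?_, ?_⟩
    · rw [Prod.fst_mul, Prod.fst_prod]
    · rw [Prod.snd_mul, Prod.snd_prod]
  have h3 : ∀ m ∈ Icc 1 N, (g * ∏ r, h r) m = ∑ a ∈ Icc 1 N,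
      ∑ f ∈ Fintype.piFinset (fun _ : ι => Icc 1 N),
        if m = a * ∏ r, f r then g a * ∏ r, h r (f r) else 0 := by
    intro m hm
    rw [Finset.mem_Icc] at hm
    rw [h1 m hm.2, h2, ← evh_apply m, map_sum]
    refine Finset.sum_congr rfl fun a ha => ?_
    rw [map_sum]
    refine Finset.sum_congr rfl fun f hf => ?_
    rw [evh_apply, dch_apply]
    rw [Finset.mem_Icc] at ha
    rw [Fintype.mem_piFinset] at hf
    have h0 : a * ∏ r, f r ≠ 0 := by
      apply mul_ne_zero (by omega)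
      rw [Finset.prod_ne_zero_iff]
      intro r _
      have := Finset.mem_Icc.mp (hf r)
      omega
    simp only [h0, ne_eq, not_false_eq_true, and_true]
  rw [Finset.sum_congr rfl h3, Finset.sum_comm]
  refine Finset.sum_congr rfl fun a ha => ?_
  rw [Finset.sum_comm]
  refine Finset.sum_congr rfl fun f hf => ?_
  rw [Finset.mem_Icc] at ha
  rw [Fintype.mem_piFinset] at hf
  have h0 : a * ∏ r, f r ≠ 0 := by
    apply mul_ne_zero (by omega)
    rw [Finset.prod_ne_zero_iff]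
    intro r _
    have := Finset.mem_Icc.mp (hf r)
    omega
  split_ifs with hle
  · rw [Finset.sum_eq_single (a * ∏ r, f r)]
    · rw [if_pos rfl]
    · intro m _ hm
      rw [if_neg hm]
    · intro hn
      exact absurd (Finset.mem_Icc.mpr ⟨Nat.pos_of_ne_zero h0, hle⟩) hn
  · refine Finset.sum_eq_zero fun m hm => ?_
    rw [if_neg]
    rintro rfl
    exact hle (Finset.mem_Icc.mp hm).2


end s1

section s2


/-! ### Möbius inversion for tuples -/

lemma mob1 {N Y g : ℕ} (h1 : 1 ≤ g) (h2 : g ≤ Y) (h3 : Y ≤ N) :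
    ∑ a ∈ Icc 1 N, ∑ b ∈ Icc 1 Y, (if a * b = g then ((ArithmeticFunction.moebius a : ℤ) : ℝ) else 0) =
      if g = 1 then 1 else 0 := by
  have e1 : ∑ a ∈ Icc 1 N, ∑ b ∈ Icc 1 Y,
      (if a * b = g then ((ArithmeticFunction.moebius a : ℤ) : ℝ) else 0) =
      ∑ x ∈ g.divisorsAntidiagonal, ((ArithmeticFunction.moebius x.1 : ℤ) : ℝ) := by
    rw [← Finset.sum_product', ← Finset.sum_filter]
    refine Finset.sum_congr ?_ fun _ _ => rfl
    ext ⟨a, b⟩
    rw [Finset.mem_filter, Finset.mem_product, Nat.mem_divisorsAntidiagonal]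
    simp only [Finset.mem_Icc]
    constructor
    · rintro ⟨-, h⟩
      exact ⟨h, by omega⟩
    · rintro ⟨h, -⟩
      have ha : a ≤ g := Nat.le_of_dvd h1 ⟨b, h.symm⟩
      have hb : b ≤ g := Nat.le_of_dvd h1 ⟨a, by rw [mul_comm]; exact h.symm⟩
      have ha0 : a ≠ 0 := by rintro rfl; omega
      have hb0 : b ≠ 0 := by rintro rfl; omega
      exact ⟨⟨⟨by omega, by omega⟩, by omega, by omega⟩, h⟩
  have e2 : ((ArithmeticFunction.moebius * (ArithmeticFunction.zeta : ArithmeticFunction ℤ)) g : ℤ) =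
      ∑ x ∈ g.divisorsAntidiagonal, ArithmeticFunction.moebius x.1 := by
    rw [ArithmeticFunction.mul_apply]
    refine Finset.sum_congr rfl fun x hx => ?_
    rw [Nat.mem_divisorsAntidiagonal] at hx
    have : x.2 ≠ 0 := by
      intro h
      rw [h, mul_zero] at hx
      exact hx.2 hx.1.symm
    rw [ArithmeticFunction.natCoe_apply, ArithmeticFunction.zeta_apply, if_neg this]
    simp
  rw [e1, ← Int.cast_sum, ← e2, ArithmeticFunction.moebius_mul_coe_zeta,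
    ArithmeticFunction.one_apply]
  split_ifs <;> simp

lemma mob {ι : Type} [Fintype ι] [DecidableEq ι] {N Y : ℕ} (hY : 1 ≤ Y) (hN : ∀ _ : ι, Y ≤ N)
    (F : (ι → ℕ) → ℝ) (hF : ∀ g, F g ≠ 0 → ∀ r, g r ≤ Y) :
    ∑ f ∈ Fintype.piFinset (fun _ : ι => Icc 1 N), ∑ e ∈ Fintype.piFinset (fun _ : ι => Icc 1 Y),
      F (f * e) * ∏ r, ((ArithmeticFunction.moebius (f r) : ℤ) : ℝ) = F 1 := by
  classical
  have h1 : ∀ f ∈ Fintype.piFinset (fun _ : ι => Icc 1 N),
      ∀ e ∈ Fintype.piFinset (fun _ : ι => Icc 1 Y),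
      F (f * e) * ∏ r, ((ArithmeticFunction.moebius (f r) : ℤ) : ℝ) =
      ∑ g ∈ Fintype.piFinset (fun _ : ι => Icc 1 Y), F g *
        ∏ r, (if f r * e r = g r then ((ArithmeticFunction.moebius (f r) : ℤ) : ℝ) else 0) := by
    intro f hf e he
    rw [Fintype.mem_piFinset] at hf he
    simp only [Finset.prod_ite_zero]
    by_cases hfe : f * e ∈ Fintype.piFinset (fun _ : ι => Icc 1 Y)
    · rw [Finset.sum_eq_single (f * e)]
      · have hh : ∀ i ∈ (Finset.univ : Finset ι), f i * e i = (f * e) i := fun r _ => rfl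
        rw [if_pos hh]
      · intro g _ hg
        rw [if_neg, mul_zero]
        intro h
        exact hg (funext fun r => (h r (Finset.mem_univ r)).symm)
      · intro h
        exact absurd hfe h
    · have h0 : F (f * e) = 0 := by
        by_contra hne
        apply hfe
        rw [Fintype.mem_piFinset]
        intro r
        rw [Finset.mem_Icc]
        have a1 := Finset.mem_Icc.mp (hf r)
        have a2 := Finset.mem_Icc.mp (he r)
        exact ⟨Nat.mul_pos a1.1 a2.1, hF _ hne r⟩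
      rw [h0, zero_mul]
      symm
      refine Finset.sum_eq_zero fun g hg => ?_
      rw [if_neg, mul_zero]
      intro h
      apply hfe
      have : f * e = g := funext fun r => h r (Finset.mem_univ r)
      rw [this]
      exact hg
  rw [Finset.sum_congr rfl fun f hf => Finset.sum_congr rfl (h1 f hf)]
  have h2 : ∑ f ∈ Fintype.piFinset (fun _ : ι => Icc 1 N),
      ∑ e ∈ Fintype.piFinset (fun _ : ι => Icc 1 Y),
      ∑ g ∈ Fintype.piFinset (fun _ : ι => Icc 1 Y), F g *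
        ∏ r, (if f r * e r = g r then ((ArithmeticFunction.moebius (f r) : ℤ) : ℝ) else 0) =
      ∑ g ∈ Fintype.piFinset (fun _ : ι => Icc 1 Y), F g * ∏ r : ι, (if g r = 1 then (1:ℝ) else 0) := by
    have h3 : ∀ f : ι → ℕ, ∑ e ∈ Fintype.piFinset (fun _ : ι => Icc 1 Y),
      ∑ g ∈ Fintype.piFinset (fun _ : ι => Icc 1 Y), F g *
        ∏ r, (if f r * e r = g r then ((ArithmeticFunction.moebius (f r) : ℤ) : ℝ) else 0) =
      ∑ g ∈ Fintype.piFinset (fun _ : ι => Icc 1 Y), F g *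
        ∏ r, ∑ b ∈ Icc 1 Y, (if f r * b = g r then ((ArithmeticFunction.moebius (f r) : ℤ) : ℝ) else 0) := by
      intro f
      rw [Finset.sum_comm]
      refine Finset.sum_congr rfl fun g _ => ?_
      rw [Finset.prod_univ_sum, Finset.mul_sum]
    rw [Finset.sum_congr rfl fun f _ => h3 f, Finset.sum_comm]
    refine Finset.sum_congr rfl fun g hg => ?_
    rw [← Finset.mul_sum]
    congr 1
    rw [← Finset.prod_univ_sum (fun _ : ι => Icc 1 N) (fun r a => ∑ b ∈ Icc 1 Y,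
      (if a * b = g r then ((ArithmeticFunction.moebius a : ℤ) : ℝ) else 0))]
    refine Finset.prod_congr rfl fun r _ => ?_
    rw [Fintype.mem_piFinset] at hg
    have := Finset.mem_Icc.mp (hg r)
    exact mob1 this.1 this.2 (hN r)
  rw [h2, Finset.sum_eq_single 1]
  · simp
  · intro g _ hg
    have : ∃ r, g r ≠ 1 := by
      by_contra hcon
      push Not at hcon
      exact hg (funext hcon)
    obtain ⟨r, hr⟩ := this
    rw [Finset.prod_eq_zero (Finset.mem_univ r) (if_neg hr), mul_zero]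
  · intro h
    exfalso
    apply h
    rw [Fintype.mem_piFinset]
    intro r
    rw [Finset.mem_Icc]
    exact ⟨le_rfl, hY⟩

/-! ### The coefficients -/

variable {k : ℕ}

/-- tuples of pairs -/
def bx (k N : ℕ) : Finset (Pr k → ℕ) := Fintype.piFinset fun _ => Icc 1 N

lemma mem_bx {N : ℕ} {f : Pr k → ℕ} : f ∈ bx k N ↔ ∀ r, 1 ≤ f r ∧ f r ≤ N := by
  unfold bx
  rw [Fintype.mem_piFinset]
  simp only [Finset.mem_Icc]

lemma mem_tup {N : ℕ} {n : Fin k → ℕ} : n ∈ tup k N ↔ ∀ j, 1 ≤ n j ∧ n j ≤ N := by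
  unfold tup
  rw [Fintype.mem_piFinset]
  simp only [Finset.mem_Icc]

/-- the index set -/
def Om (k Y : ℕ) : Finset (ℕ × (Fin k → ℕ) × (Pr k → ℕ) × (Pr k → ℕ)) :=
  ((Icc 1 (Y ^ k)) ×ˢ (tup k (Y ^ (2 * k))) ×ˢ (bx k (Y ^ k)) ×ˢ (bx k Y)).filter
    (fun ω => ∏ j, ω.2.1 j = ω.1 ^ 2 ∧ ω.1 * ∏ r, ω.2.2.1 r ≤ Y ^ k)

/-- the weight -/
def wt (ω : ℕ × (Fin k → ℕ) × (Pr k → ℕ) × (Pr k → ℕ)) : ℝ :=
  af ω.1 * ∏ r, ((ArithmeticFunction.moebius (ω.2.2.1 r) : ℤ) : ℝ)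

/-- the tuple -/
def fi (ω : ℕ × (Fin k → ℕ) × (Pr k → ℕ) × (Pr k → ℕ)) : Fin k → ℕ :=
  ω.2.1 * EE (ω.2.2.1 * ω.2.2.2)

lemma gA_apply (β : Fin k → ℝ) {a N : ℕ} (ha : 1 ≤ a) (haN : a ≤ N) :
    gA β a = ∑ n ∈ tup k (N ^ 2), if ∏ j, n j = a ^ 2 then (af a : ℂ) * cx n β else 0 := by
  have h1 : gA β a = (af a : ℂ) * ∑ n ∈ Nat.finMulAntidiag k (a ^ 2), cx n β := by
    show (if a = 0 then 0 else (af a : ℂ) * ∑ n ∈ Nat.finMulAntidiag k (a ^ 2), cx n β) = _
    rw [if_neg (by omega)]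
  rw [h1, ← Finset.sum_filter, ← Finset.mul_sum]
  congr 1
  refine Finset.sum_congr ?_ fun _ _ => rfl
  ext n
  rw [Nat.mem_finMulAntidiag, Finset.mem_filter, mem_tup]
  have ha2 : a ^ 2 ≠ 0 := by positivity
  constructor
  · rintro ⟨h, -⟩
    refine ⟨fun j => ?_, h⟩
    have hd : n j ∣ a ^ 2 := by rw [← h]; exact Finset.dvd_prod_of_mem n (Finset.mem_univ j)
    refine ⟨Nat.pos_of_dvd_of_pos hd (Nat.pos_of_ne_zero ha2), ?_⟩
    exact (Nat.le_of_dvd (Nat.pos_of_ne_zero ha2) hd).trans (Nat.pow_le_pow_left haN 2)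
  · rintro ⟨-, h⟩
    exact ⟨h, ha2⟩

lemma muA_prod (β : Fin k → ℝ) (f : Pr k → ℕ) : ∏ r, muA (pp β r) (f r) =
    (∏ r, (((ArithmeticFunction.moebius (f r) : ℤ) : ℝ) : ℂ)) * ∏ r, ph (pp β r) (f r) := by
  rw [← Finset.prod_mul_distrib]
  refine Finset.prod_congr rfl fun r _ => ?_
  show ((ArithmeticFunction.moebius (f r) : ℤ) : ℂ) * (f r : ℂ) ^ (-(pp β r)) = _
  rw [ph_apply]
  push_cast
  rfl

lemma expand (Y : ℕ) (β : Fin k → ℝ) :
    (∑ m ∈ Icc 1 (Y ^ k), al β m) * (∏ r : Pr k, zN Y (pp β r)) =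
      ∑ ω ∈ Om k Y, (wt ω : ℂ) * cx (fi ω) β := by
  have hz : (∏ r : Pr k, zN Y (pp β r)) = ∑ e ∈ bx k Y, ∏ r, ph (pp β r) (e r) := by
    unfold zN bx
    rw [Finset.prod_univ_sum]
    rfl
  have hal : ∑ m ∈ Icc 1 (Y ^ k), al β m = ∑ a ∈ Icc 1 (Y ^ k), ∑ f ∈ bx k (Y ^ k),
      if a * ∏ r, f r ≤ Y ^ k then gA β a * ∏ r, muA (pp β r) (f r) else 0 := by
    unfold al bx
    exact psum (Y ^ k) (gA β) (fun r : Pr k => muA (pp β r))
  rw [hz, hal]
  unfold Om
  rw [Finset.sum_filter, Finset.sum_product, Finset.sum_mul]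
  refine Finset.sum_congr rfl fun a ha => ?_
  rw [Finset.mem_Icc] at ha
  rw [Finset.sum_product]
  have h1 : ∀ n ∈ tup k (Y ^ (2 * k)), ∑ y ∈ bx k (Y ^ k) ×ˢ bx k Y,
      (if ∏ j, (a, n, y).2.1 j = (a, n, y).1 ^ 2 ∧ (a, n, y).1 * ∏ r, (a, n, y).2.2.1 r ≤ Y ^ k then
        (wt (a, n, y) : ℂ) * cx (fi (a, n, y)) β else 0) =
      ∑ f ∈ bx k (Y ^ k), ∑ e ∈ bx k Y,
        (if a * ∏ r, f r ≤ Y ^ k then (if ∏ j, n j = a ^ 2 then (af a : ℂ) * cx n β else 0) *
          ∏ r, muA (pp β r) (f r) else 0) * ∏ r, ph (pp β r) (e r) := by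
    intro n _
    rw [Finset.sum_product]
    refine Finset.sum_congr rfl fun f hf => Finset.sum_congr rfl fun e he => ?_
    rw [mem_bx] at hf he
    have h2 : (wt (a, n, f, e) : ℂ) * cx (fi (a, n, f, e)) β =
        (af a : ℂ) * cx n β * (∏ r, muA (pp β r) (f r)) * ∏ r, ph (pp β r) (e r) := by
      unfold wt fi
      rw [cx_mul, cx_EE _ (fun r => by
        have a1 := hf r
        have a2 := he r
        show f r * e r ≠ 0
        exact mul_ne_zero (Nat.one_le_iff_ne_zero.mp a1.1) (Nat.one_le_iff_ne_zero.mp a2.1)),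
        muA_prod]
      simp only [Pi.mul_apply, map_mul, Finset.prod_mul_distrib]
      push_cast
      ring
    by_cases c1 : ∏ j, n j = a ^ 2
    · by_cases c2 : a * ∏ r, f r ≤ Y ^ k
      · rw [if_pos ⟨c1, c2⟩, if_pos c2, if_pos c1, h2]
      · rw [if_neg (fun h => c2 h.2), if_neg c2, zero_mul]
    · rw [if_neg (fun h => c1 h.1), if_neg c1, zero_mul, ite_self, zero_mul]
  rw [Finset.sum_congr rfl h1, Finset.sum_comm, Finset.sum_mul]
  refine Finset.sum_congr rfl fun f _ => ?_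
  have h3 : (if a * ∏ r, f r ≤ Y ^ k then gA β a * ∏ r, muA (pp β r) (f r) else 0) =
      ∑ n ∈ tup k (Y ^ (2 * k)), (if a * ∏ r, f r ≤ Y ^ k then
        (if ∏ j, n j = a ^ 2 then (af a : ℂ) * cx n β else 0) * ∏ r, muA (pp β r) (f r) else 0) := by
    split_ifs
    · rw [gA_apply β ha.1 ha.2, ← Finset.sum_mul, ← pow_mul, mul_comm k 2]
    · rw [Finset.sum_const_zero]
  rw [h3, Finset.sum_mul_sum]

/-- the length -/
def LN (k Y : ℕ) : ℕ := Y ^ (2 * k + 2 * (k + 1) * Fintype.card (Pr k))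

lemma ex_le (r : Pr k) (j : Fin k) : ex r j ≤ 2 := by
  unfold ex
  split_ifs <;> norm_num

lemma one_le_prod {ι : Type} [Fintype ι] {f : ι → ℕ} (h : ∀ i, 1 ≤ f i) : 1 ≤ ∏ i, f i := by
  rw [Nat.one_le_iff_ne_zero, Finset.prod_ne_zero_iff]
  intro i _
  have := h i
  omega

lemma EE_pos {g : Pr k → ℕ} (hg : ∀ r, 1 ≤ g r) (j : Fin k) : 1 ≤ EE g j :=
  one_le_prod fun r => Nat.one_le_pow _ _ (hg r)

lemma EE_le {g : Pr k → ℕ} {N : ℕ} (hg : ∀ r, 1 ≤ g r ∧ g r ≤ N) (j : Fin k) :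
    EE g j ≤ N ^ (2 * Fintype.card (Pr k)) := by
  unfold EE
  calc ∏ r : Pr k, g r ^ ex r j ≤ ∏ _r : Pr k, N ^ 2 := by
        refine Finset.prod_le_prod' fun r _ => ?_
        exact (Nat.pow_le_pow_left (hg r).2 _).trans
          (Nat.pow_le_pow_right ((hg r).1.trans (hg r).2) (ex_le r j))
    _ = N ^ (2 * Fintype.card (Pr k)) := by
        rw [Finset.prod_const, Finset.card_univ, ← pow_mul]

lemma mem_Om {Y : ℕ} {a : ℕ} {n : Fin k → ℕ} {f e : Pr k → ℕ} : (a, n, f, e) ∈ Om k Y ↔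
    (1 ≤ a ∧ a ≤ Y ^ k) ∧ n ∈ tup k (Y ^ (2 * k)) ∧ f ∈ bx k (Y ^ k) ∧ e ∈ bx k Y ∧
      ∏ j, n j = a ^ 2 ∧ a * ∏ r, f r ≤ Y ^ k := by
  unfold Om
  simp only [Finset.mem_filter, Finset.mem_product, Finset.mem_Icc]
  tauto

lemma fi_mem {Y : ℕ} (ω) (hω : ω ∈ Om k Y) : fi ω ∈ tup k (LN k Y) := by
  obtain ⟨a, n, f, e⟩ := ω
  rw [mem_Om] at hω
  obtain ⟨-, hn, hf, he, -, -⟩ := hω
  rw [mem_tup] at hn ⊢
  rw [mem_bx] at hf he
  intro j
  have h1 : ∀ r, 1 ≤ (f * e) r ∧ (f * e) r ≤ Y ^ (k + 1) := by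
    intro r
    have a1 := hf r
    have a2 := he r
    refine ⟨Nat.mul_pos a1.1 a2.1, ?_⟩
    rw [pow_succ]
    exact Nat.mul_le_mul a1.2 a2.2
  refine ⟨Nat.mul_pos (hn j).1 (EE_pos (fun r => (h1 r).1) j), ?_⟩
  have h2 := EE_le h1 j
  calc n j * EE (f * e) j ≤ Y ^ (2 * k) * (Y ^ (k + 1)) ^ (2 * Fintype.card (Pr k)) :=
        Nat.mul_le_mul (hn j).2 h2
    _ = LN k Y := by
        unfold LN
        rw [← pow_mul, ← pow_add]
        congr 1
        ring

/-- the coefficients -/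
def bY (Y : ℕ) (n : Fin k → ℕ) : ℝ := ∑ ω ∈ (Om k Y).filter (fun ω => fi ω = n), wt ω

lemma group (Y : ℕ) (β : Fin k → ℝ) :
    (∑ m ∈ Icc 1 (Y ^ k), al β m) * (∏ r : Pr k, zN Y (pp β r)) =
      ∑ n ∈ tup k (LN k Y), (bY Y n : ℂ) * cx n β := by
  rw [expand, ← Finset.sum_fiberwise_of_maps_to fi_mem]
  refine Finset.sum_congr rfl fun n _ => ?_
  unfold bY
  push_cast
  rw [Finset.sum_mul]
  refine Finset.sum_congr rfl fun ω hω => ?_
  rw [(Finset.mem_filter.mp hω).2]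

lemma prod_EE (g : Pr k → ℕ) : ∏ j, EE g j = (∏ r, g r) ^ 2 := by
  unfold EE
  rw [Finset.prod_comm, ← Finset.prod_pow]
  refine Finset.prod_congr rfl fun r _ => ?_
  rw [Finset.prod_pow_eq_pow_sum]
  congr 1
  unfold ex
  rw [Finset.sum_add_distrib]
  simp

lemma prod_fi {Y : ℕ} {a : ℕ} {n : Fin k → ℕ} {f e : Pr k → ℕ} (h : (a, n, f, e) ∈ Om k Y) :
    ∏ j, fi (a, n, f, e) j = (a * (∏ r, f r) * ∏ r, e r) ^ 2 := by
  rw [mem_Om] at h
  unfold fi
  simp only [Pi.mul_apply, Finset.prod_mul_distrib]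
  rw [prod_EE, h.2.2.2.2.1]
  simp only [Pi.mul_apply, Finset.prod_mul_distrib]
  ring

lemma dvd_EE (g : Pr k → ℕ) (r : Pr k) : g r ∣ EE g r.1.1 := by
  unfold EE
  refine (dvd_pow_self (g r) ?_).trans (Finset.dvd_prod_of_mem _ (Finset.mem_univ r))
  unfold ex
  simp

/-- (b) the coefficients in the box -/
lemma bY_box {Y : ℕ} (hY : 1 ≤ Y) {n : Fin k → ℕ} (hn : n ∈ tup k Y) :
    bY Y n = if IsSquare (∏ j, n j) then af (∏ j, n j) else 0 := by
  classical
  have hn' := mem_tup.mp hn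
  have hprod : ∏ j, n j ≤ Y ^ k := by
    calc ∏ j, n j ≤ ∏ _j : Fin k, Y := Finset.prod_le_prod' fun j _ => (hn' j).2
      _ = Y ^ k := by rw [Finset.prod_const, Finset.card_univ, Fintype.card_fin]
  have h1 : bY Y n = ∑ a ∈ Icc 1 (Y ^ k), ∑ n' ∈ tup k (Y ^ (2 * k)),
      if ∏ j, n' j = a ^ 2 then af a * (∑ f ∈ bx k (Y ^ k), ∑ e ∈ bx k Y,
        (if n' * EE (f * e) = n then (1 : ℝ) else 0) *
          ∏ r, ((ArithmeticFunction.moebius (f r) : ℤ) : ℝ)) else 0 := by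
    unfold bY Om
    rw [Finset.filter_filter, Finset.sum_filter, Finset.sum_product]
    refine Finset.sum_congr rfl fun a ha => ?_
    rw [Finset.sum_product]
    refine Finset.sum_congr rfl fun n' hn'' => ?_
    rw [Finset.sum_product]
    rw [Finset.mem_Icc] at ha
    by_cases c1 : ∏ j, n' j = a ^ 2
    · rw [if_pos c1, Finset.mul_sum]
      refine Finset.sum_congr rfl fun f hf => ?_
      rw [Finset.mul_sum]
      refine Finset.sum_congr rfl fun e he => ?_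
      unfold wt fi
      rw [mem_bx] at hf he
      by_cases c2 : n' * EE (f * e) = n
      · have h2 : (a * (∏ r, f r) * ∏ r, e r) ^ 2 ≤ Y ^ k := by
          refine le_trans (le_of_eq ?_) hprod
          rw [← c2]
          simp only [Pi.mul_apply, Finset.prod_mul_distrib]
          rw [prod_EE, c1]
          simp only [Pi.mul_apply, Finset.prod_mul_distrib]
          ring
        have h3 : a * ∏ r, f r ≤ Y ^ k := by
          refine le_trans ?_ h2
          have he1 : 1 ≤ ∏ r, e r := one_le_prod fun r => (he r).1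
          have hf1 : 1 ≤ ∏ r, f r := one_le_prod fun r => (hf r).1
          have hpos : 1 ≤ a * (∏ r, f r) * ∏ r, e r :=
            Nat.mul_pos (Nat.mul_pos ha.1 hf1) he1
          calc a * ∏ r, f r ≤ a * (∏ r, f r) * ∏ r, e r := Nat.le_mul_of_pos_right _ he1
            _ ≤ (a * (∏ r, f r) * ∏ r, e r) ^ 2 := Nat.le_self_pow (by norm_num) _
        rw [if_pos ⟨⟨c1, h3⟩, c2⟩, if_pos c2, one_mul]
      · rw [if_neg (fun h => c2 h.2), if_neg c2, zero_mul, mul_zero]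
    · rw [if_neg c1]
      refine Finset.sum_eq_zero fun f _ => Finset.sum_eq_zero fun e _ => ?_
      rw [if_neg (fun h => c1 h.1.1)]
  have h2 : ∀ n' : Fin k → ℕ, (∑ f ∈ bx k (Y ^ k), ∑ e ∈ bx k Y,
        (if n' * EE (f * e) = n then (1 : ℝ) else 0) *
          ∏ r, ((ArithmeticFunction.moebius (f r) : ℤ) : ℝ)) = if n' = n then 1 else 0 := by
    intro n'
    have := mob (ι := Pr k) (N := Y ^ k) hY (fun r => by
      have hk : k ≠ 0 := by
        rintro rfl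
        exact r.1.1.elim0
      exact Nat.le_self_pow hk Y)
      (fun g => if n' * EE g = n then (1 : ℝ) else 0) (by
        intro g hg r
        have h3 : n' * EE g = n := by
          by_contra h
          exact hg (if_neg h)
        have h4 : g r ∣ n r.1.1 := by
          rw [← h3]
          exact (dvd_EE g r).mul_left _
        have h5 := hn' r.1.1
        exact (Nat.le_of_dvd h5.1 h4).trans h5.2)
    unfold bx
    rw [this, EE_one, mul_one]
  rw [h1]
  simp only [h2, mul_ite, mul_one, mul_zero]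
  have h3 : ∀ a ∈ Icc 1 (Y ^ k), ∑ n' ∈ tup k (Y ^ (2 * k)),
      (if ∏ j, n' j = a ^ 2 then if n' = n then af a else 0 else 0) =
      if ∏ j, n j = a ^ 2 then af a else 0 := by
    intro a _
    rw [Finset.sum_eq_single n]
    · rw [if_pos rfl]
    · intro n' _ hne
      rw [if_neg hne, ite_self]
    · intro h
      exfalso
      apply h
      rw [mem_tup]
      intro j
      have hk : 2 * k ≠ 0 := by
        have := j.2
        omega
      exact ⟨(hn' j).1, (hn' j).2.trans (Nat.le_self_pow hk Y)⟩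
  rw [Finset.sum_congr rfl h3]
  have hP : 1 ≤ ∏ j, n j := one_le_prod fun j => (hn' j).1
  split_ifs with hsq
  · obtain ⟨a, ha⟩ := hsq
    rw [← sq] at ha
    have ha0 : 1 ≤ a := by
      rcases Nat.eq_zero_or_pos a with h | h
      · rw [h] at ha
        simp at ha
        omega
      · exact h
    rw [Finset.sum_eq_single a]
    · rw [if_pos ha, ha]
      unfold af
      rw [Nat.primeFactors_pow _ two_ne_zero]
    · intro b _ hb
      rw [if_neg]
      intro h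
      rw [ha] at h
      exact hb ((Nat.pow_left_injective two_ne_zero h).symm)
    · intro h
      exfalso
      apply h
      rw [Finset.mem_Icc]
      refine ⟨ha0, ?_⟩
      refine le_trans ?_ hprod
      rw [ha]
      exact Nat.le_self_pow two_ne_zero a
  · refine Finset.sum_eq_zero fun a _ => ?_
    rw [if_neg]
    intro h
    exact hsq ⟨a, by rw [h, sq]⟩


end s2

section s3


variable {k : ℕ}

lemma af_nonneg (n : ℕ) : 0 ≤ af n := Finset.prod_nonneg fun p _ => by positivity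

lemma af_le_one (n : ℕ) : af n ≤ 1 := by
  unfold af
  refine Finset.prod_le_one (fun p _ => by positivity) fun p _ => ?_
  rw [div_le_one (by positivity)]
  linarith

lemma wt_le (ω : ℕ × (Fin k → ℕ) × (Pr k → ℕ) × (Pr k → ℕ)) : |wt ω| ≤ 1 := by
  unfold wt
  rw [abs_mul, abs_of_nonneg (af_nonneg _), Finset.abs_prod]
  refine mul_le_one₀ (af_le_one _) (Finset.prod_nonneg fun _ _ => abs_nonneg _) ?_
  refine Finset.prod_le_one (fun _ _ => abs_nonneg _) fun r _ => ?_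
  have h := ArithmeticFunction.abs_moebius_le_one (n := ω.2.2.1 r)
  have h2 : |((ArithmeticFunction.moebius (ω.2.2.1 r) : ℤ) : ℝ)| =
      ((|ArithmeticFunction.moebius (ω.2.2.1 r)| : ℤ) : ℝ) := by push_cast; rfl
  rw [h2]
  exact_mod_cast h

lemma fiber_card (Y : ℕ) {n : Fin k → ℕ} (hn : ∀ j, 1 ≤ n j) :
    ((Om k Y).filter (fun ω => fi ω = n)).card ≤ (∏ r : Pr k, (n r.1.1).divisors.card) ^ 2 := by
  classical
  rw [sq, ← Fintype.card_piFinset, ← Finset.card_product]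
  refine Finset.card_le_card_of_injOn (fun ω => (ω.2.2.1, ω.2.2.2)) ?_ ?_
  · rintro ⟨a, n', f, e⟩ hω
    rw [Finset.mem_coe, Finset.mem_filter] at hω
    rw [Finset.mem_coe, Finset.mem_product, Fintype.mem_piFinset, Fintype.mem_piFinset]
    have h1 : ∀ r : Pr k, f r * e r ∣ n r.1.1 := by
      intro r
      rw [← hω.2]
      exact (dvd_EE (f * e) r).mul_left _
    refine ⟨fun r => ?_, fun r => ?_⟩
    · rw [Nat.mem_divisors]
      exact ⟨(dvd_mul_right _ _).trans (h1 r), by have := hn r.1.1; omega⟩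
    · rw [Nat.mem_divisors]
      exact ⟨(dvd_mul_left _ _).trans (h1 r), by have := hn r.1.1; omega⟩
  · rintro ⟨a, n', f, e⟩ hω ⟨a', n'', f', e'⟩ hω' heq
    rw [Finset.mem_coe, Finset.mem_filter] at hω hω'
    simp only [Prod.mk.injEq] at heq
    obtain ⟨rfl, rfl⟩ := heq
    have h1 : fi (a, n', f, e) = fi (a', n'', f, e) := by rw [hω.2, hω'.2]
    have hO := mem_Om.mp hω.1
    have hO' := mem_Om.mp hω'.1
    have hf := mem_bx.mp hO.2.2.1
    have he := mem_bx.mp hO.2.2.2.1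
    have h2 : n' = n'' := by
      funext j
      have h3 := congrFun h1 j
      have h4 : n' j * EE (f * e) j = n'' j * EE (f * e) j := h3
      exact Nat.eq_of_mul_eq_mul_right (EE_pos (fun r => Nat.mul_pos (hf r).1 (he r).1) j) h4
    subst h2
    have h3 : a ^ 2 = a' ^ 2 := by rw [← hO.2.2.2.2.1, ← hO'.2.2.2.2.1]
    have h4 : a = a' := Nat.pow_left_injective two_ne_zero h3
    rw [h4]

lemma bY_sq {Y : ℕ} {n : Fin k → ℕ} (h : bY Y n ≠ 0) : IsSquare (∏ j, n j) := by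
  unfold bY at h
  obtain ⟨⟨a, n', f, e⟩, hω, -⟩ := Finset.exists_ne_zero_of_sum_ne_zero h
  rw [Finset.mem_filter] at hω
  rw [← hω.2, prod_fi hω.1]
  exact ⟨_, sq _⟩

/-- the product of the entries -/
def PP (n : Fin k → ℕ) : ℝ := ((∏ j, n j : ℕ) : ℝ)

lemma one_le_PP {n : Fin k → ℕ} (hn : ∀ j, 1 ≤ n j) : 1 ≤ PP n := by
  unfold PP
  exact_mod_cast one_le_prod hn

lemma le_PP {n : Fin k → ℕ} (hn : ∀ j, 1 ≤ n j) (i : Fin k) : (n i : ℝ) ≤ PP n := by
  unfold PP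
  have h1 : n i ∣ ∏ j, n j := Finset.dvd_prod_of_mem n (Finset.mem_univ i)
  exact_mod_cast Nat.le_of_dvd (one_le_prod hn) h1

/-- powers of the divisor bound -/
lemma div_pow (c : ℕ) (η : ℝ) (hη : 0 < η) : ∃ C : ℝ, 0 < C ∧ ∀ n : ℕ, 1 ≤ n →
    (n.divisors.card : ℝ) ^ c ≤ C * (n : ℝ) ^ η := by
  obtain ⟨C, hC0, hC⟩ := Pool.Agent.Helper112.divisor_bound (η / (c + 1)) (by positivity)
  refine ⟨C ^ c, by positivity, fun n hn => ?_⟩
  have hn1 : (1 : ℝ) ≤ n := by exact_mod_cast hn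
  calc (n.divisors.card : ℝ) ^ c ≤ (C * (n : ℝ) ^ (η / (c + 1))) ^ c :=
        pow_le_pow_left₀ (by positivity) (hC n hn) c
    _ = C ^ c * ((n : ℝ) ^ (η / (c + 1) * c)) := by
        rw [mul_pow, ← Real.rpow_natCast ((n : ℝ) ^ (η / (c + 1))) c, ← Real.rpow_mul (by positivity)]
    _ ≤ C ^ c * (n : ℝ) ^ η := by
        apply mul_le_mul_of_nonneg_left _ (by positivity)
        apply Real.rpow_le_rpow_of_exponent_le hn1
        rw [div_mul_eq_mul_div, div_le_iff₀ (by positivity)]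
        nlinarith

lemma bY_bound (k : ℕ) : ∃ C : ℝ, 0 < C ∧ ∀ (Y : ℕ) (n : Fin k → ℕ), (∀ j, 1 ≤ n j) →
    |bY Y n| ≤ C * PP n ^ (1 / 100 : ℝ) := by
  obtain ⟨C, hC0, hC⟩ := div_pow 2 (1 / 100 / (Fintype.card (Pr k) + 1)) (by positivity)
  refine ⟨max C 1 ^ (Fintype.card (Pr k)), by positivity, fun Y n hn => ?_⟩
  have hP := one_le_PP hn
  have h1 : |bY Y n| ≤ (((Om k Y).filter (fun ω => fi ω = n)).card : ℝ) := by
    unfold bY
    refine (Finset.abs_sum_le_sum_abs _ _).trans ?_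
    refine (Finset.sum_le_sum fun ω _ => wt_le ω).trans ?_
    rw [Finset.sum_const, nsmul_eq_mul, mul_one]
  refine h1.trans ?_
  have h2 : (((Om k Y).filter (fun ω => fi ω = n)).card : ℝ) ≤
      (∏ r : Pr k, ((n r.1.1).divisors.card : ℝ)) ^ 2 := by exact_mod_cast fiber_card Y hn
  refine h2.trans ?_
  rw [← Finset.prod_pow]
  calc ∏ r : Pr k, ((n r.1.1).divisors.card : ℝ) ^ 2
      ≤ ∏ _r : Pr k, (max C 1 * PP n ^ ((1 / 100 : ℝ) / (Fintype.card (Pr k) + 1))) := by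
        refine Finset.prod_le_prod (fun _ _ => by positivity) fun r _ => ?_
        refine (hC _ (hn r.1.1)).trans ?_
        have h3 : (0 : ℝ) ≤ (n r.1.1 : ℝ) := by positivity
        exact mul_le_mul (le_max_left _ _) (Real.rpow_le_rpow h3 (le_PP hn _) (by positivity))
          (by positivity) (by positivity)
    _ = max C 1 ^ (Fintype.card (Pr k)) *
        PP n ^ ((1 / 100 : ℝ) / (Fintype.card (Pr k) + 1) * (Fintype.card (Pr k))) := by
        rw [Finset.prod_const, Finset.card_univ, mul_pow,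
          ← Real.rpow_natCast (PP n ^ ((1 / 100 : ℝ) / (Fintype.card (Pr k) + 1))),
          ← Real.rpow_mul (by linarith)]
    _ ≤ max C 1 ^ (Fintype.card (Pr k)) * PP n ^ (1 / 100 : ℝ) := by
        apply mul_le_mul_of_nonneg_left _ (by positivity)
        apply Real.rpow_le_rpow_of_exponent_le hP
        rw [div_mul_eq_mul_div, div_le_iff₀ (by positivity)]
        nlinarith

lemma card_fib (k L m : ℕ) (hm : 1 ≤ m) :
    ((tup k L).filter (fun n => ∏ j, n j = m)).card ≤ m.divisors.card ^ k := by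
  classical
  have h1 : m.divisors.card ^ k = (Fintype.piFinset fun _ : Fin k => m.divisors).card := by
    rw [Fintype.card_piFinset, Finset.prod_const, Finset.card_univ, Fintype.card_fin]
  rw [h1]
  refine Finset.card_le_card fun n hn => ?_
  rw [Finset.mem_filter] at hn
  rw [Fintype.mem_piFinset]
  intro j
  rw [Nat.mem_divisors]
  exact ⟨by rw [← hn.2]; exact Finset.dvd_prod_of_mem n (Finset.mem_univ j), by omega⟩

/-- the sum over the tuples whose product is a square -/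
lemma sumsq (k : ℕ) : ∃ C : ℝ, 0 < C ∧ ∀ L : ℕ,
    ∑ n ∈ (tup k L).filter (fun n => IsSquare (∏ j, n j)), PP n ^ (-(16 / 25) : ℝ) ≤ C := by
  classical
  obtain ⟨C, hC0, hC⟩ := div_pow k (1 / 50) (by norm_num)
  have hs : Summable (fun m : ℕ => (m : ℝ) ^ (-(6 / 5) : ℝ)) :=
    Real.summable_nat_rpow.mpr (by norm_num)
  refine ⟨C * (∑' m : ℕ, (m : ℝ) ^ (-(6 / 5) : ℝ)) + 1, ?_, fun L => ?_⟩
  · have : 0 ≤ ∑' m : ℕ, (m : ℝ) ^ (-(6 / 5) : ℝ) := tsum_nonneg fun m => by positivity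
    positivity
  have h1 : ∑ n ∈ (tup k L).filter (fun n => IsSquare (∏ j, n j)), PP n ^ (-(16 / 25) : ℝ) ≤
      ∑ m ∈ Icc 1 (L ^ k), ∑ n ∈ (tup k L).filter (fun n => ∏ j, n j = m ^ 2),
        PP n ^ (-(16 / 25) : ℝ) := by
    have h2 : ∀ n ∈ (tup k L).filter (fun n => IsSquare (∏ j, n j)),
        Nat.sqrt (∏ j, n j) ∈ Icc 1 (L ^ k) := by
      intro n hn
      rw [Finset.mem_filter] at hn
      obtain ⟨hn1, hn2⟩ := hn
      rw [mem_tup] at hn1
      have h3 : 1 ≤ ∏ j, n j := one_le_prod fun j => (hn1 j).1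
      have h4 : ∏ j, n j ≤ L ^ k := by
        calc ∏ j, n j ≤ ∏ _j : Fin k, L := Finset.prod_le_prod' fun j _ => (hn1 j).2
          _ = L ^ k := by rw [Finset.prod_const, Finset.card_univ, Fintype.card_fin]
      rw [Finset.mem_Icc]
      refine ⟨?_, (Nat.sqrt_le_self _).trans h4⟩
      rw [Nat.one_le_iff_ne_zero]
      intro h
      rw [Nat.sqrt_eq_zero] at h
      omega
    rw [← Finset.sum_fiberwise_of_maps_to h2]
    refine Finset.sum_le_sum fun m hm => ?_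
    refine Finset.sum_le_sum_of_subset_of_nonneg ?_ fun n _ _ => ?_
    · intro n hn
      rw [Finset.mem_filter, Finset.mem_filter] at hn
      rw [Finset.mem_filter]
      refine ⟨hn.1.1, ?_⟩
      obtain ⟨a, ha⟩ := hn.1.2
      rw [← hn.2, ha, Nat.sqrt_eq, sq]
    · unfold PP
      positivity
  refine h1.trans ?_
  have h3 : ∀ m ∈ Icc 1 (L ^ k), ∑ n ∈ (tup k L).filter (fun n => ∏ j, n j = m ^ 2),
        PP n ^ (-(16 / 25) : ℝ) ≤ C * (m : ℝ) ^ (-(6 / 5) : ℝ) := by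
    intro m hm
    rw [Finset.mem_Icc] at hm
    have hm0 : (0 : ℝ) < m := by exact_mod_cast hm.1
    have hm1 : (1 : ℝ) ≤ m := by exact_mod_cast hm.1
    have h4 : ∀ n ∈ (tup k L).filter (fun n => ∏ j, n j = m ^ 2),
        PP n ^ (-(16 / 25) : ℝ) = (m : ℝ) ^ (-(32 / 25) : ℝ) := by
      intro n hn
      rw [Finset.mem_filter] at hn
      unfold PP
      rw [hn.2]
      push_cast
      rw [← Real.rpow_natCast (m : ℝ) 2, ← Real.rpow_mul hm0.le]
      norm_num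
    rw [Finset.sum_congr rfl h4, Finset.sum_const, nsmul_eq_mul]
    have h5 : (((tup k L).filter (fun n => ∏ j, n j = m ^ 2)).card : ℝ) ≤
        C * ((m : ℝ) ^ 2) ^ (1 / 50 : ℝ) := by
      refine le_trans ?_ (by have := hC (m ^ 2) (Nat.one_le_pow _ _ hm.1); push_cast at this; exact this)
      exact_mod_cast card_fib k L (m ^ 2) (Nat.one_le_pow _ _ hm.1)
    calc (((tup k L).filter (fun n => ∏ j, n j = m ^ 2)).card : ℝ) * (m : ℝ) ^ (-(32 / 25) : ℝ)
        ≤ C * ((m : ℝ) ^ 2) ^ (1 / 50 : ℝ) * (m : ℝ) ^ (-(32 / 25) : ℝ) :=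
          mul_le_mul_of_nonneg_right h5 (by positivity)
      _ = C * (m : ℝ) ^ (-(31 / 25) : ℝ) := by
          rw [← Real.rpow_natCast (m : ℝ) 2, ← Real.rpow_mul hm0.le, mul_assoc,
            ← Real.rpow_add hm0]
          norm_num
      _ ≤ C * (m : ℝ) ^ (-(6 / 5) : ℝ) := by
          apply mul_le_mul_of_nonneg_left _ hC0.le
          exact Real.rpow_le_rpow_of_exponent_le hm1 (by norm_num)
  refine (Finset.sum_le_sum h3).trans ?_
  rw [← Finset.mul_sum]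
  have h6 := hs.sum_le_tsum (Icc 1 (L ^ k)) (fun m _ => by positivity)
  have := mul_le_mul_of_nonneg_left h6 hC0.le
  linarith

/-! ### the final estimate -/

/-- the coefficients of the difference -/
def cd (Y : ℕ) (n : Fin k → ℕ) : ℝ :=
  bY Y n - (if n ∈ tup k Y then (if IsSquare (∏ j, n j) then af (∏ j, n j) else 0) else 0)

lemma cd_box {Y : ℕ} (hY : 1 ≤ Y) {n : Fin k → ℕ} (hn : n ∈ tup k Y) : cd Y n = 0 := by
  unfold cd
  rw [if_pos hn, bY_box hY hn, sub_self]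

lemma cd_out {Y : ℕ} {n : Fin k → ℕ} (hn : n ∉ tup k Y) : cd Y n = bY Y n := by
  unfold cd
  rw [if_neg hn, sub_zero]

lemma cx_split {n : Fin k → ℕ} (hn : ∀ j, 1 ≤ n j) (β : Fin k → ℝ) :
    cx n β = ((PP n ^ (-(1 / 2) : ℝ) : ℝ) : ℂ) * ∏ j, (n j : ℂ) ^ (-(I * (β j : ℂ))) := by
  have h1 : ((PP n ^ (-(1 / 2) : ℝ) : ℝ) : ℂ) = ∏ j, ph (1 / 2) (n j) := by
    rw [← map_prod, ph_apply]
    unfold PP
    rw [Complex.ofReal_cpow (by positivity)]
    push_cast
    rfl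
  rw [h1, cx_eq, ← Finset.prod_mul_distrib]
  refine Finset.prod_congr rfl fun j _ => ?_
  unfold pt
  rw [ph_add _ _ (by have := hn j; omega)]
  rfl

lemma tup_sub {Y : ℕ} (hY : 1 ≤ Y) : tup k Y ⊆ tup k (LN k Y) := by
  intro n hn
  rw [mem_tup] at hn ⊢
  intro j
  refine ⟨(hn j).1, (hn j).2.trans ?_⟩
  unfold LN
  refine Nat.le_self_pow ?_ Y
  have := j.2
  omega

lemma diff_eq {Y : ℕ} (hY : 1 ≤ Y) (β : Fin k → ℝ) :
    (∑ m ∈ Icc 1 (Y ^ k), al β m) * (∏ r : Pr k, zN Y (pp β r)) - SN k Y β =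
      ∑ n ∈ tup k (LN k Y), ((cd Y n : ℂ) * ((PP n ^ (-(1 / 2) : ℝ) : ℝ) : ℂ)) *
        ∏ j, (n j : ℂ) ^ (-(I * (β j : ℂ))) := by
  classical
  have h1 : SN k Y β = ∑ n ∈ tup k (LN k Y), (((if n ∈ tup k Y then
      (if IsSquare (∏ j, n j) then af (∏ j, n j) else 0) else 0 : ℝ)) : ℂ) * cx n β := by
    have h2 : ∀ n ∈ tup k (LN k Y), (((if n ∈ tup k Y then
      (if IsSquare (∏ j, n j) then af (∏ j, n j) else 0) else 0 : ℝ)) : ℂ) * cx n β =
      if n ∈ tup k Y then (if IsSquare (∏ j, n j) then (af (∏ j, n j) : ℂ) * cx n β else 0)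
        else 0 := by
      intro n _
      split_ifs <;> simp
    rw [Finset.sum_congr rfl h2, Finset.sum_ite_mem, Finset.inter_eq_right.mpr (tup_sub hY)]
    unfold SN
    refine Finset.sum_congr rfl fun n _ => ?_
    split_ifs <;> rfl
  rw [group, h1, ← Finset.sum_sub_distrib]
  refine Finset.sum_congr rfl fun n hn => ?_
  rw [mem_tup] at hn
  rw [← sub_mul, cx_split (fun j => (hn j).1)]
  unfold cd
  push_cast
  ring

theorem t_COEF (h : S_FL) : S_COEF := by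
  classical
  intro k
  obtain ⟨Cb, hCb0, hCb⟩ := bY_bound k
  obtain ⟨Cs, hCs0, hCs⟩ := sumsq k
  obtain ⟨E, hE⟩ : ∃ E : ℕ, E = 2 * k + 2 * (k + 1) * Fintype.card (Pr k) := ⟨_, rfl⟩
  refine ⟨2 ^ k * (Cb ^ 2 * Cs + 2 * Cb ^ 2), E * (4 * k + 1) + 1, by positivity,
    fun A Y hY hA => ?_⟩
  have hYr : (1 : ℝ) ≤ Y := by exact_mod_cast hY
  have hA1 : 1 ≤ A := (one_le_pow₀ hYr).trans hA
  have hA0 : 0 < A := by linarith
  obtain ⟨L, hL⟩ : ∃ L : ℕ, L = LN k Y := ⟨_, rfl⟩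
  have hLE : (L : ℝ) = (Y : ℝ) ^ E := by rw [hL, hE]; unfold LN; push_cast; rfl
  have hL1 : 1 ≤ L := by rw [hL]; unfold LN; exact Nat.one_le_pow _ _ hY
  have hL1r : (1 : ℝ) ≤ L := by exact_mod_cast hL1
  have hfl := h k L A (fun n => (cd Y n : ℂ) * ((PP n ^ (-(1 / 2) : ℝ) : ℝ) : ℂ)) hL1 hA0
  have hint : ∀ β : Fin k → ℝ, (∑ m ∈ Finset.Icc 1 (Y ^ k), al β m) * (∏ r : Pr k, zN Y (pp β r))
      - SN k Y β = ∑ n ∈ tup k L, ((cd Y n : ℂ) * ((PP n ^ (-(1 / 2) : ℝ) : ℝ) : ℂ)) *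
        ∏ j, (n j : ℂ) ^ (-(I * (β j : ℂ))) := by
    intro β
    rw [hL]
    exact diff_eq hY β
  simp only [hint]
  refine hfl.trans (ENNReal.ofReal_le_ofReal ?_)
  -- norms of the coefficients
  have hnorm : ∀ n ∈ tup k L, ‖(cd Y n : ℂ) * ((PP n ^ (-(1 / 2) : ℝ) : ℝ) : ℂ)‖ =
      |cd Y n| * PP n ^ (-(1 / 2) : ℝ) := by
    intro n hn
    rw [mem_tup] at hn
    have hP := one_le_PP (fun j => (hn j).1)
    rw [norm_mul, Complex.norm_real, Complex.norm_real, Real.norm_eq_abs, Real.norm_eq_abs,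
      abs_of_nonneg (by positivity : 0 ≤ PP n ^ (-(1 / 2) : ℝ))]
  have hcd : ∀ n ∈ tup k L, |cd Y n| ≤ Cb * PP n ^ (1 / 100 : ℝ) := by
    intro n hn
    rw [mem_tup] at hn
    by_cases hb : n ∈ tup k Y
    · rw [cd_box hY hb, abs_zero]
      have hP := one_le_PP (fun j => (hn j).1)
      positivity
    · rw [cd_out hb]
      exact hCb Y n fun j => (hn j).1
  -- first sum
  have hS1 : ∑ n ∈ tup k L, ‖(cd Y n : ℂ) * ((PP n ^ (-(1 / 2) : ℝ) : ℝ) : ℂ)‖ ^ 2 ≤
      Cb ^ 2 * (Y : ℝ) ^ (-(1 / 3) : ℝ) * Cs := by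
    have h1 : ∀ n ∈ tup k L, ‖(cd Y n : ℂ) * ((PP n ^ (-(1 / 2) : ℝ) : ℝ) : ℂ)‖ ^ 2 ≤
        if IsSquare (∏ j, n j) then Cb ^ 2 * (Y : ℝ) ^ (-(1 / 3) : ℝ) * PP n ^ (-(16 / 25) : ℝ)
          else 0 := by
      intro n hn
      rw [hnorm n hn]
      have hc := hcd n hn
      have hn' := mem_tup.mp hn
      have hP := one_le_PP (fun j => (hn' j).1)
      have hP0 : 0 < PP n := by linarith
      by_cases hz : cd Y n = 0
      · rw [hz, abs_zero, zero_mul, zero_pow two_ne_zero]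
        split_ifs
        · positivity
        · exact le_rfl
      · have hb : n ∉ tup k Y := fun hb => hz (cd_box hY hb)
        have hsq : IsSquare (∏ j, n j) := by
          apply bY_sq (Y := Y)
          rw [← cd_out hb]
          exact hz
        rw [if_pos hsq]
        have hex : ∃ j, Y < n j := by
          by_contra hcon
          push Not at hcon
          exact hb (mem_tup.mpr fun j => ⟨(hn' j).1, hcon j⟩)
        obtain ⟨j, hj⟩ := hex
        have hYP : (Y : ℝ) ≤ PP n := by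
          have h2 := le_PP (fun j => (hn' j).1) j
          have h3 : (Y : ℝ) < n j := by exact_mod_cast hj
          linarith
        have h4 : (Y : ℝ) ^ (1 / 3 : ℝ) ≤ PP n ^ (1 / 3 : ℝ) :=
          Real.rpow_le_rpow (by linarith) hYP (by norm_num)
        have h5 : 1 ≤ (Y : ℝ) ^ (-(1 / 3) : ℝ) * PP n ^ (1 / 3 : ℝ) := by
          have h6 : (Y : ℝ) ^ (-(1 / 3) : ℝ) * (Y : ℝ) ^ (1 / 3 : ℝ) = 1 := by
            rw [← Real.rpow_add (by linarith)]
            norm_num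
          calc (1 : ℝ) = (Y : ℝ) ^ (-(1 / 3) : ℝ) * (Y : ℝ) ^ (1 / 3 : ℝ) := h6.symm
            _ ≤ _ := mul_le_mul_of_nonneg_left h4 (by positivity)
        calc (|cd Y n| * PP n ^ (-(1 / 2) : ℝ)) ^ 2
            ≤ (Cb * PP n ^ (1 / 100 : ℝ) * PP n ^ (-(1 / 2) : ℝ)) ^ 2 := by
              apply pow_le_pow_left₀ (by positivity)
              exact mul_le_mul_of_nonneg_right hc (by positivity)
          _ = Cb ^ 2 * PP n ^ (-(49 / 50) : ℝ) := by
              rw [mul_assoc, ← Real.rpow_add hP0, mul_pow, ← Real.rpow_natCast (PP n ^ _) 2,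
                ← Real.rpow_mul hP0.le]
              norm_num
          _ ≤ Cb ^ 2 * PP n ^ (-(49 / 50) : ℝ) *
                ((Y : ℝ) ^ (-(1 / 3) : ℝ) * PP n ^ (1 / 3 : ℝ)) :=
              le_mul_of_one_le_right (by positivity) h5
          _ = Cb ^ 2 * (Y : ℝ) ^ (-(1 / 3) : ℝ) * (PP n ^ (-(49 / 50) : ℝ) * PP n ^ (1 / 3 : ℝ)) := by
              ring
          _ = Cb ^ 2 * (Y : ℝ) ^ (-(1 / 3) : ℝ) * PP n ^ (-(97 / 150) : ℝ) := by
              rw [← Real.rpow_add hP0]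
              norm_num
          _ ≤ Cb ^ 2 * (Y : ℝ) ^ (-(1 / 3) : ℝ) * PP n ^ (-(16 / 25) : ℝ) := by
              apply mul_le_mul_of_nonneg_left _ (by positivity)
              exact Real.rpow_le_rpow_of_exponent_le hP (by norm_num)
    refine (Finset.sum_le_sum h1).trans ?_
    rw [← Finset.sum_filter, ← Finset.mul_sum]
    exact mul_le_mul_of_nonneg_left (hCs L) (by positivity)
  -- second sum
  have hS2 : ∑ n ∈ tup k L, ‖(cd Y n : ℂ) * ((PP n ^ (-(1 / 2) : ℝ) : ℝ) : ℂ)‖ ≤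
      Cb * (L : ℝ) ^ (2 * k) := by
    have h1 : ∀ n ∈ tup k L, ‖(cd Y n : ℂ) * ((PP n ^ (-(1 / 2) : ℝ) : ℝ) : ℂ)‖ ≤
        Cb * (L : ℝ) ^ k := by
      intro n hn
      rw [hnorm n hn]
      have hc := hcd n hn
      have hn' := mem_tup.mp hn
      have hP := one_le_PP (fun j => (hn' j).1)
      have hP0 : 0 < PP n := by linarith
      have h2 : PP n ^ (-(1 / 2) : ℝ) ≤ 1 := Real.rpow_le_one_of_one_le_of_nonpos hP (by norm_num)
      have h3 : PP n ^ (1 / 100 : ℝ) ≤ PP n := by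
        calc PP n ^ (1 / 100 : ℝ) ≤ PP n ^ (1 : ℝ) :=
              Real.rpow_le_rpow_of_exponent_le hP (by norm_num)
          _ = PP n := Real.rpow_one _
      have h4 : PP n ≤ (L : ℝ) ^ k := by
        unfold PP
        have : ∏ j, n j ≤ L ^ k := by
          calc ∏ j, n j ≤ ∏ _j : Fin k, L := Finset.prod_le_prod' fun j _ => (hn' j).2
            _ = L ^ k := by rw [Finset.prod_const, Finset.card_univ, Fintype.card_fin]
        exact_mod_cast this
      calc |cd Y n| * PP n ^ (-(1 / 2) : ℝ) ≤ |cd Y n| * 1 :=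
            mul_le_mul_of_nonneg_left h2 (abs_nonneg _)
        _ ≤ Cb * PP n ^ (1 / 100 : ℝ) := by rw [mul_one]; exact hc
        _ ≤ Cb * (L : ℝ) ^ k := mul_le_mul_of_nonneg_left (h3.trans h4) hCb0.le
    refine (Finset.sum_le_sum h1).trans ?_
    rw [Finset.sum_const, nsmul_eq_mul]
    have h5 : ((tup k L).card : ℝ) = (L : ℝ) ^ k := by
      unfold tup
      rw [Fintype.card_piFinset]
      simp
    rw [h5, two_mul, pow_add]
    apply le_of_eq
    ring
  have hS2' : (∑ n ∈ tup k L, ‖(cd Y n : ℂ) * ((PP n ^ (-(1 / 2) : ℝ) : ℝ) : ℂ)‖) ^ 2 ≤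
      Cb ^ 2 * (L : ℝ) ^ (4 * k) := by
    calc _ ≤ (Cb * (L : ℝ) ^ (2 * k)) ^ 2 :=
          pow_le_pow_left₀ (Finset.sum_nonneg fun _ _ => norm_nonneg _) hS2 2
      _ = Cb ^ 2 * (L : ℝ) ^ (4 * k) := by rw [mul_pow, ← pow_mul]; ring_nf
  have hpow : (2 * A) ^ ((k : ℝ) - 1) = (2 * A) ^ k / (2 * A) := by
    rw [Real.rpow_sub_one (by positivity), Real.rpow_natCast]
  have hLA : (L : ℝ) ^ (4 * k + 1) * Y ≤ A := by
    rw [hLE, ← pow_mul, ← pow_succ]
    exact hA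
  have hY14 : (Y : ℝ) ^ (-(1 / 3) : ℝ) ≤ (Y : ℝ) ^ (-(1 / 4) : ℝ) :=
    Real.rpow_le_rpow_of_exponent_le hYr (by norm_num)
  have hYinv : (Y : ℝ)⁻¹ ≤ (Y : ℝ) ^ (-(1 / 4) : ℝ) := by
    rw [← Real.rpow_neg_one]
    exact Real.rpow_le_rpow_of_exponent_le hYr (by norm_num)
  have hLA2 : (L : ℝ) ^ (4 * k + 1) / A ≤ (Y : ℝ) ^ (-(1 / 4) : ℝ) := by
    refine le_trans ?_ hYinv
    rw [div_le_iff₀ hA0, inv_mul_eq_div, le_div_iff₀ (by linarith)]
    exact hLA
  rw [hpow]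
  have t1 : (2 * A) ^ k * ∑ n ∈ tup k L, ‖(cd Y n : ℂ) * ((PP n ^ (-(1 / 2) : ℝ) : ℝ) : ℂ)‖ ^ 2 ≤
      (2 * A) ^ k * (Cb ^ 2 * (Y : ℝ) ^ (-(1 / 4) : ℝ) * Cs) := by
    apply mul_le_mul_of_nonneg_left _ (by positivity)
    refine hS1.trans ?_
    apply mul_le_mul_of_nonneg_right _ hCs0.le
    exact mul_le_mul_of_nonneg_left hY14 (by positivity)
  have t2 : 4 * (L : ℝ) * ((2 * A) ^ k / (2 * A)) *
      (∑ n ∈ tup k L, ‖(cd Y n : ℂ) * ((PP n ^ (-(1 / 2) : ℝ) : ℝ) : ℂ)‖) ^ 2 ≤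
      (2 * A) ^ k * (2 * Cb ^ 2 * (Y : ℝ) ^ (-(1 / 4) : ℝ)) := by
    calc _ ≤ 4 * (L : ℝ) * ((2 * A) ^ k / (2 * A)) * (Cb ^ 2 * (L : ℝ) ^ (4 * k)) :=
          mul_le_mul_of_nonneg_left hS2' (by positivity)
      _ = (2 * A) ^ k * (2 * Cb ^ 2 * ((L : ℝ) ^ (4 * k + 1) / A)) := by
          rw [pow_succ]
          field_simp
          ring
      _ ≤ _ := by
          apply mul_le_mul_of_nonneg_left _ (by positivity)
          exact mul_le_mul_of_nonneg_left hLA2 (by positivity)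
  calc _ ≤ (2 * A) ^ k * (Cb ^ 2 * (Y : ℝ) ^ (-(1 / 4) : ℝ) * Cs) +
        (2 * A) ^ k * (2 * Cb ^ 2 * (Y : ℝ) ^ (-(1 / 4) : ℝ)) := add_le_add t1 t2
    _ = 2 ^ k * (Cb ^ 2 * Cs + 2 * Cb ^ 2) * A ^ k * (Y : ℝ) ^ (-(1 / 4) : ℝ) := by
        rw [mul_pow]
        ring


end s3

end

end Pool.Agent.N879.QM.Coef

namespace Pool.Agent.N879.QM

theorem t_COEF (h : S_FL) : S_COEF := Coef.t_COEF h

end Pool.Agent.N879.QM
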