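import Pool.Agent.H27.G.R_pool_sql_team_seeded_63374d34.N879.QM.Stm
import Pool.Agent.H27.G.R_seed8.H423R2.RZL.HBLS
import Pool.Agent.H27.G.R_seed8.H987R2.RG_CLS

/-!
# Project QM, part GK (helper401): from Heath-Brown's quadratic large sieve to the family
-/

set_option autoImplicit false

namespace Pool.Agent.N879.QM

open Complex Filter Topology MeasureTheory Set
open scoped BigOperators
open Pool.Agent.H306R2.RZ (js osf sqf LSB)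
open Pool.Agent.H306R2.RG (FD F8 F4 F1 Fam cf)
open Pool.Agent.H423R2.RZL.HBLSn (HBLS)
open Pool.Agent.H987R2.RGCLS (CLS cf_eq)

noncomputable section

theorem gk_dual {α β : Type} (S : Finset α) (T : Finset β) (k : α → β → ℂ) {B : ℝ} (hB : 0 ≤ B)
    (h : ∀ a : β → ℂ, ∑ s ∈ S, ‖∑ t ∈ T, a t * k s t‖ ^ 2 ≤ B * ∑ t ∈ T, ‖a t‖ ^ 2) (b : α → ℂ) :
    ∑ t ∈ T, ‖∑ s ∈ S, b s * k s t‖ ^ 2 ≤ B * ∑ s ∈ S, ‖b s‖ ^ 2 := by
  obtain ⟨z, hz⟩ : ∃ z : β → ℂ, z = fun t => ∑ s ∈ S, b s * k s t := ⟨_, rfl⟩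
  obtain ⟨w, hw⟩ : ∃ w : α → ℂ, w = fun s => ∑ t ∈ T, (starRingEnd ℂ) (z t) * k s t := ⟨_, rfl⟩
  have h1 := h fun t => (starRingEnd ℂ) (z t)
  simp only [RCLike.norm_conj] at h1
  have e1 : ((∑ t ∈ T, ‖z t‖ ^ 2 : ℝ) : ℂ) = ∑ s ∈ S, b s * w s := by
    rw [hw]
    push_cast
    simp only [Finset.mul_sum]
    rw [Finset.sum_comm]
    refine Finset.sum_congr rfl fun t _ => ?_
    rw [← Complex.conj_mul']
    conv_lhs => rw [hz]
    rw [Finset.mul_sum]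
    refine Finset.sum_congr rfl fun s _ => ?_
    rw [hz]
    ring
  have h2 : ∑ t ∈ T, ‖z t‖ ^ 2 ≤ ∑ s ∈ S, ‖b s‖ * ‖w s‖ := by
    have h3 : ‖((∑ t ∈ T, ‖z t‖ ^ 2 : ℝ) : ℂ)‖ ≤ ∑ s ∈ S, ‖b s‖ * ‖w s‖ := by
      rw [e1]
      refine (norm_sum_le _ _).trans (Finset.sum_le_sum fun s _ => ?_)
      rw [norm_mul]
    rw [Complex.norm_real, Real.norm_eq_abs] at h3
    exact (le_abs_self _).trans h3
  have h0 : 0 ≤ ∑ t ∈ T, ‖z t‖ ^ 2 := Finset.sum_nonneg fun _ _ => by positivity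
  have hb0 : 0 ≤ ∑ s ∈ S, ‖b s‖ ^ 2 := Finset.sum_nonneg fun _ _ => by positivity
  have h4 : (∑ t ∈ T, ‖z t‖ ^ 2) ^ 2 ≤ (∑ s ∈ S, ‖b s‖ ^ 2) * (B * ∑ t ∈ T, ‖z t‖ ^ 2) := by
    calc (∑ t ∈ T, ‖z t‖ ^ 2) ^ 2 ≤ (∑ s ∈ S, ‖b s‖ * ‖w s‖) ^ 2 := pow_le_pow_left₀ h0 h2 2
      _ ≤ (∑ s ∈ S, ‖b s‖ ^ 2) * ∑ s ∈ S, ‖w s‖ ^ 2 := Finset.sum_mul_sq_le_sq_mul_sq _ _ _
      _ ≤ _ := by
        apply mul_le_mul_of_nonneg_left _ hb0
        rw [hw]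
        exact h1
  have h5 : ∑ t ∈ T, ‖z t‖ ^ 2 ≤ B * ∑ s ∈ S, ‖b s‖ ^ 2 := by
    rcases eq_or_lt_of_le h0 with h6 | h6
    · rw [← h6]
      positivity
    · have h7 : (∑ t ∈ T, ‖z t‖ ^ 2) * (∑ t ∈ T, ‖z t‖ ^ 2) ≤
          (B * ∑ s ∈ S, ‖b s‖ ^ 2) * (∑ t ∈ T, ‖z t‖ ^ 2) := by
        calc _ = (∑ t ∈ T, ‖z t‖ ^ 2) ^ 2 := by ring
          _ ≤ _ := h4
          _ = _ := by ring
      exact le_of_mul_le_mul_right h7 h6
  rw [hz] at h5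
  exact h5

/-- the dual inequality over a set with an injective map into the squarefree numbers -/
theorem gk_dual2 {M N : ℕ} {B : ℝ} (hB : 0 ≤ B) (h : LSB M N B) (D : Finset ℕ) (dd : ℕ → ℕ)
    (hd : ∀ q ∈ D, dd q ∈ sqf M) (hinj : ∀ q ∈ D, ∀ q' ∈ D, dd q = dd q' → q = q') (b : ℕ → ℂ) :
    ∑ n ∈ osf N, ‖∑ q ∈ D, b q * (js (dd q) n : ℂ)‖ ^ 2 ≤ B * ∑ q ∈ D, ‖b q‖ ^ 2 := by
  classical
  apply gk_dual D (osf N) (fun q n => (js (dd q) n : ℂ)) hB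
  intro a
  refine le_trans ?_ (h a)
  have e : ∑ m ∈ D.image dd, ‖∑ n ∈ osf N, a n * (js m n : ℂ)‖ ^ 2 =
      ∑ q ∈ D, ‖∑ n ∈ osf N, a n * (js (dd q) n : ℂ)‖ ^ 2 :=
    Finset.sum_image fun q hq q' hq' h => hinj q hq q' hq' h
  rw [← e]
  apply Finset.sum_le_sum_of_subset_of_nonneg
  · intro m hm
    obtain ⟨q, hq, rfl⟩ := Finset.mem_image.1 hm
    exact hd q hq
  · intro _ _ _
    positivity

theorem gk_js_abs (k : ℤ) (n : ℕ) : |js k n| ≤ 1 := by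
  unfold js
  rcases jacobiSym.trichotomy k n with h | h | h <;> rw [h] <;> norm_num

theorem gk_js_mul (a b : ℤ) (n : ℕ) : js (a * b) n = js a n * js b n := by
  unfold js
  rw [jacobiSym.mul_left]
  push_cast
  rfl

theorem gk_js_right (a : ℤ) (n r : ℕ) (hn : n ≠ 0) (hr : r ≠ 0) : js a (n * r ^ 2) = js a n * js a r ^ 2 := by
  unfold js
  rw [jacobiSym.mul_right' a hn (pow_ne_zero 2 hr), jacobiSym.pow_right]
  push_cast
  rfl

/-- the pairs `(b, r)` with `2^b r² ≤ K` -/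
def GkT (K : ℕ) : Finset (ℕ × ℕ) :=
  (Finset.range (K + 1) ×ˢ Finset.Icc 1 K).filter fun p => 2 ^ p.1 * p.2 ^ 2 ≤ K

theorem gkT_card (K : ℕ) : ((GkT K).card : ℝ) ≤ 4 * √K := by
  have h1 : GkT K ⊆ ((Finset.range (K + 1)).sigma (fun b => Finset.Icc 1 ⌊√K * (3 / 4 : ℝ) ^ b⌋₊)).image
      (fun p => (p.1, p.2)) := by
    intro p hp
    unfold GkT at hp
    rw [Finset.mem_filter, Finset.mem_product, Finset.mem_Icc] at hp
    obtain ⟨⟨h2, h3, h4⟩, h5⟩ := hp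
    rw [Finset.mem_image]
    refine ⟨⟨p.1, p.2⟩, ?_, rfl⟩
    rw [Finset.mem_sigma]
    refine ⟨h2, ?_⟩
    rw [Finset.mem_Icc]
    refine ⟨h3, ?_⟩
    apply Nat.le_floor
    have h6 : (2 : ℝ) ^ p.1 * (p.2 : ℝ) ^ 2 ≤ K := by exact_mod_cast h5
    have h7 : (p.2 : ℝ) ^ 2 ≤ (√K * (3 / 4 : ℝ) ^ p.1) ^ 2 := by
      rw [mul_pow, Real.sq_sqrt (Nat.cast_nonneg K), ← pow_mul, mul_comm p.1 2, pow_mul]
      have h8 : (1 : ℝ) ≤ 2 ^ p.1 * ((3 / 4 : ℝ) ^ 2) ^ p.1 := by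
        rw [← mul_pow]
        apply one_le_pow₀
        norm_num
      calc (p.2 : ℝ) ^ 2 ≤ (p.2 : ℝ) ^ 2 * (2 ^ p.1 * ((3 / 4 : ℝ) ^ 2) ^ p.1) :=
            le_mul_of_one_le_right (by positivity) h8
        _ = (2 ^ p.1 * (p.2 : ℝ) ^ 2) * ((3 / 4 : ℝ) ^ 2) ^ p.1 := by ring
        _ ≤ K * ((3 / 4 : ℝ) ^ 2) ^ p.1 := mul_le_mul_of_nonneg_right h6 (by positivity)
    exact le_of_sq_le_sq (by simpa using h7) (by positivity)
  have h2 : ((GkT K).card : ℝ) ≤ ∑ b ∈ Finset.range (K + 1), √K * (3 / 4 : ℝ) ^ b := by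
    have h3 := (Finset.card_le_card h1).trans Finset.card_image_le
    rw [Finset.card_sigma] at h3
    calc ((GkT K).card : ℝ) ≤ ((∑ b ∈ Finset.range (K + 1), (Finset.Icc 1 ⌊√K * (3 / 4 : ℝ) ^ b⌋₊).card : ℕ) : ℝ) := by
          exact_mod_cast h3
      _ = ∑ b ∈ Finset.range (K + 1), ((⌊√K * (3 / 4 : ℝ) ^ b⌋₊ : ℕ) : ℝ) := by
          push_cast
          refine Finset.sum_congr rfl fun b _ => ?_
          rw [Nat.card_Icc, Nat.add_sub_cancel]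
      _ ≤ _ := Finset.sum_le_sum fun b _ => Nat.floor_le (by positivity)
  rw [← Finset.mul_sum] at h2
  have h3 : ∑ b ∈ Finset.range (K + 1), (3 / 4 : ℝ) ^ b ≤ 4 := by
    have h4 := sum_le_hasSum (Finset.range (K + 1)) (fun i _ => by positivity)
      (hasSum_geometric_of_lt_one (r := (3 / 4 : ℝ)) (by norm_num) (by norm_num))
    norm_num at h4
    exact h4
  nlinarith [Real.sqrt_nonneg (K : ℝ)]

theorem gkT_sum (K : ℕ) : ∑ p ∈ GkT K, (1 : ℝ) / (2 ^ p.1 * (p.2 : ℝ) ^ 2) ≤ 4 := by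
  have h1 : ∑ p ∈ GkT K, (1 : ℝ) / (2 ^ p.1 * (p.2 : ℝ) ^ 2) ≤
      ∑ p ∈ Finset.range (K + 1) ×ˢ Finset.Icc 1 K, (1 : ℝ) / (2 ^ p.1 * (p.2 : ℝ) ^ 2) := by
    apply Finset.sum_le_sum_of_subset_of_nonneg (Finset.filter_subset _ _)
    intro _ _ _
    positivity
  have h2 : ∑ p ∈ Finset.range (K + 1) ×ˢ Finset.Icc 1 K, (1 : ℝ) / (2 ^ p.1 * (p.2 : ℝ) ^ 2) =
      (∑ b ∈ Finset.range (K + 1), (1 / 2 : ℝ) ^ b) * ∑ r ∈ Finset.Icc 1 K, ((r : ℝ) ^ 2)⁻¹ := by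
    rw [Finset.sum_mul_sum, Finset.sum_product]
    refine Finset.sum_congr rfl fun b _ => Finset.sum_congr rfl fun r _ => ?_
    rw [one_div, mul_inv, one_div, inv_pow]
  have h3 : ∑ b ∈ Finset.range (K + 1), (1 / 2 : ℝ) ^ b ≤ 2 := by
    have h4 := sum_le_hasSum (Finset.range (K + 1)) (fun i _ => by positivity)
      (hasSum_geometric_of_lt_one (r := (1 / 2 : ℝ)) (by norm_num) (by norm_num))
    norm_num at h4
    norm_num
    exact h4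
  have h4 : ∑ r ∈ Finset.Icc 1 K, ((r : ℝ) ^ 2)⁻¹ ≤ 2 := by
    have h5 := sum_Ioo_inv_sq_le (α := ℝ) 0 (K + 1)
    have h6 : Finset.Icc 1 K = Finset.Ioo 0 (K + 1) := by
      ext r
      simp only [Finset.mem_Icc, Finset.mem_Ioo]
      omega
    rw [h6]
    norm_num at h5
    exact h5
  have h5 : 0 ≤ ∑ r ∈ Finset.Icc 1 K, ((r : ℝ) ^ 2)⁻¹ := Finset.sum_nonneg fun _ _ => by positivity
  calc _ ≤ _ := h1
    _ = _ := h2
    _ ≤ 2 * 2 := mul_le_mul h3 h4 h5 (by norm_num)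
    _ = 4 := by norm_num

/-- every number is `2^b n₁ r²` -/
theorem gk_decomp (n : ℕ) (hn : 1 ≤ n) : ∃ b r m : ℕ, Odd r ∧ Odd m ∧ Squarefree m ∧ 2 ^ b * (m * r ^ 2) = n := by
  obtain ⟨b, m0, hm0, hbm⟩ := Nat.exists_eq_two_pow_mul_odd (n := n) (by omega)
  obtain ⟨m, r, hrm, hsq⟩ := Nat.sq_mul_squarefree m0
  have h1 : Odd (r ^ 2 * m) := by rw [hrm]; exact hm0
  rw [Nat.odd_mul] at h1
  refine ⟨b, r, m, ?_, h1.2, hsq, ?_⟩
  · exact Nat.Odd.of_mul_left (m := r) (by rw [← sq]; exact h1.1)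
  · rw [mul_comm m, hrm, ← hbm]

/-- the sum over all numbers -/
theorem gk_sum_decomp (K : ℕ) (F : ℕ → ℝ) (hF : ∀ n, 0 ≤ F n) : ∑ n ∈ Finset.Icc 1 K, F n ≤
    ∑ p ∈ GkT K, ∑ m ∈ osf (K / (2 ^ p.1 * p.2 ^ 2)),
      if Odd p.2 then F (2 ^ p.1 * (m * p.2 ^ 2)) else 0 := by
  classical
  have h1 : ∀ n : ℕ, ∃ x : (_ : ℕ × ℕ) × ℕ, 1 ≤ n → n ≤ K →
      x ∈ (GkT K).sigma (fun p => osf (K / (2 ^ p.1 * p.2 ^ 2))) ∧ Odd x.1.2 ∧
      2 ^ x.1.1 * (x.2 * x.1.2 ^ 2) = n := by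
    intro n
    by_cases hn : 1 ≤ n ∧ n ≤ K
    · obtain ⟨b, r, m, hr, hm, hsq, e⟩ := gk_decomp n hn.1
      refine ⟨⟨(b, r), m⟩, fun _ _ => ⟨?_, hr, e⟩⟩
      have hr0 : 1 ≤ r := hr.pos
      have hm0 : 1 ≤ m := hm.pos
      have h2 : 2 ^ b * r ^ 2 * m = n := by rw [← e]; ring
      have h3 : 2 ^ b * r ^ 2 ≤ n := by
        rw [← h2]; exact Nat.le_mul_of_pos_right _ hm0
      rw [Finset.mem_sigma]
      constructor
      · unfold GkT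
        rw [Finset.mem_filter, Finset.mem_product, Finset.mem_range, Finset.mem_Icc]
        have h4 : b < 2 ^ b := Nat.lt_two_pow_self
        have h5 : 2 ^ b ≤ 2 ^ b * r ^ 2 := Nat.le_mul_of_pos_right _ (by positivity)
        have h6 : r ≤ r ^ 2 := by nlinarith
        have h7 : r ^ 2 ≤ 2 ^ b * r ^ 2 := Nat.le_mul_of_pos_left _ (by positivity)
        exact ⟨⟨by simp only; omega, hr0, by simp only; omega⟩, by simp only; omega⟩
      · unfold osf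
        rw [Finset.mem_filter, Finset.mem_Icc]
        refine ⟨⟨hm0, ?_⟩, hm, hsq⟩
        rw [Nat.le_div_iff_mul_le (by positivity)]
        simp only
        calc m * (2 ^ b * r ^ 2) = n := by rw [← h2]; ring
          _ ≤ K := hn.2
    · exact ⟨⟨(0, 0), 0⟩, fun h2 h3 => absurd ⟨h2, h3⟩ hn⟩
  choose g hg using h1
  rw [Finset.sum_sigma' (GkT K) (fun p => osf (K / (2 ^ p.1 * p.2 ^ 2)))
    (fun p m => if Odd p.2 then F (2 ^ p.1 * (m * p.2 ^ 2)) else 0)]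
  have e : ∑ n ∈ Finset.Icc 1 K, F n = ∑ x ∈ (Finset.Icc 1 K).image g,
      (if Odd x.1.2 then F (2 ^ x.1.1 * (x.2 * x.1.2 ^ 2)) else 0) := by
    rw [Finset.sum_image]
    · refine Finset.sum_congr rfl fun n hn => ?_
      rw [Finset.mem_Icc] at hn
      obtain ⟨h2, h3, h4⟩ := hg n hn.1 hn.2
      rw [if_pos h3, h4]
    · intro n hn n' hn' h
      rw [Finset.mem_coe, Finset.mem_Icc] at hn hn'
      obtain ⟨-, -, h4⟩ := hg n hn.1 hn.2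
      obtain ⟨-, -, h5⟩ := hg n' hn'.1 hn'.2
      rw [← h4, ← h5, h]
  rw [e]
  apply Finset.sum_le_sum_of_subset_of_nonneg
  · intro x hx
    obtain ⟨n, hn, rfl⟩ := Finset.mem_image.1 hx
    rw [Finset.mem_Icc] at hn
    exact (hg n hn.1 hn.2).1
  · intro x _ _
    split_ifs
    · exact hF _
    · exact le_rfl

/-- the eight families -/
def gkFam (i : Fin 8) : FD :=
  ![F8 1, F4 1, F1 1 1, F1 1 5, F8 (-1), F4 (-1), F1 (-1) 1, F1 (-1) 5] i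

theorem gkFam_of {φ : FD} (h : Fam φ) : ∃ i, φ = gkFam i := by
  obtain ⟨ε, hε, h⟩ := h
  rcases hε with rfl | rfl
  · rcases h with h | h | h | h
    · exact ⟨0, h⟩
    · exact ⟨1, h⟩
    · exact ⟨2, h⟩
    · exact ⟨3, h⟩
  · rcases h with h | h | h | h
    · exact ⟨4, h⟩
    · exact ⟨5, h⟩
    · exact ⟨6, h⟩
    · exact ⟨7, h⟩

theorem gkFam_eta (i : Fin 8) : |(gkFam i).η| ≤ 1 := by
  fin_cases i <;> simp [gkFam, F8, F4, F1]

theorem gkFam_r (i : Fin 8) : 1 ≤ (gkFam i).r := by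
  fin_cases i <;> simp [gkFam, F8, F4, F1]

theorem gk_fix {M N : ℕ} {B : ℝ} (hB : 0 ≤ B) (h : LSB M N B) (φ : FD) (hη : |φ.η| ≤ 1)
    (D : Finset ℕ) (dd : ℕ → ℕ) (hd : ∀ q ∈ D, dd q ∈ sqf M)
    (hinj : ∀ q ∈ D, ∀ q' ∈ D, dd q = dd q' → q = q') (c : ℕ → ℂ) (v r : ℕ) (hr : Odd r) :
    ∑ m ∈ osf N, ‖∑ q ∈ D, c q * ((cf φ (dd q) (2 ^ v * (m * r ^ 2)) : ℝ) : ℂ)‖ ^ 2 ≤
      B * ∑ q ∈ D, ‖c q‖ ^ 2 := by
  have h1 := gk_dual2 hB h D dd hd hinj (fun q => c q * ((js (dd q) r ^ 2 : ℝ) : ℂ))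
  have h2 : ∑ q ∈ D, ‖c q * ((js (dd q) r ^ 2 : ℝ) : ℂ)‖ ^ 2 ≤ ∑ q ∈ D, ‖c q‖ ^ 2 := by
    refine Finset.sum_le_sum fun q _ => ?_
    rw [norm_mul, mul_pow]
    apply mul_le_of_le_one_right (by positivity)
    rw [Complex.norm_real, Real.norm_eq_abs, abs_pow]
    exact pow_le_one₀ (by positivity) (pow_le_one₀ (abs_nonneg _) (gk_js_abs _ _))
  refine le_trans ?_ (h1.trans (mul_le_mul_of_nonneg_left h2 hB))
  refine Finset.sum_le_sum fun m hm => ?_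
  unfold osf at hm
  rw [Finset.mem_filter, Finset.mem_Icc] at hm
  obtain ⟨⟨hm1, hm2⟩, hmo, hms⟩ := hm
  have e : ∑ q ∈ D, c q * ((cf φ (dd q) (2 ^ v * (m * r ^ 2)) : ℝ) : ℂ) =
      ((φ.η ^ v * (js φ.e m * js φ.e r ^ 2) : ℝ) : ℂ) *
        ∑ q ∈ D, c q * ((js (dd q) r ^ 2 : ℝ) : ℂ) * (js (dd q) m : ℂ) := by
    rw [Finset.mul_sum]
    refine Finset.sum_congr rfl fun q _ => ?_
    have e1 : cf φ (dd q) (2 ^ v * (m * r ^ 2)) =
        φ.η ^ v * ((js φ.e m * js (dd q) m) * (js φ.e r * js (dd q) r) ^ 2) := by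
      rw [cf_eq φ _ _ _ (hmo.mul (hr.pow))]
      congr 1
      rw [← gk_js_mul, ← gk_js_mul, ← gk_js_right _ _ _ (by omega) hr.pos.ne']
      rfl
    rw [e1]
    push_cast
    ring
  rw [e, norm_mul, mul_pow]
  apply mul_le_of_le_one_left (by positivity)
  rw [Complex.norm_real, Real.norm_eq_abs, abs_mul, abs_mul, abs_pow, abs_pow]
  apply pow_le_one₀ (by positivity)
  apply mul_le_one₀ (pow_le_one₀ (abs_nonneg _) hη) (by positivity)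
  exact mul_le_one₀ (gk_js_abs _ _) (by positivity) (pow_le_one₀ (abs_nonneg _) (gk_js_abs _ _))

theorem gk : S_GK := by
  classical
  intro ε hε
  obtain ⟨C1, hC1, H⟩ := HBLS ε hε
  refine ⟨64 * C1 * 2 ^ ε, by positivity, fun s X K c hs hX hK => ?_⟩
  -- the classification
  have hcl : ∀ q : ℕ, ∃ (i : Fin 8) (d : ℕ), Is s q → Squarefree d ∧ q = (gkFam i).r * d ∧
      ∀ n : ℕ, n ≠ 0 → vl s q n = ((cf (gkFam i) d n : ℝ) : ℂ) := by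
    intro q
    by_cases hq : Is s q
    · have h1 : Rp s (ch s q) := by
        unfold ch
        rw [dif_pos hq]
        exact hq.2.choose_spec
      obtain ⟨φ, d, h2, -, h3, h4, h5⟩ := CLS q (by have := hq.1; omega) (ch s q) h1.1 h1.2.1 h1.2.2.1
      obtain ⟨i, rfl⟩ := gkFam_of h2
      exact ⟨i, d, fun _ => ⟨h3, h4, h5⟩⟩
    · exact ⟨0, 0, fun h => absurd h hq⟩
  choose ii dd hdd using hcl
  obtain ⟨M, hM⟩ : ∃ M : ℕ, M = ⌈X⌉₊ := ⟨_, rfl⟩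
  have hMX : X ≤ M := by rw [hM]; exact Nat.le_ceil X
  have hM2 : (M : ℝ) ≤ 2 * X := by
    have := Nat.ceil_lt_add_one (a := X) (by linarith)
    rw [hM]
    linarith
  have hM1 : 1 ≤ M := by
    have : (1 : ℝ) ≤ M := hX.trans hMX
    exact_mod_cast this
  have hQ : ∀ q ∈ Q s X, Is s q ∧ q < M := by
    intro q hq
    unfold Q at hq
    rw [Finset.mem_filter, Finset.mem_Ico] at hq
    exact ⟨hq.2, by rw [hM]; exact hq.1.2⟩
  have hK1 : (1 : ℝ) ≤ K := by exact_mod_cast hK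
  -- one pair
  have hone : ∀ p ∈ GkT K, (∑ m ∈ osf (K / (2 ^ p.1 * p.2 ^ 2)),
      if Odd p.2 then ‖∑ q ∈ Q s X, c q * vl s q (2 ^ p.1 * (m * p.2 ^ 2))‖ ^ 2 else 0) ≤
      (8 * C1 * (2 ^ ε * (X * K) ^ ε) * ∑ q ∈ Q s X, ‖c q‖ ^ 2) *
        (2 * X + K * (1 / (2 ^ p.1 * (p.2 : ℝ) ^ 2))) := by
    intro p hp
    unfold GkT at hp
    rw [Finset.mem_filter, Finset.mem_product, Finset.mem_range, Finset.mem_Icc] at hp
    obtain ⟨⟨h1, h2, h3⟩, h4⟩ := hp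
    obtain ⟨N, hN⟩ : ∃ N : ℕ, N = K / (2 ^ p.1 * p.2 ^ 2) := ⟨_, rfl⟩
    have hpos : 0 < 2 ^ p.1 * p.2 ^ 2 := by positivity
    have hN1 : 1 ≤ N := by
      rw [hN, Nat.one_le_div_iff hpos]
      exact h4
    have hNK : (N : ℝ) ≤ K * (1 / (2 ^ p.1 * (p.2 : ℝ) ^ 2)) := by
      rw [hN, mul_one_div]
      have := Nat.cast_div_le (α := ℝ) (m := K) (n := 2 ^ p.1 * p.2 ^ 2)
      push_cast at this
      exact this
    have hNK' : (N : ℝ) ≤ K := by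
      rw [hN]
      exact_mod_cast Nat.div_le_self _ _
    rw [← hN]
    have hS0 : 0 ≤ ∑ q ∈ Q s X, ‖c q‖ ^ 2 := Finset.sum_nonneg fun _ _ => by positivity
    obtain ⟨B, hB⟩ : ∃ B : ℝ, B = C1 * ((M : ℝ) * N) ^ ε * (M + N) := ⟨_, rfl⟩
    have hB0 : 0 ≤ B := by rw [hB]; positivity
    have hL : LSB M N B := by rw [hB]; exact H M N hM1 hN1
    have hBle : B ≤ C1 * (2 ^ ε * (X * K) ^ ε) * (2 * X + K * (1 / (2 ^ p.1 * (p.2 : ℝ) ^ 2))) := by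
      rw [hB]
      have h5 : ((M : ℝ) * N) ^ ε ≤ 2 ^ ε * (X * K) ^ ε := by
        rw [← Real.mul_rpow (by norm_num) (by positivity)]
        apply Real.rpow_le_rpow (by positivity) _ hε.le
        calc (M : ℝ) * N ≤ (2 * X) * K := mul_le_mul hM2 hNK' (by positivity) (by positivity)
          _ = 2 * (X * K) := by ring
      apply mul_le_mul _ (add_le_add hM2 hNK) (by positivity) (by positivity)
      exact mul_le_mul_of_nonneg_left h5 hC1.le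
    by_cases ho : Odd p.2
    · simp only [if_pos ho]
      have hn0 : ∀ m ∈ osf N, 2 ^ p.1 * (m * p.2 ^ 2) ≠ 0 := by
        intro m hm
        unfold osf at hm
        rw [Finset.mem_filter, Finset.mem_Icc] at hm
        have : 0 < m := hm.1.1
        positivity
      have h5 : ∀ m ∈ osf N, ‖∑ q ∈ Q s X, c q * vl s q (2 ^ p.1 * (m * p.2 ^ 2))‖ ^ 2 ≤
          8 * ∑ i : Fin 8, ‖∑ q ∈ (Q s X).filter (fun q => ii q = i),
            c q * ((cf (gkFam i) (dd q) (2 ^ p.1 * (m * p.2 ^ 2)) : ℝ) : ℂ)‖ ^ 2 := by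
        intro m hm
        have e : ∑ q ∈ Q s X, c q * vl s q (2 ^ p.1 * (m * p.2 ^ 2)) =
            ∑ i : Fin 8, ∑ q ∈ (Q s X).filter (fun q => ii q = i),
              c q * ((cf (gkFam i) (dd q) (2 ^ p.1 * (m * p.2 ^ 2)) : ℝ) : ℂ) := by
          rw [← Finset.sum_fiberwise (Q s X) ii]
          refine Finset.sum_congr rfl fun i _ => Finset.sum_congr rfl fun q hq => ?_
          rw [Finset.mem_filter] at hq
          rw [(hdd q (hQ q hq.1).1).2.2 _ (hn0 m hm), hq.2]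
        rw [e]
        have h6 : ‖∑ i : Fin 8, ∑ q ∈ (Q s X).filter (fun q => ii q = i),
            c q * ((cf (gkFam i) (dd q) (2 ^ p.1 * (m * p.2 ^ 2)) : ℝ) : ℂ)‖ ^ 2 ≤
            (∑ i : Fin 8, ‖∑ q ∈ (Q s X).filter (fun q => ii q = i),
              c q * ((cf (gkFam i) (dd q) (2 ^ p.1 * (m * p.2 ^ 2)) : ℝ) : ℂ)‖) ^ 2 :=
          pow_le_pow_left₀ (norm_nonneg _) (norm_sum_le _ _) 2
        refine h6.trans ?_
        have h7 := sq_sum_le_card_mul_sum_sq (s := (Finset.univ : Finset (Fin 8)))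
          (f := fun i => ‖∑ q ∈ (Q s X).filter (fun q => ii q = i),
              c q * ((cf (gkFam i) (dd q) (2 ^ p.1 * (m * p.2 ^ 2)) : ℝ) : ℂ)‖)
        rw [Finset.card_univ, Fintype.card_fin] at h7
        exact_mod_cast h7
      refine (Finset.sum_le_sum h5).trans ?_
      rw [← Finset.mul_sum, Finset.sum_comm]
      have h6 : ∀ i : Fin 8, ∑ m ∈ osf N, ‖∑ q ∈ (Q s X).filter (fun q => ii q = i),
            c q * ((cf (gkFam i) (dd q) (2 ^ p.1 * (m * p.2 ^ 2)) : ℝ) : ℂ)‖ ^ 2 ≤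
          B * ∑ q ∈ (Q s X).filter (fun q => ii q = i), ‖c q‖ ^ 2 := by
        intro i
        apply gk_fix hB0 hL (gkFam i) (gkFam_eta i) _ dd _ _ c p.1 p.2 ho
        · intro q hq
          rw [Finset.mem_filter] at hq
          obtain ⟨g1, g2⟩ := hQ q hq.1
          obtain ⟨g3, g4, -⟩ := hdd q g1
          unfold sqf
          rw [Finset.mem_filter, Finset.mem_Icc]
          have g5 : dd q ≠ 0 := g3.ne_zero
          have g6 : dd q ≤ (gkFam (ii q)).r * dd q := Nat.le_mul_of_pos_left _ (gkFam_r _)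
          exact ⟨⟨by omega, by omega⟩, g3⟩
        · intro q hq q' hq' h
          rw [Finset.mem_filter] at hq hq'
          rw [(hdd q (hQ q hq.1).1).2.1, (hdd q' (hQ q' hq'.1).1).2.1, hq.2, hq'.2, h]
      have h7 : ∑ i : Fin 8, ∑ m ∈ osf N, ‖∑ q ∈ (Q s X).filter (fun q => ii q = i),
            c q * ((cf (gkFam i) (dd q) (2 ^ p.1 * (m * p.2 ^ 2)) : ℝ) : ℂ)‖ ^ 2 ≤
          B * ∑ q ∈ Q s X, ‖c q‖ ^ 2 := by
        refine (Finset.sum_le_sum fun i _ => h6 i).trans (le_of_eq ?_)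
        rw [← Finset.mul_sum, Finset.sum_fiberwise]
      calc _ ≤ 8 * (B * ∑ q ∈ Q s X, ‖c q‖ ^ 2) := mul_le_mul_of_nonneg_left h7 (by norm_num)
        _ ≤ 8 * ((C1 * (2 ^ ε * (X * K) ^ ε) * (2 * X + K * (1 / (2 ^ p.1 * (p.2 : ℝ) ^ 2)))) *
            ∑ q ∈ Q s X, ‖c q‖ ^ 2) := by
            apply mul_le_mul_of_nonneg_left _ (by norm_num)
            exact mul_le_mul_of_nonneg_right hBle hS0
        _ = _ := by ring
    · simp only [if_neg ho, Finset.sum_const_zero]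
      positivity
  refine (gk_sum_decomp K (fun n => ‖∑ q ∈ Q s X, c q * vl s q n‖ ^ 2) (fun n => by positivity)).trans ?_
  refine (Finset.sum_le_sum hone).trans ?_
  rw [← Finset.mul_sum, Finset.sum_add_distrib, Finset.sum_const, ← Finset.mul_sum, nsmul_eq_mul]
  have h1 := gkT_card K
  have h2 := gkT_sum K
  have hS0 : 0 ≤ ∑ q ∈ Q s X, ‖c q‖ ^ 2 := Finset.sum_nonneg fun _ _ => by positivity
  have h3 : ((GkT K).card : ℝ) * (2 * X) + K * ∑ p ∈ GkT K, (1 : ℝ) / (2 ^ p.1 * (p.2 : ℝ) ^ 2) ≤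
      8 * (X * √K + K) := by
    have h4 : ((GkT K).card : ℝ) * (2 * X) ≤ (4 * √K) * (2 * X) :=
      mul_le_mul_of_nonneg_right h1 (by linarith)
    have h5 : (K : ℝ) * ∑ p ∈ GkT K, (1 : ℝ) / (2 ^ p.1 * (p.2 : ℝ) ^ 2) ≤ K * 4 :=
      mul_le_mul_of_nonneg_left h2 (by linarith)
    nlinarith
  calc _ ≤ (8 * C1 * (2 ^ ε * (X * K) ^ ε) * ∑ q ∈ Q s X, ‖c q‖ ^ 2) * (8 * (X * √K + K)) :=
        mul_le_mul_of_nonneg_left h3 (by positivity)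
    _ = _ := by ring

/-- GK -/
theorem t_GK (_hU : S_UNI) : S_GK := gk

end

end Pool.Agent.N879.QM
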