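import Pool.Agent.H27.G.R_pool_sql_team_seeded_63374d34.N879.QM.Asm1

set_option autoImplicit false

/-! Project QM, task OP: `L` minus a short polynomial as an operator. -/

namespace Pool.Agent.N879.QM

open Complex Filter Topology MeasureTheory Set

noncomputable section

namespace OPaux

lemma PN_double (s : ℤ) (q K : ℕ) (α : ℝ) : PN s q (2 * K) α = PN s q K α + SK s q K α := by
  unfold PN SK
  have h1 : ∀ M : ℕ, Finset.Icc 1 M = Finset.Ioc 0 M := by
    intro M; ext n; simp only [Finset.mem_Icc, Finset.mem_Ioc]; omega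
  rw [h1, h1]
  exact (Finset.sum_Ioc_consecutive _ (Nat.zero_le K) (by omega)).symm

lemma PN_dyadic (s : ℤ) (q N : ℕ) (α : ℝ) (J : ℕ) :
    PN s q (N * 2 ^ J) α = PN s q N α + ∑ i ∈ Finset.range J, SK s q (N * 2 ^ i) α := by
  induction J with
  | zero => simp
  | succ J ih =>
    rw [show N * 2 ^ (J + 1) = 2 * (N * 2 ^ J) by ring, PN_double, ih, Finset.sum_range_succ]
    ring

lemma SK_cont (s : ℤ) (q K : ℕ) : Continuous (SK s q K) := by
  unfold SK
  refine continuous_finsetSum _ fun n hn => continuous_const.mul ?_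
  have hn1 : 1 ≤ n := by have := (Finset.mem_Ioc.1 hn).1; omega
  have hn0 : (n : ℂ) ≠ 0 := by exact_mod_cast (by omega : n ≠ 0)
  have : Continuous fun α : ℝ => -(pt α) := pt_cont.neg
  exact Continuous.const_cpow this (Or.inl hn0)

/-- number of dyadic pieces -/
lemma pieces {ε : ℝ} (hε : 0 < ε) {A : ℝ} (hA : 2 ≤ A) : ∃ J : ℕ, A ^ 6 ≤ 2 ^ J ∧
    ((J : ℝ) + 2) ≤ (3 + 9 / ε) * A ^ ε := by
  have hA0 : 0 < A := by linarith
  refine ⟨⌈6 * Real.log A / Real.log 2⌉₊, ?_, ?_⟩
  · have hl2 : 0 < Real.log 2 := Real.log_pos (by norm_num)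
    have h1 : 6 * Real.log A / Real.log 2 ≤ (⌈6 * Real.log A / Real.log 2⌉₊ : ℝ) := Nat.le_ceil _
    rw [div_le_iff₀ hl2] at h1
    rw [← Real.log_le_log_iff (by positivity) (by positivity), Real.log_pow, Real.log_pow]
    push_cast
    linarith
  · have hl : 0 < Real.log A := Real.log_pos (by linarith)
    have hl2 := Real.log_two_gt_d9
    have h1 : (⌈6 * Real.log A / Real.log 2⌉₊ : ℝ) < 6 * Real.log A / Real.log 2 + 1 :=
      Nat.ceil_lt_add_one (by positivity)
    have h2 : 6 * Real.log A / Real.log 2 ≤ 9 * Real.log A := by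
      rw [div_le_iff₀ (by linarith)]
      nlinarith
    have h3 : Real.log A ≤ A ^ ε / ε := Real.log_le_rpow_div hA0.le hε
    have h4 : 1 ≤ A ^ ε := Real.one_le_rpow (by linarith) hε.le
    have h5 : 9 * Real.log A ≤ 9 / ε * A ^ ε := by
      calc 9 * Real.log A ≤ 9 * (A ^ ε / ε) := by gcongr
        _ = _ := by ring
    nlinarith

end OPaux

open OPaux

theorem t_OP (h1 : S_P2) (h2 : S_BIG) (h3 : S_AFS) (h4 : S_CTS) : S_OP := by
  intro ε hε
  obtain ⟨C1, hC1, h1⟩ := h1 (ε / 4) (by positivity)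
  obtain ⟨C2, hC2, h2⟩ := h2
  obtain ⟨C3, hC3, h3⟩ := h3
  refine ⟨(C1 + C2 + 8 * C3 ^ 2) * (3 + 9 / (ε / 4)) ^ 2, by positivity, ?_⟩
  intro s X A N c hs hX hXA hA hN
  have hA0 : 0 < A := by linarith
  have hA1 : 1 ≤ A := by linarith
  have hX0 : 0 < X := by linarith
  have hN0 : (0 : ℝ) < N := by exact_mod_cast hN
  obtain ⟨J, hJ1, hJ2⟩ := pieces (show 0 < ε / 4 by positivity) hA
  set S := ∑ q ∈ Q s X, ‖c q‖ ^ 2 with hS
  have hS0 : 0 ≤ S := Finset.sum_nonneg fun _ _ => by positivity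
  set R : ℝ := X / √N + X ^ 2 / A + 1 with hR
  have hR1 : 1 ≤ R := by
    have : 0 ≤ X / √N := by positivity
    have : 0 ≤ X ^ 2 / A := by positivity
    linarith
  set B : ℝ := (C1 + C2 + 8 * C3 ^ 2) * A ^ (1 + ε / 2) * R * S with hB
  have hAA : A ≤ A ^ (1 + ε / 2) := by
    calc A = A ^ (1 : ℝ) := (Real.rpow_one A).symm
      _ ≤ _ := Real.rpow_le_rpow_of_exponent_le hA1 (by linarith)
  -- the pieces
  set T : ℕ → ℝ → ℂ := fun i α => ∑ q ∈ Q s X, c q * SK s q (N * 2 ^ i) α with hT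
  set G : ℝ → ℂ := fun α => ∑ q ∈ Q s X, c q * (LL s q (pt α) - PN s q (N * 2 ^ J) α) with hG
  have hTc : ∀ i, Continuous (T i) := fun i =>
    continuous_finsetSum _ fun q _ => continuous_const.mul (SK_cont s q _)
  have hGc : Continuous G :=
    continuous_finsetSum _ fun q hq => continuous_const.mul ((h4 s q (Q_is hq).1).sub (PN_cont s q _))
  have hTb : ∀ i, ∫ α in (-A)..A, ‖T i α‖ ^ 2 ≤ B := by
    intro i
    have hK1 : 1 ≤ N * 2 ^ i := Nat.mul_pos hN (by positivity)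
    rcases le_total ((N * 2 ^ i : ℕ) : ℝ) A with hle | hle
    · have := h1 s X A (N * 2 ^ i) c hs hX hA hK1 hle
      refine this.trans ?_
      have e1 : (X * A) ^ (ε / 4) ≤ A ^ (ε / 2) := by
        calc (X * A) ^ (ε / 4) ≤ (A * A) ^ (ε / 4) := by
              apply Real.rpow_le_rpow (by positivity) _ (by positivity)
              gcongr
          _ = A ^ (ε / 2) := by
              rw [← sq, ← Real.rpow_natCast A 2, ← Real.rpow_mul hA0.le]; congr 1; push_cast; ring
      have e2 : X / √((N * 2 ^ i : ℕ) : ℝ) + 1 ≤ R := by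
        have : X / √((N * 2 ^ i : ℕ) : ℝ) ≤ X / √N := by
          apply div_le_div_of_nonneg_left hX0.le (Real.sqrt_pos.2 hN0)
          apply Real.sqrt_le_sqrt
          push_cast
          exact le_mul_of_one_le_right hN0.le (one_le_pow₀ (by norm_num))
        have : 0 ≤ X ^ 2 / A := by positivity
        linarith
      have e3 : A ^ (ε / 2) * A = A ^ (1 + ε / 2) := by
        rw [Real.rpow_add hA0, Real.rpow_one]; ring
      calc C1 * (X * A) ^ (ε / 4) * A * (X / √((N * 2 ^ i : ℕ) : ℝ) + 1) * S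
          ≤ C1 * A ^ (ε / 2) * A * R * S := by gcongr
        _ = C1 * A ^ (1 + ε / 2) * R * S := by rw [← e3]; ring
        _ ≤ B := by
            rw [hB]
            gcongr
            have : 0 ≤ C3 ^ 2 := by positivity
            linarith
    · have := h2 s X A (N * 2 ^ i) c hs hX hXA hA hle
      refine this.trans ?_
      have e2 : 1 + X ^ 2 / A ≤ R := by
        have : 0 ≤ X / √N := by positivity
        linarith
      calc C2 * A * (1 + X ^ 2 / A) * S ≤ C2 * A ^ (1 + ε / 2) * R * S := by gcongr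
        _ ≤ B := by
            rw [hB]
            gcongr
            have : 0 ≤ C3 ^ 2 := by positivity
            linarith
  have hGb : ∫ α in (-A)..A, ‖G α‖ ^ 2 ≤ B := by
    have hpt : ∀ α ∈ Icc (-A) A, ‖G α‖ ^ 2 ≤ 4 * C3 ^ 2 * S := by
      intro α hα
      have hα' : |α| ≤ A := abs_le.2 hα
      have hZ : A ^ 3 ≤ √((N * 2 ^ J : ℕ) : ℝ) := by
        apply Real.le_sqrt_of_sq_le
        push_cast
        calc (A ^ 3) ^ 2 = A ^ 6 := by ring
          _ ≤ 2 ^ J := hJ1
          _ ≤ N * 2 ^ J := le_mul_of_one_le_left (by positivity) (by exact_mod_cast hN)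
      have hq : ∀ q ∈ Q s X, ‖LL s q (pt α) - PN s q (N * 2 ^ J) α‖ ≤ 2 * C3 / A := by
        intro q hq
        have hqA : (q : ℝ) ≤ A := by linarith [(Q_is hq).2]
        refine (h3 s q (N * 2 ^ J) α (Q_is hq).1 (Nat.mul_pos hN (by positivity))).trans ?_
        rw [div_le_div_iff₀ (lt_of_lt_of_le (by positivity) hZ) hA0]
        calc C3 * q * (1 + |α|) * A ≤ C3 * A * (2 * A) * A := by
              gcongr
              linarith
          _ = 2 * C3 * A ^ 3 := by ring
          _ ≤ 2 * C3 * √((N * 2 ^ J : ℕ) : ℝ) := by gcongr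
      have hcs : ‖G α‖ ^ 2 ≤ S * ∑ q ∈ Q s X, ‖LL s q (pt α) - PN s q (N * 2 ^ J) α‖ ^ 2 := by
        have h5 : ‖G α‖ ≤ ∑ q ∈ Q s X, ‖c q‖ * ‖LL s q (pt α) - PN s q (N * 2 ^ J) α‖ := by
          refine (norm_sum_le _ _).trans (le_of_eq ?_)
          exact Finset.sum_congr rfl fun q _ => norm_mul _ _
        refine (pow_le_pow_left₀ (norm_nonneg _) h5 2).trans ?_
        exact Finset.sum_mul_sq_le_sq_mul_sq _ _ _
      refine hcs.trans ?_
      have h6 : ∑ q ∈ Q s X, ‖LL s q (pt α) - PN s q (N * 2 ^ J) α‖ ^ 2 ≤ X * (2 * C3 / A) ^ 2 := by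
        calc ∑ q ∈ Q s X, ‖LL s q (pt α) - PN s q (N * 2 ^ J) α‖ ^ 2 ≤ ∑ _q ∈ Q s X, (2 * C3 / A) ^ 2 :=
              Finset.sum_le_sum fun q hq' => pow_le_pow_left₀ (norm_nonneg _) (hq q hq') 2
          _ = ((Q s X).card : ℝ) * (2 * C3 / A) ^ 2 := by rw [Finset.sum_const, nsmul_eq_mul]
          _ ≤ X * (2 * C3 / A) ^ 2 := by gcongr; exact Q_card hX
      have h7 : X * (2 * C3 / A) ^ 2 ≤ 4 * C3 ^ 2 := by
        rw [div_pow, mul_div_assoc', div_le_iff₀ (by positivity)]
        have : X ≤ A ^ 2 := by nlinarith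
        calc X * (2 * C3) ^ 2 = 4 * C3 ^ 2 * X := by ring
          _ ≤ 4 * C3 ^ 2 * A ^ 2 := by gcongr
      calc S * ∑ q ∈ Q s X, ‖LL s q (pt α) - PN s q (N * 2 ^ J) α‖ ^ 2 ≤ S * (4 * C3 ^ 2) := by
            gcongr; exact h6.trans h7
        _ = _ := by ring
    have h8 : ∫ α in (-A)..A, ‖G α‖ ^ 2 ≤ ∫ _α in (-A)..A, 4 * C3 ^ 2 * S := by
      apply intervalIntegral.integral_mono_on (by linarith) ((hGc.norm.pow 2).intervalIntegrable _ _)
        (continuous_const.intervalIntegrable _ _) hpt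
    refine h8.trans ?_
    rw [intervalIntegral.integral_const, smul_eq_mul]
    calc (A - -A) * (4 * C3 ^ 2 * S) = 8 * C3 ^ 2 * A * 1 * S := by ring
      _ ≤ 8 * C3 ^ 2 * A ^ (1 + ε / 2) * R * S := by gcongr
      _ ≤ B := by
          rw [hB]
          gcongr
          linarith
  -- the sum
  have hF : ∀ α : ℝ, ‖∑ q ∈ Q s X, c q * (LL s q (pt α) - PN s q N α)‖ ^ 2 ≤
      ((J : ℝ) + 1) * (‖G α‖ ^ 2 + ∑ i ∈ Finset.range J, ‖T i α‖ ^ 2) := by
    intro α
    have e : ∑ q ∈ Q s X, c q * (LL s q (pt α) - PN s q N α) = G α + ∑ i ∈ Finset.range J, T i α := by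
      simp only [hG, hT]
      rw [Finset.sum_comm, ← Finset.sum_add_distrib]
      refine Finset.sum_congr rfl fun q _ => ?_
      rw [PN_dyadic, ← Finset.mul_sum]
      ring
    rw [e]
    have h5 : ‖G α + ∑ i ∈ Finset.range J, T i α‖ ≤ ∑ i ∈ Finset.range (J + 1), (if i = J then ‖G α‖ else ‖T i α‖) := by
      rw [Finset.sum_range_succ, if_pos rfl]
      refine (norm_add_le _ _).trans ?_
      rw [add_comm]
      gcongr
      refine (norm_sum_le _ _).trans (le_of_eq ?_)
      refine Finset.sum_congr rfl fun i hi => ?_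
      rw [if_neg (by have := Finset.mem_range.1 hi; omega)]
    have h7 : (∑ i ∈ Finset.range (J + 1), (if i = J then ‖G α‖ else ‖T i α‖)) ^ 2 ≤
        ((Finset.range (J + 1)).card : ℝ) * ∑ i ∈ Finset.range (J + 1), (if i = J then ‖G α‖ else ‖T i α‖) ^ 2 :=
      sq_sum_le_card_mul_sum_sq
    refine (pow_le_pow_left₀ (norm_nonneg _) h5 2).trans (h7.trans ?_)
    rw [Finset.card_range, Finset.sum_range_succ, if_pos rfl]
    push_cast
    apply mul_le_mul_of_nonneg_left _ (by positivity)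
    rw [add_comm]
    gcongr with i hi
    rw [if_neg (by have := Finset.mem_range.1 hi; omega)]
  have hFc : Continuous fun α : ℝ => ‖∑ q ∈ Q s X, c q * (LL s q (pt α) - PN s q N α)‖ ^ 2 :=
    (continuous_finsetSum _ fun q hq => continuous_const.mul ((h4 s q (Q_is hq).1).sub (PN_cont s q _))).norm.pow 2
  have hRc : Continuous fun α : ℝ => ((J : ℝ) + 1) * (‖G α‖ ^ 2 + ∑ i ∈ Finset.range J, ‖T i α‖ ^ 2) :=
    continuous_const.mul ((hGc.norm.pow 2).add (continuous_finsetSum _ fun i _ => (hTc i).norm.pow 2))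
  have h9 : ∫ α in (-A)..A, ‖∑ q ∈ Q s X, c q * (LL s q (pt α) - PN s q N α)‖ ^ 2 ≤
      ((J : ℝ) + 1) * (B + ∑ _i ∈ Finset.range J, B) := by
    refine (intervalIntegral.integral_mono_on (by linarith) (hFc.intervalIntegrable _ _)
      (hRc.intervalIntegrable _ _) (fun α _ => hF α)).trans ?_
    have hGi : IntervalIntegrable (fun α => ‖G α‖ ^ 2) volume (-A) A := (hGc.norm.pow 2).intervalIntegrable _ _
    have hTi : ∀ i, IntervalIntegrable (fun α => ‖T i α‖ ^ 2) volume (-A) A := fun i =>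
      ((hTc i).norm.pow 2).intervalIntegrable _ _
    have hTs : IntervalIntegrable (fun α => ∑ i ∈ Finset.range J, ‖T i α‖ ^ 2) volume (-A) A :=
      (continuous_finsetSum (Finset.range J) fun i _ => (hTc i).norm.pow 2).intervalIntegrable _ _
    rw [intervalIntegral.integral_const_mul, intervalIntegral.integral_add hGi hTs,
      intervalIntegral.integral_finsetSum (fun i _ => hTi i)]
    gcongr with i _
    exact hTb i
  refine h9.trans ?_
  rw [Finset.sum_const, Finset.card_range, nsmul_eq_mul]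
  have hB0 : 0 ≤ B := by positivity
  have h10 : ((J : ℝ) + 1) * (B + J * B) ≤ ((3 + 9 / (ε / 4)) * A ^ (ε / 4)) ^ 2 * B := by
    calc ((J : ℝ) + 1) * (B + J * B) = ((J : ℝ) + 1) ^ 2 * B := by ring
      _ ≤ ((3 + 9 / (ε / 4)) * A ^ (ε / 4)) ^ 2 * B := by
          gcongr
          linarith
  refine h10.trans (le_of_eq ?_)
  have e5 : (A ^ (ε / 4)) ^ 2 * A ^ (1 + ε / 2) = A ^ (1 + ε) := by
    rw [← Real.rpow_natCast, ← Real.rpow_mul hA0.le, ← Real.rpow_add hA0]
    congr 1; push_cast; ring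
  rw [hB, mul_pow, ← e5]
  ring

end

end Pool.Agent.N879.QM
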