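import Pool.Agent.H27.G.R_pool_sql_team_seeded_63374d34.N879.QM.Stm

set_option autoImplicit false

/-!
Project QM: replacement of the factors of a product, one at a time.
-/

namespace Pool.Agent.N879.QM

open Complex Filter Topology MeasureTheory Set
open scoped BigOperators ENNReal

noncomputable section

namespace Tel

instance sfS (k : ℕ) (A : ℝ) : SigmaFinite (mS k A) := by
  unfold mS
  infer_instance

lemma mor {X : Type} [MeasurableSpace X] [TopologicalSpace X] [OpensMeasurableSpace X]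
    {h : X → ℝ} (hc : Continuous h) : Measurable fun x => ENNReal.ofReal (h x) :=
  ENNReal.measurable_ofReal.comp hc.measurable

/-- the first variable -/
lemma lint_prod {n : ℕ} (A : ℝ) (F : (Fin (n + 1) → ℝ) → ℝ≥0∞) (hF : Measurable F) :
    ∫⁻ γ, F γ ∂(mS (n + 1) A) =
      ∫⁻ p : ℝ × (Fin n → ℝ), F (Fin.cons p.1 p.2)
        ∂((volume.restrict (Icc (-A) A)).prod (mS n A)) := by
  have hmp := (measurePreserving_piFinSuccAbove
    (fun _ : Fin (n + 1) => (volume.restrict (Icc (-A) A) : Measure ℝ)) 0).symm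
  have h1 := hmp.lintegral_comp hF
  unfold mS
  rw [← h1]
  refine lintegral_congr fun p => ?_
  congr 1
  exact (Fin.insertNth_zero' p.1 p.2 : _)

lemma lint1 {A B : ℝ} (hAB : A ≤ B) {h : ℝ → ℝ} (hc : Continuous h) (h0 : ∀ y, 0 ≤ h y) :
    ∫⁻ y, ENNReal.ofReal (h y) ∂(volume.restrict (Icc A B)) =
      ENNReal.ofReal (∫ y in A..B, h y) := by
  rw [intervalIntegral.integral_of_le hAB, ← integral_Icc_eq_integral_Ioc,
    ofReal_integral_eq_lintegral_ofReal hc.continuousOn.integrableOn_Icc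
      (Filter.Eventually.of_forall h0)]

/-- integration of a weighted sum -/
lemma wsum {X : Type} [MeasurableSpace X] (μ : Measure X) (D : Finset ℕ) (w : ℕ → ℝ)
    (h : ℕ → X → ℝ) {B C : ℝ} (hB : 0 ≤ B) (hw : ∀ q ∈ D, 0 ≤ w q)
    (h0 : ∀ q ∈ D, ∀ x, 0 ≤ h q x) (hm : ∀ q, Measurable (h q)) (hC : 0 ≤ C)
    (hi : ∀ q ∈ D, ∫⁻ x, ENNReal.ofReal (h q x) ∂μ ≤ ENNReal.ofReal C) :
    ∫⁻ x, ENNReal.ofReal (B * ∑ q ∈ D, w q * h q x) ∂μ ≤ ENNReal.ofReal (B * C * ∑ q ∈ D, w q) := by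
  have e1 : ∀ x, ENNReal.ofReal (B * ∑ q ∈ D, w q * h q x) =
      ∑ q ∈ D, ENNReal.ofReal (B * w q) * ENNReal.ofReal (h q x) := by
    intro x
    rw [Finset.mul_sum, ENNReal.ofReal_sum_of_nonneg fun q hq =>
      mul_nonneg hB (mul_nonneg (hw q hq) (h0 q hq x))]
    refine Finset.sum_congr rfl fun q hq => ?_
    rw [← ENNReal.ofReal_mul (mul_nonneg hB (hw q hq)), mul_assoc]
  simp_rw [e1]
  have hm' : ∀ q, Measurable fun x => ENNReal.ofReal (h q x) := fun q =>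
    ENNReal.measurable_ofReal.comp (hm q)
  rw [lintegral_finsetSum _ fun q _ => (hm' q).const_mul (ENNReal.ofReal (B * w q))]
  have e2 : ENNReal.ofReal (B * C * ∑ q ∈ D, w q) =
      ∑ q ∈ D, ENNReal.ofReal (B * w q) * ENNReal.ofReal C := by
    rw [Finset.mul_sum, ENNReal.ofReal_sum_of_nonneg fun q hq =>
      mul_nonneg (mul_nonneg hB hC) (hw q hq)]
    refine Finset.sum_congr rfl fun q hq => ?_
    rw [← ENNReal.ofReal_mul (mul_nonneg hB (hw q hq))]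
    congr 1
    ring
  rw [e2]
  refine Finset.sum_le_sum fun q hq => ?_
  rw [lintegral_const_mul _ (hm' q)]
  exact mul_le_mul' le_rfl (hi q hq)

/-- the product of the second moments -/
lemma pmom {A V : ℝ} (hV0 : 0 ≤ V) {φ : ℝ → ℂ} (hφ : Continuous φ)
    (h : ∫⁻ y, ENNReal.ofReal (‖φ y‖ ^ 2) ∂(volume.restrict (Icc (-A) A)) ≤ ENNReal.ofReal V) :
    ∀ n : ℕ, ∫⁻ γ, ENNReal.ofReal (‖∏ i, φ (γ i)‖ ^ 2) ∂(mS n A) ≤ ENNReal.ofReal (V ^ n) := by
  intro n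
  induction n with
  | zero => simp [mS, Measure.pi_empty_univ]
  | succ n ih =>
    have hc : Continuous fun γ : Fin (n + 1) → ℝ => ‖∏ i, φ (γ i)‖ ^ 2 := by fun_prop
    rw [lint_prod A _ (mor hc)]
    have hcc : Continuous fun p : ℝ × (Fin n → ℝ) => (Fin.cons p.1 p.2 : Fin (n + 1) → ℝ) :=
      Continuous.finCons (A := fun _ => ℝ) continuous_fst continuous_snd
    have hcomp : Continuous fun p : ℝ × (Fin n → ℝ) =>
        ‖∏ i, φ ((Fin.cons p.1 p.2 : Fin (n + 1) → ℝ) i)‖ ^ 2 := hc.comp hcc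
    rw [lintegral_prod _ (mor hcomp).aemeasurable]
    have e1 : ∀ (y : ℝ) (γ : Fin n → ℝ), ‖∏ i, φ ((Fin.cons y γ : Fin (n + 1) → ℝ) i)‖ ^ 2 =
        ‖φ y‖ ^ 2 * ‖∏ i : Fin n, φ (γ i)‖ ^ 2 := by
      intro y γ
      rw [Fin.prod_univ_succ, norm_mul, mul_pow]
      simp only [Fin.cons_zero, Fin.cons_succ]
    have e2 : ∀ y : ℝ, ∫⁻ γ : Fin n → ℝ,
        ENNReal.ofReal (‖∏ i, φ ((Fin.cons y γ : Fin (n + 1) → ℝ) i)‖ ^ 2) ∂(mS n A) ≤
        ENNReal.ofReal (‖φ y‖ ^ 2) * ENNReal.ofReal (V ^ n) := by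
      intro y
      simp_rw [e1, ENNReal.ofReal_mul (sq_nonneg ‖φ y‖)]
      rw [lintegral_const_mul _ (mor (by fun_prop : Continuous
        fun γ : Fin n → ℝ => ‖∏ i : Fin n, φ (γ i)‖ ^ 2))]
      exact mul_le_mul' le_rfl ih
    refine (lintegral_mono e2).trans ?_
    rw [lintegral_mul_const _ (mor (by fun_prop : Continuous fun y : ℝ => ‖φ y‖ ^ 2)), pow_succ,
      ENNReal.ofReal_mul (pow_nonneg hV0 n), mul_comm]
    exact mul_le_mul' le_rfl h

/-- the coefficients -/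
def bb (K V : ℝ) (n : ℕ) : ℝ := (2 ^ (n + 1) - 2) * K * V ^ (n - 1)

lemma bb_succ (K V : ℝ) (n : ℕ) :
    bb K V (n + 1) = 2 * (K * V ^ n) + 2 * (bb K V n * V) := by
  unfold bb
  cases n with
  | zero =>
    rw [show (0 + 1 - 1 : ℕ) = 0 from rfl]
    ring
  | succ n =>
    simp only [Nat.add_sub_cancel]
    ring

lemma bb_nonneg {K V : ℝ} (hK : 0 ≤ K) (hV : 0 ≤ V) (n : ℕ) : 0 ≤ bb K V n := by
  unfold bb
  refine mul_nonneg (mul_nonneg ?_ hK) (pow_nonneg hV _)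
  have : (1 : ℝ) ≤ 2 ^ n := one_le_pow₀ (by norm_num)
  rw [pow_succ]
  linarith

lemma core (D : Finset ℕ) (f g : ℕ → ℝ → ℂ) (A K V : ℝ) (hK : 0 ≤ K) (hV : 0 ≤ V)
    (hf : ∀ q, Continuous (f q)) (hg : ∀ q, Continuous (g q))
    (h1 : ∀ c : ℕ → ℂ, ∫⁻ α, ENNReal.ofReal (‖∑ q ∈ D, c q * (f q α - g q α)‖ ^ 2)
      ∂(volume.restrict (Icc (-A) A)) ≤ ENNReal.ofReal (K * ∑ q ∈ D, ‖c q‖ ^ 2))
    (h2 : ∀ q ∈ D, ∫⁻ α, ENNReal.ofReal (‖f q α‖ ^ 2) ∂(volume.restrict (Icc (-A) A)) ≤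
      ENNReal.ofReal V)
    (h3 : ∀ q ∈ D, ∫⁻ α, ENNReal.ofReal (‖g q α‖ ^ 2) ∂(volume.restrict (Icc (-A) A)) ≤
      ENNReal.ofReal V) :
    ∀ (k : ℕ) (c : ℕ → ℂ), ∫⁻ β, ENNReal.ofReal (‖∑ q ∈ D, c q *
      (∏ j, f q (β j) - ∏ j, g q (β j))‖ ^ 2) ∂(mS k A) ≤
      ENNReal.ofReal (bb K V k * ∑ q ∈ D, ‖c q‖ ^ 2) := by
  intro k
  induction k with
  | zero =>
    intro c
    simp
  | succ n ih =>
    intro c
    have hc : Continuous fun β : Fin (n + 1) → ℝ => ‖∑ q ∈ D, c q *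
        (∏ j, f q (β j) - ∏ j, g q (β j))‖ ^ 2 := by fun_prop
    rw [lint_prod A _ (mor hc)]
    set S1 : ℝ × (Fin n → ℝ) → ℂ := fun p =>
      ∑ q ∈ D, (c q * ∏ j, f q (p.2 j)) * (f q p.1 - g q p.1) with hS1
    set S2 : ℝ × (Fin n → ℝ) → ℂ := fun p =>
      ∑ q ∈ D, (c q * g q p.1) * (∏ j, f q (p.2 j) - ∏ j, g q (p.2 j)) with hS2
    have c1 : Continuous fun p => ‖S1 p‖ ^ 2 := by
      rw [hS1]
      fun_prop
    have c2 : Continuous fun p => ‖S2 p‖ ^ 2 := by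
      rw [hS2]
      fun_prop
    have hle : ∀ p : ℝ × (Fin n → ℝ), ENNReal.ofReal (‖∑ q ∈ D, c q *
        (∏ j, f q ((Fin.cons p.1 p.2 : Fin (n + 1) → ℝ) j) -
          ∏ j, g q ((Fin.cons p.1 p.2 : Fin (n + 1) → ℝ) j))‖ ^ 2) ≤
        2 * ENNReal.ofReal (‖S1 p‖ ^ 2) + 2 * ENNReal.ofReal (‖S2 p‖ ^ 2) := by
      intro p
      have e1 : ∑ q ∈ D, c q * (∏ j, f q ((Fin.cons p.1 p.2 : Fin (n + 1) → ℝ) j) -
          ∏ j, g q ((Fin.cons p.1 p.2 : Fin (n + 1) → ℝ) j)) = S1 p + S2 p := by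
        rw [hS1, hS2]
        simp only
        rw [← Finset.sum_add_distrib]
        refine Finset.sum_congr rfl fun q _ => ?_
        rw [Fin.prod_univ_succ, Fin.prod_univ_succ]
        simp only [Fin.cons_zero, Fin.cons_succ]
        ring
      rw [e1]
      have e2 : ‖S1 p + S2 p‖ ^ 2 ≤ 2 * ‖S1 p‖ ^ 2 + 2 * ‖S2 p‖ ^ 2 := by
        have h4 := norm_add_le (S1 p) (S2 p)
        have h5 : ‖S1 p + S2 p‖ ^ 2 ≤ (‖S1 p‖ + ‖S2 p‖) ^ 2 := by gcongr
        nlinarith [sq_nonneg (‖S1 p‖ - ‖S2 p‖)]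
      refine (ENNReal.ofReal_le_ofReal e2).trans ?_
      rw [ENNReal.ofReal_add (by positivity) (by positivity), ENNReal.ofReal_mul (by norm_num),
        ENNReal.ofReal_mul (by norm_num)]
      simp
    refine (lintegral_mono hle).trans ?_
    rw [lintegral_add_left ((mor c1).const_mul 2), lintegral_const_mul _ (mor c1),
      lintegral_const_mul _ (mor c2)]
    -- the first part
    have b1 : ∫⁻ p, ENNReal.ofReal (‖S1 p‖ ^ 2) ∂((volume.restrict (Icc (-A) A)).prod (mS n A)) ≤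
        ENNReal.ofReal (K * V ^ n * ∑ q ∈ D, ‖c q‖ ^ 2) := by
      rw [lintegral_prod_symm _ (mor c1).aemeasurable]
      have e3 : ∀ γ : Fin n → ℝ, ∫⁻ x, ENNReal.ofReal (‖S1 (x, γ)‖ ^ 2)
          ∂(volume.restrict (Icc (-A) A)) ≤
          ENNReal.ofReal (K * ∑ q ∈ D, ‖c q‖ ^ 2 * ‖∏ j, f q (γ j)‖ ^ 2) := by
        intro γ
        refine (h1 fun q => c q * ∏ j, f q (γ j)).trans (le_of_eq ?_)
        simp only [norm_mul, mul_pow]
      refine (lintegral_mono e3).trans ?_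
      refine wsum (mS n A) D (fun q => ‖c q‖ ^ 2) (fun q γ => ‖∏ j, f q (γ j)‖ ^ 2) hK
        (fun q _ => sq_nonneg _) (fun q _ x => sq_nonneg _) (fun q => ?_) (pow_nonneg hV n)
        fun q hq => pmom hV (hf q) (h2 q hq) n
      have : Continuous fun γ : Fin n → ℝ => ‖∏ j, f q (γ j)‖ ^ 2 := by fun_prop
      exact this.measurable
    -- the second part
    have b2 : ∫⁻ p, ENNReal.ofReal (‖S2 p‖ ^ 2) ∂((volume.restrict (Icc (-A) A)).prod (mS n A)) ≤
        ENNReal.ofReal (bb K V n * V * ∑ q ∈ D, ‖c q‖ ^ 2) := by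
      rw [lintegral_prod _ (mor c2).aemeasurable]
      have e3 : ∀ x : ℝ, ∫⁻ γ, ENNReal.ofReal (‖S2 (x, γ)‖ ^ 2) ∂(mS n A) ≤
          ENNReal.ofReal (bb K V n * ∑ q ∈ D, ‖c q‖ ^ 2 * ‖g q x‖ ^ 2) := by
        intro x
        refine (ih fun q => c q * g q x).trans (le_of_eq ?_)
        simp only [norm_mul, mul_pow]
      refine (lintegral_mono e3).trans ?_
      refine wsum (volume.restrict (Icc (-A) A)) D (fun q => ‖c q‖ ^ 2) (fun q x => ‖g q x‖ ^ 2)
        (bb_nonneg hK hV n) (fun q _ => sq_nonneg _) (fun q _ x => sq_nonneg _) (fun q => ?_) hV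
        fun q hq => h3 q hq
      have : Continuous fun x : ℝ => ‖g q x‖ ^ 2 := by fun_prop
      exact this.measurable
    have hN : 0 ≤ ∑ q ∈ D, ‖c q‖ ^ 2 := Finset.sum_nonneg fun q _ => sq_nonneg _
    calc 2 * ∫⁻ p, ENNReal.ofReal (‖S1 p‖ ^ 2) ∂((volume.restrict (Icc (-A) A)).prod (mS n A)) +
        2 * ∫⁻ p, ENNReal.ofReal (‖S2 p‖ ^ 2) ∂((volume.restrict (Icc (-A) A)).prod (mS n A))
        ≤ 2 * ENNReal.ofReal (K * V ^ n * ∑ q ∈ D, ‖c q‖ ^ 2) +
          2 * ENNReal.ofReal (bb K V n * V * ∑ q ∈ D, ‖c q‖ ^ 2) :=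
          add_le_add (mul_le_mul' le_rfl b1) (mul_le_mul' le_rfl b2)
      _ = ENNReal.ofReal (2 * (K * V ^ n * ∑ q ∈ D, ‖c q‖ ^ 2) +
          2 * (bb K V n * V * ∑ q ∈ D, ‖c q‖ ^ 2)) := by
          have t1 : 0 ≤ K * V ^ n * ∑ q ∈ D, ‖c q‖ ^ 2 :=
            mul_nonneg (mul_nonneg hK (pow_nonneg hV n)) hN
          have t2 : 0 ≤ bb K V n * V * ∑ q ∈ D, ‖c q‖ ^ 2 :=
            mul_nonneg (mul_nonneg (bb_nonneg hK hV n) hV) hN
          rw [ENNReal.ofReal_add (mul_nonneg (by norm_num) t1) (mul_nonneg (by norm_num) t2),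
            ENNReal.ofReal_mul (by norm_num : (0 : ℝ) ≤ 2),
            ENNReal.ofReal_mul (by norm_num : (0 : ℝ) ≤ 2)]
          simp
      _ = ENNReal.ofReal (bb K V (n + 1) * ∑ q ∈ D, ‖c q‖ ^ 2) := by
          rw [bb_succ]
          congr 1
          ring

end Tel

open Tel in
theorem t_TEL : S_TEL := by
  intro k D f g A K V hA hK hV hf hg h1 h2 h3
  classical
  set f' : ℕ → ℝ → ℂ := fun q => if q ∈ D then f q else fun _ => 0 with hf'
  set g' : ℕ → ℝ → ℂ := fun q => if q ∈ D then g q else fun _ => 0 with hg'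
  have ef : ∀ q ∈ D, f' q = f q := fun q hq => if_pos hq
  have eg : ∀ q ∈ D, g' q = g q := fun q hq => if_pos hq
  have cf : ∀ q, Continuous (f' q) := by
    intro q
    by_cases hq : q ∈ D
    · rw [ef q hq]
      exact hf q hq
    · rw [hf']
      simp only [if_neg hq]
      exact continuous_const
  have cg : ∀ q, Continuous (g' q) := by
    intro q
    by_cases hq : q ∈ D
    · rw [eg q hq]
      exact hg q hq
    · rw [hg']
      simp only [if_neg hq]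
      exact continuous_const
  have hAA : -A ≤ A := by linarith
  have h := core D f' g' A K V hK hV cf cg (fun c => by
      rw [lint1 hAA (by fun_prop) fun y => sq_nonneg _]
      apply ENNReal.ofReal_le_ofReal
      refine le_trans (le_of_eq ?_) (h1 c)
      congr 1
      funext α
      congr 2
      refine Finset.sum_congr rfl fun q hq => ?_
      rw [ef q hq, eg q hq])
    (fun q hq => by
      have cfq := cf q
      rw [lint1 hAA (by fun_prop : Continuous fun y => ‖f' q y‖ ^ 2) fun y => sq_nonneg _, ef q hq]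
      exact ENNReal.ofReal_le_ofReal (h2 q hq))
    (fun q hq => by
      have cgq := cg q
      rw [lint1 hAA (by fun_prop : Continuous fun y => ‖g' q y‖ ^ 2) fun y => sq_nonneg _, eg q hq]
      exact ENNReal.ofReal_le_ofReal (h3 q hq)) k (fun _ => 1)
  refine le_trans (le_of_eq ?_) (h.trans (ENNReal.ofReal_le_ofReal ?_))
  · refine lintegral_congr fun β => ?_
    congr 3
    refine Finset.sum_congr rfl fun q hq => ?_
    rw [ef q hq, eg q hq, one_mul]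
  · simp only [norm_one, one_pow, Finset.sum_const, nsmul_eq_mul, mul_one]
    refine mul_le_mul_of_nonneg_right ?_ (Nat.cast_nonneg _)
    unfold bb
    refine mul_le_mul_of_nonneg_right (mul_le_mul_of_nonneg_right ?_ hK) (pow_nonneg hV _)
    have e : (4 : ℝ) ^ k = (2 ^ k) ^ 2 := by
      rw [← pow_mul, mul_comm, pow_mul]
      norm_num
    rw [e, pow_succ]
    nlinarith [sq_nonneg ((2 : ℝ) ^ k - 1)]

end

end Pool.Agent.N879.QM
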