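import Pool.Agent.H27.G.R_pool_sql_team_seeded_63374d34.N879.QM.Stm
import Pool.Agent.H27.G.R_seed8.H987R2.RG_CLS
import Pool.Agent.H27.G.R_seed8.H328R9.RG_CC1

set_option autoImplicit false

/-!
Project QM (helper879), UNI (helper394): uniqueness of the real primitive character of given conductor and parity.
-/

namespace Pool.Agent.N879.QM

open Pool.Agent.H306R2.RG

/-- characters with the same values at nonzero natural numbers are equal -/
theorem uni_ext {q : ℕ} (hq : q ≠ 0) (χ χ' : DirichletCharacter ℂ q)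
    (h : ∀ n : ℕ, n ≠ 0 → χ (n : ZMod q) = χ' (n : ZMod q)) : χ = χ' := by
  haveI : NeZero q := ⟨hq⟩
  refine MulChar.ext fun u => ?_
  have h1 := h ((u : ZMod q).val + q) (by omega)
  rwa [Nat.cast_add, ZMod.natCast_zmod_val, ZMod.natCast_self, add_zero] at h1

/-- the classification with parity -/
theorem uni_key (s : ℤ) (q : ℕ) (χ : DirichletCharacter ℂ q) (hq : q ≠ 0) (h : Rp s χ) :
    ∃ (φ : FD) (d : ℕ), φ.A d ∧ q = φ.r * d ∧ (∀ n : ℕ, n ≠ 0 → χ (n : ZMod q) = ((cf φ d n : ℝ) : ℂ)) ∧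
      (φ = F8 s ∨ φ = F4 s ∨ φ = F1 s 1 ∨ φ = F1 s 5) ∧ (s = 1 ∨ s = -1) := by
  obtain ⟨h1, h2, h3, h4⟩ := h
  obtain ⟨φ, d, hφ, hd, hs, hN, hv⟩ := Pool.Agent.H987R2.RGCLS.CLS q hq χ h1 h2 h3
  subst hN
  obtain ⟨_, χ', _, _, _, hv', hp⟩ := Pool.Agent.H328R9.RG.CC1 φ hφ d hd hs
  have he : χ = χ' := uni_ext hq χ χ' fun n hn => by rw [hv n hn, hv' n hn]
  subst he
  rw [h4] at hp
  refine ⟨φ, d, hd, rfl, hv, ?_⟩
  obtain ⟨ε, hε, hF⟩ := hφ
  have ha : φ.a = if ε = 1 then 0 else 1 := by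
    rcases hF with h | h | h | h <;> rw [h] <;> rfl
  have hse : s = ε := by
    rcases hε with h | h
    · rw [ha, if_pos h, if_pos rfl] at hp
      rw [h]
      exact_mod_cast hp
    · rw [ha, if_neg (by rw [h]; norm_num)] at hp
      rw [h]
      exact_mod_cast hp
  rw [hse]
  exact ⟨hF, hε⟩

/-- uniqueness -/
theorem t_UNI : S_UNI := by
  intro s q χ χ' hq h h'
  obtain ⟨φ, d, hd, hN, hv, hF, hs⟩ := uni_key s q χ hq h
  obtain ⟨φ', d', hd', hN', hv', hF', _⟩ := uni_key s q χ' hq h'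
  have key : φ = φ' ∧ d = d' := by
    rcases hF with e | e | e | e <;> rcases hF' with e' | e' | e' | e' <;>
      (rw [e] at hd hN; rw [e'] at hd' hN'; rw [e, e']; simp only [F8, F4, F1] at hd hd' hN hN';
       clear hv hv' e e' h h')
    · exact ⟨rfl, by omega⟩
    · exfalso
      obtain ⟨k, hk⟩ := hd
      rcases hs with rfl | rfl <;> omega
    · exfalso
      rcases hs with rfl | rfl <;> omega
    · exfalso
      rcases hs with rfl | rfl <;> omega
    · exfalso
      obtain ⟨k, hk⟩ := hd'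
      rcases hs with rfl | rfl <;> omega
    · exact ⟨rfl, by omega⟩
    · exfalso
      rcases hs with rfl | rfl <;> omega
    · exfalso
      rcases hs with rfl | rfl <;> omega
    · exfalso
      rcases hs with rfl | rfl <;> omega
    · exfalso
      rcases hs with rfl | rfl <;> omega
    · exact ⟨rfl, by omega⟩
    · exfalso
      rcases hs with rfl | rfl <;> omega
    · exfalso
      rcases hs with rfl | rfl <;> omega
    · exfalso
      rcases hs with rfl | rfl <;> omega
    · exfalso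
      rcases hs with rfl | rfl <;> omega
    · exact ⟨rfl, by omega⟩
  refine uni_ext hq χ χ' fun n hn => ?_
  rw [hv n hn, hv' n hn, key.1, key.2]

end Pool.Agent.N879.QM
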