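import Pool.Agent.H27.G.R_pool_sql_team_seeded_63374d34.N879.QM.Stm

set_option autoImplicit false

/-!
Project QM (helper879), VL (helper394): local second moment of one `L`-function.
-/

namespace Pool.Agent.N879.QM

open Complex Filter Topology MeasureTheory Set
open scoped BigOperators

namespace VL

theorem vl_le (s : ℤ) (q n : ℕ) : ‖vl s q n‖ ≤ 1 := by
  unfold vl
  exact DirichletCharacter.norm_le_one _ _

theorem term_cont (n : ℕ) (hn : n ≠ 0) : Continuous fun α : ℝ => (n : ℂ) ^ (-(pt α)) := by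
  refine Continuous.const_cpow ?_ (Or.inl (by exact_mod_cast hn))
  unfold pt
  fun_prop

theorem sum_cont (s : ℤ) (q : ℕ) (S : Finset ℕ) (hS : 0 ∉ S) :
    Continuous fun α : ℝ => ∑ n ∈ S, vl s q n * (n : ℂ) ^ (-(pt α)) :=
  continuous_finsetSum _ fun n hn => continuous_const.mul
    (term_cont n fun h => hS (h ▸ hn))

theorem PN_cont (s : ℤ) (q N : ℕ) : Continuous fun α : ℝ => PN s q N α :=
  sum_cont s q _ (by simp)

theorem SK_cont (s : ℤ) (q K : ℕ) : Continuous fun α : ℝ => SK s q K α :=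
  sum_cont s q _ (by simp)

/-- dyadic decomposition -/
theorem PN_dyadic (s : ℤ) (q J : ℕ) (α : ℝ) :
    PN s q (2 ^ J) α = PN s q 1 α + ∑ i ∈ Finset.range J, SK s q (2 ^ i) α := by
  induction J with
  | zero => simp
  | succ J ih =>
    rw [Finset.sum_range_succ, ← add_assoc, ← ih]
    unfold PN SK
    have h1 : (1 : ℕ) ≤ 2 ^ J := Nat.one_le_two_pow
    have e : Finset.Icc 1 (2 ^ (J + 1)) = Finset.Icc 1 (2 ^ J) ∪ Finset.Ioc (2 ^ J) (2 * 2 ^ J) := by
      ext n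
      rw [Finset.mem_union, Finset.mem_Icc, Finset.mem_Icc, Finset.mem_Ioc, pow_succ]
      omega
    have hd : Disjoint (Finset.Icc 1 (2 ^ J)) (Finset.Ioc (2 ^ J) (2 * 2 ^ J)) := by
      rw [Finset.disjoint_left]
      intro n h1 h2
      rw [Finset.mem_Icc] at h1
      rw [Finset.mem_Ioc] at h2
      omega
    rw [e, Finset.sum_union hd]

theorem PN_one_le (s : ℤ) (q : ℕ) (α : ℝ) : ‖PN s q 1 α‖ ≤ 1 := by
  unfold PN
  rw [Finset.Icc_self, Finset.sum_singleton, Nat.cast_one, one_cpow, mul_one]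
  exact vl_le s q 1

end VL

open VL in
/-- local second moment of one `L`-function and of the short polynomials -/
theorem t_VL (h1 : S_P1) (h2 : S_BIG1) (h3 : S_AFS) (h4 : S_CTS) : S_VL := by
  intro ε hε
  obtain ⟨C1, hC1, h1⟩ := h1
  obtain ⟨C2, hC2, h2⟩ := h2
  obtain ⟨C3, hC3, h3⟩ := h3
  refine ⟨C1 / ε + 3 * (2 * C3 ^ 2 + 2 + 484 / ε ^ 2 * (C1 + C2)), by positivity, ?_⟩
  intro s q A hI hq hA
  have hA0 : 0 < A := by linarith
  have hlA : 0 ≤ Real.log A := Real.log_nonneg (by linarith)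
  have hAε : (1:ℝ) ≤ A ^ ε := Real.one_le_rpow (by linarith) hε.le
  have hAA : A ^ (1 + ε) = A * A ^ ε := by rw [Real.rpow_add hA0, Real.rpow_one]
  have hl1 : Real.log A ≤ A ^ ε / ε := Real.log_le_rpow_div hA0.le hε
  have hl2 : Real.log A ^ 2 ≤ 4 / ε ^ 2 * A ^ ε := by
    have h5 : Real.log A ≤ A ^ (ε / 2) / (ε / 2) := Real.log_le_rpow_div hA0.le (by positivity)
    have h6 : (A ^ (ε / 2)) ^ 2 = A ^ ε := by
      rw [← Real.rpow_natCast, ← Real.rpow_mul hA0.le]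
      congr 1
      push_cast
      ring
    calc Real.log A ^ 2 ≤ (A ^ (ε / 2) / (ε / 2)) ^ 2 := pow_le_pow_left₀ hlA h5 2
      _ = 4 / ε ^ 2 * (A ^ (ε / 2)) ^ 2 := by field_simp; ring
      _ = _ := by rw [h6]
  refine ⟨?_, ?_⟩
  · -- the `L`-function
    obtain ⟨J, hJ⟩ : ∃ J : ℕ, J = ⌈6 * Real.logb 2 A⌉₊ := ⟨_, rfl⟩
    have hlog2 : 0 < Real.log 2 := Real.log_pos (by norm_num)
    have hJ1 : A ^ 6 ≤ (2:ℝ) ^ J := by
      have h5 : 6 * Real.logb 2 A ≤ J := by rw [hJ]; exact Nat.le_ceil _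
      calc A ^ 6 = ((2:ℝ) ^ (Real.logb 2 A)) ^ 6 := by
            rw [Real.rpow_logb (by norm_num) (by norm_num) hA0]
        _ = (2:ℝ) ^ (6 * Real.logb 2 A) := by
            rw [← Real.rpow_natCast, ← Real.rpow_mul (by norm_num)]
            congr 1
            push_cast
            ring
        _ ≤ (2:ℝ) ^ (J : ℝ) := Real.rpow_le_rpow_of_exponent_le (by norm_num) h5
        _ = (2:ℝ) ^ J := Real.rpow_natCast _ _
    have hJ2 : (J : ℝ) ≤ 11 * Real.log A := by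
      have h5 : 0 ≤ 6 * Real.logb 2 A :=
        mul_nonneg (by norm_num) (Real.logb_nonneg (by norm_num) (by linarith))
      have h6 : (J : ℝ) < 6 * Real.logb 2 A + 1 := by rw [hJ]; exact Nat.ceil_lt_add_one h5
      have h7 : Real.log 2 ≤ Real.log A := Real.log_le_log (by norm_num) hA
      have h8 : (0.6931471803 : ℝ) < Real.log 2 := Real.log_two_gt_d9
      have h9 : Real.logb 2 A ≤ 1.45 * Real.log A := by
        rw [Real.logb, div_le_iff₀ hlog2]
        nlinarith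
      have h10 : 1 ≤ 1.45 * Real.log A := by nlinarith
      linarith [h6, h9, h10]
    have hJ3 : (J : ℝ) ^ 2 ≤ 484 / ε ^ 2 * A ^ ε := by
      calc (J : ℝ) ^ 2 ≤ (11 * Real.log A) ^ 2 := pow_le_pow_left₀ (Nat.cast_nonneg _) hJ2 2
        _ = 121 * Real.log A ^ 2 := by ring
        _ ≤ 121 * (4 / ε ^ 2 * A ^ ε) := mul_le_mul_of_nonneg_left hl2 (by norm_num)
        _ = _ := by ring
    -- pieces
    have hpiece : ∀ i : ℕ, ∫ α in (-A)..A, ‖SK s q (2 ^ i) α‖ ^ 2 ≤ (C1 + C2) * A := by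
      intro i
      by_cases hi : ((2 ^ i : ℕ) : ℝ) ≤ A
      · have h5 := (h1 A (2 ^ i) (fun n => vl s q n) hA hi (fun n => vl_le s q n)).1
        refine (show ∫ α in (-A)..A, ‖SK s q (2 ^ i) α‖ ^ 2 ≤ C1 * A from h5).trans ?_
        nlinarith
      · push Not at hi
        refine (h2 s q A (2 ^ i) hI hq hA hi.le).trans ?_
        nlinarith
    have hE : ∀ α ∈ Icc (-A) A, ‖LL s q (pt α) - PN s q (2 ^ J) α‖ ≤ C3 := by
      intro α hα
      have h5 := h3 s q (2 ^ J) α hI Nat.one_le_two_pow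
      have h6 : |α| ≤ A := abs_le.2 hα
      have h7 : A ^ 3 ≤ √((2 ^ J : ℕ) : ℝ) := by
        apply Real.le_sqrt_of_sq_le
        rw [← pow_mul]
        push_cast
        exact hJ1
      refine h5.trans ?_
      rw [div_le_iff₀ (lt_of_lt_of_le (by positivity) h7)]
      calc C3 * q * (1 + |α|) ≤ C3 * A * (1 + A) := by gcongr
        _ = C3 * (A * (1 + A)) := by ring
        _ ≤ C3 * A ^ 3 := by
            refine mul_le_mul_of_nonneg_left ?_ hC3.le
            nlinarith [sq_nonneg (A - 2), mul_pos hA0 hA0]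
        _ ≤ C3 * √((2 ^ J : ℕ) : ℝ) := mul_le_mul_of_nonneg_left h7 hC3.le
    -- pointwise
    have hpt : ∀ α ∈ Icc (-A) A, ‖LL s q (pt α)‖ ^ 2 ≤
        3 * (C3 ^ 2 + 1 + J * ∑ i ∈ Finset.range J, ‖SK s q (2 ^ i) α‖ ^ 2) := by
      intro α hα
      have h5 := hE α hα
      have h6 := PN_one_le s q α
      obtain ⟨x, hx⟩ : ∃ x, x = ‖LL s q (pt α) - PN s q (2 ^ J) α‖ := ⟨_, rfl⟩
      obtain ⟨y, hy⟩ : ∃ y, y = ‖PN s q 1 α‖ := ⟨_, rfl⟩
      obtain ⟨z, hz⟩ : ∃ z, z = ∑ i ∈ Finset.range J, ‖SK s q (2 ^ i) α‖ := ⟨_, rfl⟩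
      have hx0 : 0 ≤ x := by rw [hx]; exact norm_nonneg _
      have hy0 : 0 ≤ y := by rw [hy]; exact norm_nonneg _
      have hz0 : 0 ≤ z := by rw [hz]; exact Finset.sum_nonneg fun i _ => norm_nonneg _
      have h7 : ‖LL s q (pt α)‖ ≤ x + y + z := by
        calc ‖LL s q (pt α)‖ = ‖(LL s q (pt α) - PN s q (2 ^ J) α) + PN s q 1 α +
              ∑ i ∈ Finset.range J, SK s q (2 ^ i) α‖ := by
              congr 1
              rw [PN_dyadic s q J α]
              ring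
          _ ≤ ‖LL s q (pt α) - PN s q (2 ^ J) α‖ + ‖PN s q 1 α‖ +
              ‖∑ i ∈ Finset.range J, SK s q (2 ^ i) α‖ := norm_add₃_le
          _ ≤ _ := by
              rw [← hx, ← hy, hz]
              exact add_le_add_right (norm_sum_le _ _) _
      have h8 : z ^ 2 ≤ J * ∑ i ∈ Finset.range J, ‖SK s q (2 ^ i) α‖ ^ 2 := by
        have h9 := sq_sum_le_card_mul_sum_sq (s := Finset.range J)
          (f := fun i => ‖SK s q (2 ^ i) α‖)
        rw [Finset.card_range] at h9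
        rw [hz]
        exact h9
      rw [← hx] at h5
      rw [← hy] at h6
      have h10 : x ^ 2 ≤ C3 ^ 2 := pow_le_pow_left₀ hx0 h5 2
      have h11 : y ^ 2 ≤ 1 := by nlinarith
      calc ‖LL s q (pt α)‖ ^ 2 ≤ (x + y + z) ^ 2 := pow_le_pow_left₀ (norm_nonneg _) h7 2
        _ ≤ 3 * (x ^ 2 + y ^ 2 + z ^ 2) := by
            nlinarith [sq_nonneg (x - y), sq_nonneg (y - z), sq_nonneg (x - z)]
        _ ≤ _ := by linarith
    have hcL : Continuous fun α : ℝ => ‖LL s q (pt α)‖ ^ 2 := ((h4 s q hI).norm).pow 2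
    have hcS : ∀ i : ℕ, Continuous fun α : ℝ => ‖SK s q (2 ^ i) α‖ ^ 2 := fun i =>
      ((SK_cont s q (2 ^ i)).norm).pow 2
    have hcSum : Continuous fun α : ℝ => ∑ i ∈ Finset.range J, ‖SK s q (2 ^ i) α‖ ^ 2 :=
      continuous_finsetSum _ fun i _ => hcS i
    have h5 : ∫ α in (-A)..A, ‖LL s q (pt α)‖ ^ 2 ≤ ∫ α in (-A)..A,
        3 * (C3 ^ 2 + 1 + J * ∑ i ∈ Finset.range J, ‖SK s q (2 ^ i) α‖ ^ 2) :=
      intervalIntegral.integral_mono_on (by linarith) (hcL.intervalIntegrable _ _)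
        (Continuous.intervalIntegrable (by fun_prop) _ _) hpt
    have h6 : ∫ α in (-A)..A, 3 * (C3 ^ 2 + 1 + J * ∑ i ∈ Finset.range J, ‖SK s q (2 ^ i) α‖ ^ 2) =
        3 * (2 * A * (C3 ^ 2 + 1) +
          J * ∑ i ∈ Finset.range J, ∫ α in (-A)..A, ‖SK s q (2 ^ i) α‖ ^ 2) := by
      rw [intervalIntegral.integral_const_mul, intervalIntegral.integral_add
        (Continuous.intervalIntegrable (by fun_prop) _ _)
        (Continuous.intervalIntegrable (by fun_prop) _ _), intervalIntegral.integral_const,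
        intervalIntegral.integral_const_mul, intervalIntegral.integral_finsetSum
          (fun i _ => (hcS i).intervalIntegrable _ _), smul_eq_mul]
      ring
    have h7 : ∑ i ∈ Finset.range J, ∫ α in (-A)..A, ‖SK s q (2 ^ i) α‖ ^ 2 ≤
        J * ((C1 + C2) * A) := by
      refine (Finset.sum_le_sum fun i _ => hpiece i).trans (le_of_eq ?_)
      rw [Finset.sum_const, Finset.card_range, nsmul_eq_mul]
    have h8 : (J : ℝ) * ∑ i ∈ Finset.range J, ∫ α in (-A)..A, ‖SK s q (2 ^ i) α‖ ^ 2 ≤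
        484 / ε ^ 2 * A ^ ε * ((C1 + C2) * A) := by
      calc (J : ℝ) * ∑ i ∈ Finset.range J, ∫ α in (-A)..A, ‖SK s q (2 ^ i) α‖ ^ 2
          ≤ J * (J * ((C1 + C2) * A)) := mul_le_mul_of_nonneg_left h7 (Nat.cast_nonneg _)
        _ = (J : ℝ) ^ 2 * ((C1 + C2) * A) := by ring
        _ ≤ _ := mul_le_mul_of_nonneg_right hJ3 (by positivity)
    have h9 : 2 * A * (C3 ^ 2 + 1) ≤ 2 * A * (C3 ^ 2 + 1) * A ^ ε :=
      le_mul_of_one_le_right (by positivity) hAε
    calc ∫ α in (-A)..A, ‖LL s q (pt α)‖ ^ 2 ≤ _ := h5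
      _ = _ := h6
      _ ≤ 3 * (2 * A * (C3 ^ 2 + 1) * A ^ ε + 484 / ε ^ 2 * A ^ ε * ((C1 + C2) * A)) := by
          linarith
      _ = 3 * (2 * C3 ^ 2 + 2 + 484 / ε ^ 2 * (C1 + C2)) * (A * A ^ ε) := by ring
      _ ≤ (C1 / ε + 3 * (2 * C3 ^ 2 + 2 + 484 / ε ^ 2 * (C1 + C2))) * (A * A ^ ε) := by
          refine mul_le_mul_of_nonneg_right ?_ (by positivity)
          have : 0 ≤ C1 / ε := by positivity
          linarith
      _ = _ := by rw [hAA]
  · intro N hN hNA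
    have h5 := (h1 A N (fun n => vl s q n) hA hNA (fun n => vl_le s q n)).2
    have h6 : ∫ α in (-A)..A, ‖PN s q N α‖ ^ 2 ≤ C1 * A * Real.log A := h5
    calc ∫ α in (-A)..A, ‖PN s q N α‖ ^ 2 ≤ C1 * A * Real.log A := h6
      _ ≤ C1 * A * (A ^ ε / ε) := mul_le_mul_of_nonneg_left hl1 (by positivity)
      _ = C1 / ε * (A * A ^ ε) := by ring
      _ ≤ (C1 / ε + 3 * (2 * C3 ^ 2 + 2 + 484 / ε ^ 2 * (C1 + C2))) * (A * A ^ ε) := by
          refine mul_le_mul_of_nonneg_right ?_ (by positivity)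
          have : 0 ≤ 3 * (2 * C3 ^ 2 + 2 + 484 / ε ^ 2 * (C1 + C2)) := by positivity
          linarith
      _ = _ := by rw [hAA]

end Pool.Agent.N879.QM
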