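import Pool.Agent.H27.G.R_pool_sql_team_seeded_63374d34.N879.QM.Fin
import Pool.Agent.H27.G.R_pool_sql_team_seeded_63374d34.N879.QM.Uni
import Pool.Agent.H27.G.R_pool_sql_team_seeded_63374d34.N879.QM.Avg
import Pool.Agent.H27.G.R_pool_sql_team_seeded_63374d34.N879.QM.Diag
import Pool.Agent.H27.G.R_pool_sql_team_seeded_63374d34.N879.QM.Gk
import Pool.Agent.H27.G.R_pool_sql_team_seeded_63374d34.N879.QM.P2
import Pool.Agent.H27.G.R_pool_sql_team_seeded_63374d34.N879.QM.Mvg
import Pool.Agent.H27.G.R_pool_sql_team_seeded_63374d34.N879.QM.Blk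
import Pool.Agent.H27.G.R_pool_sql_team_seeded_63374d34.N879.QM.Lsb
import Pool.Agent.H27.G.R_pool_sql_team_seeded_63374d34.N879.QM.One
import Pool.Agent.H27.G.R_pool_sql_team_seeded_63374d34.N879.QM.Big
import Pool.Agent.H27.G.R_pool_sql_team_seeded_63374d34.N879.QM.Afs
import Pool.Agent.H27.G.R_pool_sql_team_seeded_63374d34.N879.QM.Vl
import Pool.Agent.H27.G.R_pool_sql_team_seeded_63374d34.N879.QM.Op
import Pool.Agent.H27.G.R_pool_sql_team_seeded_63374d34.N879.QM.Tel
import Pool.Agent.H27.G.R_pool_sql_team_seeded_63374d34.N879.QM.Eul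
import Pool.Agent.H27.G.R_pool_sql_team_seeded_63374d34.N879.QM.Zr
import Pool.Agent.H27.G.R_pool_sql_team_seeded_63374d34.N879.QM.Fl
import Pool.Agent.H27.G.R_pool_sql_team_seeded_63374d34.N879.QM.Coef
import Pool.Agent.H27.G.R_pool_sql_team_seeded_63374d34.N879.QM.Ns

set_option autoImplicit false

/-! Project QM: all parts together. -/

namespace Pool.Agent.N879.QM

theorem all_main : S_MAIN := by
  have hU := t_UNI
  have hA := t_AVG hU
  have hD := t_DIAG hA
  have hG := t_GK hU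
  have hP1 := t_P1
  have hP2 := t_P2 hG
  have hM := t_MVG
  have hB := t_BLK hM
  have hL := t_LSB
  have hT := t_TRV
  have hO := t_ONE
  have hBIG := t_BIG hB hL hT
  have hBIG1 := t_BIG1 hB hO hT
  have hAF := t_AFS
  have hC := t_CTS
  have hV := t_VL hP1 hBIG1 hAF hC
  have hOP := t_OP hP2 hBIG hAF hC
  have hTE := t_TEL
  have hE := t_EUL
  have hZR := t_ZR t_ZET hE
  have hFL := t_FL
  have hCO := t_COEF hFL
  exact t_MAIN hV hOP hTE hC hD hCO hZR hE t_NS

end Pool.Agent.N879.QM
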