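import Pool.Agent.H27.G.R_pool_sql_team_seeded_63374d34.N879.QM.Stm

set_option autoImplicit false

/-!
Project QM, second theorem: shifts in `[-X^θ, X^θ]^k` with `θ > 0` arbitrarily small, at most `X^(1-δ)` discriminants
removed. Statements of the further parts.
-/

namespace Pool.Agent.N879.QM

open Complex Filter Topology MeasureTheory Set

noncomputable section

/-- PVI: the Polya-Vinogradov inequality for the family -/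
def S_PVI : Prop := ∃ C : ℝ, 0 < C ∧ ∀ (s : ℤ) (q x t : ℕ), Is s q →
  ‖∑ n ∈ Finset.Ioc x (x + t), vl s q n‖ ^ 2 ≤ C * q * Real.log q ^ 2

/-- `∑_{m² ∣ n} m` -/
def wq (n : ℕ) : ℝ := ∑ m ∈ (Finset.Icc 1 n).filter (fun m => m ^ 2 ∣ n), (m : ℝ)

/-- HBG: Heath-Brown's large sieve for general coefficients -/
def S_HBG : Prop := ∀ ε : ℝ, 0 < ε → ∃ C : ℝ, 0 < C ∧ ∀ (s : ℤ) (X : ℝ) (K : ℕ) (y : ℕ → ℂ), s = 1 ∨ s = -1 →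
  1 ≤ X → 1 ≤ K →
  ∑ q ∈ Q s X, ‖∑ n ∈ Finset.Icc 1 K, vl s q n * y n‖ ^ 2 ≤
    C * (X * K) ^ ε * (X + K) * ∑ n ∈ Finset.Icc 1 K, wq n * ‖y n‖ ^ 2

/-- WQ: sums of `wq` over short intervals and mean values -/
def S_WQ : Prop := ∀ ε : ℝ, 0 < ε → ∃ C : ℝ, 0 < C ∧ ∀ (K x t : ℕ), 1 ≤ K → 1 ≤ t → t ≤ K → x ≤ 2 * K →
  ∑ n ∈ (Finset.Ioc x (x + t)) ∩ (Finset.Ioc K (2 * K)), wq n ≤ C * (K : ℝ) ^ ε * (t + (K : ℝ) ^ (2 / 3 : ℝ))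

/-- MID: pieces of length between `A` and `X^(1+δ₀)` -/
def S_MID : Prop := ∀ ε : ℝ, 0 < ε → ∃ C : ℝ, 0 < C ∧ ∀ (s : ℤ) (X A : ℝ) (K : ℕ) (c : ℕ → ℂ), s = 1 ∨ s = -1 →
  1 ≤ X → 2 ≤ A → A ≤ K →
  ∫ α in (-A)..A, ‖∑ q ∈ Q s X, c q * SK s q K α‖ ^ 2 ≤
    C * (X * K) ^ ε * A * (X + K) * (A ^ (-1 : ℝ) + (K : ℝ) ^ (-(1 / 3) : ℝ)) * ∑ q ∈ Q s X, ‖c q‖ ^ 2

/-- BIGP: long pieces, for small `A` -/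
def S_BIGP : Prop := ∀ ε : ℝ, 0 < ε → ∃ C : ℝ, 0 < C ∧ ∀ (s : ℤ) (X A : ℝ) (K : ℕ) (c : ℕ → ℂ), s = 1 ∨ s = -1 →
  1 ≤ X → 2 ≤ A → A ≤ K →
  ∫ α in (-A)..A, ‖∑ q ∈ Q s X, c q * SK s q K α‖ ^ 2 ≤
    C * X ^ ε * A * (1 + X ^ 2 / K) * ∑ q ∈ Q s X, ‖c q‖ ^ 2

/-- BIG1P: long pieces for one character, small `A` -/
def S_BIG1P : Prop := ∃ C : ℝ, 0 < C ∧ ∀ (s : ℤ) (q : ℕ) (A : ℝ) (K : ℕ), Is s q → 2 ≤ A → A ≤ K → q ≤ K →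
  ∫ α in (-A)..A, ‖SK s q K α‖ ^ 2 ≤ C * A * (1 + Real.log q ^ 2)

/-- MB: the second moment on average over the family -/
def S_MB : Prop := ∀ ε : ℝ, 0 < ε → ∃ C : ℝ, 0 < C ∧ ∀ (s : ℤ) (X A : ℝ), s = 1 ∨ s = -1 →
  2 ≤ A → A ≤ X →
  ∑ q ∈ Q s X, ∫ α in (-A)..A, ‖LL s q (pt α)‖ ^ 2 ≤ C * A * X ^ (1 + ε)

/-- OPB: `L` minus a short polynomial as an operator, small `A` -/
def S_OPB : Prop := ∀ ε : ℝ, 0 < ε → ∃ C : ℝ, 0 < C ∧ ∀ (s : ℤ) (X A d : ℝ) (N : ℕ) (c : ℕ → ℂ), s = 1 ∨ s = -1 →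
  2 ≤ A → A ≤ X → 0 ≤ d → d ≤ 1 → 1 ≤ N →
  ∫ α in (-A)..A, ‖∑ q ∈ Q s X, c q * (LL s q (pt α) - PN s q N α)‖ ^ 2 ≤
    C * X ^ ε * A * (X / √N + X ^ (1 + d) * A ^ (-(1 / 3) : ℝ) + X ^ (1 - d)) * ∑ q ∈ Q s X, ‖c q‖ ^ 2

/-- RMV: the removed part of the product of short polynomials -/
def S_RMV : Prop := ∀ k : ℕ, ∃ C : ℝ, 0 < C ∧ ∀ (s : ℤ) (A : ℝ) (N : ℕ) (E : Finset ℕ), 2 ≤ A → 1 ≤ N →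
  (N : ℝ) ≤ A →
  ∫⁻ β, ENNReal.ofReal (‖∑ q ∈ E, ∏ j, PN s q N (β j)‖ ^ 2) ∂(mS k A) ≤
    ENNReal.ofReal (C * A ^ k * Real.log A ^ k * (E.card : ℝ) ^ 2)

/-- the second theorem -/
def S_MAINB : Prop := ∀ (k : ℕ) (s : ℤ) (θ : ℝ), 1 ≤ k → s = 1 ∨ s = -1 → 0 < θ → θ ≤ 1 → ∃ δ X₀ : ℝ, 0 < δ ∧
  ∀ X : ℝ, X₀ ≤ X → ∃ E : Finset ℕ, E ⊆ Q s X ∧ (E.card : ℝ) ≤ X ^ (1 - δ) ∧
  mS k (X ^ θ) {β | X ^ (1 - δ) < ‖(∑ q ∈ Q s X \ E, ∏ j, LL s q (pt (β j))) - ((c0 * X : ℝ) : ℂ) * MT (im β)‖} ≤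
    ENNReal.ofReal (X ^ (k * θ - δ))

end

end Pool.Agent.N879.QM
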