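import Pool.Agent.H27.G.R_pool_sql_team_seeded_63374d34.N879.QM.Stm2
import Pool.Agent.H27.G.R_pool_sql_team_seeded_63374d34.N879.QM.Gk

/-!
# Project QM2, part HBG (helper434): Heath-Brown's large sieve for general coefficients over the family
-/

set_option autoImplicit false

namespace Pool.Agent.N879.QM

open Complex Filter Topology MeasureTheory Set
open scoped BigOperators
open Pool.Agent.H306R2.RZ (js osf sqf LSB)
open Pool.Agent.H306R2.RG (FD F8 F4 F1 Fam cf)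
open Pool.Agent.H423R2.RZL.HBLSn (HBLS)
open Pool.Agent.H987R2.RGCLS (CLS cf_eq)

noncomputable section

namespace Hbgaux

/-- one class, one pair `(b, r)` -/
theorem fix {M N : ℕ} {B : ℝ} (hB : 0 ≤ B) (h : LSB M N B) (φ : FD) (hη : |φ.η| ≤ 1)
    (D : Finset ℕ) (dd : ℕ → ℕ) (hd : ∀ q ∈ D, dd q ∈ sqf M)
    (hinj : ∀ q ∈ D, ∀ q' ∈ D, dd q = dd q' → q = q') (a : ℕ → ℂ) (v r : ℕ) (hr : Odd r) :
    ∑ q ∈ D, ‖∑ m ∈ osf N, ((cf φ (dd q) (2 ^ v * (m * r ^ 2)) : ℝ) : ℂ) * a m‖ ^ 2 ≤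
      B * ∑ m ∈ osf N, ‖a m‖ ^ 2 := by
  classical
  have h1 := h fun m => a m * (js φ.e m : ℂ)
  have h2 : ∑ m ∈ osf N, ‖a m * (js φ.e m : ℂ)‖ ^ 2 ≤ ∑ m ∈ osf N, ‖a m‖ ^ 2 := by
    refine Finset.sum_le_sum fun m _ => ?_
    rw [norm_mul, mul_pow]
    apply mul_le_of_le_one_right (by positivity)
    rw [Complex.norm_real, Real.norm_eq_abs]
    exact pow_le_one₀ (abs_nonneg _) (gk_js_abs _ _)
  refine le_trans ?_ (h1.trans (mul_le_mul_of_nonneg_left h2 hB))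
  have e : ∑ m ∈ D.image dd, ‖∑ n ∈ osf N, a n * (js φ.e n : ℂ) * (js m n : ℂ)‖ ^ 2 =
      ∑ q ∈ D, ‖∑ n ∈ osf N, a n * (js φ.e n : ℂ) * (js (dd q) n : ℂ)‖ ^ 2 :=
    Finset.sum_image fun q hq q' hq' h => hinj q hq q' hq' h
  have h3 : ∑ q ∈ D, ‖∑ n ∈ osf N, a n * (js φ.e n : ℂ) * (js (dd q) n : ℂ)‖ ^ 2 ≤
      ∑ m ∈ sqf M, ‖∑ n ∈ osf N, a n * (js φ.e n : ℂ) * (js m n : ℂ)‖ ^ 2 := by
    rw [← e]
    apply Finset.sum_le_sum_of_subset_of_nonneg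
    · intro m hm
      obtain ⟨q, hq, rfl⟩ := Finset.mem_image.1 hm
      exact hd q hq
    · intro _ _ _
      positivity
  refine le_trans ?_ h3
  refine Finset.sum_le_sum fun q _ => ?_
  have e2 : ∑ m ∈ osf N, ((cf φ (dd q) (2 ^ v * (m * r ^ 2)) : ℝ) : ℂ) * a m =
      ((φ.η ^ v * (js φ.e r * js (dd q) r) ^ 2 : ℝ) : ℂ) *
        ∑ n ∈ osf N, a n * (js φ.e n : ℂ) * (js (dd q) n : ℂ) := by
    rw [Finset.mul_sum]
    refine Finset.sum_congr rfl fun m hm => ?_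
    unfold osf at hm
    rw [Finset.mem_filter, Finset.mem_Icc] at hm
    obtain ⟨⟨hm1, hm2⟩, hmo, hms⟩ := hm
    have e1 : cf φ (dd q) (2 ^ v * (m * r ^ 2)) =
        φ.η ^ v * ((js φ.e m * js (dd q) m) * (js φ.e r * js (dd q) r) ^ 2) := by
      rw [cf_eq φ _ _ _ (hmo.mul (hr.pow))]
      congr 1
      rw [← gk_js_mul, ← gk_js_mul, ← gk_js_right _ _ _ (by omega) hr.pos.ne']
      rfl
    rw [e1]
    push_cast
    ring
  rw [e2, norm_mul, mul_pow]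
  apply mul_le_of_le_one_left (by positivity)
  rw [Complex.norm_real, Real.norm_eq_abs, abs_mul, abs_pow, abs_pow, abs_mul]
  apply pow_le_one₀ (by positivity)
  apply mul_le_one₀ (pow_le_one₀ (abs_nonneg _) hη) (by positivity)
  exact pow_le_one₀ (by positivity) (mul_le_one₀ (gk_js_abs _ _) (by positivity) (gk_js_abs _ _))

/-- the index set of the decomposition -/
def TT (K : ℕ) : Finset ((_ : ℕ × ℕ) × ℕ) :=
  (GkT K).sigma (fun p => osf (K / (2 ^ p.1 * p.2 ^ 2)))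

/-- the number with a given decomposition -/
def nx (x : (_ : ℕ × ℕ) × ℕ) : ℕ := 2 ^ x.1.1 * (x.2 * x.1.2 ^ 2)

theorem exists_g (K : ℕ) : ∃ g : ℕ → (_ : ℕ × ℕ) × ℕ, ∀ n, 1 ≤ n → n ≤ K →
    g n ∈ TT K ∧ Odd (g n).1.2 ∧ nx (g n) = n := by
  classical
  have h1 : ∀ n : ℕ, ∃ x : (_ : ℕ × ℕ) × ℕ, 1 ≤ n → n ≤ K →
      x ∈ TT K ∧ Odd x.1.2 ∧ nx x = n := by
    intro n
    by_cases hn : 1 ≤ n ∧ n ≤ K
    · obtain ⟨b, r, m, hr, hm, hsq, e⟩ := gk_decomp n hn.1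
      refine ⟨⟨(b, r), m⟩, fun _ _ => ⟨?_, hr, e⟩⟩
      have hr0 : 1 ≤ r := hr.pos
      have hm0 : 1 ≤ m := hm.pos
      have h2 : 2 ^ b * r ^ 2 * m = n := by rw [← e]; ring
      have h3 : 2 ^ b * r ^ 2 ≤ n := by
        rw [← h2]; exact Nat.le_mul_of_pos_right _ hm0
      unfold TT
      rw [Finset.mem_sigma]
      constructor
      · unfold GkT
        rw [Finset.mem_filter, Finset.mem_product, Finset.mem_range, Finset.mem_Icc]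
        have h4 : b < 2 ^ b := Nat.lt_two_pow_self
        have h5 : 2 ^ b ≤ 2 ^ b * r ^ 2 := Nat.le_mul_of_pos_right _ (by positivity)
        have h6 : r ≤ r ^ 2 := by nlinarith
        have h7 : r ^ 2 ≤ 2 ^ b * r ^ 2 := Nat.le_mul_of_pos_left _ (by positivity)
        exact ⟨⟨by simp only; omega, hr0, by simp only; omega⟩, by simp only; omega⟩
      · unfold osf
        rw [Finset.mem_filter, Finset.mem_Icc]
        refine ⟨⟨hm0, ?_⟩, hm, hsq⟩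
        rw [Nat.le_div_iff_mul_le (by positivity)]
        simp only
        calc m * (2 ^ b * r ^ 2) = n := by rw [← h2]; ring
          _ ≤ K := hn.2
    · exact ⟨⟨(0, 0), 0⟩, fun h2 h3 => absurd ⟨h2, h3⟩ hn⟩
  choose g hg using h1
  exact ⟨g, hg⟩

theorem sum_g {K : ℕ} {g : ℕ → (_ : ℕ × ℕ) × ℕ} (hg : ∀ n, 1 ≤ n → n ≤ K →
    g n ∈ TT K ∧ Odd (g n).1.2 ∧ nx (g n) = n) {A : Type} [AddCommMonoid A]
    (Φ : (_ : ℕ × ℕ) × ℕ → A) (hΦ : ∀ x, x ∉ (Finset.Icc 1 K).image g → Φ x = 0) :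
    ∑ n ∈ Finset.Icc 1 K, Φ (g n) = ∑ p ∈ GkT K, ∑ m ∈ osf (K / (2 ^ p.1 * p.2 ^ 2)), Φ ⟨p, m⟩ := by
  classical
  rw [← Finset.sum_sigma (GkT K) (fun p => osf (K / (2 ^ p.1 * p.2 ^ 2))) Φ]
  have e : ∑ x ∈ (Finset.Icc 1 K).image g, Φ x = ∑ n ∈ Finset.Icc 1 K, Φ (g n) := by
    rw [Finset.sum_image]
    intro n hn n' hn' h
    rw [Finset.mem_coe, Finset.mem_Icc] at hn hn'
    obtain ⟨-, -, h4⟩ := hg n hn.1 hn.2
    obtain ⟨-, -, h5⟩ := hg n' hn'.1 hn'.2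
    rw [← h4, ← h5, h]
  rw [← e]
  apply Finset.sum_subset
  · intro x hx
    obtain ⟨n, hn, rfl⟩ := Finset.mem_image.1 hx
    rw [Finset.mem_Icc] at hn
    exact (hg n hn.1 hn.2).1
  · intro x _ hx
    exact hΦ x hx

/-- the sum of the reciprocals -/
theorem sum_inv (δ : ℝ) (hδ : 0 < δ) : ∃ A : ℝ, 0 < A ∧ ∀ K : ℕ, 1 ≤ K →
    ∑ p ∈ GkT K, (1 : ℝ) / p.2 ≤ A * (K : ℝ) ^ δ := by
  obtain ⟨ρ, hρ⟩ : ∃ ρ : ℝ, ρ = (2 : ℝ) ^ (-δ) := ⟨_, rfl⟩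
  have hρ0 : 0 < ρ := by rw [hρ]; positivity
  have hρ1 : ρ < 1 := by
    rw [hρ]
    exact Real.rpow_lt_one_of_one_lt_of_neg (by norm_num) (by linarith)
  have hsum : Summable fun n : ℕ => 1 / (n : ℝ) ^ (1 + 2 * δ) :=
    Real.summable_one_div_nat_rpow.mpr (by linarith)
  obtain ⟨A2, hA2⟩ : ∃ A2 : ℝ, A2 = ∑' n : ℕ, 1 / (n : ℝ) ^ (1 + 2 * δ) := ⟨_, rfl⟩
  have hA20 : 0 ≤ A2 := by rw [hA2]; exact tsum_nonneg fun _ => by positivity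
  have h1ρ : 0 < (1 - ρ)⁻¹ := inv_pos.mpr (by linarith)
  refine ⟨(1 - ρ)⁻¹ * (A2 + 1), by positivity, fun K hK => ?_⟩
  have hK' : (0 : ℝ) < K := by exact_mod_cast hK
  have h1 : ∀ p ∈ GkT K, (1 : ℝ) / p.2 ≤ (K : ℝ) ^ δ * (ρ ^ p.1 * (1 / (p.2 : ℝ) ^ (1 + 2 * δ))) := by
    intro p hp
    unfold GkT at hp
    rw [Finset.mem_filter, Finset.mem_product, Finset.mem_range, Finset.mem_Icc] at hp
    obtain ⟨⟨h2, h3, h4⟩, h5⟩ := hp
    have hr : (0 : ℝ) < p.2 := by exact_mod_cast h3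
    have h6 : (2 : ℝ) ^ p.1 * (p.2 : ℝ) ^ 2 ≤ K := by exact_mod_cast h5
    have h7 : ((2 : ℝ) ^ p.1 * (p.2 : ℝ) ^ 2) ^ δ ≤ (K : ℝ) ^ δ :=
      Real.rpow_le_rpow (by positivity) h6 hδ.le
    have h8 : ((2 : ℝ) ^ p.1 * (p.2 : ℝ) ^ 2) ^ δ * (ρ ^ p.1 * (1 / (p.2 : ℝ) ^ (1 + 2 * δ))) =
        1 / (p.2 : ℝ) := by
      rw [Real.mul_rpow (by positivity) (by positivity), hρ]
      have e1 : ((2 : ℝ) ^ p.1) ^ δ * ((2 : ℝ) ^ (-δ)) ^ p.1 = 1 := by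
        rw [← Real.rpow_natCast (2 : ℝ) p.1, ← Real.rpow_mul (by norm_num),
          ← Real.rpow_natCast ((2 : ℝ) ^ (-δ)) p.1, ← Real.rpow_mul (by norm_num),
          ← Real.rpow_add (by norm_num)]
        ring_nf
        simp
      have e2 : ((p.2 : ℝ) ^ 2) ^ δ = (p.2 : ℝ) ^ (2 * δ) := by
        rw [← Real.rpow_natCast (p.2 : ℝ) 2, ← Real.rpow_mul hr.le]
        norm_num
      have e3 : (p.2 : ℝ) ^ (1 + 2 * δ) = p.2 * (p.2 : ℝ) ^ (2 * δ) := by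
        rw [Real.rpow_add hr, Real.rpow_one]
      have h9 : 0 < (p.2 : ℝ) ^ (2 * δ) := Real.rpow_pos_of_pos hr _
      calc ((2 : ℝ) ^ p.1) ^ δ * ((p.2 : ℝ) ^ 2) ^ δ *
            (((2 : ℝ) ^ (-δ)) ^ p.1 * (1 / (p.2 : ℝ) ^ (1 + 2 * δ)))
          = (((2 : ℝ) ^ p.1) ^ δ * ((2 : ℝ) ^ (-δ)) ^ p.1) *
            (((p.2 : ℝ) ^ 2) ^ δ * (1 / (p.2 : ℝ) ^ (1 + 2 * δ))) := by ring
        _ = 1 / (p.2 : ℝ) := by
          rw [e1, e2, e3]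
          field_simp
    rw [← h8]
    exact mul_le_mul_of_nonneg_right h7 (by positivity)
  refine (Finset.sum_le_sum h1).trans ?_
  rw [← Finset.mul_sum, mul_comm]
  refine mul_le_mul_of_nonneg_right ?_ (by positivity)
  have h2 : ∑ p ∈ GkT K, ρ ^ p.1 * (1 / (p.2 : ℝ) ^ (1 + 2 * δ)) ≤
      ∑ p ∈ Finset.range (K + 1) ×ˢ Finset.Icc 1 K, ρ ^ p.1 * (1 / (p.2 : ℝ) ^ (1 + 2 * δ)) := by
    apply Finset.sum_le_sum_of_subset_of_nonneg (Finset.filter_subset _ _)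
    intro _ _ _
    positivity
  have h3 : ∑ p ∈ Finset.range (K + 1) ×ˢ Finset.Icc 1 K,
      ρ ^ p.1 * (1 / (p.2 : ℝ) ^ (1 + 2 * δ)) =
      (∑ b ∈ Finset.range (K + 1), ρ ^ b) * ∑ r ∈ Finset.Icc 1 K, 1 / (r : ℝ) ^ (1 + 2 * δ) := by
    rw [Finset.sum_mul_sum, Finset.sum_product]
  have h4 : ∑ b ∈ Finset.range (K + 1), ρ ^ b ≤ (1 - ρ)⁻¹ :=
    sum_le_hasSum (Finset.range (K + 1)) (fun i _ => by positivity)
      (hasSum_geometric_of_lt_one hρ0.le hρ1)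
  have h5 : ∑ r ∈ Finset.Icc 1 K, 1 / (r : ℝ) ^ (1 + 2 * δ) ≤ A2 + 1 := by
    rw [hA2]
    have := hsum.sum_le_tsum (Finset.Icc 1 K) (fun i _ => by positivity)
    linarith
  rw [h3] at h2
  exact h2.trans (mul_le_mul h4 h5 (Finset.sum_nonneg fun _ _ => by positivity) h1ρ.le)

theorem cauchy (K : ℕ) (z : ℕ × ℕ → ℂ) :
    ‖∑ p ∈ GkT K, z p‖ ^ 2 ≤ (∑ p ∈ GkT K, (1 : ℝ) / p.2) * ∑ p ∈ GkT K, (p.2 : ℝ) * ‖z p‖ ^ 2 := by
  have h1 : ‖∑ p ∈ GkT K, z p‖ ^ 2 ≤ (∑ p ∈ GkT K, ‖z p‖) ^ 2 :=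
    pow_le_pow_left₀ (norm_nonneg _) (norm_sum_le _ _) 2
  refine h1.trans (Finset.sum_sq_le_sum_mul_sum_of_sq_le_mul _ (fun _ _ => by positivity)
    (fun _ _ => by positivity) fun p hp => ?_)
  unfold GkT at hp
  rw [Finset.mem_filter, Finset.mem_product, Finset.mem_range, Finset.mem_Icc] at hp
  have hr : (0 : ℝ) < p.2 := by exact_mod_cast hp.1.2.1
  refine le_of_eq ?_
  field_simp

theorem wq_ge (n r : ℕ) (hn : 1 ≤ n) (hr : 1 ≤ r) (h : r ^ 2 ∣ n) : (r : ℝ) ≤ wq n := by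
  unfold wq
  have h1 : r ∈ (Finset.Icc 1 n).filter (fun m => m ^ 2 ∣ n) := by
    rw [Finset.mem_filter, Finset.mem_Icc]
    have h2 := Nat.le_of_dvd hn h
    exact ⟨⟨hr, by nlinarith⟩, h⟩
  exact Finset.single_le_sum (f := fun m : ℕ => (m : ℝ)) (fun _ _ => Nat.cast_nonneg _) h1

end Hbgaux

open Hbgaux in
theorem t_HBG : S_HBG := by
  classical
  intro ε hε
  obtain ⟨C1, hC1, H⟩ := HBLS (ε / 2) (by positivity)
  obtain ⟨A0, hA0, hA⟩ := sum_inv (ε / 2) (by positivity)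
  refine ⟨16 * A0 * C1 * 2 ^ (ε / 2), by positivity, fun s X K y hs hX hK => ?_⟩
  -- the classification
  have hcl : ∀ q : ℕ, ∃ (i : Fin 8) (d : ℕ), Is s q → Squarefree d ∧ q = (gkFam i).r * d ∧
      ∀ n : ℕ, n ≠ 0 → vl s q n = ((cf (gkFam i) d n : ℝ) : ℂ) := by
    intro q
    by_cases hq : Is s q
    · have h1 : Rp s (ch s q) := by
        unfold ch
        rw [dif_pos hq]
        exact hq.2.choose_spec
      obtain ⟨φ, d, h2, -, h3, h4, h5⟩ := CLS q (by have := hq.1; omega) (ch s q) h1.1 h1.2.1 h1.2.2.1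
      obtain ⟨i, rfl⟩ := gkFam_of h2
      exact ⟨i, d, fun _ => ⟨h3, h4, h5⟩⟩
    · exact ⟨0, 0, fun h => absurd h hq⟩
  choose ii dd hdd using hcl
  obtain ⟨M, hM⟩ : ∃ M : ℕ, M = ⌈X⌉₊ := ⟨_, rfl⟩
  have hMX : X ≤ M := by rw [hM]; exact Nat.le_ceil X
  have hM2 : (M : ℝ) ≤ 2 * X := by
    have := Nat.ceil_lt_add_one (a := X) (by linarith)
    rw [hM]
    linarith
  have hM1 : 1 ≤ M := by
    have : (1 : ℝ) ≤ M := hX.trans hMX
    exact_mod_cast this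
  have hQ : ∀ q ∈ Q s X, Is s q ∧ q < M := by
    intro q hq
    unfold Q at hq
    rw [Finset.mem_filter, Finset.mem_Ico] at hq
    exact ⟨hq.2, by rw [hM]; exact hq.1.2⟩
  have hK1 : (1 : ℝ) ≤ K := by exact_mod_cast hK
  obtain ⟨g, hg⟩ := exists_g K
  obtain ⟨a, ha⟩ : ∃ a : (_ : ℕ × ℕ) × ℕ → ℂ, a = fun x =>
      if x ∈ (Finset.Icc 1 K).image g then y (nx x) else 0 := ⟨_, rfl⟩
  have ha0 : ∀ x, x ∉ (Finset.Icc 1 K).image g → a x = 0 := by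
    intro x hx
    rw [ha]
    exact if_neg hx
  have hag : ∀ n ∈ Finset.Icc 1 K, a (g n) = y n := by
    intro n hn
    rw [ha]
    simp only
    rw [if_pos (Finset.mem_image_of_mem g hn)]
    rw [Finset.mem_Icc] at hn
    rw [(hg n hn.1 hn.2).2.2]
  have hodd : ∀ (p : ℕ × ℕ) (m : ℕ), ¬ Odd p.2 → a ⟨p, m⟩ = 0 := by
    intro p m hp
    apply ha0
    intro hx
    obtain ⟨n, hn, e⟩ := Finset.mem_image.1 hx
    rw [Finset.mem_Icc] at hn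
    have := (hg n hn.1 hn.2).2.1
    rw [e] at this
    exact hp this
  obtain ⟨Bm, hBm⟩ : ∃ Bm : ℝ, Bm = 16 * C1 * (2 ^ (ε / 2) * (X * K) ^ (ε / 2)) * (X + K) := ⟨_, rfl⟩
  have hBm0 : 0 ≤ Bm := by rw [hBm]; positivity
  -- one pair
  have hone : ∀ p ∈ GkT K, ∑ q ∈ Q s X, ‖∑ m ∈ osf (K / (2 ^ p.1 * p.2 ^ 2)),
      vl s q (nx ⟨p, m⟩) * a ⟨p, m⟩‖ ^ 2 ≤
      Bm * ∑ m ∈ osf (K / (2 ^ p.1 * p.2 ^ 2)), ‖a ⟨p, m⟩‖ ^ 2 := by
    intro p hp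
    by_cases ho : Odd p.2
    · unfold GkT at hp
      rw [Finset.mem_filter, Finset.mem_product, Finset.mem_range, Finset.mem_Icc] at hp
      obtain ⟨⟨h1, h2, h3⟩, h4⟩ := hp
      obtain ⟨N, hN⟩ : ∃ N : ℕ, N = K / (2 ^ p.1 * p.2 ^ 2) := ⟨_, rfl⟩
      have hpos : 0 < 2 ^ p.1 * p.2 ^ 2 := by positivity
      have hN1 : 1 ≤ N := by
        rw [hN, Nat.one_le_div_iff hpos]
        exact h4
      have hNK' : (N : ℝ) ≤ K := by
        rw [hN]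
        exact_mod_cast Nat.div_le_self _ _
      rw [← hN]
      obtain ⟨B, hB⟩ : ∃ B : ℝ, B = C1 * ((M : ℝ) * N) ^ (ε / 2) * (M + N) := ⟨_, rfl⟩
      have hB0 : 0 ≤ B := by rw [hB]; positivity
      have hL : LSB M N B := by rw [hB]; exact H M N hM1 hN1
      have hBle : 8 * B ≤ Bm := by
        rw [hB, hBm]
        have h5 : ((M : ℝ) * N) ^ (ε / 2) ≤ 2 ^ (ε / 2) * (X * K) ^ (ε / 2) := by
          rw [← Real.mul_rpow (by norm_num) (by positivity)]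
          apply Real.rpow_le_rpow (by positivity) _ (by positivity)
          calc (M : ℝ) * N ≤ (2 * X) * K := mul_le_mul hM2 hNK' (by positivity) (by positivity)
            _ = 2 * (X * K) := by ring
        have h6 : (M : ℝ) + N ≤ 2 * (X + K) := by linarith
        calc 8 * (C1 * ((M : ℝ) * N) ^ (ε / 2) * (M + N)) ≤
            8 * (C1 * (2 ^ (ε / 2) * (X * K) ^ (ε / 2)) * (2 * (X + K))) := by gcongr
          _ = _ := by ring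
      have e : ∑ q ∈ Q s X, ‖∑ m ∈ osf N, vl s q (nx ⟨p, m⟩) * a ⟨p, m⟩‖ ^ 2 =
          ∑ i : Fin 8, ∑ q ∈ (Q s X).filter (fun q => ii q = i), ‖∑ m ∈ osf N,
            ((cf (gkFam i) (dd q) (2 ^ p.1 * (m * p.2 ^ 2)) : ℝ) : ℂ) * a ⟨p, m⟩‖ ^ 2 := by
        rw [← Finset.sum_fiberwise (Q s X) ii]
        refine Finset.sum_congr rfl fun i _ => Finset.sum_congr rfl fun q hq => ?_
        rw [Finset.mem_filter] at hq
        congr 2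
        refine Finset.sum_congr rfl fun m hm => ?_
        have hn0 : nx ⟨p, m⟩ ≠ 0 := by
          unfold osf at hm
          rw [Finset.mem_filter, Finset.mem_Icc] at hm
          have : 0 < m := hm.1.1
          unfold nx
          positivity
        rw [(hdd q (hQ q hq.1).1).2.2 _ hn0, hq.2]
        rfl
      rw [e]
      have h6 : ∀ i : Fin 8, ∑ q ∈ (Q s X).filter (fun q => ii q = i), ‖∑ m ∈ osf N,
            ((cf (gkFam i) (dd q) (2 ^ p.1 * (m * p.2 ^ 2)) : ℝ) : ℂ) * a ⟨p, m⟩‖ ^ 2 ≤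
          B * ∑ m ∈ osf N, ‖a ⟨p, m⟩‖ ^ 2 := by
        intro i
        apply fix hB0 hL (gkFam i) (gkFam_eta i) _ dd _ _ (fun m => a ⟨p, m⟩) p.1 p.2 ho
        · intro q hq
          rw [Finset.mem_filter] at hq
          obtain ⟨g1, g2⟩ := hQ q hq.1
          obtain ⟨g3, g4, -⟩ := hdd q g1
          unfold sqf
          rw [Finset.mem_filter, Finset.mem_Icc]
          have g5 : dd q ≠ 0 := g3.ne_zero
          have g6 : dd q ≤ (gkFam (ii q)).r * dd q := Nat.le_mul_of_pos_left _ (gkFam_r _)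
          exact ⟨⟨by omega, by omega⟩, g3⟩
        · intro q hq q' hq' h
          rw [Finset.mem_filter] at hq hq'
          rw [(hdd q (hQ q hq.1).1).2.1, (hdd q' (hQ q' hq'.1).1).2.1, hq.2, hq'.2, h]
      refine (Finset.sum_le_sum fun i _ => h6 i).trans ?_
      rw [Finset.sum_const, Finset.card_univ, Fintype.card_fin, nsmul_eq_mul, ← mul_assoc]
      refine mul_le_mul_of_nonneg_right ?_ (Finset.sum_nonneg fun _ _ => by positivity)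
      exact_mod_cast hBle
    · have h1 : ∀ m, a ⟨p, m⟩ = 0 := fun m => hodd p m ho
      simp [h1]
  -- the decomposition
  have hdec : ∀ q, ∑ n ∈ Finset.Icc 1 K, vl s q n * y n =
      ∑ p ∈ GkT K, ∑ m ∈ osf (K / (2 ^ p.1 * p.2 ^ 2)), vl s q (nx ⟨p, m⟩) * a ⟨p, m⟩ := by
    intro q
    rw [← sum_g hg (fun x => vl s q (nx x) * a x) (fun x hx => by rw [ha0 x hx, mul_zero])]
    refine Finset.sum_congr rfl fun n hn => ?_
    rw [hag n hn]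
    rw [Finset.mem_Icc] at hn
    rw [(hg n hn.1 hn.2).2.2]
  have hdec2 : ∑ p ∈ GkT K, (p.2 : ℝ) * ∑ m ∈ osf (K / (2 ^ p.1 * p.2 ^ 2)), ‖a ⟨p, m⟩‖ ^ 2 ≤
      ∑ n ∈ Finset.Icc 1 K, wq n * ‖y n‖ ^ 2 := by
    simp only [Finset.mul_sum]
    rw [← sum_g hg (fun x => (x.1.2 : ℝ) * ‖a x‖ ^ 2) (fun x hx => by rw [ha0 x hx]; simp)]
    refine Finset.sum_le_sum fun n hn => ?_
    rw [hag n hn]
    rw [Finset.mem_Icc] at hn
    obtain ⟨-, h2, h3⟩ := hg n hn.1 hn.2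
    refine mul_le_mul_of_nonneg_right (wq_ge n _ hn.1 h2.pos ?_) (by positivity)
    refine ⟨2 ^ (g n).1.1 * (g n).2, ?_⟩
    conv_lhs => rw [← h3]
    unfold nx
    ring
  have hstep : ∀ q ∈ Q s X, ‖∑ n ∈ Finset.Icc 1 K, vl s q n * y n‖ ^ 2 ≤
      (A0 * (K : ℝ) ^ (ε / 2)) * ∑ p ∈ GkT K, (p.2 : ℝ) *
        ‖∑ m ∈ osf (K / (2 ^ p.1 * p.2 ^ 2)), vl s q (nx ⟨p, m⟩) * a ⟨p, m⟩‖ ^ 2 := by
    intro q _
    rw [hdec q]
    refine (cauchy K _).trans (mul_le_mul_of_nonneg_right (hA K hK) ?_)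
    exact Finset.sum_nonneg fun _ _ => by positivity
  refine (Finset.sum_le_sum hstep).trans ?_
  rw [← Finset.mul_sum, Finset.sum_comm]
  have h7 : ∑ p ∈ GkT K, ∑ q ∈ Q s X, (p.2 : ℝ) *
        ‖∑ m ∈ osf (K / (2 ^ p.1 * p.2 ^ 2)), vl s q (nx ⟨p, m⟩) * a ⟨p, m⟩‖ ^ 2 ≤
      Bm * ∑ n ∈ Finset.Icc 1 K, wq n * ‖y n‖ ^ 2 := by
    refine le_trans ?_ (mul_le_mul_of_nonneg_left hdec2 hBm0)
    rw [Finset.mul_sum]
    refine Finset.sum_le_sum fun p hp => ?_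
    rw [← Finset.mul_sum]
    calc (p.2 : ℝ) * ∑ q ∈ Q s X, ‖∑ m ∈ osf (K / (2 ^ p.1 * p.2 ^ 2)),
          vl s q (nx ⟨p, m⟩) * a ⟨p, m⟩‖ ^ 2 ≤
          (p.2 : ℝ) * (Bm * ∑ m ∈ osf (K / (2 ^ p.1 * p.2 ^ 2)), ‖a ⟨p, m⟩‖ ^ 2) :=
          mul_le_mul_of_nonneg_left (hone p hp) (Nat.cast_nonneg _)
      _ = _ := by ring
  have hKX : (K : ℝ) ^ (ε / 2) ≤ (X * K) ^ (ε / 2) :=
    Real.rpow_le_rpow (by positivity) (by nlinarith) (by positivity)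
  have hS0 : 0 ≤ ∑ n ∈ Finset.Icc 1 K, wq n * ‖y n‖ ^ 2 := by
    refine Finset.sum_nonneg fun n _ => mul_nonneg ?_ (by positivity)
    exact Finset.sum_nonneg fun _ _ => Nat.cast_nonneg _
  have hsplit : (X * K : ℝ) ^ ε = (X * K) ^ (ε / 2) * (X * K) ^ (ε / 2) := by
    rw [← Real.rpow_add (by positivity)]
    congr 1
    ring
  calc (A0 * (K : ℝ) ^ (ε / 2)) * _ ≤ (A0 * (X * K : ℝ) ^ (ε / 2)) *
        (Bm * ∑ n ∈ Finset.Icc 1 K, wq n * ‖y n‖ ^ 2) := by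
        refine mul_le_mul (mul_le_mul_of_nonneg_left hKX hA0.le) h7 ?_ (by positivity)
        exact Finset.sum_nonneg fun _ _ => Finset.sum_nonneg fun _ _ => by positivity
    _ = _ := by
        rw [hsplit, hBm]
        ring

end

end Pool.Agent.N879.QM
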