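import Pool.Agent.H27.G.R_pool_sql_team_seeded_63374d34.N879.QM.Stm2

set_option autoImplicit false

/-! QM2/MID (helper56): pieces of middle length. -/

namespace Pool.Agent.N879.QM

open Complex Filter Topology MeasureTheory Set
open scoped BigOperators

namespace Midaux

theorem dual {α β : Type} (S : Finset α) (T : Finset β) (k : α → β → ℂ) {B : ℝ} (hB : 0 ≤ B)
    (h : ∀ a : β → ℂ, ∑ s ∈ S, ‖∑ t ∈ T, a t * k s t‖ ^ 2 ≤ B * ∑ t ∈ T, ‖a t‖ ^ 2) (b : α → ℂ) :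
    ∑ t ∈ T, ‖∑ s ∈ S, b s * k s t‖ ^ 2 ≤ B * ∑ s ∈ S, ‖b s‖ ^ 2 := by
  obtain ⟨z, hz⟩ : ∃ z : β → ℂ, z = fun t => ∑ s ∈ S, b s * k s t := ⟨_, rfl⟩
  obtain ⟨w, hw⟩ : ∃ w : α → ℂ, w = fun s => ∑ t ∈ T, (starRingEnd ℂ) (z t) * k s t := ⟨_, rfl⟩
  have h1 := h fun t => (starRingEnd ℂ) (z t)
  simp only [RCLike.norm_conj] at h1
  have e1 : ((∑ t ∈ T, ‖z t‖ ^ 2 : ℝ) : ℂ) = ∑ s ∈ S, b s * w s := by
    rw [hw]
    push_cast
    simp only [Finset.mul_sum]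
    rw [Finset.sum_comm]
    refine Finset.sum_congr rfl fun t _ => ?_
    rw [← Complex.conj_mul']
    conv_lhs => rw [hz]
    rw [Finset.mul_sum]
    refine Finset.sum_congr rfl fun s _ => ?_
    rw [hz]
    ring
  have h2 : ∑ t ∈ T, ‖z t‖ ^ 2 ≤ ∑ s ∈ S, ‖b s‖ * ‖w s‖ := by
    have h3 : ‖((∑ t ∈ T, ‖z t‖ ^ 2 : ℝ) : ℂ)‖ ≤ ∑ s ∈ S, ‖b s‖ * ‖w s‖ := by
      rw [e1]
      refine (norm_sum_le _ _).trans (Finset.sum_le_sum fun s _ => ?_)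
      rw [norm_mul]
    rw [Complex.norm_real, Real.norm_eq_abs] at h3
    exact (le_abs_self _).trans h3
  have h0 : 0 ≤ ∑ t ∈ T, ‖z t‖ ^ 2 := Finset.sum_nonneg fun _ _ => by positivity
  have hb0 : 0 ≤ ∑ s ∈ S, ‖b s‖ ^ 2 := Finset.sum_nonneg fun _ _ => by positivity
  have h4 : (∑ t ∈ T, ‖z t‖ ^ 2) ^ 2 ≤ (∑ s ∈ S, ‖b s‖ ^ 2) * (B * ∑ t ∈ T, ‖z t‖ ^ 2) := by
    calc (∑ t ∈ T, ‖z t‖ ^ 2) ^ 2 ≤ (∑ s ∈ S, ‖b s‖ * ‖w s‖) ^ 2 := pow_le_pow_left₀ h0 h2 2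
      _ ≤ (∑ s ∈ S, ‖b s‖ ^ 2) * ∑ s ∈ S, ‖w s‖ ^ 2 := Finset.sum_mul_sq_le_sq_mul_sq _ _ _
      _ ≤ _ := by
        apply mul_le_mul_of_nonneg_left _ hb0
        rw [hw]
        exact h1
  have h5 : ∑ t ∈ T, ‖z t‖ ^ 2 ≤ B * ∑ s ∈ S, ‖b s‖ ^ 2 := by
    rcases eq_or_lt_of_le h0 with h6 | h6
    · rw [← h6]
      positivity
    · have h7 : (∑ t ∈ T, ‖z t‖ ^ 2) * (∑ t ∈ T, ‖z t‖ ^ 2) ≤
          (B * ∑ s ∈ S, ‖b s‖ ^ 2) * (∑ t ∈ T, ‖z t‖ ^ 2) := by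
        calc _ = (∑ t ∈ T, ‖z t‖ ^ 2) ^ 2 := by ring
          _ ≤ _ := h4
          _ = _ := by ring
      exact le_of_mul_le_mul_right h7 h6
  rw [hz] at h5
  exact h5

lemma exH (A : ℝ) (K : ℕ) (hA : 2 ≤ A) (hAK : A ≤ K) :
    ∃ H : ℕ, 1 ≤ H ∧ (K : ℝ) / A ≤ H ∧ (H : ℝ) ≤ 2 * K / A := by
  have hApos : 0 < A := by linarith
  have h1 : 1 ≤ (K : ℝ) / A := by rw [le_div_iff₀ hApos]; linarith
  have h2 := Nat.ceil_lt_add_one (zero_le_one.trans h1)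
  have h3 := Nat.le_ceil ((K : ℝ) / A)
  refine ⟨⌈(K : ℝ) / A⌉₊, ?_, h3, ?_⟩
  · exact_mod_cast h1.trans h3
  · rw [mul_div_assoc]
    linarith

lemma wq_nonneg (n : ℕ) : 0 ≤ wq n := by
  unfold wq
  exact Finset.sum_nonneg fun _ _ => Nat.cast_nonneg _

/-- the sum over the window -/
lemma win {M : Type*} [AddCommMonoid M] (K x t : ℕ) (f : ℕ → M) :
    ∑ n ∈ (Finset.Ioc x (x + t)) ∩ (Finset.Ioc K (2 * K)), f n =
      ∑ n ∈ Finset.Icc 1 (2 * K), if K < n ∧ x < n ∧ n ≤ x + t then f n else 0 := by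
  rw [← Finset.sum_filter]
  refine Finset.sum_congr ?_ fun _ _ => rfl
  ext n
  simp only [Finset.mem_inter, Finset.mem_Ioc, Finset.mem_filter, Finset.mem_Icc]
  omega

/-- the coefficients of the dual sum -/
noncomputable def Yc (K t : ℕ) (y : ℕ → ℂ) (n : ℕ) : ℂ :=
  ∑ x ∈ Finset.range (2 * K + 1), if x < n ∧ n ≤ x + t then y x else 0

lemma Yc_sq (K t : ℕ) (y : ℕ → ℂ) (n : ℕ) :
    ‖Yc K t y n‖ ^ 2 ≤
      t * ∑ x ∈ Finset.range (2 * K + 1), if x < n ∧ n ≤ x + t then ‖y x‖ ^ 2 else 0 := by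
  unfold Yc
  rw [← Finset.sum_filter, ← Finset.sum_filter]
  set F := (Finset.range (2 * K + 1)).filter (fun x => x < n ∧ n ≤ x + t) with hF
  have hc : F.card ≤ t := by
    have h1 : F ⊆ Finset.Ico (n - t) n := by
      intro x hx
      obtain ⟨-, h2, h3⟩ := Finset.mem_filter.1 hx
      rw [Finset.mem_Ico]
      omega
    have h2 := Finset.card_le_card h1
    rw [Nat.card_Ico] at h2
    omega
  have h1 : ‖∑ x ∈ F, y x‖ ≤ ∑ x ∈ F, ‖y x‖ := norm_sum_le _ _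
  have h2 := sq_sum_le_card_mul_sum_sq (s := F) (f := fun x => ‖y x‖)
  calc ‖∑ x ∈ F, y x‖ ^ 2 ≤ (∑ x ∈ F, ‖y x‖) ^ 2 := pow_le_pow_left₀ (norm_nonneg _) h1 2
    _ ≤ F.card * ∑ x ∈ F, ‖y x‖ ^ 2 := h2
    _ ≤ t * ∑ x ∈ F, ‖y x‖ ^ 2 := by
      refine mul_le_mul_of_nonneg_right (by exact_mod_cast hc) ?_
      exact Finset.sum_nonneg fun _ _ => by positivity

lemma e1 (s : ℤ) (q K t : ℕ) (y : ℕ → ℂ) :
    ∑ x ∈ Finset.range (2 * K + 1), y x *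
      ∑ n ∈ (Finset.Ioc x (x + t)) ∩ (Finset.Ioc K (2 * K)), vl s q n =
    ∑ n ∈ Finset.Icc 1 (2 * K), vl s q n * (if K < n then Yc K t y n else 0) := by
  simp only [win, Finset.mul_sum]
  rw [Finset.sum_comm]
  refine Finset.sum_congr rfl fun n _ => ?_
  by_cases hn : K < n
  · rw [if_pos hn]
    unfold Yc
    rw [Finset.mul_sum]
    refine Finset.sum_congr rfl fun x _ => ?_
    by_cases hx : x < n ∧ n ≤ x + t
    · rw [if_pos ⟨hn, hx⟩, if_pos hx, mul_comm]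
    · rw [if_neg (fun h => hx h.2), if_neg hx, mul_zero, mul_zero]
  · rw [if_neg hn, mul_zero]
    refine Finset.sum_eq_zero fun x _ => ?_
    rw [if_neg (fun h => hn h.1), mul_zero]

lemma e2 (K t : ℕ) (y : ℕ → ℂ) (L : ℝ)
    (hL : ∀ x ≤ 2 * K, ∑ n ∈ (Finset.Ioc x (x + t)) ∩ (Finset.Ioc K (2 * K)), wq n ≤ L) :
    ∑ n ∈ Finset.Icc 1 (2 * K), wq n * ‖(if K < n then Yc K t y n else 0)‖ ^ 2 ≤
      t * L * ∑ x ∈ Finset.range (2 * K + 1), ‖y x‖ ^ 2 := by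
  have h1 : ∀ n ∈ Finset.Icc 1 (2 * K), wq n * ‖(if K < n then Yc K t y n else 0)‖ ^ 2 ≤
      ∑ x ∈ Finset.range (2 * K + 1), t * ‖y x‖ ^ 2 *
        (if K < n ∧ x < n ∧ n ≤ x + t then wq n else 0) := by
    intro n _
    by_cases hn : K < n
    · rw [if_pos hn]
      refine (mul_le_mul_of_nonneg_left (Yc_sq K t y n) (wq_nonneg n)).trans (le_of_eq ?_)
      rw [← mul_assoc, Finset.mul_sum]
      refine Finset.sum_congr rfl fun x _ => ?_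
      by_cases hx : x < n ∧ n ≤ x + t
      · rw [if_pos hx, if_pos ⟨hn, hx⟩]
        ring
      · rw [if_neg hx, if_neg (fun h => hx h.2), mul_zero, mul_zero]
    · rw [if_neg hn, norm_zero]
      refine le_trans (by simp) (Finset.sum_nonneg fun x _ => ?_)
      refine mul_nonneg (by positivity) ?_
      split_ifs
      · exact wq_nonneg n
      · exact le_rfl
  refine (Finset.sum_le_sum h1).trans ?_
  rw [Finset.sum_comm, Finset.mul_sum]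
  refine Finset.sum_le_sum fun x hx => ?_
  rw [← Finset.mul_sum, ← win K x t wq]
  have h2 := hL x (by rw [Finset.mem_range] at hx; omega)
  calc (t : ℝ) * ‖y x‖ ^ 2 * ∑ n ∈ (Finset.Ioc x (x + t)) ∩ (Finset.Ioc K (2 * K)), wq n
      ≤ t * ‖y x‖ ^ 2 * L := mul_le_mul_of_nonneg_left h2 (by positivity)
    _ = t * L * ‖y x‖ ^ 2 := by ring

theorem key {C2 C3 e : ℝ} (hC2 : 0 < C2) (hC3 : 0 < C3) (he : 0 < e)
    (h2 : ∀ (s : ℤ) (X : ℝ) (K : ℕ) (y : ℕ → ℂ), s = 1 ∨ s = -1 → 1 ≤ X → 1 ≤ K →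
      ∑ q ∈ Q s X, ‖∑ n ∈ Finset.Icc 1 K, vl s q n * y n‖ ^ 2 ≤
        C2 * (X * K) ^ e * (X + K) * ∑ n ∈ Finset.Icc 1 K, wq n * ‖y n‖ ^ 2)
    (h3 : ∀ (K x t : ℕ), 1 ≤ K → 1 ≤ t → t ≤ K → x ≤ 2 * K →
      ∑ n ∈ (Finset.Ioc x (x + t)) ∩ (Finset.Ioc K (2 * K)), wq n ≤
        C3 * (K : ℝ) ^ e * (t + (K : ℝ) ^ (2 / 3 : ℝ)))
    (s : ℤ) (hs : s = 1 ∨ s = -1) (X : ℝ) (hX : 1 ≤ X) (K t : ℕ) (hK : 1 ≤ K) (ht : 1 ≤ t)
    (htK : t ≤ K) (y : ℕ → ℂ) :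
    ∑ q ∈ Q s X, ‖∑ x ∈ Finset.range (2 * K + 1), y x *
      ∑ n ∈ (Finset.Ioc x (x + t)) ∩ (Finset.Ioc K (2 * K)), vl s q n‖ ^ 2 ≤
    ((2 ^ e * 2 * C2 * C3) * (X * K) ^ (2 * e) * (X + K) * t * (t + (K : ℝ) ^ (2 / 3 : ℝ))) *
      ∑ x ∈ Finset.range (2 * K + 1), ‖y x‖ ^ 2 := by
  have hK0 : (0 : ℝ) < K := by exact_mod_cast hK
  have hX0 : (0 : ℝ) < X := by linarith
  have hP : (0 : ℝ) ≤ ∑ x ∈ Finset.range (2 * K + 1), ‖y x‖ ^ 2 :=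
    Finset.sum_nonneg fun _ _ => by positivity
  simp only [e1]
  refine (h2 s X (2 * K) (fun n => if K < n then Yc K t y n else 0) hs hX (by omega)).trans ?_
  have g1 := e2 K t y (C3 * (K : ℝ) ^ e * (t + (K : ℝ) ^ (2 / 3 : ℝ)))
    fun x hx => h3 K x t hK ht htK hx
  have g2 : (X * ((2 * K : ℕ) : ℝ)) ^ e = 2 ^ e * (X * K) ^ e := by
    rw [← Real.mul_rpow (by norm_num) (by positivity)]
    congr 1
    push_cast
    ring
  have g3 : X + ((2 * K : ℕ) : ℝ) ≤ 2 * (X + K) := by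
    push_cast
    linarith
  have g4 : (K : ℝ) ^ e ≤ (X * K) ^ e := by
    refine Real.rpow_le_rpow hK0.le ?_ he.le
    nlinarith
  have g5 : (X * K : ℝ) ^ (2 * e) = (X * K) ^ e * (X * K) ^ e := by
    rw [two_mul, Real.rpow_add (by positivity)]
  rw [g2, g5]
  calc C2 * (2 ^ e * (X * K) ^ e) * (X + ((2 * K : ℕ) : ℝ)) *
        ∑ n ∈ Finset.Icc 1 (2 * K), wq n * ‖(if K < n then Yc K t y n else 0)‖ ^ 2
      ≤ C2 * (2 ^ e * (X * K) ^ e) * (2 * (X + K)) *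
        (t * (C3 * (X * K : ℝ) ^ e * (t + (K : ℝ) ^ (2 / 3 : ℝ))) *
          ∑ x ∈ Finset.range (2 * K + 1), ‖y x‖ ^ 2) := by
        have g6 : ∑ n ∈ Finset.Icc 1 (2 * K), wq n * ‖(if K < n then Yc K t y n else 0)‖ ^ 2 ≤
            (t * (C3 * (X * K : ℝ) ^ e * (t + (K : ℝ) ^ (2 / 3 : ℝ))) *
              ∑ x ∈ Finset.range (2 * K + 1), ‖y x‖ ^ 2) := by
          refine g1.trans ?_
          gcongr
        have g7 : 0 ≤ ∑ n ∈ Finset.Icc 1 (2 * K),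
            wq n * ‖(if K < n then Yc K t y n else 0)‖ ^ 2 :=
          Finset.sum_nonneg fun n _ => mul_nonneg (wq_nonneg n) (by positivity)
        refine mul_le_mul ?_ g6 g7 (by positivity)
        exact mul_le_mul_of_nonneg_left g3 (by positivity)
    _ = _ := by ring

end Midaux

open Midaux

theorem t_MID (h1 : S_BLK) (h2 : S_HBG) (h3 : S_WQ) : S_MID := by
  intro ε hε
  have he : 0 < ε / 2 := by linarith
  obtain ⟨C1, hC1, h1⟩ := h1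
  obtain ⟨C2, hC2, h2⟩ := h2 (ε / 2) he
  obtain ⟨C3, hC3, h3⟩ := h3 (ε / 2) he
  refine ⟨2 * C1 * (2 ^ (ε / 2) * 2 * C2 * C3), by positivity,
    fun s X A K c hs hX hA hAK => ?_⟩
  have hApos : 0 < A := by linarith
  have hKpos : (0 : ℝ) < K := by linarith
  have hK1 : 1 ≤ K := by exact_mod_cast hKpos
  have hX0 : (0 : ℝ) < X := by linarith
  obtain ⟨H, hH1, hH2, hH3⟩ := exH A K hA hAK
  have hHpos : (0 : ℝ) < H := by exact_mod_cast hH1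
  have hHK : H ≤ K := by
    have : (H : ℝ) ≤ K := by
      refine hH3.trans ?_
      rw [div_le_iff₀ hApos]
      nlinarith
    exact_mod_cast this
  set S : ℝ := ∑ q ∈ Q s X, ‖c q‖ ^ 2 with hS
  have hS0 : 0 ≤ S := Finset.sum_nonneg fun _ _ => by positivity
  set a : ℕ → ℂ := fun n => ∑ q ∈ Q s X, c q * vl s q n with ha
  set L : ℝ := (2 ^ (ε / 2) * 2 * C2 * C3) * (X * K) ^ (2 * (ε / 2)) * (X + K) with hL
  have hL0 : 0 ≤ L := by positivity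
  set B : ℝ := L * H * (H + (K : ℝ) ^ (2 / 3 : ℝ)) * S with hB
  have hB0 : 0 ≤ B := by positivity
  have hmain := h1 a K H A B hA hAK hH1 hH2 hH3 (fun t ht => by
    rcases Nat.eq_zero_or_pos t with ht0 | ht0
    · subst ht0
      refine le_trans (le_of_eq ?_) hB0
      refine Finset.sum_eq_zero fun x _ => ?_
      simp
    · have g1 := dual (Q s X) (Finset.range (2 * K + 1))
        (fun q x => ∑ n ∈ (Finset.Ioc x (x + t)) ∩ (Finset.Ioc K (2 * K)), vl s q n)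
        (B := L * t * (t + (K : ℝ) ^ (2 / 3 : ℝ))) (by positivity)
        (fun y => key hC2 hC3 he h2 h3 s hs X hX K t hK1 ht0 (ht.trans hHK) y) c
      have g2 : ∀ x, ∑ n ∈ (Finset.Ioc x (x + t)) ∩ (Finset.Ioc K (2 * K)), a n =
          ∑ q ∈ Q s X, c q * ∑ n ∈ (Finset.Ioc x (x + t)) ∩ (Finset.Ioc K (2 * K)), vl s q n := by
        intro x
        simp only [ha]
        rw [Finset.sum_comm]
        exact Finset.sum_congr rfl fun q _ => by rw [Finset.mul_sum]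
      simp only [g2]
      refine g1.trans ?_
      have ht' : (t : ℝ) ≤ H := by exact_mod_cast ht
      rw [hB]
      gcongr)
  have hSK : ∀ α : ℝ, ∑ q ∈ Q s X, c q * SK s q K α =
      ∑ n ∈ Finset.Ioc K (2 * K), a n * (n : ℂ) ^ (-(pt α)) := by
    intro α
    simp only [ha, SK, Finset.mul_sum, Finset.sum_mul]
    rw [Finset.sum_comm]
    exact Finset.sum_congr rfl fun n _ => Finset.sum_congr rfl fun q _ => by ring
  simp only [hSK]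
  refine hmain.trans ?_
  have k1 : (A / (K * H)) * B = A * L * ((H : ℝ) / K + (K : ℝ) ^ (2 / 3 : ℝ) / K) * S := by
    rw [hB]
    field_simp
  have k4 : (H : ℝ) / K ≤ 2 * A ^ (-1 : ℝ) := by
    rw [Real.rpow_neg_one, div_le_iff₀ hKpos]
    refine hH3.trans (le_of_eq ?_)
    field_simp
  have k5 : (K : ℝ) ^ (2 / 3 : ℝ) / K = (K : ℝ) ^ (-(1 / 3) : ℝ) := by
    rw [div_eq_iff hKpos.ne']
    nth_rewrite 3 [← Real.rpow_one (K : ℝ)]
    rw [← Real.rpow_add hKpos]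
    norm_num
  have k6 : 0 ≤ (K : ℝ) ^ (-(1 / 3) : ℝ) := by positivity
  calc C1 * (A / (K * H)) * B = C1 * ((A / (K * H)) * B) := by ring
    _ = C1 * (A * L * ((H : ℝ) / K + (K : ℝ) ^ (2 / 3 : ℝ) / K) * S) := by rw [k1]
    _ ≤ C1 * (A * L * (2 * (A ^ (-1 : ℝ) + (K : ℝ) ^ (-(1 / 3) : ℝ))) * S) := by
        rw [k5]
        have : (H : ℝ) / K + (K : ℝ) ^ (-(1 / 3) : ℝ) ≤
            2 * (A ^ (-1 : ℝ) + (K : ℝ) ^ (-(1 / 3) : ℝ)) := by linarith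
        gcongr
    _ = _ := by
        rw [hL, show 2 * (ε / 2) = ε by ring]
        ring

end Pool.Agent.N879.QM
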