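import Pool.Agent.H27.G.R_pool_sql_team_seeded_63374d34.N879.QM.Stm2
import Pool.Agent.H27.G.R_seed8.H38R2.CG.PV

set_option autoImplicit false

/-!
QM, second theorem (helper530): the Polya-Vinogradov inequality for the family.
-/

namespace Pool.Agent.N879.QM

namespace Pviaux

lemma ch_ne_one {s : ℤ} {q : ℕ} (h : Is s q) : ch s q ≠ 1 := by
  unfold ch
  rw [dif_pos h]
  exact h.2.choose_spec.2.2.1

end Pviaux

theorem t_PVI : S_PVI := by
  obtain ⟨C, hC, h⟩ := Pool.Agent.H38R2.CG.T_PV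
  refine ⟨C ^ 2, by positivity, ?_⟩
  intro s q x t hq
  have h1 := h q (ch s q) hq.1 (Pviaux.ch_ne_one hq) x (x + t)
  have h2 : ‖∑ n ∈ Finset.Ioc x (x + t), vl s q n‖ ≤ C * √(q : ℝ) * Real.log q := h1
  calc ‖∑ n ∈ Finset.Ioc x (x + t), vl s q n‖ ^ 2 ≤ (C * √(q : ℝ) * Real.log q) ^ 2 :=
        pow_le_pow_left₀ (norm_nonneg _) h2 2
    _ = C ^ 2 * q * Real.log q ^ 2 := by
        rw [mul_pow, mul_pow, Real.sq_sqrt (Nat.cast_nonneg q)]

end Pool.Agent.N879.QM
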