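import Pool.Agent.H27.G.R_pool_sql_team_seeded_63374d34.N879.QM.Stm2

set_option autoImplicit false

/-!
# Project QM, part WQ (helper499): sums of `wq` over short intervals
-/

namespace Pool.Agent.N879.QM

namespace Wqaux

open Finset

/-- multiples of `d` in a short interval -/
theorem card_mult (x t d : ℕ) (hd : 0 < d) :
    (((Ioc x (x + t)).filter (fun n => d ∣ n)).card : ℝ) ≤ t / d + 1 := by
  have h1 : ((Ioc 0 (x + t)).filter (fun n => d ∣ n)).card =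
      ((Ioc 0 x).filter (fun n => d ∣ n)).card +
        ((Ioc x (x + t)).filter (fun n => d ∣ n)).card := by
    rw [← card_union_of_disjoint]
    · rw [← filter_union, Ioc_union_Ioc_eq_Ioc (Nat.zero_le _) (Nat.le_add_right _ _)]
    · refine disjoint_filter_filter ?_
      rw [disjoint_left]
      intro a ha hb
      rw [mem_Ioc] at ha hb
      omega
  rw [Nat.Ioc_filter_dvd_card_eq_div, Nat.Ioc_filter_dvd_card_eq_div] at h1
  have h2 : (((x + t) / d : ℕ) : ℝ) ≤ ((x + t : ℕ) : ℝ) / d := Nat.cast_div_le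
  have h3 : ((x : ℕ) : ℝ) / d ≤ ((x / d : ℕ) : ℝ) + 1 := by
    have hd' : (0 : ℝ) < d := by exact_mod_cast hd
    rw [div_le_iff₀ hd']
    have h4 : x < (x / d + 1) * d := Nat.lt_mul_of_div_lt (Nat.lt_succ_self _) hd
    exact_mod_cast h4.le
  have h5 : (((x + t) / d : ℕ) : ℝ) = ((x / d : ℕ) : ℝ) +
      (((Ioc x (x + t)).filter (fun n => d ∣ n)).card : ℝ) := by exact_mod_cast h1
  push_cast at h2
  rw [add_div] at h2
  linarith

/-- the `m` with `g m^2` in a short interval -/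
theorem sum_sq (x t K g : ℕ) (hg : 0 < g) (T : Finset ℕ)
    (hT : ∀ m ∈ T, x < g * m ^ 2 ∧ g * m ^ 2 ≤ x + t ∧ g * m ^ 2 ≤ 2 * K) :
    ∑ m ∈ T, (m : ℝ) ≤ t / g + √(2 * K) * (√g)⁻¹ := by
  have hg' : (0 : ℝ) < g := by exact_mod_cast hg
  rcases T.eq_empty_or_nonempty with rfl | hne
  · simp only [sum_empty]
    positivity
  obtain ⟨a, ha⟩ : ∃ a, a = T.min' hne := ⟨_, rfl⟩
  obtain ⟨b, hb⟩ : ∃ b, b = T.max' hne := ⟨_, rfl⟩
  have haT : a ∈ T := ha ▸ T.min'_mem hne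
  have hbT : b ∈ T := hb ▸ T.max'_mem hne
  have hle : ∀ m ∈ T, a ≤ m ∧ m ≤ b := fun m hm =>
    ⟨ha ▸ T.min'_le m hm, hb ▸ T.le_max' m hm⟩
  have hab : a ≤ b := (hle a haT).2
  have hcard : (T.card : ℝ) ≤ (b : ℝ) - a + 1 := by
    have h1 : T ⊆ Icc a b := fun m hm => mem_Icc.2 (hle m hm)
    have h2 := card_le_card h1
    rw [Nat.card_Icc] at h2
    have h3 : T.card + a ≤ b + 1 := by omega
    have h4 : (T.card : ℝ) + a ≤ b + 1 := by exact_mod_cast h3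
    linarith
  have h1 : ∑ m ∈ T, (m : ℝ) ≤ T.card * b := by
    rw [← nsmul_eq_mul, ← sum_const]
    exact sum_le_sum fun m hm => by exact_mod_cast (hle m hm).2
  have hb0 : (0 : ℝ) ≤ b := Nat.cast_nonneg b
  have ha0 : (0 : ℝ) ≤ a := Nat.cast_nonneg a
  have hab' : (a : ℝ) ≤ b := by exact_mod_cast hab
  have h2 : (g : ℝ) * (b ^ 2 - a ^ 2) ≤ t := by
    have h3 := (hT a haT).1
    have h4 := (hT b hbT).2.1
    have h5 : (x : ℝ) < g * a ^ 2 := by exact_mod_cast h3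
    have h6 : (g : ℝ) * b ^ 2 ≤ x + t := by exact_mod_cast h4
    linarith
  have h3 : (b : ℝ) ^ 2 - a ^ 2 ≤ t / g := by
    rw [le_div_iff₀ hg']
    linarith
  have h4 : (b : ℝ) ≤ √(2 * K) * (√g)⁻¹ := by
    rw [← Real.sqrt_inv, ← Real.sqrt_mul (by positivity)]
    apply Real.le_sqrt_of_sq_le
    rw [← div_eq_mul_inv, le_div_iff₀ hg']
    have h5 : (g : ℝ) * b ^ 2 ≤ 2 * K := by exact_mod_cast (hT b hbT).2.2
    linarith
  calc ∑ m ∈ T, (m : ℝ) ≤ T.card * b := h1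
    _ ≤ ((b : ℝ) - a + 1) * b := by gcongr
    _ ≤ ((b : ℝ) ^ 2 - a ^ 2) + b := by nlinarith
    _ ≤ _ := add_le_add h3 h4

theorem sum_inv_sqrt (N : ℕ) : ∑ g ∈ Icc 1 N, (√(g : ℝ))⁻¹ ≤ 2 * √N := by
  induction N with
  | zero => simp
  | succ n ih =>
    rw [sum_Icc_succ_top (by omega)]
    have h0 : (0 : ℝ) < √((n + 1 : ℕ) : ℝ) := by
      apply Real.sqrt_pos.2
      positivity
    have h1 : (√((n + 1 : ℕ) : ℝ))⁻¹ ≤ 2 * √((n + 1 : ℕ) : ℝ) - 2 * √(n : ℝ) := by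
      rw [inv_le_iff_one_le_mul₀ h0]
      have h2 : √((n + 1 : ℕ) : ℝ) ^ 2 = (n : ℝ) + 1 := by
        rw [Real.sq_sqrt (by positivity)]
        push_cast
        rfl
      have h3 : √(n : ℝ) ^ 2 = n := Real.sq_sqrt (by positivity)
      nlinarith [sq_nonneg (√((n + 1 : ℕ) : ℝ) - √(n : ℝ))]
    linarith

theorem sum_inv (N : ℕ) : ∑ g ∈ Icc 1 N, ((g : ℝ))⁻¹ ≤ 1 + Real.log N := by
  have h := harmonic_le_one_add_log N
  rw [harmonic_eq_sum_Icc] at h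
  push_cast at h
  exact h

/-- the two ranges -/
theorem split (K x t M : ℕ) (hM : 1 ≤ M) (hKM : K ≤ M ^ 3) :
    ∑ n ∈ (Ioc x (x + t)) ∩ (Ioc K (2 * K)), wq n ≤
      ∑ m ∈ Icc 1 M, (m : ℝ) * (t / ((m ^ 2 : ℕ) : ℝ) + 1) +
        ∑ g ∈ Icc 1 (2 * M), (t / g + √(2 * K) * (√(g : ℝ))⁻¹) := by
  classical
  obtain ⟨W, hW⟩ : ∃ W, W = (Ioc x (x + t)) ∩ (Ioc K (2 * K)) := ⟨_, rfl⟩
  rw [← hW]
  have hWm : ∀ n, n ∈ W ↔ (x < n ∧ n ≤ x + t) ∧ (K < n ∧ n ≤ 2 * K) := by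
    intro n
    rw [hW, mem_inter, mem_Ioc, mem_Ioc]
  have h1 : ∑ n ∈ W, wq n ≤
      ∑ m ∈ Icc 1 (2 * K), (m : ℝ) * ((W.filter (fun n => m ^ 2 ∣ n)).card : ℝ) := by
    have h2 : ∀ n ∈ W, wq n ≤ ∑ m ∈ Icc 1 (2 * K), if m ^ 2 ∣ n then (m : ℝ) else 0 := by
      intro n hn
      have hn' := (hWm n).1 hn
      unfold wq
      rw [← sum_filter]
      refine sum_le_sum_of_subset_of_nonneg ?_ fun _ _ _ => Nat.cast_nonneg _
      intro m hm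
      rw [mem_filter, mem_Icc] at hm ⊢
      exact ⟨⟨hm.1.1, hm.1.2.trans hn'.2.2⟩, hm.2⟩
    refine (sum_le_sum h2).trans ?_
    rw [sum_comm]
    refine sum_le_sum fun m _ => le_of_eq ?_
    rw [← sum_filter, sum_const, nsmul_eq_mul]
    ring
  refine h1.trans ?_
  have h3 : ∀ m ∈ Icc 1 (2 * K), (m : ℝ) * ((W.filter (fun n => m ^ 2 ∣ n)).card : ℝ) ≤
      (if m ≤ M then (m : ℝ) * (t / ((m ^ 2 : ℕ) : ℝ) + 1) else 0) +
        ∑ g ∈ Icc 1 (2 * M), if g * m ^ 2 ∈ W then (m : ℝ) else 0 := by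
    intro m hm
    rw [mem_Icc] at hm
    by_cases hmM : m ≤ M
    · rw [if_pos hmM]
      have h4 : ((W.filter (fun n => m ^ 2 ∣ n)).card : ℝ) ≤ t / ((m ^ 2 : ℕ) : ℝ) + 1 := by
        refine le_trans ?_ (card_mult x t (m ^ 2) (Nat.pow_pos (by omega)))
        have : W.filter (fun n => m ^ 2 ∣ n) ⊆ (Ioc x (x + t)).filter (fun n => m ^ 2 ∣ n) := by
          apply filter_subset_filter
          rw [hW]
          exact inter_subset_left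
        exact_mod_cast card_le_card this
      have h5 : 0 ≤ ∑ g ∈ Icc 1 (2 * M), if g * m ^ 2 ∈ W then (m : ℝ) else 0 :=
        sum_nonneg fun g _ => by split_ifs <;> positivity
      have h6 := mul_le_mul_of_nonneg_left h4 (Nat.cast_nonneg (α := ℝ) m)
      linarith
    · rw [if_neg hmM, zero_add, ← sum_filter, sum_const, nsmul_eq_mul, mul_comm]
      refine mul_le_mul_of_nonneg_right ?_ (Nat.cast_nonneg _)
      have h4 : W.filter (fun n => m ^ 2 ∣ n) ⊆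
          ((Icc 1 (2 * M)).filter (fun g => g * m ^ 2 ∈ W)).image (fun g => g * m ^ 2) := by
        intro n hn
        rw [mem_filter] at hn
        obtain ⟨hn1, c, hc⟩ := hn
        have hn2 := (hWm n).1 hn1
        have hc2 : c * m ^ 2 = n := by rw [hc]; ring
        rw [mem_image]
        refine ⟨c, ?_, hc2⟩
        rw [mem_filter, mem_Icc, hc2]
        refine ⟨⟨?_, ?_⟩, hn1⟩
        · rcases Nat.eq_zero_or_pos c with h | h
          · rw [h, zero_mul] at hc2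
            omega
          · exact h
        · have h5 : M ^ 2 ≤ m ^ 2 := Nat.pow_le_pow_left (by omega) 2
          have h6 : c * M ^ 2 ≤ (2 * M) * M ^ 2 := by
            calc c * M ^ 2 ≤ c * m ^ 2 := Nat.mul_le_mul_left c h5
              _ = n := hc2
              _ ≤ 2 * K := hn2.2.2
              _ ≤ 2 * M ^ 3 := Nat.mul_le_mul_left 2 hKM
              _ = (2 * M) * M ^ 2 := by ring
          exact Nat.le_of_mul_le_mul_right h6 (by positivity)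
      exact_mod_cast (card_le_card h4).trans card_image_le
  refine (sum_le_sum h3).trans ?_
  rw [sum_add_distrib]
  refine add_le_add ?_ ?_
  · rw [← sum_filter]
    refine sum_le_sum_of_subset_of_nonneg ?_ fun _ _ _ => by positivity
    intro m hm
    rw [mem_filter, mem_Icc] at hm
    rw [mem_Icc]
    exact ⟨hm.1.1, hm.2⟩
  · rw [sum_comm]
    refine sum_le_sum fun g hg => ?_
    rw [← sum_filter]
    rw [mem_Icc] at hg
    refine sum_sq x t K g (by omega) _ fun m hm => ?_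
    have h4 := (hWm _).1 (mem_filter.1 hm).2
    exact ⟨h4.1.1, h4.1.2, h4.2.2⟩

end Wqaux

open Wqaux in
theorem t_WQ : S_WQ := by
  intro ε hε
  refine ⟨20 * (2 + 2 * (4 ^ ε / ε)), by positivity, ?_⟩
  intro K x t hK _ _ _
  have hK0 : (1 : ℝ) ≤ K := by exact_mod_cast hK
  obtain ⟨M, hM⟩ : ∃ M : ℕ, M = ⌈(K : ℝ) ^ (1 / 3 : ℝ)⌉₊ := ⟨_, rfl⟩
  have hr1 : (1 : ℝ) ≤ (K : ℝ) ^ (1 / 3 : ℝ) := Real.one_le_rpow hK0 (by norm_num)
  have hM1 : (K : ℝ) ^ (1 / 3 : ℝ) ≤ M := hM ▸ Nat.le_ceil _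
  have hM2 : (M : ℝ) ≤ 2 * (K : ℝ) ^ (1 / 3 : ℝ) := by
    have := (Nat.ceil_lt_add_one (by linarith : (0 : ℝ) ≤ (K : ℝ) ^ (1 / 3 : ℝ))).le
    rw [← hM] at this
    linarith
  have hMpos : 1 ≤ M := by
    have : (1 : ℝ) ≤ M := hr1.trans hM1
    exact_mod_cast this
  have hr3 : ((K : ℝ) ^ (1 / 3 : ℝ)) ^ 3 = K := by
    rw [← Real.rpow_natCast, ← Real.rpow_mul (by positivity)]
    norm_num
  have hr2 : ((K : ℝ) ^ (1 / 3 : ℝ)) ^ 2 = (K : ℝ) ^ (2 / 3 : ℝ) := by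
    rw [← Real.rpow_natCast, ← Real.rpow_mul (by positivity)]
    norm_num
  have hKM : K ≤ M ^ 3 := by
    have : (K : ℝ) ≤ (M : ℝ) ^ 3 := by
      rw [← hr3]
      gcongr
    exact_mod_cast this
  have hMR : (0 : ℝ) < M := by exact_mod_cast hMpos
  have hsp := split K x t M hMpos hKM
  -- the first sum
  have hlogM : Real.log M ≤ Real.log ((2 * M : ℕ) : ℝ) := by
    apply Real.log_le_log hMR
    push_cast
    linarith
  obtain ⟨Lg, hLg⟩ : ∃ Lg, Lg = 1 + Real.log ((2 * M : ℕ) : ℝ) := ⟨_, rfl⟩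
  have hf1 : ∑ m ∈ Finset.Icc 1 M, (m : ℝ) * (t / ((m ^ 2 : ℕ) : ℝ) + 1) ≤
      t * Lg + (M : ℝ) ^ 2 := by
    calc ∑ m ∈ Finset.Icc 1 M, (m : ℝ) * (t / ((m ^ 2 : ℕ) : ℝ) + 1)
        ≤ ∑ m ∈ Finset.Icc 1 M, ((t : ℝ) * (m : ℝ)⁻¹ + M) := by
          refine Finset.sum_le_sum fun m hm => ?_
          rw [Finset.mem_Icc] at hm
          have hm0 : (0 : ℝ) < m := by exact_mod_cast hm.1
          have hmM : (m : ℝ) ≤ M := by exact_mod_cast hm.2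
          have h1 : (m : ℝ) * (t / ((m ^ 2 : ℕ) : ℝ) + 1) = (t : ℝ) * (m : ℝ)⁻¹ + m := by
            push_cast
            field_simp
          rw [h1]
          linarith
      _ = t * ∑ m ∈ Finset.Icc 1 M, (m : ℝ)⁻¹ + (M : ℝ) ^ 2 := by
          rw [Finset.sum_add_distrib, ← Finset.mul_sum, Finset.sum_const, Nat.card_Icc,
            nsmul_eq_mul, Nat.add_sub_cancel]
          ring
      _ ≤ t * Lg + (M : ℝ) ^ 2 := by
          have h1 := sum_inv M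
          have h2 : ∑ m ∈ Finset.Icc 1 M, (m : ℝ)⁻¹ ≤ Lg := by linarith
          gcongr
  have hf2 : ∑ g ∈ Finset.Icc 1 (2 * M), ((t : ℝ) / g + √(2 * K) * (√(g : ℝ))⁻¹) ≤
      t * Lg + 4 * (M : ℝ) ^ 2 := by
    have h1 := sum_inv (2 * M)
    have h2 := sum_inv_sqrt (2 * M)
    have h3 : √(2 * K) * (2 * √((2 * M : ℕ) : ℝ)) ≤ 4 * (M : ℝ) ^ 2 := by
      have h4 : √(2 * (K : ℝ)) * √((2 * M : ℕ) : ℝ) ≤ 2 * (M : ℝ) ^ 2 := by
        rw [← Real.sqrt_mul (by positivity)]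
        apply Real.sqrt_le_iff.2
        refine ⟨by positivity, ?_⟩
        have h5 : (K : ℝ) ≤ (M : ℝ) ^ 3 := by exact_mod_cast hKM
        push_cast
        calc 2 * (K : ℝ) * (2 * M) ≤ 2 * (M : ℝ) ^ 3 * (2 * M) := by gcongr
          _ = (2 * (M : ℝ) ^ 2) ^ 2 := by ring
      linarith
    calc ∑ g ∈ Finset.Icc 1 (2 * M), ((t : ℝ) / g + √(2 * K) * (√(g : ℝ))⁻¹)
        = t * ∑ g ∈ Finset.Icc 1 (2 * M), (g : ℝ)⁻¹ +
          √(2 * K) * ∑ g ∈ Finset.Icc 1 (2 * M), (√(g : ℝ))⁻¹ := by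
          rw [Finset.sum_add_distrib, Finset.mul_sum, Finset.mul_sum]
          simp only [div_eq_mul_inv]
      _ ≤ t * Lg + √(2 * K) * (2 * √((2 * M : ℕ) : ℝ)) := by
          rw [← hLg] at h1
          gcongr
      _ ≤ _ := by linarith
  have hLg1 : Lg ≤ (1 + 4 ^ ε / ε) * (K : ℝ) ^ ε := by
    have h1 := Real.log_le_rpow_div (x := ((2 * M : ℕ) : ℝ)) (by positivity) hε
    have h2 : ((2 * M : ℕ) : ℝ) ≤ 4 * K := by
      push_cast
      have h3 : (K : ℝ) ^ (1 / 3 : ℝ) ≤ K := by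
        calc (K : ℝ) ^ (1 / 3 : ℝ) ≤ (K : ℝ) ^ (1 : ℝ) :=
              Real.rpow_le_rpow_of_exponent_le hK0 (by norm_num)
          _ = K := Real.rpow_one _
      linarith
    have h3 : ((2 * M : ℕ) : ℝ) ^ ε ≤ 4 ^ ε * (K : ℝ) ^ ε := by
      rw [← Real.mul_rpow (by norm_num) (by positivity)]
      gcongr
    have h4 : (1 : ℝ) ≤ (K : ℝ) ^ ε := Real.one_le_rpow hK0 hε.le
    calc Lg ≤ 1 + ((2 * M : ℕ) : ℝ) ^ ε / ε := by rw [hLg]; linarith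
      _ ≤ (K : ℝ) ^ ε + 4 ^ ε * (K : ℝ) ^ ε / ε := by gcongr
      _ = _ := by ring
  have hK1 : (1 : ℝ) ≤ (K : ℝ) ^ ε := Real.one_le_rpow hK0 hε.le
  have hM4 : (M : ℝ) ^ 2 ≤ 4 * (K : ℝ) ^ (2 / 3 : ℝ) := by
    rw [← hr2]
    calc (M : ℝ) ^ 2 ≤ (2 * (K : ℝ) ^ (1 / 3 : ℝ)) ^ 2 := by gcongr
      _ = _ := by ring
  have hc0 : (0 : ℝ) ≤ 4 ^ ε / ε := by positivity
  have hq0 : (0 : ℝ) ≤ (K : ℝ) ^ (2 / 3 : ℝ) := by positivity
  have ht0 : (0 : ℝ) ≤ t := Nat.cast_nonneg t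
  calc ∑ n ∈ (Finset.Ioc x (x + t)) ∩ (Finset.Ioc K (2 * K)), wq n
      ≤ 2 * (t * Lg) + 5 * (M : ℝ) ^ 2 := by linarith
    _ ≤ 2 * (t * ((1 + 4 ^ ε / ε) * (K : ℝ) ^ ε)) + 5 * (4 * (K : ℝ) ^ (2 / 3 : ℝ)) := by gcongr
    _ ≤ 2 * (t * ((1 + 4 ^ ε / ε) * (K : ℝ) ^ ε)) +
        20 * (K : ℝ) ^ (2 / 3 : ℝ) * ((2 + 2 * (4 ^ ε / ε)) * (K : ℝ) ^ ε) := by
        have h1 : (1 : ℝ) ≤ (2 + 2 * (4 ^ ε / ε)) * (K : ℝ) ^ ε := by nlinarith
        have h2 : 20 * (K : ℝ) ^ (2 / 3 : ℝ) ≤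
            20 * (K : ℝ) ^ (2 / 3 : ℝ) * ((2 + 2 * (4 ^ ε / ε)) * (K : ℝ) ^ ε) :=
          le_mul_of_one_le_right (by positivity) h1
        linarith
    _ ≤ 20 * (2 + 2 * (4 ^ ε / ε)) * (K : ℝ) ^ ε * (t + (K : ℝ) ^ (2 / 3 : ℝ)) := by
        have h1 : 0 ≤ (t : ℝ) * ((1 + 4 ^ ε / ε) * (K : ℝ) ^ ε) := by positivity
        have h2 : 20 * (2 + 2 * (4 ^ ε / ε)) * (K : ℝ) ^ ε * (t + (K : ℝ) ^ (2 / 3 : ℝ)) =
            40 * ((t : ℝ) * ((1 + 4 ^ ε / ε) * (K : ℝ) ^ ε)) +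
            20 * (K : ℝ) ^ (2 / 3 : ℝ) * ((2 + 2 * (4 ^ ε / ε)) * (K : ℝ) ^ ε) := by ring
        rw [h2]
        linarith

end Pool.Agent.N879.QM
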