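import Pool.Agent.H27.G.R_pool_sql_team_seeded_63374d34.N879.QM.Asm1

set_option autoImplicit false

/-! Project QM: assembly, second part (the two mean squares). -/

namespace Pool.Agent.N879.QM

open Complex Filter Topology MeasureTheory Set

noncomputable section

variable {k : ℕ}

/-- the first mean square -/
lemma E1 (hV : S_VL) (hO : S_OP) (hT : S_TEL) (hc : S_CTS) (hk : 1 ≤ k) {θ η κ : ℝ} (hθ : 1 < θ)
    (hη1 : η ≤ 1) (hκ : 0 < κ) (hκ1 : κ ≤ η / 2) (hκ2 : κ ≤ θ - 1) :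
    ∃ C : ℝ, 0 < C ∧ ∀ (s : ℤ) (X : ℝ) (N : ℕ), s = 1 ∨ s = -1 → 2 ≤ X → X ^ η / 2 ≤ N → (N : ℝ) ≤ X → 1 ≤ N →
      ∫⁻ β, ENNReal.ofReal (‖∑ q ∈ Q s X, (∏ j, LL s q (pt (β j)) - ∏ j, PN s q N (β j))‖ ^ 2) ∂(mS k (X ^ θ)) ≤
        ENNReal.ofReal (C * X ^ (k * θ + 2 - κ / 2)) := by
  have hk0 : (0 : ℝ) < k := by exact_mod_cast hk
  have hθ0 : 0 < θ := by linarith
  set ε : ℝ := κ / (2 * k * θ) with hε
  have hε0 : 0 < ε := by positivity
  obtain ⟨CO, hCO, hO⟩ := hO ε hε0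
  obtain ⟨CV, hCV, hV⟩ := hV ε hε0
  refine ⟨4 ^ k * CO * CV ^ (k - 1) * 4, by positivity, ?_⟩
  intro s X N hs hX hN hNX hN1
  have hX0 : 0 < X := by linarith
  have hX1 : 1 ≤ X := by linarith
  set A : ℝ := X ^ θ with hA
  have hXA : X ≤ A := by
    rw [hA]
    calc X = X ^ (1 : ℝ) := (Real.rpow_one X).symm
      _ ≤ X ^ θ := Real.rpow_le_rpow_of_exponent_le hX1 hθ.le
  have hA0 : 0 < A := by linarith
  have hA2 : 2 ≤ A := by linarith
  have hN0 : (0 : ℝ) < N := by exact_mod_cast hN1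
  set K0 : ℝ := CO * A ^ (1 + ε) * (X / √N + X ^ 2 / A + 1) with hK0
  set V0 : ℝ := CV * A ^ (1 + ε) with hV0
  have hK0' : 0 ≤ K0 := by positivity
  have hV0' : 0 ≤ V0 := by positivity
  have h1 := hT k (Q s X) (fun q α => LL s q (pt α)) (fun q => PN s q N) A K0 V0 hA0 hK0' hV0'
    (fun q hq => hc s q (Q_is hq).1) (fun q _ => PN_cont s q N)
    (fun c => by
      have := hO s X A N c hs hX1 hXA hA2 hN1
      rw [hK0]
      exact this)
    (fun q hq => (hV s q A (Q_is hq).1 (by linarith [(Q_is hq).2]) hA2).1)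
    (fun q hq => (hV s q A (Q_is hq).1 (by linarith [(Q_is hq).2]) hA2).2 N hN1 (by linarith))
  refine h1.trans (ENNReal.ofReal_le_ofReal ?_)
  -- numbers
  have e1 : X / √N ≤ 2 * X ^ (1 - κ) := by
    have h2 : √(X ^ η / 2) ≤ √N := Real.sqrt_le_sqrt hN
    have h3 : 0 < √(X ^ η / 2) := Real.sqrt_pos.2 (by positivity)
    have h4 : X ^ κ / 2 ≤ √(X ^ η / 2) := by
      apply Real.le_sqrt_of_sq_le
      have h5 : (X ^ κ) ^ 2 ≤ X ^ η := by
        rw [← Real.rpow_natCast, ← Real.rpow_mul hX0.le]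
        apply Real.rpow_le_rpow_of_exponent_le hX1
        push_cast; linarith
      have : (X ^ κ / 2) ^ 2 = (X ^ κ) ^ 2 / 4 := by ring
      rw [this]
      have : 0 < X ^ η := by positivity
      linarith
    rw [div_le_iff₀ (by linarith)]
    have h6 : X = X ^ (1 - κ) * X ^ κ := by
      rw [← Real.rpow_add hX0]; ring_nf; exact (Real.rpow_one X).symm
    have h7 : 0 < X ^ (1 - κ) := by positivity
    calc X = 2 * X ^ (1 - κ) * (X ^ κ / 2) := by rw [mul_assoc]; nth_rewrite 1 [h6]; ring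
      _ ≤ 2 * X ^ (1 - κ) * √N := by
          apply mul_le_mul_of_nonneg_left _ (by positivity)
          linarith
  have e2 : X ^ 2 / A ≤ X ^ (1 - κ) := by
    rw [hA, ← Real.rpow_natCast X 2, ← Real.rpow_sub hX0]
    apply Real.rpow_le_rpow_of_exponent_le hX1
    push_cast; linarith
  have e3 : (1 : ℝ) ≤ X ^ (1 - κ) := Real.one_le_rpow hX1 (by linarith)
  have e4 : X / √N + X ^ 2 / A + 1 ≤ 4 * X ^ (1 - κ) := by linarith
  have e5 : K0 * V0 ^ (k - 1) ≤ CO * CV ^ (k - 1) * (A ^ (1 + ε)) ^ k * (4 * X ^ (1 - κ)) := by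
    have h2 : (A ^ (1 + ε)) ^ k = A ^ (1 + ε) * (A ^ (1 + ε)) ^ (k - 1) := by
      rw [← pow_succ']; congr 1; omega
    rw [hK0, hV0, mul_pow, h2]
    have : CO * A ^ (1 + ε) * (X / √N + X ^ 2 / A + 1) * (CV ^ (k - 1) * (A ^ (1 + ε)) ^ (k - 1)) =
      CO * CV ^ (k - 1) * (A ^ (1 + ε) * (A ^ (1 + ε)) ^ (k - 1)) * (X / √N + X ^ 2 / A + 1) := by ring
    rw [this]
    exact mul_le_mul_of_nonneg_left e4 (by positivity)
  have e6 : (A ^ (1 + ε)) ^ k = X ^ (k * θ + κ / 2) := by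
    rw [hA, ← Real.rpow_natCast, ← Real.rpow_mul hX0.le, ← Real.rpow_mul hX0.le]
    congr 1
    rw [hε]
    field_simp
  have e7 : ((Q s X).card : ℝ) ≤ X := Q_card hX1
  have e8 : X ^ (k * θ + κ / 2) * X ^ (1 - κ) * X = X ^ (k * θ + 2 - κ / 2) := by
    nth_rewrite 3 [← Real.rpow_one X]
    rw [← Real.rpow_add hX0, ← Real.rpow_add hX0]
    congr 1; ring
  calc 4 ^ k * K0 * V0 ^ (k - 1) * ((Q s X).card : ℝ) = 4 ^ k * (K0 * V0 ^ (k - 1)) * ((Q s X).card : ℝ) := by ring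
    _ ≤ 4 ^ k * (CO * CV ^ (k - 1) * (A ^ (1 + ε)) ^ k * (4 * X ^ (1 - κ))) * X := by gcongr
    _ = 4 ^ k * CO * CV ^ (k - 1) * 4 * (X ^ (k * θ + κ / 2) * X ^ (1 - κ) * X) := by rw [e6]; ring
    _ = _ := by rw [e8]

lemma lint_add_sq {Ω : Type*} [MeasurableSpace Ω] {μ : Measure Ω} {f g h : Ω → ℂ}
    (hf : Measurable f) (hg : Measurable g) {a b : ℝ} (ha : 0 ≤ a) (hb : 0 ≤ b)
    (h1 : ∫⁻ x, ENNReal.ofReal (‖f x‖ ^ 2) ∂μ ≤ ENNReal.ofReal a)
    (h2 : ∫⁻ x, ENNReal.ofReal (‖g x‖ ^ 2) ∂μ ≤ ENNReal.ofReal b) (hh : ∀ x, h x = f x + g x) :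
    ∫⁻ x, ENNReal.ofReal (‖h x‖ ^ 2) ∂μ ≤ ENNReal.ofReal (2 * a + 2 * b) := by
  have hm1 : Measurable fun x => ENNReal.ofReal (‖f x‖ ^ 2) := (hf.norm.pow_const 2).ennreal_ofReal
  have e1 : ∀ x, ENNReal.ofReal (‖h x‖ ^ 2) ≤ 2 * ENNReal.ofReal (‖f x‖ ^ 2) + 2 * ENNReal.ofReal (‖g x‖ ^ 2) := by
    intro x
    have h3 : ‖h x‖ ^ 2 ≤ 2 * ‖f x‖ ^ 2 + 2 * ‖g x‖ ^ 2 := by
      rw [hh]
      have := norm_add_le (f x) (g x)
      nlinarith [norm_nonneg (f x + g x), norm_nonneg (f x), norm_nonneg (g x), sq_nonneg (‖f x‖ - ‖g x‖)]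
    refine (ENNReal.ofReal_le_ofReal h3).trans ?_
    rw [ENNReal.ofReal_add (by positivity) (by positivity), ENNReal.ofReal_mul (by norm_num),
      ENNReal.ofReal_mul (by norm_num)]
    simp
  refine (lintegral_mono e1).trans ?_
  rw [lintegral_add_left (hm1.const_mul 2), lintegral_const_mul' _ _ (by simp),
    lintegral_const_mul' _ _ (by simp)]
  refine (add_le_add (mul_le_mul_right h1 2) (mul_le_mul_right h2 2)).trans ?_
  rw [ENNReal.ofReal_add (by positivity) (by positivity), ENNReal.ofReal_mul (by norm_num),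
    ENNReal.ofReal_mul (by norm_num)]
  simp

/-- the second mean square -/
lemma E3 (hC : S_COEF) (hZ : S_ZR) (hE : S_EUL) (hk : 1 ≤ k) {θ : ℝ} (hθ : 1 ≤ θ) :
    ∃ m₀ : ℕ, ∀ m : ℕ, m₀ ≤ m → 1 ≤ m → ∃ C X₀ : ℝ, 0 < C ∧ ∀ (X : ℝ) (N : ℕ), X₀ ≤ X → 2 ≤ X →
      X ^ (1 / m : ℝ) / 2 ≤ N → (N : ℝ) ≤ X ^ (1 / m : ℝ) → 1 ≤ N →
      ∫⁻ β in Gd k (X ^ θ), ENNReal.ofReal (‖SN k N β - MT (im β)‖ ^ 2) ∂(mS k (X ^ θ)) ≤
        ENNReal.ofReal (C * X ^ (k * θ - 1 / (4 * m))) := by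
  obtain ⟨C1, B1, hC1, hC⟩ := hC k
  obtain ⟨C2, A₀, B2, hC2, hA₀, hZ⟩ := hZ k
  refine ⟨B1 + 2, ?_⟩
  intro m hm hm1
  have hm0 : (0 : ℝ) < m := by exact_mod_cast hm1
  set η : ℝ := 1 / m with hη
  have hη0 : 0 < η := by positivity
  have hθ0 : 0 < θ := by linarith
  have hk1 : (1 : ℝ) ≤ k := by exact_mod_cast hk
  -- logarithms
  have hlog : ∀ᶠ X : ℝ in atTop, (θ * Real.log X) ^ B2 ≤ X ^ (η / 4) := by
    have h1 := (isLittleO_log_rpow_rpow_atTop (B2 : ℝ) (show 0 < η / 4 by positivity))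
    have h2 := h1.def (show 0 < (θ ^ B2)⁻¹ by positivity)
    filter_upwards [h2, eventually_ge_atTop 1] with X hX hX1
    have hl : 0 ≤ Real.log X := Real.log_nonneg hX1
    rw [Real.norm_of_nonneg (by positivity), Real.norm_of_nonneg (by positivity), Real.rpow_natCast] at hX
    rw [mul_pow]
    calc θ ^ B2 * Real.log X ^ B2 ≤ θ ^ B2 * ((θ ^ B2)⁻¹ * X ^ (η / 4)) :=
          mul_le_mul_of_nonneg_left hX (by positivity)
      _ = X ^ (η / 4) := by field_simp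
  obtain ⟨X1, hX1'⟩ := eventually_atTop.1 hlog
  refine ⟨2 * (C2 * (2 * 2)) + 2 * (C1 * 2), max X1 A₀, by positivity, ?_⟩
  intro X N hX hX2 hN1 hN2 hN
  have hX0 : 0 < X := by linarith
  have hX1 : 1 ≤ X := by linarith
  have hN0 : (0 : ℝ) < N := by exact_mod_cast hN
  have hN1' : (1 : ℝ) ≤ N := by exact_mod_cast hN
  set A : ℝ := X ^ θ with hA
  have hXA : X ≤ A := by
    rw [hA]
    calc X = X ^ (1 : ℝ) := (Real.rpow_one X).symm
      _ ≤ X ^ θ := Real.rpow_le_rpow_of_exponent_le hX1 hθ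
  have hA0 : 0 < A := by linarith
  have hAk : A ^ k = X ^ (k * θ) := by
    rw [hA, ← Real.rpow_natCast, ← Real.rpow_mul hX0.le]
    congr 1; ring
  have hη1 : η ≤ 1 / 2 := by
    rw [hη]
    apply one_div_le_one_div_of_le (by norm_num)
    have : (2 : ℕ) ≤ m := by omega
    exact_mod_cast this
  -- sizes
  have hB : (N : ℝ) ^ B1 ≤ A := by
    calc (N : ℝ) ^ B1 ≤ (X ^ η) ^ B1 := pow_le_pow_left₀ hN0.le hN2 _
      _ = X ^ (η * B1) := by rw [← Real.rpow_natCast, ← Real.rpow_mul hX0.le]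
      _ ≤ X ^ (1 : ℝ) := by
          apply Real.rpow_le_rpow_of_exponent_le hX1
          rw [hη, one_div, inv_mul_le_iff₀ hm0, mul_one]
          exact_mod_cast (by omega : B1 ≤ m)
      _ = X := Real.rpow_one X
      _ ≤ A := hXA
  have hY : (N : ℝ) ≤ A ^ (1 / 2 : ℝ) := by
    refine hN2.trans ?_
    calc X ^ η ≤ X ^ (1 / 2 : ℝ) := Real.rpow_le_rpow_of_exponent_le hX1 hη1
      _ ≤ A ^ (1 / 2 : ℝ) := Real.rpow_le_rpow hX0.le hXA (by norm_num)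
  have hneg : ∀ c : ℝ, 0 ≤ c → c ≤ 1 → (N : ℝ) ^ (-c) ≤ 2 * X ^ (-(c * η)) := by
    intro c hc hc1
    have h1 : (N : ℝ) ^ (-c) ≤ (X ^ η / 2) ^ (-c) :=
      Real.rpow_le_rpow_of_nonpos (by positivity) hN1 (by linarith)
    refine h1.trans ?_
    rw [Real.div_rpow (by positivity) (by norm_num), ← Real.rpow_mul hX0.le, div_eq_mul_inv,
      ← Real.rpow_neg (by norm_num), neg_neg, mul_comm]
    have h2 : (2 : ℝ) ^ c ≤ 2 := by
      calc (2 : ℝ) ^ c ≤ 2 ^ (1 : ℝ) := Real.rpow_le_rpow_of_exponent_le (by norm_num) hc1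
        _ = 2 := Real.rpow_one 2
    have h3 : η * -c = -(c * η) := by ring
    rw [h3]
    exact mul_le_mul_of_nonneg_right h2 (by positivity)
  have hM1 : 1 ≤ N ^ k := Nat.one_le_pow _ _ hN
  have z1 := hZ A N (N ^ k) (le_trans (le_trans (le_max_right _ _) hX) hXA) hN hM1 hY
  have z2 := hC A N hN hB
  -- numbers
  have hl0 : 0 ≤ Real.log A := Real.log_nonneg (by linarith)
  have n1 : Real.log A ^ B2 ≤ X ^ (η / 4) := by
    rw [hA, Real.log_rpow hX0]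
    exact hX1' X (le_trans (le_max_left _ _) hX)
  have n2 : (N : ℝ) ^ (-1 : ℝ) ≤ 2 * X ^ (-(η / 2)) := by
    refine (hneg 1 (by norm_num) le_rfl).trans ?_
    apply mul_le_mul_of_nonneg_left _ (by norm_num)
    apply Real.rpow_le_rpow_of_exponent_le hX1
    linarith
  have n3 : (((N ^ k : ℕ)) : ℝ) ^ (-(1 / 2) : ℝ) ≤ 2 * X ^ (-(η / 2)) := by
    have h1 : (((N ^ k : ℕ)) : ℝ) ^ (-(1 / 2) : ℝ) ≤ (N : ℝ) ^ (-(1 / 2) : ℝ) := by
      apply Real.rpow_le_rpow_of_nonpos hN0 _ (by norm_num)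
      push_cast
      exact le_self_pow₀ hN1' (by omega)
    refine h1.trans ((hneg (1 / 2) (by norm_num) (by norm_num)).trans (le_of_eq ?_))
    congr 2; ring
  have n4 : (N : ℝ) ^ (-(1 / 4) : ℝ) ≤ 2 * X ^ (-(η / 4)) := by
    refine (hneg (1 / 4) (by norm_num) (by norm_num)).trans (le_of_eq ?_)
    congr 2; ring
  have hX4 : X ^ (η / 4) * X ^ (-(η / 2)) = X ^ (-(η / 4)) := by
    rw [← Real.rpow_add hX0]; congr 1; ring
  have hXk : X ^ (k * θ) * X ^ (-(η / 4)) = X ^ (k * θ - 1 / (4 * m)) := by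
    rw [← Real.rpow_add hX0]; congr 1; rw [hη]; field_simp
    ring
  have b1 : C2 * Real.log A ^ B2 * A ^ k * ((N : ℝ) ^ (-1 : ℝ) + (((N ^ k : ℕ)) : ℝ) ^ (-(1 / 2) : ℝ)) ≤
      C2 * (2 * 2) * X ^ (k * θ - 1 / (4 * m)) := by
    calc C2 * Real.log A ^ B2 * A ^ k * ((N : ℝ) ^ (-1 : ℝ) + (((N ^ k : ℕ)) : ℝ) ^ (-(1 / 2) : ℝ))
        ≤ C2 * X ^ (η / 4) * X ^ (k * θ) * (2 * X ^ (-(η / 2)) + 2 * X ^ (-(η / 2))) := by
          rw [hAk]
          gcongr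
      _ = C2 * (2 * 2) * (X ^ (k * θ) * (X ^ (η / 4) * X ^ (-(η / 2)))) := by ring
      _ = _ := by rw [hX4, hXk]
  have b2 : C1 * A ^ k * (N : ℝ) ^ (-(1 / 4) : ℝ) ≤ C1 * 2 * X ^ (k * θ - 1 / (4 * m)) := by
    calc C1 * A ^ k * (N : ℝ) ^ (-(1 / 4) : ℝ) ≤ C1 * X ^ (k * θ) * (2 * X ^ (-(η / 4))) := by
          rw [hAk]
          gcongr
      _ = C1 * 2 * (X ^ (k * θ) * X ^ (-(η / 4))) := by ring
      _ = _ := by rw [hXk]
  set P : (Fin k → ℝ) → ℂ := fun β =>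
    (∑ m ∈ Finset.Icc 1 (N ^ k), al β m) * ∏ r : Pr k, zN N (pp β r) with hP
  have mP : Measurable P :=
    (Finset.measurable_sum _ fun m _ => meas_al m).mul (Finset.measurable_prod _ fun r _ => meas_zN N r)
  have key := lint_add_sq (μ := (mS k A).restrict (Gd k A)) (f := fun β => -(MT (im β) - P β))
    (g := fun β => -(P β - SN k N β)) (h := fun β => SN k N β - MT (im β))
    ((meas_MT hE).sub mP).neg (mP.sub (meas_SN N)).neg
    (a := C2 * (2 * 2) * X ^ (k * θ - 1 / (4 * m))) (b := C1 * 2 * X ^ (k * θ - 1 / (4 * m)))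
    (by positivity) (by positivity) (by
      simp only [norm_neg]
      exact z1.trans (ENNReal.ofReal_le_ofReal b1)) (by
      simp only [norm_neg]
      refine (lintegral_mono' Measure.restrict_le_self le_rfl).trans ?_
      exact z2.trans (ENNReal.ofReal_le_ofReal b2)) (fun β => by ring)
  refine key.trans (ENNReal.ofReal_le_ofReal (le_of_eq ?_))
  ring

end

end Pool.Agent.N879.QM
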