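import Pool.Agent.H27.G.R_pool_sql_team_seeded_63374d34.N879.QM.Asm2

set_option autoImplicit false

/-! Project QM: assembly, third part. -/

namespace Pool.Agent.N879.QM

open Complex Filter Topology MeasureTheory Set

noncomputable section

variable {k : ℕ}

lemma floor_half {x : ℝ} (hx : 1 ≤ x) : x / 2 ≤ (⌊x⌋₊ : ℝ) ∧ (⌊x⌋₊ : ℝ) ≤ x ∧ 1 ≤ ⌊x⌋₊ := by
  have h1 : 1 ≤ ⌊x⌋₊ := Nat.le_floor (by simpa using hx)
  have h1' : (1 : ℝ) ≤ (⌊x⌋₊ : ℝ) := by exact_mod_cast h1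
  have h2 := Nat.lt_floor_add_one x
  exact ⟨by linarith, Nat.floor_le (by linarith), h1⟩

theorem t_MAIN (hV : S_VL) (hO : S_OP) (hT : S_TEL) (hc : S_CTS) (hD : S_DIAG) (hC : S_COEF) (hZ : S_ZR)
    (hE : S_EUL) (hN : S_NS) : S_MAIN := by
  intro k s θ hk hs hθ
  obtain ⟨CD, hCD, hD⟩ := hD k
  obtain ⟨CN, hCN, hN⟩ := hN k
  obtain ⟨m₀, hE3⟩ := E3 hC hZ hE hk hθ.le
  set m : ℕ := m₀ + 8 * k + 1 with hm
  have hm1 : 1 ≤ m := by omega
  have hm0 : (0 : ℝ) < m := by exact_mod_cast hm1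
  obtain ⟨C3, X3, hC3, hE3⟩ := hE3 m (by omega) hm1
  set η : ℝ := 1 / m with hη
  have hη0 : 0 < η := by positivity
  have hη1 : η ≤ 1 := by
    rw [hη, div_le_one hm0]; exact_mod_cast hm1
  have hk0 : (0 : ℝ) < k := by exact_mod_cast hk
  have hkη : k * η ≤ 1 / 8 := by
    rw [hη, mul_one_div, div_le_div_iff₀ hm0 (by norm_num)]
    have : k * 8 ≤ 1 * m := by omega
    exact_mod_cast this
  set κ : ℝ := min (η / 2) (θ - 1) with hκ
  have hκ0 : 0 < κ := lt_min (by positivity) (by linarith)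
  have hκ1 : κ ≤ η / 2 := min_le_left _ _
  have hκ2 : κ ≤ θ - 1 := min_le_right _ _
  obtain ⟨C1, hC1, hE1⟩ := E1 hV hO hT hc hk hθ hη1 hκ0 hκ1 hκ2
  set δ : ℝ := κ / 8 with hδ
  have hδ0 : 0 < δ := by positivity
  have hc0 : 0 < c0 := by unfold c0; positivity
  -- large X
  have ev1 : ∀ᶠ X : ℝ in atTop, 3 * CD ≤ X ^ (3 / 8 - δ : ℝ) :=
    (tendsto_rpow_atTop (by linarith)).eventually_ge_atTop _
  have ev2 : ∀ᶠ X : ℝ in atTop, CN + 9 * C1 + 9 * c0 ^ 2 * C3 ≤ X ^ δ :=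
    (tendsto_rpow_atTop hδ0).eventually_ge_atTop _
  obtain ⟨X₀, hX₀⟩ := eventually_atTop.1 ((ev1.and ev2).and ((eventually_ge_atTop X3).and (eventually_ge_atTop 2)))
  refine ⟨δ, X₀, hδ0, ?_⟩
  intro X hX
  obtain ⟨⟨v1, v2⟩, v3, v4⟩ := hX₀ X hX
  have hX0 : 0 < X := by linarith
  have hX1 : 1 ≤ X := by linarith
  set A : ℝ := X ^ θ with hA
  have hXA : X ≤ A := by
    rw [hA]
    calc X = X ^ (1 : ℝ) := (Real.rpow_one X).symm
      _ ≤ X ^ θ := Real.rpow_le_rpow_of_exponent_le hX1 hθ.le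
  have hA1 : 1 ≤ A := by linarith
  set N : ℕ := ⌊X ^ η⌋₊ with hNd
  obtain ⟨f1, f2, f3⟩ := floor_half (Real.one_le_rpow hX1 hη0.le : 1 ≤ X ^ η)
  rw [← hNd] at f1 f2 f3
  have hN0 : (0 : ℝ) < N := by exact_mod_cast f3
  have hNX : (N : ℝ) ≤ X := by
    refine f2.trans ?_
    calc X ^ η ≤ X ^ (1 : ℝ) := Real.rpow_le_rpow_of_exponent_le hX1 hη1
      _ = X := Real.rpow_one X
  have g1 := hE1 s X N hs v4 f1 hNX f3
  have g3 := hE3 X N v3 v4 f1 f2 f3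
  -- the diagonal error
  have g2 : ∀ β : Fin k → ℝ, ‖(∑ q ∈ Q s X, ∏ j, PN s q N (β j)) - ((c0 * X : ℝ) : ℂ) * SN k N β‖ ≤
      X ^ (1 - δ) / 3 := by
    intro β
    refine (hD s X N β hs hX1 f3).trans ?_
    have h1 : (N : ℝ) ^ k ≤ X ^ (1 / 8 : ℝ) := by
      calc (N : ℝ) ^ k ≤ (X ^ η) ^ k := pow_le_pow_left₀ hN0.le f2 _
        _ = X ^ (k * η) := by rw [← Real.rpow_natCast, ← Real.rpow_mul hX0.le]; congr 1; ring
        _ ≤ X ^ (1 / 8 : ℝ) := Real.rpow_le_rpow_of_exponent_le hX1 hkη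
    have h2 : √X = X ^ (1 / 2 : ℝ) := Real.sqrt_eq_rpow X
    have h3 : X ^ (1 - δ) = X ^ (3 / 8 - δ : ℝ) * (X ^ (1 / 2 : ℝ) * X ^ (1 / 8 : ℝ)) := by
      rw [← Real.rpow_add hX0, ← Real.rpow_add hX0]; congr 1; ring
    rw [h2, h3, le_div_iff₀ (by norm_num)]
    calc CD * X ^ (1 / 2 : ℝ) * (N : ℝ) ^ k * 3 ≤ CD * X ^ (1 / 2 : ℝ) * X ^ (1 / 8 : ℝ) * 3 := by gcongr
      _ = 3 * CD * (X ^ (1 / 2 : ℝ) * X ^ (1 / 8 : ℝ)) := by ring
      _ ≤ X ^ (3 / 8 - δ : ℝ) * (X ^ (1 / 2 : ℝ) * X ^ (1 / 8 : ℝ)) := by gcongr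
  -- the three sets
  set D1 : (Fin k → ℝ) → ℂ := fun β => ∑ q ∈ Q s X, (∏ j, LL s q (pt (β j)) - ∏ j, PN s q N (β j)) with hD1
  set D3 : (Fin k → ℝ) → ℂ := fun β => SN k N β - MT (im β) with hD3
  have hXδ : 0 < X ^ (1 - δ) / 3 := by positivity
  have hlam3 : 0 < X ^ (-δ) / (3 * c0) := by positivity
  have hsub : {β : Fin k → ℝ | X ^ (1 - δ) < ‖(∑ q ∈ Q s X, ∏ j, LL s q (pt (β j))) - ((c0 * X : ℝ) : ℂ) * MT (im β)‖} ⊆
      (Gd k A)ᶜ ∪ ({β | X ^ (1 - δ) / 3 < ‖D1 β‖} ∪ ({β | X ^ (-δ) / (3 * c0) < ‖D3 β‖} ∩ Gd k A)) := by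
    intro β hβ
    by_contra hcon
    simp only [mem_union, mem_compl_iff, mem_inter_iff, not_or, not_and, not_not] at hcon
    obtain ⟨h1, h2, h3⟩ := hcon
    have h2' : ‖D1 β‖ ≤ X ^ (1 - δ) / 3 := not_lt.1 h2
    have h3' : ‖D3 β‖ ≤ X ^ (-δ) / (3 * c0) := by
      by_contra hh
      exact (h3 (not_le.1 hh)) h1
    have e : (∑ q ∈ Q s X, ∏ j, LL s q (pt (β j))) - ((c0 * X : ℝ) : ℂ) * MT (im β) =
        D1 β + ((∑ q ∈ Q s X, ∏ j, PN s q N (β j)) - ((c0 * X : ℝ) : ℂ) * SN k N β) +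
          ((c0 * X : ℝ) : ℂ) * D3 β := by
      simp only [hD1, hD3, Finset.sum_sub_distrib]
      ring
    have h4 : ‖((c0 * X : ℝ) : ℂ) * D3 β‖ ≤ X ^ (1 - δ) / 3 := by
      rw [norm_mul, Complex.norm_real, Real.norm_of_nonneg (by positivity)]
      calc c0 * X * ‖D3 β‖ ≤ c0 * X * (X ^ (-δ) / (3 * c0)) := by gcongr
        _ = X ^ (-δ) * X / 3 := by field_simp
        _ = X ^ (1 - δ) / 3 := by
            nth_rewrite 2 [← Real.rpow_one X]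
            rw [← Real.rpow_add hX0]; congr 2; ring
    have h5 : ‖(∑ q ∈ Q s X, ∏ j, LL s q (pt (β j))) - ((c0 * X : ℝ) : ℂ) * MT (im β)‖ ≤ X ^ (1 - δ) := by
      rw [e]
      refine (norm_add_le _ _).trans ?_
      have := norm_add_le (D1 β) ((∑ q ∈ Q s X, ∏ j, PN s q N (β j)) - ((c0 * X : ℝ) : ℂ) * SN k N β)
      linarith [g2 β]
    exact absurd h5 (not_le.2 hβ)
  refine (measure_mono hsub).trans ?_
  refine (measure_union_le _ _).trans ((add_le_add_right (measure_union_le _ _) _).trans ?_)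
  have m1 : mS k A (Gd k A)ᶜ ≤ ENNReal.ofReal (CN * X ^ (k * θ - 2 * δ)) := by
    refine (hN A hA1).trans (ENNReal.ofReal_le_ofReal ?_)
    apply mul_le_mul_of_nonneg_left _ hCN.le
    rw [hA, ← Real.rpow_mul hX0.le]
    apply Real.rpow_le_rpow_of_exponent_le hX1
    have : 4 * δ ≤ θ := by
      have : δ ≤ 1 / 16 := by rw [hδ]; linarith
      linarith
    nlinarith
  have m2 : mS k A {β | X ^ (1 - δ) / 3 < ‖D1 β‖} ≤ ENNReal.ofReal (9 * C1 * X ^ (k * θ - 2 * δ)) := by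
    refine (cheb (g := fun β => ‖D1 β‖) (D1_cont hc s X N).norm.aemeasurable hXδ g1).trans
      (ENNReal.ofReal_le_ofReal (le_of_eq ?_))
    have e1 : (X ^ (1 - δ) / 3) ^ 2 = X ^ (2 - 2 * δ) / 9 := by
      rw [div_pow, ← Real.rpow_natCast, ← Real.rpow_mul hX0.le]
      norm_num
      congr 1; ring
    rw [e1]
    have e2 : X ^ (k * θ + 2 - κ / 2) = X ^ (k * θ - 2 * δ) * X ^ (2 - 2 * δ) := by
      rw [← Real.rpow_add hX0]; congr 1; rw [hδ]; ring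
    rw [e2]
    have : 0 < X ^ (2 - 2 * δ) := by positivity
    field_simp
  have m3 : mS k A ({β | X ^ (-δ) / (3 * c0) < ‖D3 β‖} ∩ Gd k A) ≤
      ENNReal.ofReal (9 * c0 ^ 2 * C3 * X ^ (k * θ - 2 * δ)) := by
    rw [← Measure.restrict_apply' (Gd_meas k A)]
    have hmD : Measurable D3 := (meas_SN N).sub (meas_MT hE)
    refine (cheb (g := fun β => ‖D3 β‖) hmD.norm.aemeasurable hlam3 g3).trans
      (ENNReal.ofReal_le_ofReal ?_)
    have e1 : (X ^ (-δ) / (3 * c0)) ^ 2 = X ^ (-(2 * δ)) / (9 * c0 ^ 2) := by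
      rw [div_pow, ← Real.rpow_natCast, ← Real.rpow_mul hX0.le]
      norm_num
      rw [mul_pow]; norm_num
      congr 2; ring
    rw [e1]
    have e2 : X ^ (k * θ - 1 / (4 * m)) ≤ X ^ (k * θ - 2 * δ) * X ^ (-(2 * δ)) := by
      rw [← Real.rpow_add hX0]
      apply Real.rpow_le_rpow_of_exponent_le hX1
      have : 1 / (4 * m : ℝ) = η / 4 := by rw [hη]; field_simp
      rw [this, hδ]
      linarith
    have e3 : 0 < X ^ (-(2 * δ)) := by positivity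
    rw [div_le_iff₀ (by positivity)]
    calc C3 * X ^ (k * θ - 1 / (4 * m)) ≤ C3 * (X ^ (k * θ - 2 * δ) * X ^ (-(2 * δ))) := by gcongr
      _ = 9 * c0 ^ 2 * C3 * X ^ (k * θ - 2 * δ) * (X ^ (-(2 * δ)) / (9 * c0 ^ 2)) := by
          field_simp
  refine (add_le_add m1 (add_le_add m2 m3)).trans ?_
  rw [← ENNReal.ofReal_add (by positivity) (by positivity), ← ENNReal.ofReal_add (by positivity) (by positivity)]
  apply ENNReal.ofReal_le_ofReal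
  calc CN * X ^ (k * θ - 2 * δ) + (9 * C1 * X ^ (k * θ - 2 * δ) + 9 * c0 ^ 2 * C3 * X ^ (k * θ - 2 * δ))
      = (CN + 9 * C1 + 9 * c0 ^ 2 * C3) * X ^ (k * θ - 2 * δ) := by ring
    _ ≤ X ^ δ * X ^ (k * θ - 2 * δ) := by gcongr
    _ = X ^ (k * θ - δ) := by rw [← Real.rpow_add hX0]; congr 1; ring

end

end Pool.Agent.N879.QM
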