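import Pool.Agent.H27.G.R_pool_sql_team_seeded_63374d34.N879.QM.Asm3

set_option autoImplicit false

/-! Project QM: from the conductors to the characters, from the product measure to the volume. -/

namespace Pool.Agent.N879.QM

open Complex Filter Topology MeasureTheory Set

noncomputable section

variable {k : ℕ}

/-- the family in each conductor -/
def Fq (s : ℤ) (q : ℕ) : Set (DirichletCharacter ℂ q) := {χ | χ.IsPrimitive ∧ χ ^ 2 = 1 ∧ χ (-1) = (s : ℂ)}

/-- the `L`-function of a character -/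
def Lf {q : ℕ} (χ : DirichletCharacter ℂ q) (z : ℂ) : ℂ :=
  if h : q ≠ 0 then haveI : NeZero q := ⟨h⟩; DirichletCharacter.LFunction χ z else 0

lemma LL_eq_Lf (s : ℤ) (q : ℕ) (z : ℂ) : LL s q z = Lf (ch s q) z := rfl

lemma ne_one_of {q : ℕ} (hq : 2 ≤ q) {χ : DirichletCharacter ℂ q} (h : χ.IsPrimitive) : χ ≠ 1 := by
  intro h1
  rw [h1] at h
  have h2 : (1 : DirichletCharacter ℂ q).conductor = q := h
  have : NeZero q := ⟨by omega⟩
  rw [DirichletCharacter.conductor_one] at h2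
  omega

lemma ch_spec {s : ℤ} {q : ℕ} (h : Is s q) : Rp s (ch s q) := by
  unfold ch
  rw [dif_pos h]
  exact h.2.choose_spec

lemma Fq_eq (hU : S_UNI) {s : ℤ} {q : ℕ} (h : Is s q) : Fq s q = {ch s q} := by
  ext χ
  simp only [Fq, mem_setOf_eq, mem_singleton_iff]
  constructor
  · rintro ⟨h1, h2, h3⟩
    exact hU s q χ (ch s q) (by have := h.1; omega) ⟨h1, h2, ne_one_of h.1 h1, h3⟩ (ch_spec h)
  · rintro rfl
    exact ⟨(ch_spec h).1, (ch_spec h).2.1, (ch_spec h).2.2.2⟩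

lemma Fq_empty {s : ℤ} {q : ℕ} (hq : 2 ≤ q) (h : ¬ Is s q) : Fq s q = ∅ := by
  ext χ
  simp only [Fq, mem_setOf_eq, mem_empty_iff_false, iff_false]
  rintro ⟨h1, h2, h3⟩
  exact h ⟨hq, χ, h1, h2, ne_one_of hq h1, h3⟩

lemma mom_eq (hU : S_UNI) (s : ℤ) (X : ℝ) (α : Fin k → ℝ) :
    ∑ q ∈ Finset.Ico 2 ⌈X⌉₊, ∑ᶠ χ ∈ Fq s q, ∏ j, Lf χ (1 / 2 + I * (α j : ℂ)) =
      ∑ q ∈ Q s X, ∏ j, LL s q (pt (α j)) := by
  classical
  unfold Q
  rw [Finset.sum_filter]
  refine Finset.sum_congr rfl fun q hq => ?_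
  have hq2 : 2 ≤ q := (Finset.mem_Ico.1 hq).1
  split_ifs with h
  · rw [Fq_eq hU h, finsum_mem_singleton]
    rfl
  · rw [Fq_empty hq2 h, finsum_mem_empty]

lemma prod_Pr (f : Fin k → Fin k → ℂ) : ∏ r : Pr k, f r.1.1 r.1.2 = ∏ i, ∏ j ∈ Finset.Ici i, f i j := by
  classical
  rw [Finset.prod_sigma' Finset.univ (fun i : Fin k => Finset.Ici i) (fun i j => f i j)]
  refine Finset.prod_bij (fun (r : Pr k) _ => (⟨r.1.1, r.1.2⟩ : (i : Fin k) × Fin k)) ?_ ?_ ?_ ?_
  · intro r _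
    simp only [Finset.mem_sigma, Finset.mem_univ, true_and, Finset.mem_Ici]
    exact r.2
  · intro a _ b _ h
    simp only [Sigma.mk.injEq, heq_eq_eq] at h
    exact Subtype.ext (Prod.ext h.1 h.2)
  · rintro ⟨i, j⟩ h
    simp only [Finset.mem_sigma, Finset.mem_univ, true_and, Finset.mem_Ici] at h
    exact ⟨⟨(i, j), h⟩, Finset.mem_univ _, rfl⟩
  · intro r _
    rfl

lemma vol_mS {A : ℝ} {E : Set (Fin k → ℝ)} :
    volume {α : Fin k → ℝ | (∀ j, |α j| ≤ A) ∧ α ∈ E} = mS k A E := by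
  have h1 : mS k A = (volume : Measure (Fin k → ℝ)).restrict (Set.univ.pi fun _ => Icc (-A) A) := by
    unfold mS
    rw [volume_pi, Measure.restrict_pi_pi]
  have h2 : MeasurableSet (Set.univ.pi fun _ : Fin k => Icc (-A) A) :=
    MeasurableSet.univ_pi fun _ => measurableSet_Icc
  rw [h1, Measure.restrict_apply' h2]
  congr 1
  ext α
  simp only [mem_setOf_eq, mem_inter_iff, Set.mem_pi, mem_univ, true_implies, mem_Icc, abs_le]
  tauto

end

end Pool.Agent.N879.QM
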