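import Pool.Agent.H27.G.R_pool_sql_team_seeded_63374d34.N879.QM.Stm2
import Pool.Agent.H27.G.R_pool_sql_team_seeded_63374d34.N879.QM.Op

set_option autoImplicit false

/-!
Project QM (helper879), second theorem, MB (helper572, after VL of helper394 and OP): second moment on average over
the family.
-/

namespace Pool.Agent.N879.QM

open Complex Filter Topology MeasureTheory Set

noncomputable section

namespace Mbaux

lemma wq_nonneg (n : ℕ) : 0 ≤ wq n := by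
  unfold wq
  exact Finset.sum_nonneg fun m _ => Nat.cast_nonneg m

/-- sum of `wq` -/
lemma sum_wq (N : ℕ) : ∑ n ∈ Finset.Icc 1 N, wq n ≤ N * (1 + Real.log N) := by
  have h1 : ∀ n ∈ Finset.Icc 1 N, wq n ≤
      ∑ m ∈ Finset.Icc 1 N, if m ^ 2 ∣ n then (m : ℝ) else 0 := by
    intro n hn
    rw [Finset.mem_Icc] at hn
    unfold wq
    rw [← Finset.sum_filter]
    apply Finset.sum_le_sum_of_subset_of_nonneg
    · intro m hm
      rw [Finset.mem_filter, Finset.mem_Icc] at hm ⊢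
      exact ⟨⟨hm.1.1, hm.1.2.trans hn.2⟩, hm.2⟩
    · intro m _ _
      exact Nat.cast_nonneg m
  refine (Finset.sum_le_sum h1).trans ?_
  rw [Finset.sum_comm]
  have h2 : ∀ m ∈ Finset.Icc 1 N, (∑ n ∈ Finset.Icc 1 N, if m ^ 2 ∣ n then (m : ℝ) else 0) ≤
      N * (m : ℝ)⁻¹ := by
    intro m hm
    rw [Finset.mem_Icc] at hm
    have hm0 : (0 : ℝ) < m := by exact_mod_cast hm.1
    rw [← Finset.sum_filter, Finset.sum_const, nsmul_eq_mul]
    have h3 : ((Finset.Icc 1 N).filter fun n => m ^ 2 ∣ n).card = N / m ^ 2 := by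
      rw [← Nat.Ioc_filter_dvd_card_eq_div]
      rfl
    rw [h3]
    have h4 : ((N / m ^ 2 : ℕ) : ℝ) ≤ N / (m : ℝ) ^ 2 := by
      have := Nat.cast_div_le (α := ℝ) (m := N) (n := m ^ 2)
      push_cast at this
      exact this
    calc ((N / m ^ 2 : ℕ) : ℝ) * m ≤ N / (m : ℝ) ^ 2 * m := mul_le_mul_of_nonneg_right h4 hm0.le
      _ = N * (m : ℝ)⁻¹ := by field_simp
  refine (Finset.sum_le_sum h2).trans ?_
  rw [← Finset.mul_sum]
  apply mul_le_mul_of_nonneg_left _ (Nat.cast_nonneg _)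
  have h5 := harmonic_le_one_add_log N
  rw [harmonic_eq_sum_Icc] at h5
  push_cast at h5
  exact h5

lemma norm_term {n : ℕ} (hn : 0 < n) (α : ℝ) : ‖(n : ℂ) ^ (-(pt α))‖ ^ 2 = (n : ℝ)⁻¹ := by
  have hn0 : (0 : ℝ) < n := by exact_mod_cast hn
  rw [Complex.norm_natCast_cpow_of_pos hn]
  have hre : (-(pt α)).re = -(1 / 2) := by
    unfold pt
    simp
  rw [hre, ← Real.rpow_natCast, ← Real.rpow_mul hn0.le]
  have : (-(1 / 2 : ℝ)) * ((2 : ℕ) : ℝ) = -1 := by norm_num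
  rw [this, Real.rpow_neg_one]

lemma PN_one_le (s : ℤ) (q : ℕ) (α : ℝ) : ‖PN s q 1 α‖ ≤ 1 := by
  unfold PN
  rw [Finset.Icc_self, Finset.sum_singleton, Nat.cast_one, one_cpow, mul_one]
  unfold vl
  exact DirichletCharacter.norm_le_one _ _

/-- one short piece at one point -/
lemma short {e C1 : ℝ} (hC1 : 0 < C1)
    (h1 : ∀ (s : ℤ) (X : ℝ) (K : ℕ) (y : ℕ → ℂ), s = 1 ∨ s = -1 → 1 ≤ X → 1 ≤ K →
      ∑ q ∈ Q s X, ‖∑ n ∈ Finset.Icc 1 K, vl s q n * y n‖ ^ 2 ≤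
        C1 * (X * K) ^ e * (X + K) * ∑ n ∈ Finset.Icc 1 K, wq n * ‖y n‖ ^ 2)
    (he : 0 < e) (s : ℤ) (hs : s = 1 ∨ s = -1) {X : ℝ} (hX : 2 ≤ X) {K : ℕ} (hK : 1 ≤ K)
    (hKX : (K : ℝ) ≤ X) (α : ℝ) :
    ∑ q ∈ Q s X, ‖SK s q K α‖ ^ 2 ≤ C1 * (6 * (1 + 2 / e)) * X ^ (1 + 4 * e) := by
  classical
  have hX0 : 0 < X := by linarith
  have hK0 : (0 : ℝ) < K := by exact_mod_cast hK
  obtain ⟨y, hy⟩ : ∃ y : ℕ → ℂ, y = fun n => if K < n then (n : ℂ) ^ (-(pt α)) else 0 := ⟨_, rfl⟩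
  have hSK : ∀ q, SK s q K α = ∑ n ∈ Finset.Icc 1 (2 * K), vl s q n * y n := by
    intro q
    unfold SK
    have h2 : Finset.Ioc K (2 * K) = (Finset.Icc 1 (2 * K)).filter fun n => K < n := by
      ext n
      rw [Finset.mem_filter, Finset.mem_Icc, Finset.mem_Ioc]
      omega
    rw [h2, Finset.sum_filter]
    refine Finset.sum_congr rfl fun n _ => ?_
    rw [hy]
    simp only
    split_ifs <;> simp
  have h2 := h1 s X (2 * K) y hs (by linarith) (by omega)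
  simp only [← hSK] at h2
  refine h2.trans ?_
  -- the weights
  have h3 : ∑ n ∈ Finset.Icc 1 (2 * K), wq n * ‖y n‖ ^ 2 ≤ 2 * (1 + 2 * Real.log X) := by
    have h4 : ∀ n ∈ Finset.Icc 1 (2 * K), wq n * ‖y n‖ ^ 2 ≤ wq n * (K : ℝ)⁻¹ := by
      intro n hn
      apply mul_le_mul_of_nonneg_left _ (wq_nonneg n)
      rw [hy]
      simp only
      split_ifs with h5
      · rw [norm_term (by omega)]
        have h6 : (K : ℝ) ≤ n := by exact_mod_cast h5.le
        exact inv_anti₀ hK0 h6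
      · rw [norm_zero, zero_pow two_ne_zero]
        positivity
    refine (Finset.sum_le_sum h4).trans ?_
    rw [← Finset.sum_mul]
    have h5 := sum_wq (2 * K)
    have h6 : Real.log ((2 * K : ℕ) : ℝ) ≤ 2 * Real.log X := by
      have h7 : Real.log ((2 * K : ℕ) : ℝ) ≤ Real.log (X * X) := by
        apply Real.log_le_log
        · push_cast
          linarith
        · push_cast
          nlinarith
      rw [Real.log_mul hX0.ne' hX0.ne'] at h7
      linarith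
    have h7 : ((2 * K : ℕ) : ℝ) * (1 + Real.log ((2 * K : ℕ) : ℝ)) ≤
        (2 * K) * (1 + 2 * Real.log X) := by
      push_cast at h6 ⊢
      gcongr
    calc (∑ n ∈ Finset.Icc 1 (2 * K), wq n) * (K : ℝ)⁻¹
        ≤ ((2 * K) * (1 + 2 * Real.log X)) * (K : ℝ)⁻¹ :=
          mul_le_mul_of_nonneg_right (h5.trans h7) (by positivity)
      _ = 2 * (1 + 2 * Real.log X) := by field_simp
  have hlX : 0 ≤ Real.log X := Real.log_nonneg (by linarith)
  have h4 : Real.log X ≤ X ^ e / e := Real.log_le_rpow_div hX0.le he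
  have hXe : (1 : ℝ) ≤ X ^ e := Real.one_le_rpow (by linarith) he.le
  have h5 : 1 + 2 * Real.log X ≤ (1 + 2 / e) * X ^ e := by
    have : 2 * (X ^ e / e) = 2 / e * X ^ e := by ring
    nlinarith
  have h6 : (X * ((2 * K : ℕ) : ℝ)) ^ e ≤ X ^ (3 * e) := by
    have h7 : X * ((2 * K : ℕ) : ℝ) ≤ X ^ 3 := by
      push_cast
      have h8 : 2 * (K : ℝ) ≤ X * X := mul_le_mul hX hKX hK0.le (by linarith)
      nlinarith
    calc (X * ((2 * K : ℕ) : ℝ)) ^ e ≤ (X ^ 3) ^ e :=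
          Real.rpow_le_rpow (by positivity) h7 he.le
      _ = X ^ (3 * e) := by
          rw [← Real.rpow_natCast, ← Real.rpow_mul hX0.le]
          norm_num
  have h7 : X + ((2 * K : ℕ) : ℝ) ≤ 3 * X := by
    push_cast
    linarith
  have h8 : X ^ (1 + 4 * e) = X ^ (3 * e) * X * X ^ e := by
    have : X ^ (3 * e) * X * X ^ e = X ^ (3 * e) * X ^ (1 : ℝ) * X ^ e := by rw [Real.rpow_one]
    rw [this, ← Real.rpow_add hX0, ← Real.rpow_add hX0]
    congr 1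
    ring
  have h9 : 0 ≤ ∑ n ∈ Finset.Icc 1 (2 * K), wq n * ‖y n‖ ^ 2 :=
    Finset.sum_nonneg fun n _ => mul_nonneg (wq_nonneg n) (by positivity)
  calc C1 * (X * ((2 * K : ℕ) : ℝ)) ^ e * (X + ((2 * K : ℕ) : ℝ)) *
        ∑ n ∈ Finset.Icc 1 (2 * K), wq n * ‖y n‖ ^ 2
      ≤ C1 * X ^ (3 * e) * (3 * X) * (2 * ((1 + 2 / e) * X ^ e)) := by
        gcongr
        exact h3.trans (by linarith)
    _ = C1 * (6 * (1 + 2 / e)) * (X ^ (3 * e) * X * X ^ e) := by ring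
    _ = _ := by rw [h8]

end Mbaux

open Mbaux OPaux

/-- second moment on average over the family -/
theorem t_MB (h1 : S_HBG) (h2 : S_BIG1P) (h3 : S_AFS) (h4 : S_CTS) : S_MB := by
  intro ε hε
  obtain ⟨e, he⟩ : ∃ e : ℝ, e = ε / 6 := ⟨_, rfl⟩
  have he0 : 0 < e := by rw [he]; positivity
  obtain ⟨C1, hC1, h1⟩ := h1 e he0
  obtain ⟨C2, hC2, h2⟩ := h2
  obtain ⟨C3, hC3, h3⟩ := h3
  obtain ⟨C4, hC4⟩ : ∃ C4 : ℝ, C4 = 2 * (C1 * (6 * (1 + 2 / e))) + C2 * (1 + 1 / e ^ 2) := ⟨_, rfl⟩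
  have hC40 : 0 < C4 := by rw [hC4]; positivity
  refine ⟨3 * (2 * (C3 ^ 2 + 1) + (3 + 9 / e) ^ 2 * C4), by positivity, ?_⟩
  intro s X A hs hA hAX
  have hX : 2 ≤ X := hA.trans hAX
  have hX0 : 0 < X := by linarith
  have hX1 : 1 ≤ X := by linarith
  have hA0 : 0 < A := by linarith
  obtain ⟨J, hJ1, hJ2⟩ := pieces he0 hX
  have hcS : ∀ q i : ℕ, Continuous fun α : ℝ => ‖SK s q (2 ^ i) α‖ ^ 2 := fun q i =>
    ((SK_cont s q (2 ^ i)).norm).pow 2
  -- pieces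
  have hpiece : ∀ i : ℕ, ∑ q ∈ Q s X, ∫ α in (-A)..A, ‖SK s q (2 ^ i) α‖ ^ 2 ≤
      C4 * A * X ^ (1 + 4 * e) := by
    intro i
    rcases le_total ((2 ^ i : ℕ) : ℝ) X with hle | hle
    · rw [← intervalIntegral.integral_finsetSum fun q _ => (hcS q i).intervalIntegrable _ _]
      have h5 : ∫ α in (-A)..A, ∑ q ∈ Q s X, ‖SK s q (2 ^ i) α‖ ^ 2 ≤
          ∫ _α in (-A)..A, C1 * (6 * (1 + 2 / e)) * X ^ (1 + 4 * e) := by
        refine intervalIntegral.integral_mono_on (by linarith)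
          ((continuous_finsetSum _ fun q _ => hcS q i).intervalIntegrable _ _)
          (continuous_const.intervalIntegrable _ _) fun α _ => ?_
        exact short hC1 h1 he0 s hs hX Nat.one_le_two_pow hle α
      refine h5.trans ?_
      rw [intervalIntegral.integral_const, smul_eq_mul]
      have h6 : 0 ≤ C2 * (1 + 1 / e ^ 2) * A * X ^ (1 + 4 * e) := by positivity
      calc (A - -A) * (C1 * (6 * (1 + 2 / e)) * X ^ (1 + 4 * e))
          = 2 * (C1 * (6 * (1 + 2 / e))) * A * X ^ (1 + 4 * e) := by ring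
        _ ≤ 2 * (C1 * (6 * (1 + 2 / e))) * A * X ^ (1 + 4 * e) +
            C2 * (1 + 1 / e ^ 2) * A * X ^ (1 + 4 * e) := by linarith
        _ = _ := by rw [hC4]; ring
    · have h5 : ∀ q ∈ Q s X, ∫ α in (-A)..A, ‖SK s q (2 ^ i) α‖ ^ 2 ≤
          C2 * A * ((1 + 1 / e ^ 2) * X ^ (2 * e)) := by
        intro q hq
        obtain ⟨hI, hqX⟩ := Q_is hq
        have hqK : q ≤ 2 ^ i := by
          have : (q : ℝ) ≤ ((2 ^ i : ℕ) : ℝ) := hqX.le.trans hle
          exact_mod_cast this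
        have h6 := h2 s q A (2 ^ i) hI hA (hAX.trans hle) hqK
        refine h6.trans ?_
        apply mul_le_mul_of_nonneg_left _ (by positivity)
        have hq1 : (1 : ℝ) ≤ q := by
          have := hI.1
          exact_mod_cast (by omega : 1 ≤ q)
        have h7 : 0 ≤ Real.log q := Real.log_nonneg hq1
        have h8 : Real.log q ≤ X ^ e / e :=
          (Real.log_le_log (by linarith) hqX.le).trans (Real.log_le_rpow_div hX0.le he0)
        have h9 : Real.log q ^ 2 ≤ 1 / e ^ 2 * X ^ (2 * e) := by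
          calc Real.log q ^ 2 ≤ (X ^ e / e) ^ 2 := pow_le_pow_left₀ h7 h8 2
            _ = 1 / e ^ 2 * (X ^ e) ^ 2 := by rw [div_pow]; ring
            _ = 1 / e ^ 2 * X ^ (2 * e) := by
                rw [← Real.rpow_natCast (X ^ e), ← Real.rpow_mul hX0.le]
                congr 2
                push_cast
                ring
        have h10 : (1 : ℝ) ≤ X ^ (2 * e) := Real.one_le_rpow hX1 (by positivity)
        nlinarith
      refine (Finset.sum_le_sum h5).trans ?_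
      rw [Finset.sum_const, nsmul_eq_mul]
      have h6 : X * X ^ (2 * e) ≤ X ^ (1 + 4 * e) := by
        calc X * X ^ (2 * e) = X ^ (1 + 2 * e) := by rw [Real.rpow_add hX0, Real.rpow_one]
          _ ≤ X ^ (1 + 4 * e) := Real.rpow_le_rpow_of_exponent_le hX1 (by linarith)
      have h7 : 0 ≤ 2 * (C1 * (6 * (1 + 2 / e))) * A * X ^ (1 + 4 * e) := by positivity
      calc ((Q s X).card : ℝ) * (C2 * A * ((1 + 1 / e ^ 2) * X ^ (2 * e)))
          ≤ X * (C2 * A * ((1 + 1 / e ^ 2) * X ^ (2 * e))) :=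
            mul_le_mul_of_nonneg_right (Q_card hX1) (by positivity)
        _ = C2 * (1 + 1 / e ^ 2) * A * (X * X ^ (2 * e)) := by ring
        _ ≤ C2 * (1 + 1 / e ^ 2) * A * X ^ (1 + 4 * e) := by gcongr
        _ ≤ 2 * (C1 * (6 * (1 + 2 / e))) * A * X ^ (1 + 4 * e) +
            C2 * (1 + 1 / e ^ 2) * A * X ^ (1 + 4 * e) := by linarith
        _ = _ := by rw [hC4]; ring
  -- the error
  have hE : ∀ q ∈ Q s X, ∀ α ∈ Icc (-A) A, ‖LL s q (pt α) - PN s q (2 ^ J) α‖ ≤ C3 := by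
    intro q hq α hα
    obtain ⟨hI, hqX⟩ := Q_is hq
    have h5 := h3 s q (2 ^ J) α hI Nat.one_le_two_pow
    have h6 : |α| ≤ X := (abs_le.2 hα).trans hAX
    have h7 : X ^ 3 ≤ √((2 ^ J : ℕ) : ℝ) := by
      apply Real.le_sqrt_of_sq_le
      rw [← pow_mul]
      push_cast
      exact hJ1
    refine h5.trans ?_
    rw [div_le_iff₀ (lt_of_lt_of_le (by positivity) h7)]
    calc C3 * q * (1 + |α|) ≤ C3 * X * (1 + X) := by gcongr
      _ = C3 * (X * (1 + X)) := by ring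
      _ ≤ C3 * X ^ 3 := by
          refine mul_le_mul_of_nonneg_left ?_ hC3.le
          nlinarith [sq_nonneg (X - 2), mul_pos hX0 hX0]
      _ ≤ C3 * √((2 ^ J : ℕ) : ℝ) := mul_le_mul_of_nonneg_left h7 hC3.le
  -- pointwise
  have hpt : ∀ q ∈ Q s X, ∀ α ∈ Icc (-A) A, ‖LL s q (pt α)‖ ^ 2 ≤
      3 * (C3 ^ 2 + 1 + J * ∑ i ∈ Finset.range J, ‖SK s q (2 ^ i) α‖ ^ 2) := by
    intro q hq α hα
    have h5 := hE q hq α hα
    have h6 := PN_one_le s q α
    obtain ⟨x, hx⟩ : ∃ x, x = ‖LL s q (pt α) - PN s q (2 ^ J) α‖ := ⟨_, rfl⟩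
    obtain ⟨y, hy⟩ : ∃ y, y = ‖PN s q 1 α‖ := ⟨_, rfl⟩
    obtain ⟨z, hz⟩ : ∃ z, z = ∑ i ∈ Finset.range J, ‖SK s q (2 ^ i) α‖ := ⟨_, rfl⟩
    have hx0 : 0 ≤ x := by rw [hx]; exact norm_nonneg _
    have hy0 : 0 ≤ y := by rw [hy]; exact norm_nonneg _
    have hz0 : 0 ≤ z := by rw [hz]; exact Finset.sum_nonneg fun i _ => norm_nonneg _
    have hdy : PN s q (2 ^ J) α = PN s q 1 α + ∑ i ∈ Finset.range J, SK s q (2 ^ i) α := by
      have h7 := PN_dyadic s q 1 α J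
      simp only [one_mul] at h7
      exact h7
    have h7 : ‖LL s q (pt α)‖ ≤ x + y + z := by
      calc ‖LL s q (pt α)‖ = ‖(LL s q (pt α) - PN s q (2 ^ J) α) + PN s q 1 α +
            ∑ i ∈ Finset.range J, SK s q (2 ^ i) α‖ := by
            congr 1
            rw [hdy]
            ring
        _ ≤ ‖LL s q (pt α) - PN s q (2 ^ J) α‖ + ‖PN s q 1 α‖ +
            ‖∑ i ∈ Finset.range J, SK s q (2 ^ i) α‖ := norm_add₃_le
        _ ≤ _ := by
            rw [← hx, ← hy, hz]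
            exact add_le_add_right (norm_sum_le _ _) _
    have h8 : z ^ 2 ≤ J * ∑ i ∈ Finset.range J, ‖SK s q (2 ^ i) α‖ ^ 2 := by
      have h9 := sq_sum_le_card_mul_sum_sq (s := Finset.range J)
        (f := fun i => ‖SK s q (2 ^ i) α‖)
      rw [Finset.card_range] at h9
      rw [hz]
      exact h9
    rw [← hx] at h5
    rw [← hy] at h6
    have h10 : x ^ 2 ≤ C3 ^ 2 := pow_le_pow_left₀ hx0 h5 2
    have h11 : y ^ 2 ≤ 1 := by nlinarith
    calc ‖LL s q (pt α)‖ ^ 2 ≤ (x + y + z) ^ 2 := pow_le_pow_left₀ (norm_nonneg _) h7 2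
      _ ≤ 3 * (x ^ 2 + y ^ 2 + z ^ 2) := by
          nlinarith [sq_nonneg (x - y), sq_nonneg (y - z), sq_nonneg (x - z)]
      _ ≤ _ := by linarith
  -- one character
  have hone : ∀ q ∈ Q s X, ∫ α in (-A)..A, ‖LL s q (pt α)‖ ^ 2 ≤ 3 * (2 * A * (C3 ^ 2 + 1) +
      J * ∑ i ∈ Finset.range J, ∫ α in (-A)..A, ‖SK s q (2 ^ i) α‖ ^ 2) := by
    intro q hq
    have hcL : Continuous fun α : ℝ => ‖LL s q (pt α)‖ ^ 2 := ((h4 s q (Q_is hq).1).norm).pow 2
    have hcSum : Continuous fun α : ℝ => ∑ i ∈ Finset.range J, ‖SK s q (2 ^ i) α‖ ^ 2 :=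
      continuous_finsetSum _ fun i _ => hcS q i
    have h5 : ∫ α in (-A)..A, ‖LL s q (pt α)‖ ^ 2 ≤ ∫ α in (-A)..A,
        3 * (C3 ^ 2 + 1 + J * ∑ i ∈ Finset.range J, ‖SK s q (2 ^ i) α‖ ^ 2) :=
      intervalIntegral.integral_mono_on (by linarith) (hcL.intervalIntegrable _ _)
        (Continuous.intervalIntegrable (by fun_prop) _ _) (hpt q hq)
    have h6 : ∫ α in (-A)..A, 3 * (C3 ^ 2 + 1 + J * ∑ i ∈ Finset.range J, ‖SK s q (2 ^ i) α‖ ^ 2) =
        3 * (2 * A * (C3 ^ 2 + 1) +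
          J * ∑ i ∈ Finset.range J, ∫ α in (-A)..A, ‖SK s q (2 ^ i) α‖ ^ 2) := by
      rw [intervalIntegral.integral_const_mul, intervalIntegral.integral_add
        (Continuous.intervalIntegrable (by fun_prop) _ _)
        (Continuous.intervalIntegrable (by fun_prop) _ _), intervalIntegral.integral_const,
        intervalIntegral.integral_const_mul, intervalIntegral.integral_finsetSum
          (fun i _ => (hcS q i).intervalIntegrable _ _), smul_eq_mul]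
      ring
    rw [← h6]
    exact h5
  -- the sum
  have hsum : ∑ q ∈ Q s X, ∑ i ∈ Finset.range J, ∫ α in (-A)..A, ‖SK s q (2 ^ i) α‖ ^ 2 ≤
      J * (C4 * A * X ^ (1 + 4 * e)) := by
    rw [Finset.sum_comm]
    refine (Finset.sum_le_sum fun i _ => hpiece i).trans (le_of_eq ?_)
    rw [Finset.sum_const, Finset.card_range, nsmul_eq_mul]
  have hfin : ∑ q ∈ Q s X, ∫ α in (-A)..A, ‖LL s q (pt α)‖ ^ 2 ≤
      3 * (X * (2 * A * (C3 ^ 2 + 1)) + J * (J * (C4 * A * X ^ (1 + 4 * e)))) := by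
    refine (Finset.sum_le_sum hone).trans ?_
    rw [← Finset.mul_sum, Finset.sum_add_distrib, Finset.sum_const, nsmul_eq_mul,
      ← Finset.mul_sum]
    have h5 : ((Q s X).card : ℝ) * (2 * A * (C3 ^ 2 + 1)) ≤ X * (2 * A * (C3 ^ 2 + 1)) :=
      mul_le_mul_of_nonneg_right (Q_card hX1) (by positivity)
    have h6 := mul_le_mul_of_nonneg_left hsum (Nat.cast_nonneg (α := ℝ) J)
    linarith
  have hJJ : (J : ℝ) * J ≤ (3 + 9 / e) ^ 2 * X ^ (2 * e) := by
    have hJ0 : (0 : ℝ) ≤ J := Nat.cast_nonneg _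
    calc (J : ℝ) * J ≤ ((J : ℝ) + 2) ^ 2 := by nlinarith
      _ ≤ ((3 + 9 / e) * X ^ e) ^ 2 := pow_le_pow_left₀ (by positivity) hJ2 2
      _ = (3 + 9 / e) ^ 2 * (X ^ e) ^ 2 := mul_pow _ _ _
      _ = _ := by
          rw [← Real.rpow_natCast (X ^ e), ← Real.rpow_mul hX0.le]
          congr 2
          push_cast
          ring
  have hXX : X ≤ X ^ (1 + ε) := by
    calc X = X ^ (1 : ℝ) := (Real.rpow_one X).symm
      _ ≤ _ := Real.rpow_le_rpow_of_exponent_le hX1 (by linarith)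
  have hXe : X ^ (2 * e) * X ^ (1 + 4 * e) = X ^ (1 + ε) := by
    rw [← Real.rpow_add hX0]
    congr 1
    rw [he]
    ring
  refine hfin.trans ?_
  have h5 : (J : ℝ) * (J * (C4 * A * X ^ (1 + 4 * e))) ≤
      (3 + 9 / e) ^ 2 * C4 * A * X ^ (1 + ε) := by
    calc (J : ℝ) * (J * (C4 * A * X ^ (1 + 4 * e))) = (J * J) * (C4 * A * X ^ (1 + 4 * e)) := by ring
      _ ≤ ((3 + 9 / e) ^ 2 * X ^ (2 * e)) * (C4 * A * X ^ (1 + 4 * e)) :=
          mul_le_mul_of_nonneg_right hJJ (by positivity)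
      _ = (3 + 9 / e) ^ 2 * C4 * A * (X ^ (2 * e) * X ^ (1 + 4 * e)) := by ring
      _ = _ := by rw [hXe]
  have h6 : X * (2 * A * (C3 ^ 2 + 1)) ≤ X ^ (1 + ε) * (2 * A * (C3 ^ 2 + 1)) :=
    mul_le_mul_of_nonneg_right hXX (by positivity)
  calc 3 * (X * (2 * A * (C3 ^ 2 + 1)) + J * (J * (C4 * A * X ^ (1 + 4 * e))))
      ≤ 3 * (X ^ (1 + ε) * (2 * A * (C3 ^ 2 + 1)) + (3 + 9 / e) ^ 2 * C4 * A * X ^ (1 + ε)) := by
        linarith
    _ = _ := by ring

end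

end Pool.Agent.N879.QM
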